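import Mathlib

/-!
Guessable and strongly guessable functions over a semiring: definitions, an abstract criterion,
and the concrete semiring of subsets of a small monoid.
-/

namespace Pool.Agent.V1155.Guess

open scoped Pointwise

/-- `f` is computed by a finite weighted automaton over `S`: there are `k` states, an initial row
`i`, a final column `t` and one matrix for each letter. -/
def Automatic {S A : Type} [Semiring S] (f : List A → S) : Prop :=
  ∃ (k : ℕ) (i : Fin k → S) (M : A → Matrix (Fin k) (Fin k) S) (t : Fin k → S),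
    ∀ w : List A, f w = i ⬝ᵥ ((w.map M).prod.mulVec t)

/-- The set `Λ_{Q,T}` (scalars on the left). -/
def Lam {S A : Type} [Semiring S] (f : List A → S) (Q : Finset (List A)) (T : Set (List A)) :
    Set ((Q → S) × (Q → A → Q → S)) :=
  {p | (∀ w ∈ T, f w = ∑ q : Q, p.1 q * f (q.1 ++ w)) ∧
    ∀ (q : Q) (a : A), ∀ w ∈ T, f (q.1 ++ a :: w) = ∑ r : Q, p.2 q a r * f (r.1 ++ w)}

/-- The set `Γ_{Q,T}` (scalars on the right). -/
def Gam {S A : Type} [Semiring S] (f : List A → S) (Q : Set (List A)) (T : Finset (List A)) :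
    Set ((T → S) × (T → A → T → S)) :=
  {p | (∀ w ∈ Q, f w = ∑ t : T, f (w ++ t.1) * p.1 t) ∧
    ∀ (t : T) (a : A), ∀ w ∈ Q, f (w ++ a :: t.1) = ∑ s : T, f (w ++ s.1) * p.2 s a t}

/-- guessable -/
def Guessable {S A : Type} [Semiring S] (f : List A → S) : Prop :=
  ∃ (Q : Finset (List A)) (T : Finset (List A)), Q.Nonempty ∧ (Lam f Q T).Nonempty ∧
    Lam f Q T = Lam f Q Set.univ

/-- strongly guessable -/
def StronglyGuessable {S A : Type} [Semiring S] (f : List A → S) : Prop :=
  Guessable f ∧ ∀ Q : Finset (List A), Q.Nonempty →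
    ∃ T : Finset (List A), Lam f Q T = Lam f Q Set.univ

/-- co-guessable -/
def CoGuessable {S A : Type} [Semiring S] (f : List A → S) : Prop :=
  ∃ (T : Finset (List A)) (Q : Finset (List A)), T.Nonempty ∧ (Gam f Q T).Nonempty ∧
    Gam f Q T = Gam f Set.univ T

/-- strongly co-guessable -/
def StronglyCoGuessable {S A : Type} [Semiring S] (f : List A → S) : Prop :=
  CoGuessable f ∧ ∀ T : Finset (List A), T.Nonempty →
    ∃ Q : Finset (List A), Gam f Q T = Gam f Set.univ T

theorem prod_map_unit {S : Type} [Semiring S] (a : S) (w : List Unit) :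
    (w.map (fun _ => (Matrix.of (fun _ _ => a) : Matrix (Fin 1) (Fin 1) S))).prod
      = Matrix.of fun _ _ => a ^ w.length := by
  induction w with
  | nil =>
    refine Matrix.ext fun i j => ?_
    have : i = j := Subsingleton.elim _ _
    subst this
    simp
  | cons u w ih =>
    rw [List.map_cons, List.prod_cons, ih]
    refine Matrix.ext fun i j => ?_
    rw [Matrix.mul_apply, Fin.sum_univ_one, List.length_cons, pow_succ']
    rfl

theorem sum_eps {S A : Type} [Semiring S] {Q : Finset (List A)} (h : [] ∈ Q) (g : Q → S)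
    (hg : ∀ q : Q, q.1 ≠ [] → g q = 0) : ∑ q : Q, g q = g ⟨[], h⟩ :=
  Fintype.sum_eq_single ⟨[], h⟩ fun q hq => hg q fun h0 => hq (Subtype.ext h0)

section left

variable {S : Type} [Semiring S]

/-- the left criterion -/
theorem core_left (a : S) (x ν : ℕ → S) (h0 : ∀ l, l * x 0 = x 0 → ∀ n, l * x n = x n)
    (h1 : ∀ l, l * x 0 = x 1 → ∀ n, l * x n = x (n + 1)) (ha : ∀ n, a * x n = x (n + 1))
    (hν : ∀ N n, n < N → ν N * x n = x (n + 2)) (hν' : ∀ N, ν N * x N ≠ x (N + 2)) :
    Automatic (fun w : List Unit => x w.length) ∧ Guessable (fun w : List Unit => x w.length) ∧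
      ¬ StronglyGuessable (fun w : List Unit => x w.length) := by
  have hpow : ∀ n, a ^ n * x 0 = x n := by
    intro n
    induction n with
    | zero => simp
    | succ n ih => rw [pow_succ', mul_assoc, ih, ha]
  refine ⟨?_, ?_, ?_⟩
  · refine ⟨1, fun _ => 1, fun _ => Matrix.of fun _ _ => a, fun _ => x 0, fun w => ?_⟩
    rw [prod_map_unit]
    simp [dotProduct, Matrix.mulVec, hpow]
  · have hmem : ([] : List Unit) ∈ ({[]} : Finset (List Unit)) := by simp
    have hne : ∀ q : ({[]} : Finset (List Unit)), q.1 = [] := fun q =>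
      Finset.mem_singleton.mp q.2
    have key : ∀ p : (({[]} : Finset (List Unit)) → S) ×
        (({[]} : Finset (List Unit)) → Unit → ({[]} : Finset (List Unit)) → S), ∀ T : Set (List Unit),
        p ∈ Lam (fun w : List Unit => x w.length) {[]} T ↔
          (∀ w ∈ T, x w.length = p.1 ⟨[], hmem⟩ * x w.length) ∧
          (∀ w ∈ T, x (w.length + 1) = p.2 ⟨[], hmem⟩ () ⟨[], hmem⟩ * x w.length) := by
      intro p T
      unfold Lam
      rw [Set.mem_ofPred_eq]
      refine and_congr ?_ ?_
      · refine forall_congr' fun w => forall_congr' fun _ => ?_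
        rw [sum_eps hmem _ (fun q hq => absurd (hne q) hq)]
        simp
      · constructor
        · intro h w hw
          have := h ⟨[], hmem⟩ () w hw
          rw [sum_eps hmem _ (fun q hq => absurd (hne q) hq)] at this
          simpa using this
        · intro h q u w hw
          have hq : q = ⟨[], hmem⟩ := Subtype.ext (hne q)
          subst hq
          rw [sum_eps hmem _ (fun q hq => absurd (hne q) hq)]
          simpa using h w hw
    refine ⟨{[]}, {[]}, by simp, ⟨(fun _ => 1, fun _ _ _ => a), ?_⟩, ?_⟩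
    · rw [key]
      exact ⟨fun w _ => (one_mul _).symm, fun w _ => (ha _).symm⟩
    · ext p
      rw [key, key]
      constructor
      · rintro ⟨h2, h3⟩
        have h4 := h2 [] (by simp)
        have h5 := h3 [] (by simp)
        simp only [List.length_nil, zero_add] at h4 h5
        exact ⟨fun w _ => (h0 _ h4.symm _).symm, fun w _ => (h1 _ h5.symm _).symm⟩
      · rintro ⟨h2, h3⟩
        exact ⟨fun w _ => h2 w (Set.mem_univ _), fun w _ => h3 w (Set.mem_univ _)⟩
  · rintro ⟨-, hs⟩
    obtain ⟨Q, hQ⟩ : ∃ Q : Finset (List Unit), Q = {[], [()]} := ⟨_, rfl⟩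
    have hmem : ([] : List Unit) ∈ Q := by rw [hQ]; simp
    have hmem2 : ([()] : List Unit) ∈ Q := by rw [hQ]; simp
    have hor' : ∀ q ∈ Q, q = [] ∨ q = [()] := fun q hq => by
      rw [hQ] at hq
      simpa using hq
    have hor : ∀ q : Q, q.1 = [] ∨ q.1 = [()] := fun q => hor' q.1 q.2
    obtain ⟨T, hT⟩ := hs Q ⟨[], hmem⟩
    obtain ⟨N, hN⟩ : ∃ N, ∀ w ∈ T, w.length < N :=
      ⟨T.sup List.length + 1, fun w hw => Nat.lt_succ_of_le (Finset.le_sup (f := List.length) hw)⟩
    obtain ⟨p, hp⟩ : ∃ p : (Q → S) × (Q → Unit → Q → S),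
        p = (fun q => if q.1 = [] then 1 else 0,
          fun q _ r => if r.1 = [] then (if q.1 = [] then a else ν N) else 0) := ⟨_, rfl⟩
    have hpT : p ∈ Lam (fun w : List Unit => x w.length) Q T := by
      refine ⟨fun w hw => ?_, fun q u w hw => ?_⟩
      · rw [sum_eps hmem _ (fun q hq => by rw [hp]; simp [hq])]
        rw [hp]; simp
      · rw [sum_eps hmem _ (fun q hq => by rw [hp]; simp [hq])]
        rcases hor q with hq | hq
        · rw [hp]; simp [hq, ha]
        · rw [hp]
          simp only [hq, List.cons_ne_nil, if_true, if_false, List.nil_append, List.length_append,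
            List.length_cons, List.length_nil]
          rw [hν N _ (hN w hw)]
          congr 1; omega
    rw [hT] at hpT
    have h6 := hpT.2 ⟨[()], hmem2⟩ () (List.replicate N ()) (Set.mem_univ _)
    rw [sum_eps hmem _ (fun q hq => by rw [hp]; simp [hq])] at h6
    rw [hp] at h6
    simp only [List.cons_ne_nil, if_true, if_false, List.nil_append, List.length_append,
            List.length_cons, List.length_nil, List.length_replicate] at h6
    apply hν' N
    rw [← h6]
    congr 1; omega

/-- the right criterion -/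
theorem core_right (a : S) (x ν : ℕ → S) (h0 : ∀ l, x 0 * l = x 0 → ∀ n, x n * l = x n)
    (h1 : ∀ l, x 0 * l = x 1 → ∀ n, x n * l = x (n + 1)) (ha : ∀ n, x n * a = x (n + 1))
    (hν : ∀ N n, n < N → x n * ν N = x (n + 2)) (hν' : ∀ N, x N * ν N ≠ x (N + 2)) :
    Automatic (fun w : List Unit => x w.length) ∧ CoGuessable (fun w : List Unit => x w.length) ∧
      ¬ StronglyCoGuessable (fun w : List Unit => x w.length) := by
  have hpow : ∀ n, x 0 * a ^ n = x n := by
    intro n
    induction n with
    | zero => simp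
    | succ n ih => rw [pow_succ, ← mul_assoc, ih, ha]
  refine ⟨?_, ?_, ?_⟩
  · refine ⟨1, fun _ => x 0, fun _ => Matrix.of fun _ _ => a, fun _ => 1, fun w => ?_⟩
    rw [prod_map_unit]
    simp [dotProduct, Matrix.mulVec, hpow]
  · have hmem : ([] : List Unit) ∈ ({[]} : Finset (List Unit)) := by simp
    have hne : ∀ q : ({[]} : Finset (List Unit)), q.1 = [] := fun q =>
      Finset.mem_singleton.mp q.2
    have key : ∀ p : (({[]} : Finset (List Unit)) → S) ×
        (({[]} : Finset (List Unit)) → Unit → ({[]} : Finset (List Unit)) → S), ∀ T : Set (List Unit),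
        p ∈ Gam (fun w : List Unit => x w.length) T {[]} ↔
          (∀ w ∈ T, x w.length = x w.length * p.1 ⟨[], hmem⟩) ∧
          (∀ w ∈ T, x (w.length + 1) = x w.length * p.2 ⟨[], hmem⟩ () ⟨[], hmem⟩) := by
      intro p T
      unfold Gam
      rw [Set.mem_ofPred_eq]
      refine and_congr ?_ ?_
      · refine forall_congr' fun w => forall_congr' fun _ => ?_
        rw [sum_eps hmem _ (fun q hq => absurd (hne q) hq)]
        simp
      · constructor
        · intro h w hw
          have := h ⟨[], hmem⟩ () w hw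
          rw [sum_eps hmem _ (fun q hq => absurd (hne q) hq)] at this
          simpa using this
        · intro h q u w hw
          have hq : q = ⟨[], hmem⟩ := Subtype.ext (hne q)
          subst hq
          rw [sum_eps hmem _ (fun q hq => absurd (hne q) hq)]
          simpa using h w hw
    refine ⟨{[]}, {[]}, by simp, ⟨(fun _ => 1, fun _ _ _ => a), ?_⟩, ?_⟩
    · rw [key]
      exact ⟨fun w _ => (mul_one _).symm, fun w _ => (ha _).symm⟩
    · ext p
      rw [key, key]
      constructor
      · rintro ⟨h2, h3⟩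
        have h4 := h2 [] (by simp)
        have h5 := h3 [] (by simp)
        simp only [List.length_nil, zero_add] at h4 h5
        exact ⟨fun w _ => (h0 _ h4.symm _).symm, fun w _ => (h1 _ h5.symm _).symm⟩
      · rintro ⟨h2, h3⟩
        exact ⟨fun w _ => h2 w (Set.mem_univ _), fun w _ => h3 w (Set.mem_univ _)⟩
  · rintro ⟨-, hs⟩
    obtain ⟨Q, hQ⟩ : ∃ Q : Finset (List Unit), Q = {[], [()]} := ⟨_, rfl⟩
    have hmem : ([] : List Unit) ∈ Q := by rw [hQ]; simp
    have hmem2 : ([()] : List Unit) ∈ Q := by rw [hQ]; simp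
    have hor' : ∀ q ∈ Q, q = [] ∨ q = [()] := fun q hq => by
      rw [hQ] at hq
      simpa using hq
    have hor : ∀ q : Q, q.1 = [] ∨ q.1 = [()] := fun q => hor' q.1 q.2
    obtain ⟨T, hT⟩ := hs Q ⟨[], hmem⟩
    obtain ⟨N, hN⟩ : ∃ N, ∀ w ∈ T, w.length < N :=
      ⟨T.sup List.length + 1, fun w hw => Nat.lt_succ_of_le (Finset.le_sup (f := List.length) hw)⟩
    obtain ⟨p, hp⟩ : ∃ p : (Q → S) × (Q → Unit → Q → S),
        p = (fun q => if q.1 = [] then 1 else 0,
          fun r _ q => if r.1 = [] then (if q.1 = [] then a else ν N) else 0) := ⟨_, rfl⟩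
    have hpT : p ∈ Gam (fun w : List Unit => x w.length) T Q := by
      refine ⟨fun w hw => ?_, fun q u w hw => ?_⟩
      · rw [sum_eps hmem _ (fun q hq => by rw [hp]; simp [hq])]
        rw [hp]; simp
      · rw [sum_eps hmem _ (fun q hq => by rw [hp]; simp [hq])]
        rcases hor q with hq | hq
        · rw [hp]; simp [hq, ha]
        · rw [hp]
          simp only [hq, List.cons_ne_nil, if_true, if_false, List.append_nil, List.length_append,
            List.length_cons, List.length_nil]
          rw [hν N _ (hN w hw)]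
    rw [hT] at hpT
    have h6 := hpT.2 ⟨[()], hmem2⟩ () (List.replicate N ()) (Set.mem_univ _)
    rw [sum_eps hmem _ (fun q hq => by rw [hp]; simp [hq])] at h6
    rw [hp] at h6
    simp only [List.cons_ne_nil, if_true, if_false, List.append_nil, List.length_append,
            List.length_cons, List.length_nil, List.length_replicate] at h6
    apply hν' N
    rw [← h6]

end left

/-- The monoid: maps of the naturals that are the identity, the successor, or raise every number by
at least two; points; and a zero. -/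
inductive Mo : Type
  | fn (g : ℕ → ℕ) (hg : g = id ∨ g = Nat.succ ∨ ∀ n, n + 2 ≤ g n) : Mo
  | pt (k : ℕ) : Mo
  | zr : Mo

theorem comp_ok {g h : ℕ → ℕ} (hg : g = id ∨ g = Nat.succ ∨ ∀ n, n + 2 ≤ g n)
    (hh : h = id ∨ h = Nat.succ ∨ ∀ n, n + 2 ≤ h n) :
    (g ∘ h) = id ∨ (g ∘ h) = Nat.succ ∨ ∀ n, n + 2 ≤ (g ∘ h) n := by
  have hg1 : ∀ n, n ≤ g n := by
    intro n
    rcases hg with rfl | rfl | h'
    · exact le_rfl
    · exact Nat.le_succ n
    · exact (Nat.le_add_right n 2).trans (h' n)
  rcases hh with rfl | rfl | hh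
  · exact hg
  · rcases hg with rfl | rfl | hg
    · exact Or.inr (Or.inl rfl)
    · exact Or.inr (Or.inr fun n => le_rfl)
    · exact Or.inr (Or.inr fun n => (by have := hg (Nat.succ n); simp only [Function.comp]; omega))
  · exact Or.inr (Or.inr fun n => (hh n).trans (hg1 _))

/-- multiplication -/
def Mo.mul : Mo → Mo → Mo
  | .fn g hg, .fn h hh => .fn (g ∘ h) (comp_ok hg hh)
  | .fn g _, .pt k => .pt (g k)
  | .fn _ _, .zr => .zr
  | .pt k, .fn _ _ => .pt k
  | .pt _, .pt _ => .zr
  | .pt _, .zr => .zr
  | .zr, _ => .zr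

instance : Monoid Mo where
  mul := Mo.mul
  one := .fn id (Or.inl rfl)
  mul_assoc a b c := by
    cases a <;> cases b <;> cases c <;> rfl
  one_mul a := by cases a <;> rfl
  mul_one a := by cases a <;> rfl

theorem Mo.mul_def (a b : Mo) : a * b = Mo.mul a b := rfl

theorem Mo.one_def : (1 : Mo) = .fn id (Or.inl rfl) := rfl

/-- the function raising numbers below `N` by two and the others by three -/
def nuF (N : ℕ) (n : ℕ) : ℕ := if n < N then n + 2 else n + 3

theorem nuF_ok (N : ℕ) : ∀ n, n + 2 ≤ nuF N n := by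
  intro n
  unfold nuF
  split_ifs <;> omega

/-- the successor -/
def mA : Mo := .fn Nat.succ (Or.inr (Or.inl rfl))

theorem eq_one_of {m : Mo} (h : m * .pt 0 = .pt 0) : m = 1 := by
  cases m with
  | fn g hg =>
    have h1 : g 0 = 0 := by
      have h2 : Mo.pt (g 0) = Mo.pt 0 := h
      injection h2
    rcases hg with rfl | rfl | hg'
    · rfl
    · exact absurd h1 (by simp)
    · have := hg' 0; omega
  | pt k => exact absurd (show Mo.zr = Mo.pt 0 from h) (by simp)
  | zr => exact absurd (show Mo.zr = Mo.pt 0 from h) (by simp)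

theorem eq_A_of {m : Mo} (h : m * .pt 0 = .pt 1) : m = mA := by
  cases m with
  | fn g hg =>
    have h1 : g 0 = 1 := by
      have h2 : Mo.pt (g 0) = Mo.pt 1 := h
      injection h2
    rcases hg with rfl | rfl | hg'
    · exact absurd h1 (by simp)
    · rfl
    · have := hg' 0; omega
  | pt k => exact absurd (show Mo.zr = Mo.pt 1 from h) (by simp)
  | zr => exact absurd (show Mo.zr = Mo.pt 1 from h) (by simp)

/-- singletons in the semiring of subsets -/
def sg (m : Mo) : SetSemiring Mo := Set.up {m}

theorem sg_mul (m m' : Mo) : sg m * sg m' = sg (m * m') := by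
  unfold sg
  rw [← Set.up_mul, Set.singleton_mul_singleton]

theorem sg_inj {m m' : Mo} (h : sg m = sg m') : m = m' := by
  have : ({m} : Set Mo) = {m'} := congrArg SetSemiring.down h
  exact Set.singleton_injective this

theorem eq_sg_of {l : SetSemiring Mo} {m m' t : Mo} (h : l * sg m = sg m')
    (ht : ∀ s : Mo, s * m = m' → s = t) : l = sg t := by
  have h1 : SetSemiring.down l * ({m} : Set Mo) = {m'} := by
    have := congrArg SetSemiring.down h
    rwa [SetSemiring.down_mul] at this
  have h2 : ∀ s ∈ SetSemiring.down l, s = t := by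
    intro s hs
    apply ht
    have : s * m ∈ SetSemiring.down l * ({m} : Set Mo) :=
      Set.mul_mem_mul hs (Set.mem_singleton _)
    rw [h1] at this
    exact this
  have h3 : (SetSemiring.down l).Nonempty := by
    have : m' ∈ SetSemiring.down l * ({m} : Set Mo) := by rw [h1]; exact Set.mem_singleton _
    obtain ⟨s, hs, -⟩ := Set.mem_mul.mp this
    exact ⟨s, hs⟩
  have h4 : SetSemiring.down l = {t} := by
    ext s
    constructor
    · intro hs; exact h2 s hs
    · intro hs
      obtain ⟨s', hs'⟩ := h3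
      rw [Set.mem_singleton_iff] at hs
      rw [hs, ← h2 s' hs']; exact hs'
  exact h4

theorem fact0 (l : SetSemiring Mo) (h : l * sg (.pt 0) = sg (.pt 0)) (n : ℕ) :
    l * sg (.pt n) = sg (.pt n) := by
  rw [eq_sg_of h (fun s hs => eq_one_of hs), sg_mul, one_mul]

theorem factA (n : ℕ) : sg mA * sg (.pt n) = sg (.pt (n + 1)) := by
  rw [sg_mul]; rfl

theorem fact1 (l : SetSemiring Mo) (h : l * sg (.pt 0) = sg (.pt 1)) (n : ℕ) :
    l * sg (.pt n) = sg (.pt (n + 1)) := by
  rw [eq_sg_of h (fun s hs => eq_A_of hs), factA]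

theorem factN (N n : ℕ) : sg (.fn (nuF N) (Or.inr (Or.inr (nuF_ok N)))) * sg (.pt n)
    = sg (.pt (nuF N n)) := by
  rw [sg_mul]; rfl

end Pool.Agent.V1155.Guess
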