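import Mathlib

/-!
Cert data for the hexagon with three pendant triangles.
-/

namespace Pool.Agent.V1155

/-- bit masks of the 24 simplices -/
def cmMask : List ℕ := [1, 4, 16, 2, 8, 32, 64, 128, 256, 3, 12, 48, 6, 24, 33, 65, 132, 272, 66, 136, 288, 67, 140, 304]

/-- integer table of the inverse connection matrix -/
def cmG : List (List ℤ) :=
  [[-1, 0, 0, 0, 0, -1, 0, 0, 0, 0, 0, 0, 0, 0, 1, 0, 0, 0, -1, 0, 0, 1, 0, 0],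
   [0, -1, 0, -1, 0, 0, 0, 0, 0, 0, 0, 0, 1, 0, 0, 0, 0, 0, 0, -1, 0, 0, 1, 0],
   [0, 0, -1, 0, -1, 0, 0, 0, 0, 0, 0, 0, 0, 1, 0, 0, 0, 0, 0, 0, -1, 0, 0, 1],
   [0, -1, 0, -1, 0, 0, 0, 0, 0, 0, 0, 0, 1, 0, 0, -1, 0, 0, 0, 0, 0, 1, 0, 0],
   [0, 0, -1, 0, -1, 0, 0, 0, 0, 0, 0, 0, 0, 1, 0, 0, -1, 0, 0, 0, 0, 0, 1, 0],
   [-1, 0, 0, 0, 0, -1, 0, 0, 0, 0, 0, 0, 0, 0, 1, 0, 0, -1, 0, 0, 0, 0, 0, 1],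
   [0, 0, 0, 0, 0, 0, 0, 0, 0, -1, 0, 0, 0, 0, 0, 0, 0, 0, 0, 0, 0, 1, 0, 0],
   [0, 0, 0, 0, 0, 0, 0, 0, 0, 0, -1, 0, 0, 0, 0, 0, 0, 0, 0, 0, 0, 0, 1, 0],
   [0, 0, 0, 0, 0, 0, 0, 0, 0, 0, 0, -1, 0, 0, 0, 0, 0, 0, 0, 0, 0, 0, 0, 1],
   [0, 0, 0, 0, 0, 0, -1, 0, 0, 0, 0, 0, 0, 0, 0, 1, 0, 0, 1, 0, 0, -1, 0, 0],
   [0, 0, 0, 0, 0, 0, 0, -1, 0, 0, 0, 0, 0, 0, 0, 0, 1, 0, 0, 1, 0, 0, -1, 0],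
   [0, 0, 0, 0, 0, 0, 0, 0, -1, 0, 0, 0, 0, 0, 0, 0, 0, 1, 0, 0, 1, 0, 0, -1],
   [0, 1, 0, 1, 0, 0, 0, 0, 0, 0, 0, 0, -1, 0, 0, 0, 0, 0, 0, 0, 0, 0, 0, 0],
   [0, 0, 1, 0, 1, 0, 0, 0, 0, 0, 0, 0, 0, -1, 0, 0, 0, 0, 0, 0, 0, 0, 0, 0],
   [1, 0, 0, 0, 0, 1, 0, 0, 0, 0, 0, 0, 0, 0, -1, 0, 0, 0, 0, 0, 0, 0, 0, 0],
   [0, 0, 0, -1, 0, 0, 0, 0, 0, 1, 0, 0, 0, 0, 0, 0, 0, 0, 1, 0, 0, -1, 0, 0],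
   [0, 0, 0, 0, -1, 0, 0, 0, 0, 0, 1, 0, 0, 0, 0, 0, 0, 0, 0, 1, 0, 0, -1, 0],
   [0, 0, 0, 0, 0, -1, 0, 0, 0, 0, 0, 1, 0, 0, 0, 0, 0, 0, 0, 0, 1, 0, 0, -1],
   [-1, 0, 0, 0, 0, 0, 0, 0, 0, 1, 0, 0, 0, 0, 0, 1, 0, 0, 0, 0, 0, -1, 0, 0],
   [0, -1, 0, 0, 0, 0, 0, 0, 0, 0, 1, 0, 0, 0, 0, 0, 1, 0, 0, 0, 0, 0, -1, 0],
   [0, 0, -1, 0, 0, 0, 0, 0, 0, 0, 0, 1, 0, 0, 0, 0, 0, 1, 0, 0, 0, 0, 0, -1],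
   [1, 0, 0, 1, 0, 0, 1, 0, 0, -1, 0, 0, 0, 0, 0, -1, 0, 0, -1, 0, 0, 1, 0, 0],
   [0, 1, 0, 0, 1, 0, 0, 1, 0, 0, -1, 0, 0, 0, 0, 0, -1, 0, 0, -1, 0, 0, 1, 0],
   [0, 0, 1, 0, 0, 1, 0, 0, 1, 0, 0, -1, 0, 0, 0, 0, 0, -1, 0, 0, -1, 0, 0, 1]]

/-- certificate table one -/
def cmR1 : List (List ℤ) :=
  [[26, 0, 0, 0, 0, -10, 0, 0, 0, 0, 0, 0, 0, 0, 10, 0, 0, 0, -10, 0, 0, 10, 0, 0],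
   [0, 26, 0, -10, 0, 0, 0, 0, 0, 0, 0, 0, 10, 0, 0, 0, 0, 0, 0, -10, 0, 0, 10, 0],
   [0, 0, 26, 0, -10, 0, 0, 0, 0, 0, 0, 0, 0, 10, 0, 0, 0, 0, 0, 0, -10, 0, 0, 10],
   [0, 0, 0, 24, 0, 0, 0, 0, 0, 0, 0, 0, 15, 0, 0, -11, 0, 0, 0, -4, 0, 11, 4, 0],
   [0, 0, 0, 0, 24, 0, 0, 0, 0, 0, 0, 0, 0, 15, 0, 0, -11, 0, 0, 0, -4, 0, 11, 4],
   [0, 0, 0, 0, 0, 24, 0, 0, 0, 0, 0, 0, 0, 0, 15, 0, 0, -11, -4, 0, 0, 4, 0, 11],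
   [0, 0, 0, 0, 0, 0, 30, 0, 0, -8, 0, 0, 0, 0, 0, 0, 0, 0, 0, 0, 0, 8, 0, 0],
   [0, 0, 0, 0, 0, 0, 0, 30, 0, 0, -8, 0, 0, 0, 0, 0, 0, 0, 0, 0, 0, 0, 8, 0],
   [0, 0, 0, 0, 0, 0, 0, 0, 30, 0, 0, -8, 0, 0, 0, 0, 0, 0, 0, 0, 0, 0, 0, 8],
   [0, 0, 0, 0, 0, 0, 0, 0, 0, 29, 0, 0, 0, 0, 0, 9, 0, 0, 9, 0, 0, -6, 0, 0],
   [0, 0, 0, 0, 0, 0, 0, 0, 0, 0, 29, 0, 0, 0, 0, 0, 9, 0, 0, 9, 0, 0, -6, 0],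
   [0, 0, 0, 0, 0, 0, 0, 0, 0, 0, 0, 29, 0, 0, 0, 0, 0, 9, 0, 0, 9, 0, 0, -6],
   [0, 0, 0, 0, 0, 0, 0, 0, 0, 0, 0, 0, 18, 0, 0, 9, 0, 0, 0, 9, 0, -9, -9, 0],
   [0, 0, 0, 0, 0, 0, 0, 0, 0, 0, 0, 0, 0, 18, 0, 0, 9, 0, 0, 0, 9, 0, -9, -9],
   [0, 0, 0, 0, 0, 0, 0, 0, 0, 0, 0, 0, 0, 0, 18, 0, 0, 9, 9, 0, 0, -9, 0, -9],
   [0, 0, 0, 0, 0, 0, 0, 0, 0, 0, 0, 0, 0, 0, 0, 25, 0, 0, 7, -5, 0, 0, 5, 0],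
   [0, 0, 0, 0, 0, 0, 0, 0, 0, 0, 0, 0, 0, 0, 0, 0, 25, 0, 0, 7, -5, 0, 0, 5],
   [0, 0, 0, 0, 0, 0, 0, 0, 0, 0, 0, 0, 0, 0, 0, 0, 0, 25, -5, 0, 7, 5, 0, 0],
   [0, 0, 0, 0, 0, 0, 0, 0, 0, 0, 0, 0, 0, 0, 0, 0, 0, 0, 24, 2, 2, 1, -2, 5],
   [0, 0, 0, 0, 0, 0, 0, 0, 0, 0, 0, 0, 0, 0, 0, 0, 0, 0, 0, 24, 1, 5, 1, -2],
   [0, 0, 0, 0, 0, 0, 0, 0, 0, 0, 0, 0, 0, 0, 0, 0, 0, 0, 0, 0, 24, -2, 5, 1],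
   [0, 0, 0, 0, 0, 0, 0, 0, 0, 0, 0, 0, 0, 0, 0, 0, 0, 0, 0, 0, 0, 24, -5, -5],
   [0, 0, 0, 0, 0, 0, 0, 0, 0, 0, 0, 0, 0, 0, 0, 0, 0, 0, 0, 0, 0, 0, 24, -6],
   [0, 0, 0, 0, 0, 0, 0, 0, 0, 0, 0, 0, 0, 0, 0, 0, 0, 0, 0, 0, 0, 0, 0, 23]]

/-- certificate table two -/
def cmR2 : List (List ℤ) :=
  [[4001, -1600, -1600, 0, 0, 160, 0, 0, 0, 0, 0, 0, 0, 0, -160, 0, 0, 0, 160, 0, 0, -160, 0, 0],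
   [0, 3667, -2443, 175, 0, 70, 0, 0, 0, 0, 0, 0, -175, 0, -70, 0, 0, 0, 70, 175, 0, -70, -175, 0],
   [0, 0, 2735, 156, 234, 156, 0, 0, 0, 0, 0, 0, -156, -234, -156, 0, 0, 0, 156, 156, 234, -156, -156, -234],
   [0, 0, 0, 3994, -1611, -1611, 0, 0, 0, 0, 0, 0, -147, 9, 9, 160, 0, 0, -9, -14, -9, -151, 14, 9],
   [0, 0, 0, 0, 3655, -2472, 0, 0, 0, 0, 0, 0, -55, -156, 14, 71, 175, 0, -14, -16, -19, -57, -159, 19],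
   [0, 0, 0, 0, 0, 2692, 0, 0, 0, 0, 0, 0, -124, -124, -199, 161, 161, 238, -39, -36, -36, -122, -124, -201],
   [0, 0, 0, 0, 0, 0, 3920, -1633, -1633, 163, 0, 0, 0, 0, 0, 0, 0, 0, 0, 0, 0, -163, 0, 0],
   [0, 0, 0, 0, 0, 0, 0, 3564, -2544, 75, 180, 0, 0, 0, 0, 0, 0, 0, 0, 0, 0, -75, -180, 0],
   [0, 0, 0, 0, 0, 0, 0, 0, 2497, 183, 183, 256, 0, 0, 0, 0, 0, 0, 0, 0, 0, -183, -183, -256],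
   [0, 0, 0, 0, 0, 0, 0, 0, 0, 3912, -1648, -1648, 0, 0, 0, -164, 0, 0, -164, 0, 0, 180, 12, 12],
   [0, 0, 0, 0, 0, 0, 0, 0, 0, 0, 3548, -2583, 0, 0, 0, -76, -180, 0, -76, -180, 0, 97, 204, 19],
   [0, 0, 0, 0, 0, 0, 0, 0, 0, 0, 0, 2432, 0, 0, 0, -192, -192, -263, -192, -192, -263, 245, 245, 318],
   [0, 0, 0, 0, 0, 0, 0, 0, 0, 0, 0, 0, 3989, -1619, -1619, 12, 7, 7, 7, 12, 7, -19, -19, -15],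
   [0, 0, 0, 0, 0, 0, 0, 0, 0, 0, 0, 0, 0, 3646, -2491, 13, 16, 11, 11, 13, 16, -25, -30, -28],
   [0, 0, 0, 0, 0, 0, 0, 0, 0, 0, 0, 0, 0, 0, 2662, 31, 31, 33, 33, 31, 31, -64, -62, -64],
   [0, 0, 0, 0, 0, 0, 0, 0, 0, 0, 0, 0, 0, 0, 0, 3904, -1662, -1662, -180, -11, -11, 198, 25, 25],
   [0, 0, 0, 0, 0, 0, 0, 0, 0, 0, 0, 0, 0, 0, 0, 0, 3532, -2620, -97, -204, -17, 121, 231, 39],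
   [0, 0, 0, 0, 0, 0, 0, 0, 0, 0, 0, 0, 0, 0, 0, 0, 0, 2370, -251, -251, -323, 313, 313, 387],
   [0, 0, 0, 0, 0, 0, 0, 0, 0, 0, 0, 0, 0, 0, 0, 0, 0, 0, 3891, -1690, -1690, 231, 52, 52],
   [0, 0, 0, 0, 0, 0, 0, 0, 0, 0, 0, 0, 0, 0, 0, 0, 0, 0, 0, 3504, -2691, 169, 282, 83],
   [0, 0, 0, 0, 0, 0, 0, 0, 0, 0, 0, 0, 0, 0, 0, 0, 0, 0, 0, 0, 2245, 467, 467, 539],
   [0, 0, 0, 0, 0, 0, 0, 0, 0, 0, 0, 0, 0, 0, 0, 0, 0, 0, 0, 0, 0, 3743, -1870, -1870],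
   [0, 0, 0, 0, 0, 0, 0, 0, 0, 0, 0, 0, 0, 0, 0, 0, 0, 0, 0, 0, 0, 0, 3242, -3238],
   [0, 0, 0, 0, 0, 0, 0, 0, 0, 0, 0, 0, 0, 0, 0, 0, 0, 0, 0, 0, 0, 0, 0, 151]]

/-- test vector -/
def cmU : List ℤ := [9, 10, -19, 4, 14, -18, 7, 13, -20, -11, -21, 32, 3, -1, -2, -10, -21, 32, -11, -21, 32, 16, 32, -49]

/-- table lookup -/
def lk (T : List (List ℤ)) (i j : Fin 24) : ℤ := (T.getD i.val []).getD j.val 0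

/-- the simplices -/
def cmF (i : Fin 24) : Finset (Fin 9) :=
  Finset.univ.filter (fun v => (cmMask.getD i.val 0).testBit v.val = true)

/-- the order three symmetry on indices -/
def cmP (i : Fin 24) : Fin 24 := ⟨(3 * (i.val / 3) + (i.val % 3 + 1) % 3) % 24, Nat.mod_lt _ (by norm_num)⟩

theorem cm_inv : ∀ i j : Fin 24,
    ∑ k : Fin 24, (if (cmF i ∩ cmF k).Nonempty then (1 : ℤ) else 0) * lk cmG k j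
      = if i = j then 1 else 0 := by
  decide +kernel

theorem cm_symm : ∀ i j : Fin 24, lk cmG i j = lk cmG j i := by decide +kernel

theorem cm_inj : ∀ i j : Fin 24, cmF i = cmF j → i = j := by decide +kernel

theorem cm_P3 : ∀ i : Fin 24, cmP (cmP (cmP i)) = i := by decide +kernel

theorem cm_Pg : ∀ i j : Fin 24, lk cmG (cmP i) (cmP j) = lk cmG i j := by decide +kernel

/-- first quadratic form: 65 + 16 g -/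
def cmS1 (i j : Fin 24) : ℤ := (if i = j then 65 else 0) + 16 * lk cmG i j

/-- second quadratic form: 65 - 16 g + t (2 - P - P inverse) -/
def cmS2 (i j : Fin 24) : ℤ := (if i = j then 65 else 0) - 16 * lk cmG i j
  + 160 * ((if i = j then 2 else 0) - (if cmP i = j then 1 else 0) - (if cmP j = i then 1 else 0))

theorem cm_cert1 : ∀ i : Fin 24,
    ∑ j : Fin 24, |16 * cmS1 i j - ∑ k : Fin 24, lk cmR1 k i * lk cmR1 k j|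
      < 2 * (16 * cmS1 i i - ∑ k : Fin 24, lk cmR1 k i * lk cmR1 k i) := by
  decide +kernel

theorem cm_cert2 : ∀ i : Fin 24,
    ∑ j : Fin 24, |40000 * cmS2 i j - ∑ k : Fin 24, lk cmR2 k i * lk cmR2 k j|
      < 2 * (40000 * cmS2 i i - ∑ k : Fin 24, lk cmR2 k i * lk cmR2 k i) := by
  decide +kernel

theorem cm_u : 65 * ∑ i : Fin 24, (cmU.getD i.val 0) * (cmU.getD i.val 0) ≤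
    16 * ∑ i : Fin 24, ∑ j : Fin 24, lk cmG i j * (cmU.getD i.val 0) * (cmU.getD j.val 0) := by
  decide +kernel

theorem cm_complex : ∀ i : Fin 24, (cmF i).Nonempty ∧ ∀ t ∈ (cmF i).powerset, t.Nonempty →
    ∃ j : Fin 24, cmF j = t := by
  decide +kernel

end Pool.Agent.V1155
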