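import Mathlib

/-!
General lemmas: positivity certificate, and a symmetric matrix with a symmetry of order three whose
top eigenvalue is not attained on fixed vectors has a multiple top eigenvalue.
-/

namespace Pool.Agent.V1155

open Matrix

/-- Sum of squares plus a diagonally dominant remainder gives positivity. -/
theorem pos_of_cert {n m : ℕ} (K : ℤ) (hK : 0 < K) (S : Fin n → Fin n → ℤ) (hS : ∀ i j, S i j = S j i)
    (R : Fin m → Fin n → ℤ)
    (h : ∀ i, ∑ j, |K * S i j - ∑ k, R k i * R k j| < 2 * (K * S i i - ∑ k, R k i * R k i))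
    (x : Fin n → ℝ) (hx : x ≠ 0) :
    0 < ∑ i, ∑ j, (S i j : ℝ) * x i * x j := by
  obtain ⟨E, hE⟩ : ∃ E : Fin n → Fin n → ℝ,
      E = fun i j => (K : ℝ) * S i j - ∑ k, (R k i : ℝ) * R k j := ⟨_, rfl⟩
  have hEs : ∀ i j, E i j = E j i := by
    intro i j
    simp only [hE, hS i j]
    congr 1
    exact Finset.sum_congr rfl fun k _ => mul_comm _ _
  have hE2 : ∀ i, ∑ j, |E i j| < 2 * E i i := by
    intro i
    have := h i
    have h2 : ((∑ j, |K * S i j - ∑ k, R k i * R k j| : ℤ) : ℝ)
        < ((2 * (K * S i i - ∑ k, R k i * R k i) : ℤ) : ℝ) := by exact_mod_cast this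
    push_cast at h2
    simpa [hE] using h2
  have key : (K : ℝ) * ∑ i, ∑ j, (S i j : ℝ) * x i * x j
      = (∑ k, (∑ i, (R k i : ℝ) * x i) ^ 2) + ∑ i, ∑ j, E i j * x i * x j := by
    have e1 : ∀ k, (∑ i, (R k i : ℝ) * x i) ^ 2
        = ∑ i, ∑ j, ((R k i : ℝ) * R k j) * x i * x j := by
      intro k
      rw [sq, Finset.sum_mul_sum]
      refine Finset.sum_congr rfl fun i _ => Finset.sum_congr rfl fun j _ => by ring
    have e2 : (∑ k, (∑ i, (R k i : ℝ) * x i) ^ 2)
        = ∑ i, ∑ j, (∑ k, (R k i : ℝ) * R k j) * x i * x j := by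
      simp only [e1]
      rw [Finset.sum_comm]
      refine Finset.sum_congr rfl fun i _ => ?_
      rw [Finset.sum_comm]
      refine Finset.sum_congr rfl fun j _ => ?_
      rw [Finset.sum_mul, Finset.sum_mul]
    rw [e2, Finset.mul_sum, ← Finset.sum_add_distrib]
    refine Finset.sum_congr rfl fun i _ => ?_
    rw [Finset.mul_sum, ← Finset.sum_add_distrib]
    refine Finset.sum_congr rfl fun j _ => ?_
    simp only [hE]
    ring
  have hdiag : ∑ i, (2 * E i i - ∑ j, |E i j|) * x i ^ 2 ≤ ∑ i, ∑ j, E i j * x i * x j := by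
    have s1 : ∑ i, (∑ j, |E i j|) * x i ^ 2
        = ∑ i, ∑ j, |E i j| * ((x i ^ 2 + x j ^ 2) / 2) := by
      have a1 : ∑ i, ∑ j, |E i j| * x j ^ 2 = ∑ i, ∑ j, |E i j| * x i ^ 2 := by
        rw [Finset.sum_comm]
        refine Finset.sum_congr rfl fun i _ => Finset.sum_congr rfl fun j _ => by rw [hEs j i]
      have a2 : ∑ i, ∑ j, |E i j| * ((x i ^ 2 + x j ^ 2) / 2)
          = ((∑ i, ∑ j, |E i j| * x i ^ 2) + ∑ i, ∑ j, |E i j| * x j ^ 2) / 2 := by
        rw [← Finset.sum_add_distrib, Finset.sum_div]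
        refine Finset.sum_congr rfl fun i _ => ?_
        rw [← Finset.sum_add_distrib, Finset.sum_div]
        refine Finset.sum_congr rfl fun j _ => by ring
      rw [a2, a1]
      have : ∑ i, (∑ j, |E i j|) * x i ^ 2 = ∑ i, ∑ j, |E i j| * x i ^ 2 :=
        Finset.sum_congr rfl fun i _ => by rw [Finset.sum_mul]
      rw [this]; ring
    have s2 : ∑ i, (2 * E i i - ∑ j, |E i j|) * x i ^ 2
        = ∑ i, ∑ j, ((if i = j then 2 * E i i * x i ^ 2 else 0)
            - |E i j| * ((x i ^ 2 + x j ^ 2) / 2)) := by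
      have : ∀ i, ∑ j, ((if i = j then 2 * E i i * x i ^ 2 else 0)
            - |E i j| * ((x i ^ 2 + x j ^ 2) / 2))
          = 2 * E i i * x i ^ 2 - ∑ j, |E i j| * ((x i ^ 2 + x j ^ 2) / 2) := by
        intro i
        rw [Finset.sum_sub_distrib, Finset.sum_ite_eq]
        simp
      simp only [this]
      rw [Finset.sum_sub_distrib, ← s1, ← Finset.sum_sub_distrib]
      refine Finset.sum_congr rfl fun i _ => by ring
    rw [s2]
    refine Finset.sum_le_sum fun i _ => Finset.sum_le_sum fun j _ => ?_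
    by_cases hij : i = j
    · subst hij
      simp only [if_true]
      have := le_abs_self (E i i)
      nlinarith [sq_nonneg (x i), mul_le_mul_of_nonneg_right this (sq_nonneg (x i))]
    · simp only [if_neg hij]
      have h1 := neg_abs_le (E i j * (x i * x j))
      rw [abs_mul] at h1
      have h2 : |x i * x j| ≤ (x i ^ 2 + x j ^ 2) / 2 := by
        rw [abs_le]
        constructor
        · nlinarith [sq_nonneg (x i + x j)]
        · nlinarith [sq_nonneg (x i - x j)]
      have h3 := mul_le_mul_of_nonneg_left h2 (abs_nonneg (E i j))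
      nlinarith
  have hpos : 0 < ∑ i, (2 * E i i - ∑ j, |E i j|) * x i ^ 2 := by
    obtain ⟨i0, hi0⟩ : ∃ i, x i ≠ 0 := by
      by_contra hcon
      push Not at hcon
      exact hx (funext hcon)
    refine Finset.sum_pos' (fun i _ => ?_) ⟨i0, Finset.mem_univ _, ?_⟩
    · exact mul_nonneg (by linarith [hE2 i]) (sq_nonneg _)
    · exact mul_pos (by linarith [hE2 i0]) (by positivity)
  have hsq : 0 ≤ ∑ k, (∑ i, (R k i : ℝ) * x i) ^ 2 := Finset.sum_nonneg fun k _ => sq_nonneg _
  have hK' : (0 : ℝ) < K := by exact_mod_cast hK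
  have : 0 < (K : ℝ) * ∑ i, ∑ j, (S i j : ℝ) * x i * x j := by rw [key]; linarith
  exact (pos_iff_pos_of_mul_pos this).mp hK'

/-- quadratic form of a matrix -/
def qf {ι : Type*} [Fintype ι] (g : Matrix ι ι ℝ) (x : ι → ℝ) : ℝ := ∑ i, ∑ j, g i j * x i * x j

theorem qf_eig {ι : Type*} [Fintype ι] (g : Matrix ι ι ℝ) (x : ι → ℝ) (μ : ℝ)
    (h : g *ᵥ x = μ • x) : qf g x = μ * ∑ i, x i * x i := by
  unfold qf
  rw [Finset.mul_sum]
  refine Finset.sum_congr rfl fun i _ => ?_
  have := congrFun h i
  simp only [mulVec, dotProduct, Pi.smul_apply, smul_eq_mul] at this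
  calc ∑ j, g i j * x i * x j = x i * ∑ j, g i j * x j := by
        rw [Finset.mul_sum]; exact Finset.sum_congr rfl fun j _ => by ring
    _ = μ * (x i * x i) := by rw [this]; ring

theorem key {ι : Type*} [Fintype ι] [DecidableEq ι] [Nonempty ι] (g : Matrix ι ι ℝ)
    (hg : g.IsHermitian) (P : ι → ι) (hP3 : ∀ i, P (P (P i)) = i)
    (hPg : ∀ i j, g (P i) (P j) = g i j) (c : ℝ)
    (h1 : ∀ x : ι → ℝ, x ≠ 0 → 0 < c * (∑ i, x i * x i) + qf g x)
    (h2 : ∀ x : ι → ℝ, x ≠ 0 → (∀ i, x (P i) = x i) → qf g x < c * ∑ i, x i * x i)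
    (u : ι → ℝ) (hu0 : u ≠ 0) (hu : c * (∑ i, u i * u i) ≤ qf g u) :
    ∃ t : ℝ, (∀ μ : ℝ, Module.End.HasEigenvalue (Matrix.toLin' g) μ → |μ| ≤ t) ∧
      2 ≤ Module.finrank ℝ (Module.End.eigenspace (Matrix.toLin' g) t) := by
  have hsq : ∀ x : ι → ℝ, x ≠ 0 → 0 < ∑ i, x i * x i := by
    intro x hx
    obtain ⟨i0, hi0⟩ : ∃ i, x i ≠ 0 := by
      by_contra hcon
      push Not at hcon
      exact hx (funext hcon)
    refine Finset.sum_pos' (fun i _ => mul_self_nonneg _) ⟨i0, Finset.mem_univ _, ?_⟩
    exact mul_self_pos.mpr hi0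
  -- eigenvalues form the range of a finite family
  have hran : ∀ μ : ℝ, Module.End.HasEigenvalue (Matrix.toLin' g) μ ↔ μ ∈ Set.range hg.eigenvalues := by
    intro μ
    rw [Module.End.hasEigenvalue_iff_mem_spectrum, Matrix.spectrum_toLin',
      hg.spectrum_real_eq_range_eigenvalues]
  obtain ⟨k0, -, hk0⟩ := Finset.exists_max_image (Finset.univ : Finset ι) hg.eigenvalues
    Finset.univ_nonempty
  obtain ⟨t, ht⟩ : ∃ t, t = hg.eigenvalues k0 := ⟨_, rfl⟩
  have htE : Module.End.HasEigenvalue (Matrix.toLin' g) t := (hran t).mpr ⟨k0, ht.symm⟩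
  have htmax : ∀ μ : ℝ, Module.End.HasEigenvalue (Matrix.toLin' g) μ → μ ≤ t := by
    intro μ hμ
    obtain ⟨k, rfl⟩ := (hran μ).mp hμ
    rw [ht]; exact hk0 k (Finset.mem_univ _)
  -- lower bound for t
  have htc : c ≤ t := by
    by_contra hcon
    push Not at hcon
    have hherm : (c • (1 : Matrix ι ι ℝ) - g).IsHermitian := by
      refine Matrix.IsHermitian.sub ?_ hg
      rw [Matrix.IsHermitian, Matrix.conjTranspose_smul, Matrix.conjTranspose_one]
      simp
    have hpd : (c • (1 : Matrix ι ι ℝ) - g).PosDef := by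
      rw [hherm.posDef_iff_eigenvalues_pos]
      intro i
      have hv : Module.End.HasEigenvalue (Matrix.toLin' (c • (1 : Matrix ι ι ℝ) - g))
          (hherm.eigenvalues i) := by
        rw [Module.End.hasEigenvalue_iff_mem_spectrum, Matrix.spectrum_toLin',
          hherm.spectrum_real_eq_range_eigenvalues]
        exact ⟨i, rfl⟩
      obtain ⟨v, hv1, hv2⟩ := hv.exists_hasEigenvector
      rw [Module.End.mem_eigenspace_iff, Matrix.toLin'_apply] at hv1
      have hgv : g *ᵥ v = (c - hherm.eigenvalues i) • v := by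
        rw [Matrix.sub_mulVec, Matrix.smul_mulVec, Matrix.one_mulVec] at hv1
        rw [sub_smul, ← hv1]; abel
      have hE : Module.End.HasEigenvalue (Matrix.toLin' g) (c - hherm.eigenvalues i) := by
        refine Module.End.hasEigenvalue_of_hasEigenvector (x := v) ⟨?_, hv2⟩
        rw [Module.End.mem_eigenspace_iff, Matrix.toLin'_apply, hgv]
      have := htmax _ hE
      linarith
    have hpos := hpd.dotProduct_mulVec_pos hu0
    have : star u ⬝ᵥ ((c • (1 : Matrix ι ι ℝ) - g) *ᵥ u) = c * (∑ i, u i * u i) - qf g u := by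
      rw [Matrix.sub_mulVec, Matrix.smul_mulVec, Matrix.one_mulVec, dotProduct_sub]
      congr 1
      · simp only [dotProduct, Pi.star_apply, star_trivial, Pi.smul_apply, smul_eq_mul]
        rw [Finset.mul_sum]
        exact Finset.sum_congr rfl fun i _ => by ring
      · simp only [dotProduct, Pi.star_apply, star_trivial, mulVec, qf]
        refine Finset.sum_congr rfl fun i _ => ?_
        rw [Finset.mul_sum]
        exact Finset.sum_congr rfl fun j _ => by ring
    rw [this] at hpos
    linarith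
  refine ⟨t, ?_, ?_⟩
  · intro μ hμ
    rw [abs_le]
    refine ⟨?_, htmax μ hμ⟩
    obtain ⟨v, hv1, hv2⟩ := hμ.exists_hasEigenvector
    rw [Module.End.mem_eigenspace_iff, Matrix.toLin'_apply] at hv1
    have h3 := h1 v hv2
    rw [qf_eig g v μ hv1, ← add_mul] at h3
    have h4 := (pos_iff_pos_of_mul_pos h3).mpr (hsq v hv2)
    linarith
  · obtain ⟨w, hw1, hw2⟩ := htE.exists_hasEigenvector
    have hw3 := hw1
    rw [Module.End.mem_eigenspace_iff, Matrix.toLin'_apply] at hw1
    obtain ⟨w', hw'⟩ : ∃ w' : ι → ℝ, w' = fun i => w (P i) := ⟨_, rfl⟩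
    have hbij : Function.Bijective P := by
      refine ⟨fun a b hab => ?_, fun a => ⟨P (P a), hP3 a⟩⟩
      rw [← hP3 a, hab, hP3 b]
    have hw'1 : w' ∈ Module.End.eigenspace (Matrix.toLin' g) t := by
      rw [Module.End.mem_eigenspace_iff, Matrix.toLin'_apply]
      funext i
      have h5 := congrFun hw1 (P i)
      simp only [mulVec, dotProduct, Pi.smul_apply, smul_eq_mul] at h5 ⊢
      rw [hw']
      simp only
      rw [← h5]
      rw [← Function.Bijective.sum_comp hbij (fun k => g (P i) k * w k)]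
      exact Finset.sum_congr rfl fun j _ => by rw [hPg i j]
    have hne : w' ≠ w := by
      intro heq
      have hfix : ∀ i, w (P i) = w i := by
        intro i
        have := congrFun heq i
        rw [hw'] at this
        exact this
      have h6 := h2 w hw2 hfix
      rw [qf_eig g w t hw1] at h6
      have h7 := hsq w hw2
      nlinarith
    have hli : LinearIndependent ℝ ![(⟨w, hw3⟩ : Module.End.eigenspace (Matrix.toLin' g) t), ⟨w', hw'1⟩] := by
      rw [LinearIndependent.pair_iff]
      intro a b hab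
      have hab' : a • w + b • w' = 0 := by
        have := congrArg Subtype.val hab
        simpa using this
      have hb : b = 0 := by
        by_contra hb
        obtain ⟨r, hr⟩ : ∃ r : ℝ, r = -a / b := ⟨_, rfl⟩
        have hrw : ∀ i, w (P i) = r * w i := by
          intro i
          have h8 := congrFun hab' i
          simp only [Pi.add_apply, Pi.smul_apply, smul_eq_mul, Pi.zero_apply, hw'] at h8
          rw [hr]
          field_simp
          linarith
        have h9 : ∀ i, w i = r ^ 3 * w i := by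
          intro i
          conv_lhs => rw [← hP3 i]
          rw [hrw, hrw, hrw]; ring
        obtain ⟨i0, hi0⟩ : ∃ i, w i ≠ 0 := by
          by_contra hcon
          push Not at hcon
          exact hw2 (funext hcon)
        have hr3 : r ^ 3 = 1 := by
          have := h9 i0
          have h10 : (r ^ 3 - 1) * w i0 = 0 := by linarith
          rcases mul_eq_zero.mp h10 with h11 | h11
          · linarith
          · exact absurd h11 hi0
        have hr1 : r = 1 := by
          have : (r - 1) * (r ^ 2 + r + 1) = 0 := by ring_nf; linarith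
          rcases mul_eq_zero.mp this with h11 | h11
          · linarith
          · nlinarith [sq_nonneg (2 * r + 1)]
        apply hne
        funext i
        rw [hw']
        simp only
        rw [hrw i, hr1, one_mul]
      refine ⟨?_, hb⟩
      rw [hb, zero_smul, add_zero] at hab'
      rcases smul_eq_zero.mp hab' with h12 | h12
      · exact h12
      · exact absurd h12 hw2
    have := hli.fintype_card_le_finrank
    simpa using this

end Pool.Agent.V1155
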