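import Mathlib

set_option autoImplicit false

/-!
Right distributive centrally essential endomorphism rings of abelian groups are commutative.
-/

namespace Pool.Agent.V1155.EndCE

universe u

/-- The lattice of right ideals is distributive. -/
def RightDistributive (R : Type u) [Ring R] : Prop :=
  ∀ I J K : Submodule Rᵐᵒᵖ R, I ⊓ (J ⊔ K) = (I ⊓ J) ⊔ (I ⊓ K)

/-- For every nonzero `a` there are nonzero central `x`, `y` with `a x = y`. -/
def CentrallyEssential (R : Type u) [Ring R] : Prop :=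
  ∀ a : R, a ≠ 0 → ∃ x y : R, x ∈ Subring.center R ∧ y ∈ Subring.center R ∧ x ≠ 0 ∧ y ≠ 0 ∧
    a * x = y

section ring

variable {R : Type u} [Ring R]

theorem mem_sp {a x : R} : x ∈ Submodule.span Rᵐᵒᵖ {a} ↔ ∃ r, x = a * r := by
  rw [Submodule.mem_span_singleton]
  constructor
  · rintro ⟨r, hr⟩; exact ⟨r.unop, hr.symm⟩
  · rintro ⟨r, hr⟩; exact ⟨MulOpposite.op r, hr.symm⟩

theorem dist_elem (hR : RightDistributive R) (a b : R) :
    ∃ x y u w : R, x + y = 1 ∧ a * x = b * u ∧ b * y = a * w := by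
  have h := hR (Submodule.span Rᵐᵒᵖ {a + b}) (Submodule.span Rᵐᵒᵖ {a}) (Submodule.span Rᵐᵒᵖ {b})
  have h1 : a + b ∈ Submodule.span Rᵐᵒᵖ {a + b} ⊓
      (Submodule.span Rᵐᵒᵖ {a} ⊔ Submodule.span Rᵐᵒᵖ {b}) :=
    ⟨Submodule.mem_span_singleton_self _, Submodule.add_mem_sup
      (Submodule.mem_span_singleton_self _) (Submodule.mem_span_singleton_self _)⟩
  rw [h] at h1
  obtain ⟨s, hs, t, ht, hst⟩ := Submodule.mem_sup.1 h1
  obtain ⟨u, hu⟩ := mem_sp.1 hs.1
  obtain ⟨u', hu'⟩ := mem_sp.1 hs.2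
  obtain ⟨v, hv⟩ := mem_sp.1 ht.1
  obtain ⟨v', hv'⟩ := mem_sp.1 ht.2
  have hw : (a + b) * (1 - u - v) = 0 := by
    have : (a + b) * (1 - u - v) = (a + b) - ((a + b) * u + (a + b) * v) := by noncomm_ring
    rw [this, ← hu, ← hv, hst, sub_self]
  refine ⟨v + (1 - u - v), u, v' - v - (1 - u - v), u' - u, by abel, ?_, ?_⟩
  · have h2 : a * (v + (1 - u - v)) - b * (v' - v - (1 - u - v)) =
        ((a + b) * v - b * v') + (a + b) * (1 - u - v) := by noncomm_ring
    rw [← sub_eq_zero, h2, ← hv, ← hv', hw, sub_self, add_zero]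
  · have h2 : b * u - a * (u' - u) = (a + b) * u - a * u' := by noncomm_ring
    rw [← sub_eq_zero, h2, ← hu, ← hu', sub_self]

theorem half_central (hR : RightDistributive R) {e : R} (he : e * e = e) (r : R) :
    (1 - e) * r * e = 0 := by
  obtain ⟨x, y, u, w, hxy, hx, hy⟩ := dist_elem hR e ((1 - e) * r * e)
  have h1 : e * (1 - e) = 0 := by rw [mul_sub, he, mul_one, sub_self]
  have h2 : e * x = 0 := by
    have : e * (e * x) = e * x := by rw [← mul_assoc, he]
    rw [← this, hx]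
    calc e * ((1 - e) * r * e * u) = (e * (1 - e)) * r * e * u := by noncomm_ring
      _ = 0 := by rw [h1]; simp
  have h1' : (1 - e) * e = 0 := by rw [sub_mul, he, one_mul, sub_self]
  have h11 : (1 - e) * (1 - e) = 1 - e := by rw [mul_sub, h1', mul_one, sub_zero]
  have h3 : (1 - e) * r * e * y = 0 := by
    have : (1 - e) * ((1 - e) * r * e * y) = (1 - e) * r * e * y := by
      calc (1 - e) * ((1 - e) * r * e * y) = ((1 - e) * (1 - e)) * r * e * y := by noncomm_ring
        _ = _ := by rw [h11]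
    rw [← this, hy, ← mul_assoc, h1', zero_mul]
  calc (1 - e) * r * e = (1 - e) * r * e * (x + y) := by rw [hxy, mul_one]
    _ = (1 - e) * r * (e * x) + (1 - e) * r * e * y := by noncomm_ring
    _ = 0 := by rw [h2, h3]; simp

theorem idem_central (hR : RightDistributive R) {e : R} (he : e * e = e) (r : R) :
    e * r = r * e := by
  have h1 := half_central hR he r
  have he' : (1 - e) * (1 - e) = 1 - e := by
    have h1' : (1 - e) * e = 0 := by rw [sub_mul, he, one_mul, sub_self]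
    rw [mul_sub, h1', mul_one, sub_zero]
  have h2 := half_central hR he' r
  rw [sub_sub_cancel] at h2
  calc e * r = e * r * (1 - e) + e * r * e := by noncomm_ring
    _ = e * r * e + (1 - e) * r * e := by rw [h1, h2]; abel
    _ = r * e := by noncomm_ring

/-- In a noncommutative centrally essential ring there is a central square-zero multiple of a
commutator. -/
theorem exists_sq_zero (hC : CentrallyEssential R) {a b : R} (hab : a * b - b * a ≠ 0) :
    ∃ n z : R, n ∈ Subring.center R ∧ n ≠ 0 ∧ n * n = 0 ∧ n = (a * b - b * a) * z := by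
  obtain ⟨z, c, hz, hc, hz0, hc0, hzc⟩ := hC _ hab
  have key : ∀ x : R, x ∈ Subring.center R → a * x ∈ Subring.center R →
      (a * b - b * a) * x = 0 := by
    intro x hx hax
    rw [Subring.mem_center_iff] at hx hax
    calc (a * b - b * a) * x = a * (b * x) - b * (a * x) := by noncomm_ring
      _ = (a * x) * b - b * (a * x) := by rw [hx b]; noncomm_ring
      _ = 0 := by rw [hax b, sub_self]
  by_cases hac : a * c = 0
  · refine ⟨c, z, hc, hc0, ?_, hzc.symm⟩
    have h1 := key c hc (by rw [hac]; exact zero_mem _)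
    nth_rewrite 1 [← hzc]
    have h2 : z * c = c * z := (Subring.mem_center_iff.1 hz c).symm
    rw [mul_assoc, h2, ← mul_assoc, h1, zero_mul]
  · obtain ⟨y, w, hy, hw, hy0, hw0, hyw⟩ := hC _ hac
    have hcy : c * y ∈ Subring.center R := mul_mem hc hy
    have h1 := key (c * y) hcy (by rw [← mul_assoc, hyw]; exact hw)
    refine ⟨c * y, z * y, hcy, ?_, ?_, ?_⟩
    · intro h
      apply hw0
      rw [← hyw, mul_assoc, h, mul_zero]
    · calc c * y * (c * y) = (a * b - b * a) * (z * y) * (c * y) := by rw [← hzc]; noncomm_ring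
        _ = (a * b - b * a) * ((z * y) * (c * y)) := by noncomm_ring
        _ = (a * b - b * a) * ((c * y) * (z * y)) := by
            rw [Subring.mem_center_iff.1 hcy (z * y)]
        _ = 0 := by rw [← mul_assoc, h1, zero_mul]
    · rw [← mul_assoc, hzc]

end ring

section grp

variable {A : Type u} [AddCommGroup A]

/-- Characters with prescribed value. -/
theorem exists_char {n : ℕ} (hn : 0 < n) {b : A}
    (hb : ∀ m : ℤ, (∃ c : A, m • b = n • c) → (n : ℤ) ∣ m) :
    ∃ χ : A →+ AddCircle (1 : ℚ), (∀ a, n • χ a = 0) ∧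
      χ b = (((1 : ℚ) / (n : ℚ) : ℚ) : AddCircle (1 : ℚ)) := by
  let H : AddSubgroup A := (nsmulAddMonoidHom n : A →+ A).range
  have hH : ∀ a : A, (QuotientAddGroup.mk (n • a) : A ⧸ H) = 0 := fun a =>
    (QuotientAddGroup.eq_zero_iff _).2 ⟨a, rfl⟩
  let f0 : ℤ →+ A ⧸ H := zmultiplesHom _ (QuotientAddGroup.mk b)
  have hf0 : f0 n = 0 := by
    change (n : ℤ) • (QuotientAddGroup.mk b : A ⧸ H) = 0
    rw [natCast_zsmul, ← QuotientAddGroup.mk_nsmul, hH]
  have hn0 : (n : ℚ) ≠ 0 := by exact_mod_cast hn.ne'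
  let t : AddCircle (1 : ℚ) := (((1 : ℚ) / (n : ℚ) : ℚ) : AddCircle (1 : ℚ))
  let g0 : ℤ →+ AddCircle (1 : ℚ) := zmultiplesHom _ t
  have hg0 : g0 n = 0 := by
    change (n : ℤ) • t = 0
    rw [natCast_zsmul]
    have : addOrderOf t = n := AddCircle.addOrderOf_period_div hn
    nth_rewrite 1 [← this]
    exact addOrderOf_nsmul_eq_zero t
  let f : ZMod n →+ A ⧸ H := ZMod.lift n ⟨f0, hf0⟩
  let g : ZMod n →+ AddCircle (1 : ℚ) := ZMod.lift n ⟨g0, hg0⟩
  have hf : Function.Injective f := by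
    rw [ZMod.lift_injective]
    intro i hi
    change i • (QuotientAddGroup.mk b : A ⧸ H) = 0 at hi
    rw [← QuotientAddGroup.mk_zsmul, QuotientAddGroup.eq_zero_iff] at hi
    obtain ⟨c, hc⟩ := hi
    rw [ZMod.intCast_zmod_eq_zero_iff_dvd]
    exact hb i ⟨c, hc.symm⟩
  obtain ⟨h, hh⟩ := (Module.Baer.of_divisible (AddCircle (1 : ℚ))).extension_property_addMonoidHom
    f hf g
  refine ⟨h.comp (QuotientAddGroup.mk' H), fun a => ?_, ?_⟩
  · rw [← map_nsmul]
    change h (QuotientAddGroup.mk (n • a)) = 0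
    rw [hH, map_zero]
  · change h (QuotientAddGroup.mk b) = t
    have h1 : f (1 : ZMod n) = QuotientAddGroup.mk b := by
      have := ZMod.lift_coe n ⟨f0, hf0⟩ 1
      rw [Int.cast_one] at this
      change f 1 = f0 1 at this
      rw [this]
      exact one_zsmul _
    have h2 : g (1 : ZMod n) = t := by
      have := ZMod.lift_coe n ⟨g0, hg0⟩ 1
      rw [Int.cast_one] at this
      change g 1 = g0 1 at this
      rw [this]
      exact one_zsmul _
    rw [← h1, ← h2, ← hh]; rfl

/-- Endomorphisms with cyclic image. -/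
theorem exists_cyc {n : ℕ} (hn : 0 < n) {b w : A}
    (hb : ∀ m : ℤ, (∃ c : A, m • b = n • c) → (n : ℤ) ∣ m) (hw : n • w = 0) :
    ∃ r : AddMonoid.End A, r b = w ∧ ∀ a, ∃ m : ℤ, r a = m • w := by
  obtain ⟨χ, h1, h2⟩ := exists_char hn hb
  have hord : addOrderOf (χ b) = n := by rw [h2]; exact AddCircle.addOrderOf_period_div hn
  have h3 : ∀ a, ∃ m : ℤ, χ a = m • χ b := by
    intro a
    obtain ⟨m, -, hm⟩ := (AddCircle.nsmul_eq_zero_iff hn).1 (h1 a)
    refine ⟨m, ?_⟩
    rw [← hm, h2, natCast_zsmul, ← AddCircle.coe_nsmul]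
    congr 1
    rw [nsmul_eq_mul]
    ring
  have h4 : ∀ m : ℤ, m • χ b = 0 → m • w = 0 := by
    intro m hm
    rw [← addOrderOf_dvd_iff_zsmul_eq_zero, hord] at hm
    obtain ⟨k, rfl⟩ := hm
    rw [mul_comm, mul_zsmul, natCast_zsmul, hw, zsmul_zero]
  choose m hm using h3
  have h5 : ∀ a (k : ℤ), χ a = k • χ b → m a • w = k • w := by
    intro a k hk
    rw [← sub_eq_zero, ← sub_smul]
    apply h4
    rw [sub_smul, ← hm, ← hk, sub_self]
  let r : AddMonoid.End A := AddMonoidHom.mk' (fun a => m a • w) (fun a c => by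
    rw [← add_zsmul]
    apply h5
    rw [map_add, add_zsmul, ← hm, ← hm])
  refine ⟨r, ?_, fun a => ⟨m a, rfl⟩⟩
  change m b • w = w
  rw [h5 b 1 (by rw [one_zsmul]), one_zsmul]

/-- Divisible subgroups are injective. -/
theorem baer_of_div (P : AddSubgroup A)
    (hP : ∀ m : ℕ, m ≠ 0 → ∀ x ∈ P, ∃ y ∈ P, m • y = x) : Module.Baer ℤ P := by
  have : DivisibleBy P ℕ := divisibleByOfSMulRightSurj P ℕ (fun {m} hm x => by
    obtain ⟨y, hy, hyx⟩ := hP m hm x.1 x.2
    exact ⟨⟨y, hy⟩, Subtype.ext hyx⟩)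
  have : DivisibleBy P ℤ := AddGroup.divisibleByIntOfDivisibleByNat P
  exact Module.Baer.of_divisible P

theorem retract (P : AddSubgroup A)
    (hP : ∀ m : ℕ, m ≠ 0 → ∀ x ∈ P, ∃ y ∈ P, m • y = x) :
    ∃ e : AddMonoid.End A, (∀ a, e a ∈ P) ∧ ∀ a ∈ P, e a = a := by
  obtain ⟨h, hh⟩ := (baer_of_div P hP).extension_property_addMonoidHom P.subtype
    (AddSubgroup.subtype_injective P) (AddMonoidHom.id P)
  refine ⟨P.subtype.comp h, fun a => (h a).2, fun a ha => ?_⟩
  have := DFunLike.congr_fun hh ⟨a, ha⟩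
  exact congrArg Subtype.val this

/-- A homomorphism into a divisible subgroup with a prescribed value. -/
theorem exists_div (P : AddSubgroup A)
    (hP : ∀ m : ℕ, m ≠ 0 → ∀ x ∈ P, ∃ y ∈ P, m • y = x) {p : ℕ} (hp : p.Prime) {v w : A}
    (hv : p • v = 0) (hv0 : v ≠ 0) (hw : p • w = 0) (hwP : w ∈ P) :
    ∃ r : AddMonoid.End A, (∀ a, r a ∈ P) ∧ r v = w := by
  have : Fact p.Prime := ⟨hp⟩
  let f0 : ℤ →+ A := zmultiplesHom _ v
  have hf0 : f0 p = 0 := by
    change (p : ℤ) • v = 0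
    rw [natCast_zsmul, hv]
  let g0 : ℤ →+ P := zmultiplesHom _ ⟨w, hwP⟩
  have hg0 : g0 p = 0 := by
    change (p : ℤ) • (⟨w, hwP⟩ : P) = 0
    rw [natCast_zsmul]
    exact Subtype.ext hw
  have hord : addOrderOf v = p := addOrderOf_eq_prime hv hv0
  let f : ZMod p →+ A := ZMod.lift p ⟨f0, hf0⟩
  have hf : Function.Injective f := by
    rw [ZMod.lift_injective]
    intro i hi
    change i • v = 0 at hi
    rw [← addOrderOf_dvd_iff_zsmul_eq_zero, hord] at hi
    rw [ZMod.intCast_zmod_eq_zero_iff_dvd]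
    exact hi
  obtain ⟨h, hh⟩ := (baer_of_div P hP).extension_property_addMonoidHom f hf
    (ZMod.lift p ⟨g0, hg0⟩)
  refine ⟨P.subtype.comp h, fun a => (h a).2, ?_⟩
  have h1 : f (1 : ZMod p) = v := by
    have := ZMod.lift_coe p ⟨f0, hf0⟩ 1
    rw [Int.cast_one] at this
    change f 1 = f0 1 at this
    rw [this]
    exact one_zsmul _
  have h2 : ZMod.lift p ⟨g0, hg0⟩ (1 : ZMod p) = (⟨w, hwP⟩ : P) := by
    have := ZMod.lift_coe p ⟨g0, hg0⟩ 1
    rw [Int.cast_one] at this
    rw [this]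
    exact one_zsmul _
  change (h v).1 = w
  rw [← h1]
  have h3 := DFunLike.congr_fun hh (1 : ZMod p)
  rw [h2] at h3
  exact congrArg Subtype.val h3

/-- The `p`-part of `A` splits off, with commutative endomorphism ring, and multiplication by `p` is
bijective on the complement. -/
structure Spl (p : ℕ) (e q : AddMonoid.End A) : Prop where
  idem : e * e = e
  comm : ∀ r s : AddMonoid.End A, e * (r * s - s * r) = 0
  inv : p • q = 1 - e
  eq0 : e * q = 0

theorem not_dvd_of {p : ℕ} (hp : p.Prime) {b : A} (hb : ¬ ∃ c : A, b = p • c) :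
    ∀ m : ℤ, (∃ c : A, m • b = p • c) → (p : ℤ) ∣ m := by
  rintro m ⟨c, hc⟩
  by_contra hm
  have hpi : Prime (p : ℤ) := Nat.prime_iff_prime_int.1 hp
  obtain ⟨x, y, hxy⟩ := (Prime.coprime_iff_not_dvd hpi).2 hm
  apply hb
  refine ⟨x • b + y • c, ?_⟩
  calc b = (x * p + y * m) • b := by rw [hxy, one_zsmul]
    _ = p • (x • b + y • c) := by
      rw [add_smul, mul_smul, mul_smul, hc, natCast_zsmul, smul_add, smul_comm x, smul_comm y]

theorem spl_of {p : ℕ} (hp : p.Prime) (hc : ∀ e : AddMonoid.End A, e * e = e → ∀ r, e * r = r * e)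
    {e : AddMonoid.End A} (he : e * e = e) (hcomm : ∀ r s : AddMonoid.End A, e * (r * s - s * r) = 0)
    {v : A} (hv : p • v = 0) (hv0 : v ≠ 0) (hev : e v = v)
    (htf : ∀ w : A, p • w = 0 → e w = 0 → w = 0) :
    ∃ q : AddMonoid.End A, Spl p e q := by
  have hee : ∀ a, e (e a) = e a := fun a => DFunLike.congr_fun he a
  have h1 : ∀ a, ∃ c, p • c = a - e a ∧ e c = 0 := by
    intro a
    have h2 : ∃ c : A, a - e a = p • c := by
      by_contra hcon
      obtain ⟨r, hr, -⟩ := exists_cyc hp.pos (not_dvd_of hp hcon) hv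
      apply hv0
      have h3 : e (r (a - e a)) = r (e (a - e a)) := DFunLike.congr_fun (hc e he r) (a - e a)
      rw [hr, hev, map_sub, hee, sub_self, map_zero] at h3
      exact h3
    obtain ⟨c, hc⟩ := h2
    refine ⟨c - e c, ?_, ?_⟩
    · rw [smul_sub, ← map_nsmul, ← hc, map_sub, hee, sub_self, sub_zero]
    · rw [map_sub, hee, sub_self]
  choose q hq1 hq2 using h1
  have huniq : ∀ a c, p • c = a - e a → e c = 0 → q a = c := by
    intro a c h2 h3
    rw [← sub_eq_zero]
    apply htf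
    · rw [smul_sub, hq1, h2, sub_self]
    · rw [map_sub, hq2, h3, sub_self]
  let Q : AddMonoid.End A := AddMonoidHom.mk' q (fun a b => by
    apply huniq
    · rw [smul_add, hq1, hq1, map_add]; abel
    · rw [map_add, hq2, hq2, add_zero])
  refine ⟨Q, he, hcomm, ?_, ?_⟩
  · ext a
    exact hq1 a
  · ext a
    exact hq2 a

theorem spl_fin {p : ℕ} (hp : p.Prime) (hc : ∀ e : AddMonoid.End A, e * e = e → ∀ r, e * r = r * e)
    {k : ℕ} {v v0 : A} (hv : v0 = p ^ k • v) (hv0 : p • v0 = 0)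
    (hnd : ¬ ∃ c : A, v0 = p ^ (k + 1) • c) : ∃ e q : AddMonoid.End A, Spl p e q := by
  have hne : v0 ≠ 0 := fun h => hnd ⟨0, by rw [h, smul_zero]⟩
  have hpi : Prime (p : ℤ) := Nat.prime_iff_prime_int.1 hp
  have hcond : ∀ m : ℤ, (∃ c : A, m • v = (p ^ (k + 1)) • c) → ((p ^ (k + 1) : ℕ) : ℤ) ∣ m := by
    rintro m ⟨c, hc⟩
    have : ∀ j ≤ k + 1, (p : ℤ) ^ j ∣ m := by
      intro j
      induction j with
      | zero => intro _; rw [pow_zero]; exact one_dvd m
      | succ j ih =>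
        intro hj
        obtain ⟨m', hm'⟩ := ih (by omega)
        have hpm : (p : ℤ) ∣ m' := by
          by_contra hcon
          obtain ⟨x, y, hxy⟩ := (Prime.coprime_iff_not_dvd hpi).2 hcon
          apply hnd
          -- `m' v0 = p ^ (k + 1) (p ^ (k - j) c)`
          have h1 : m' • v0 = p ^ (k + 1) • (p ^ (k - j) • c) := by
            calc m' • v0 = ((p : ℤ) ^ (k - j) * m) • v := by
                  rw [hv, hm', ← natCast_zsmul, smul_smul]
                  congr 1
                  push_cast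
                  rw [← mul_assoc, ← pow_add, mul_comm m']
                  congr 2
                  omega
              _ = p ^ (k + 1) • (p ^ (k - j) • c) := by
                  rw [mul_smul, hc, smul_comm]
                  congr 1
                  rw [← Nat.cast_pow, natCast_zsmul]
          refine ⟨y • (p ^ (k - j) • c), ?_⟩
          calc v0 = (x * p + y * m') • v0 := by rw [hxy, one_zsmul]
            _ = p ^ (k + 1) • (y • (p ^ (k - j) • c)) := by
              rw [add_smul, mul_smul, mul_smul, natCast_zsmul, hv0, smul_zero, zero_add, h1,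
                smul_comm y]
        obtain ⟨m'', rfl⟩ := hpm
        exact ⟨m'', by rw [hm', pow_succ]; ring⟩
    have := this (k + 1) le_rfl
    push_cast
    exact this
  have hkill : p ^ (k + 1) • v = 0 := by rw [pow_succ', mul_smul, ← hv, hv0]
  obtain ⟨e, he1, he2⟩ := exists_cyc (pow_pos hp.pos (k + 1)) hcond hkill
  have he : e * e = e := by
    ext a
    obtain ⟨m, hm⟩ := he2 a
    change e (e a) = e a
    rw [hm, map_zsmul, he1]
  have hev : e v0 = v0 := by rw [hv, map_nsmul, he1]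
  have hact : ∀ r : AddMonoid.End A, ∃ c : ℤ, r v = c • v := by
    intro r
    obtain ⟨c, hcc⟩ := he2 (r v)
    refine ⟨c, ?_⟩
    rw [← hcc]
    have h3 : e (r v) = r (e v) := DFunLike.congr_fun (hc e he r) v
    rw [h3, he1]
  refine ⟨e, spl_of hp hc he ?_ hv0 hne hev ?_⟩
  · intro r s
    ext a
    rw [hc e he]
    obtain ⟨m, hm⟩ := he2 a
    change (r * s - s * r) (e a) = 0
    rw [hm]
    obtain ⟨c, hr⟩ := hact r
    obtain ⟨d, hs⟩ := hact s
    change r (s (m • v)) - s (r (m • v)) = 0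
    rw [map_zsmul, map_zsmul, map_zsmul, map_zsmul, hr, hs, map_zsmul, map_zsmul, hr, hs,
      smul_comm d c, sub_self]
  · intro w hw hew
    have hnv : ¬ ∃ c : A, v = p • c := by
      rintro ⟨c, rfl⟩
      exact hnd ⟨c, by rw [hv, pow_succ, mul_smul]⟩
    obtain ⟨r, hr, -⟩ := exists_cyc hp.pos (not_dvd_of hp hnv) hw
    have h3 : e (r v) = r (e v) := DFunLike.congr_fun (hc e he r) v
    rw [he1, hr, hew] at h3
    exact h3.symm

section chain

variable {p : ℕ} {s : ℕ → A}

theorem chain_pow (hs : ∀ i, p • s (i + 1) = s i) (i d : ℕ) : p ^ d • s (i + d) = s i := by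
  induction d with
  | zero => rw [pow_zero, one_smul, add_zero]
  | succ d ih => rw [pow_succ, mul_smul, ← add_assoc, hs, ih]

theorem chain_kill (h0 : p • s 0 = 0) (hs : ∀ i, p • s (i + 1) = s i) (i : ℕ) :
    p ^ (i + 1) • s i = 0 := by
  have := chain_pow hs 0 i
  rw [zero_add] at this
  rw [pow_succ', mul_smul, this, h0]

/-- The union of a chain of cyclic groups. -/
def chainGrp (hs : ∀ i, p • s (i + 1) = s i) : AddSubgroup A where
  carrier := {x | ∃ (i : ℕ) (m : ℤ), x = m • s i}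
  zero_mem' := ⟨0, 0, by rw [zero_zsmul]⟩
  neg_mem' := by
    rintro x ⟨i, m, rfl⟩
    exact ⟨i, -m, by rw [neg_smul]⟩
  add_mem' := by
    rintro x y ⟨i, m, rfl⟩ ⟨j, n, rfl⟩
    refine ⟨i + j, m * p ^ j + n * p ^ i, ?_⟩
    have h1 := chain_pow hs i j
    have h2 := chain_pow hs j i
    rw [add_comm j i] at h2
    rw [add_smul, mul_smul, mul_smul]
    congr 2
    · rw [← Nat.cast_pow, natCast_zsmul, h1]
    · rw [← Nat.cast_pow, natCast_zsmul, h2]

theorem chain_div (hp : p.Prime) (h0 : p • s 0 = 0) (hs : ∀ i, p • s (i + 1) = s i) (m : ℕ) :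
    m ≠ 0 → ∀ x ∈ chainGrp hs, ∃ y ∈ chainGrp hs, m • y = x := by
  induction m using induction_on_primes with
  | zero => intro h; exact absurd rfl h
  | one => intro _ x hx; exact ⟨x, hx, one_smul _ _⟩
  | prime_mul q a hq ih =>
    intro hqa x hx
    have ha : a ≠ 0 := fun h => hqa (by rw [h, mul_zero])
    have hprime : ∃ y ∈ chainGrp hs, q • y = x := by
      obtain ⟨i, m, rfl⟩ := hx
      by_cases hqp : q = p
      · subst hqp
        exact ⟨m • s (i + 1), ⟨i + 1, m, rfl⟩, by rw [smul_comm, hs]⟩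
      · have hcop : Nat.Coprime q (p ^ (i + 1)) :=
          Nat.Coprime.pow_right _ ((Nat.coprime_primes hq hp).2 hqp)
        obtain ⟨x, y, hxy⟩ := Nat.isCoprime_iff_coprime.2 hcop
        refine ⟨(x * m) • s i, ⟨i, _, rfl⟩, ?_⟩
        calc q • ((x * m) • s i) = ((x * q) * m) • s i := by
              rw [← natCast_zsmul, smul_smul]; congr 1; ring
          _ = ((x * q) * m) • s i + m • (y • ((p ^ (i + 1) : ℕ) • s i)) := by
              rw [chain_kill h0 hs, smul_zero, smul_zero, add_zero]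
          _ = (((x * q) * m) + m * (y * ((p ^ (i + 1) : ℕ) : ℤ))) • s i := by
              rw [add_smul]
              congr 1
              rw [mul_smul, mul_smul, natCast_zsmul]
          _ = m • s i := by
              congr 1
              linear_combination m * hxy
    obtain ⟨y, hy, hyx⟩ := hprime
    obtain ⟨z, hz, hzy⟩ := ih ha y hy
    exact ⟨z, hz, by rw [mul_smul, hzy, hyx]⟩

theorem chain_mem (hp : p.Prime) (h0 : p • s 0 = 0) (hs : ∀ i, p • s (i + 1) = s i)
    (hne : s 0 ≠ 0) (i : ℕ) {x : A} (hx : x ∈ chainGrp hs) (hk : p ^ (i + 1) • x = 0) :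
    ∃ m : ℤ, x = m • s i := by
  obtain ⟨j, m, rfl⟩ := hx
  rcases le_or_gt j i with h | h
  · obtain ⟨d, rfl⟩ := Nat.exists_eq_add_of_le h
    refine ⟨m * p ^ d, ?_⟩
    rw [mul_smul, ← Nat.cast_pow, natCast_zsmul, chain_pow hs]
  · obtain ⟨d, rfl⟩ := Nat.exists_eq_add_of_le h.le
    have : Fact p.Prime := ⟨hp⟩
    have hord : addOrderOf (s (i + d)) = p ^ (i + d + 1) := by
      apply addOrderOf_eq_prime_pow
      · have := chain_pow hs 0 (i + d)
        rw [zero_add] at this
        rw [this]; exact hne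
      · exact chain_kill h0 hs _
    have h1 : ((p ^ (i + 1) : ℕ) : ℤ) * m ≠ 0 ∨ True := Or.inr trivial
    have h2 : (((p ^ (i + 1) : ℕ) : ℤ) * m) • s (i + d) = 0 := by
      rw [mul_smul, natCast_zsmul]; exact hk
    rw [← addOrderOf_dvd_iff_zsmul_eq_zero, hord] at h2
    have h3 : ((p ^ (i + 1) : ℕ) : ℤ) * ((p ^ d : ℕ) : ℤ) ∣ ((p ^ (i + 1) : ℕ) : ℤ) * m := by
      refine dvd_trans (dvd_of_eq ?_) h2
      rw [← Nat.cast_mul, ← pow_add]
      congr 2
      omega
    have h4 : ((p ^ (i + 1) : ℕ) : ℤ) ≠ 0 := by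
      exact_mod_cast (pow_pos hp.pos (i + 1)).ne'
    obtain ⟨c, hc⟩ := (mul_dvd_mul_iff_left h4).1 h3
    refine ⟨c, ?_⟩
    rw [hc, mul_comm, mul_smul, natCast_zsmul, chain_pow hs]

end chain

theorem exists_chain {p : ℕ} (hD : ∀ v : A, p • v = 0 → ∀ k : ℕ, ∃ c : A, v = p ^ k • c) {v : A}
    (hv : p • v = 0) : ∃ s : ℕ → A, s 0 = v ∧ ∀ i, p • s (i + 1) = s i := by
  have h1 : ∀ m : ℕ, ∀ w : A, p ^ m • w = 0 → ∃ c : A, p • c = w := by
    intro m
    induction m with
    | zero =>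
      intro w hw
      rw [pow_zero, one_smul] at hw
      exact ⟨0, by rw [hw, smul_zero]⟩
    | succ m ih =>
      intro w hw
      obtain ⟨u, hu⟩ := hD (p ^ m • w) (by rw [← mul_smul, ← pow_succ']; exact hw) (m + 1)
      obtain ⟨c, hc⟩ := ih (w - p • u) (by
        rw [smul_sub, hu, ← mul_smul (p ^ m), ← pow_succ, sub_self])
      exact ⟨c + u, by rw [smul_add, hc, sub_add_cancel]⟩
  let T : Type u := {w : A // ∃ m : ℕ, p ^ m • w = 0}
  have h2 : ∀ w : T, ∃ w' : T, p • w'.1 = w.1 := by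
    rintro ⟨w, m, hm⟩
    obtain ⟨c, hc⟩ := h1 m w hm
    exact ⟨⟨c, m + 1, by rw [pow_succ, mul_smul, hc, hm]⟩, hc⟩
  choose nx hnx using h2
  refine ⟨fun i => (nx^[i] ⟨v, 1, by rw [pow_one, hv]⟩).1, rfl, fun i => ?_⟩
  beta_reduce
  rw [Function.iterate_succ_apply']
  exact hnx _

theorem spl_inf {p : ℕ} (hp : p.Prime) (hc : ∀ e : AddMonoid.End A, e * e = e → ∀ r, e * r = r * e)
    (hD : ∀ v : A, p • v = 0 → ∀ k : ℕ, ∃ c : A, v = p ^ k • c) {v : A} (hv : p • v = 0)
    (hv0 : v ≠ 0) : ∃ e q : AddMonoid.End A, Spl p e q := by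
  obtain ⟨s, hs0, hs⟩ := exists_chain hD hv
  have h0 : p • s 0 = 0 := by rw [hs0]; exact hv
  obtain ⟨e, he1, he2⟩ := retract (chainGrp hs) (chain_div hp h0 hs)
  have hsm : ∀ i, s i ∈ chainGrp hs := fun i => ⟨i, 1, by rw [one_zsmul]⟩
  have he : e * e = e := by
    ext a
    exact he2 _ (he1 a)
  have hev : e v = v := he2 v (by rw [← hs0]; exact hsm 0)
  have hact : ∀ (r : AddMonoid.End A) i, ∃ c : ℤ, r (s i) = c • s i := by
    intro r i
    have h3 : e (r (s i)) = r (e (s i)) := DFunLike.congr_fun (hc e he r) (s i)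
    rw [he2 _ (hsm i)] at h3
    refine chain_mem hp h0 hs (by rw [hs0]; exact hv0) i (by rw [← h3]; exact he1 _) ?_
    rw [← map_nsmul, chain_kill h0 hs, map_zero]
  refine ⟨e, spl_of hp hc he ?_ hv hv0 hev ?_⟩
  · intro r t
    ext a
    rw [hc e he]
    obtain ⟨i, m, hm⟩ := he1 a
    change (r * t - t * r) (e a) = 0
    rw [hm]
    obtain ⟨c, hr⟩ := hact r i
    obtain ⟨d, ht⟩ := hact t i
    change r (t (m • s i)) - t (r (m • s i)) = 0
    rw [map_zsmul, map_zsmul, map_zsmul, map_zsmul, hr, ht, map_zsmul, map_zsmul, hr, ht,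
      smul_comm d c, sub_self]
  · intro w hw hew
    obtain ⟨t, ht0, ht⟩ := exists_chain hD hw
    have h0t : p • t 0 = 0 := by rw [ht0]; exact hw
    obtain ⟨r, -, hr⟩ := exists_div (chainGrp ht) (chain_div hp h0t ht) hp hv hv0 hw
      (by rw [← ht0]; exact ⟨0, 1, by rw [one_zsmul]⟩)
    have h3 : e (r v) = r (e v) := DFunLike.congr_fun (hc e he r) v
    rw [hev, hr, hew] at h3
    exact h3.symm

theorem dichotomy {p : ℕ} (hp : p.Prime)
    (hc : ∀ e : AddMonoid.End A, e * e = e → ∀ r, e * r = r * e) :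
    (∀ v : A, p • v = 0 → v = 0) ∨ ∃ e q : AddMonoid.End A, Spl p e q := by
  classical
  by_cases h : ∀ v : A, p • v = 0 → v = 0
  · exact Or.inl h
  · right
    push Not at h
    obtain ⟨v, hv, hv0⟩ := h
    by_cases hD : ∀ v : A, p • v = 0 → ∀ k : ℕ, ∃ c : A, v = p ^ k • c
    · exact spl_inf hp hc hD hv hv0
    · push Not at hD
      obtain ⟨w, hw, hk⟩ := hD
      obtain ⟨k, hk1, hk2⟩ : ∃ k : ℕ, (∀ c, w ≠ p ^ k • c) ∧ ∀ j < k, ¬ ∀ c, w ≠ p ^ j • c :=
        ⟨Nat.find hk, Nat.find_spec hk, fun j hj => Nat.find_min hk hj⟩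
      rcases k with _ | k
      · exact absurd (by rw [pow_zero, one_smul]) (hk1 w)
      · have := hk2 k (by omega)
        push Not at this
        obtain ⟨c, hc'⟩ := this
        exact spl_fin hp hc hc' hw (by
          rintro ⟨c, hc⟩
          exact hk1 c hc)

theorem Spl.q_central {p : ℕ} {e q : AddMonoid.End A} (h : Spl p e q)
    (hc : ∀ e : AddMonoid.End A, e * e = e → ∀ r, e * r = r * e) (r : AddMonoid.End A) :
    q * r = r * q := by
  have he := hc e h.idem
  have h1 : p • (q * r - r * q) = 0 := by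
    rw [nsmul_sub, ← smul_mul_assoc, ← mul_smul_comm, h.inv, sub_mul, mul_sub, he]
    simp
  have h2 : (q * r - r * q) = (p • q) * (q * r - r * q) := by
    rw [h.inv, sub_mul, one_mul]
    have : e * (q * r - r * q) = 0 := by
      calc e * (q * r - r * q) = (e * q) * r - (e * r) * q := by noncomm_ring
        _ = (e * q) * r - r * (e * q) := by rw [he r]; noncomm_ring
        _ = 0 := by rw [h.eq0]; simp
    rw [this, sub_zero]
  rw [smul_mul_assoc, ← mul_smul_comm, h1, mul_zero] at h2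
  exact sub_eq_zero.1 h2

/-- Central square-zero endomorphisms killed by all the splitting idempotents. -/
def NN (n : AddMonoid.End A) : Prop :=
  (∀ r, n * r = r * n) ∧ n * n = 0 ∧
    ∀ (p : ℕ) (e q : AddMonoid.End A), p.Prime → Spl p e q → e * n = 0

theorem NN.div (hR : RightDistributive (AddMonoid.End A)) {n : AddMonoid.End A} (hn : NN n)
    {p : ℕ} (hp : p.Prime) : ∃ n1 : AddMonoid.End A, NN n1 ∧ n = p • n1 := by
  have hc : ∀ e : AddMonoid.End A, e * e = e → ∀ r, e * r = r * e := fun e he r =>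
    idem_central hR he r
  obtain ⟨hn1, hn2, hn3⟩ := hn
  rcases dichotomy hp hc with hinj | ⟨e, q, hs⟩
  · have hinj' : ∀ r : AddMonoid.End A, p • r = 0 → r = 0 := by
      intro r hr
      ext a
      exact hinj _ (DFunLike.congr_fun hr a)
    obtain ⟨x, y, u, w, hxy, hx, hy⟩ := dist_elem hR n (p • (1 : AddMonoid.End A))
    rw [smul_mul_assoc, one_mul] at hx hy
    have hyy : y * y = 0 := by
      apply hinj'
      apply hinj'
      calc p • p • (y * y) = (p • y) * (p • y) := by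
            rw [smul_mul_assoc, mul_smul_comm]
        _ = n * w * (n * w) := by rw [hy]
        _ = (n * n) * (w * w) := by
            rw [mul_assoc, ← mul_assoc w, ← hn1 w]; noncomm_ring
        _ = 0 := by rw [hn2, zero_mul]
    have hx1 : x * (1 + y) = 1 := by
      have : x = 1 - y := by rw [← hxy]; abel
      rw [this]
      calc (1 - y) * (1 + y) = 1 - y * y := by noncomm_ring
        _ = 1 := by rw [hyy, sub_zero]
    have hn4 : n = p • (u * (1 + y)) := by
      rw [← smul_mul_assoc, ← hx, mul_assoc, hx1, mul_one]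
    obtain ⟨n1, hn5⟩ : ∃ n1, n1 = u * (1 + y) := ⟨_, rfl⟩
    rw [← hn5] at hn4
    refine ⟨n1, ⟨?_, ?_, ?_⟩, hn4⟩
    · intro r
      rw [← sub_eq_zero]
      apply hinj'
      rw [nsmul_sub, ← smul_mul_assoc, ← mul_smul_comm, ← hn4, hn1, sub_self]
    · apply hinj'
      apply hinj'
      rw [← smul_mul_assoc, ← mul_smul_comm, ← hn4, hn2]
    · intro p' e q hp' hs
      apply hinj'
      rw [← mul_smul_comm, ← hn4]
      exact hn3 p' e q hp' hs
  · have hq := hs.q_central hc
    refine ⟨q * n, ⟨?_, ?_, ?_⟩, ?_⟩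
    · intro r
      rw [mul_assoc, hn1 r, ← mul_assoc, hq r, mul_assoc]
    · calc q * n * (q * n) = q * (n * q) * n := by noncomm_ring
        _ = q * q * (n * n) := by rw [hn1 q]; noncomm_ring
        _ = 0 := by rw [hn2, mul_zero]
    · intro p' e' q' hp' hs'
      rw [← mul_assoc, hc e' hs'.idem, mul_assoc, hn3 p' e' q' hp' hs', mul_zero]
    · rw [← smul_mul_assoc, hs.inv, sub_mul, one_mul, hn3 p e q hp hs, sub_zero]

theorem main (hR : RightDistributive (AddMonoid.End A)) (hC : CentrallyEssential (AddMonoid.End A))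
    (f g : AddMonoid.End A) : f * g = g * f := by
  classical
  by_contra hne
  have hc : ∀ e : AddMonoid.End A, e * e = e → ∀ r, e * r = r * e := fun e he r =>
    idem_central hR he r
  obtain ⟨n, z, hn1, hn0, hn2, hnz⟩ := exists_sq_zero hC (fun h => hne (sub_eq_zero.1 h))
  have hnN : NN n := by
    refine ⟨fun r => (Subring.mem_center_iff.1 hn1 r).symm, hn2, ?_⟩
    intro p e q hp hs
    rw [hnz, ← mul_assoc, hs.comm, zero_mul]
  -- the divisible subgroup generated by the images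
  let D : AddSubgroup A := AddSubgroup.closure {x | ∃ (n : AddMonoid.End A) (a : A), NN n ∧ x = n a}
  have hDp : ∀ p : ℕ, p.Prime → ∀ x ∈ D, ∃ y ∈ D, p • y = x := by
    intro p hp x hx
    induction hx using AddSubgroup.closure_induction with
    | mem x hx =>
      obtain ⟨n, a, hn, rfl⟩ := hx
      obtain ⟨n1, hn1, hnn⟩ := hn.div hR hp
      exact ⟨n1 a, AddSubgroup.subset_closure ⟨n1, a, hn1, rfl⟩, by rw [hnn]; rfl⟩
    | zero => exact ⟨0, D.zero_mem, smul_zero _⟩
    | add x y hx hy ihx ihy =>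
      obtain ⟨x', hx', rfl⟩ := ihx
      obtain ⟨y', hy', rfl⟩ := ihy
      exact ⟨x' + y', D.add_mem hx' hy', smul_add _ _ _⟩
    | neg x hx ihx =>
      obtain ⟨x', hx', rfl⟩ := ihx
      exact ⟨-x', D.neg_mem hx', smul_neg _ _⟩
  have hD : ∀ m : ℕ, m ≠ 0 → ∀ x ∈ D, ∃ y ∈ D, m • y = x := by
    intro m
    induction m using induction_on_primes with
    | zero => intro h; exact absurd rfl h
    | one => intro _ x hx; exact ⟨x, hx, one_smul _ _⟩
    | prime_mul q a hq ih =>
      intro hqa x hx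
      have ha : a ≠ 0 := fun h => hqa (by rw [h, mul_zero])
      obtain ⟨y, hy, hyx⟩ := hDp q hq x hx
      obtain ⟨z, hz, hzy⟩ := ih ha y hy
      exact ⟨z, hz, by rw [mul_smul, hzy, hyx]⟩
  have hTp : ∀ p : ℕ, p.Prime → ∀ x ∈ D, p • x = 0 → x = 0 := by
    intro p hp x hx hpx
    rcases dichotomy hp hc with hinj | ⟨e, q, hs⟩
    · exact hinj x hpx
    · have hex : e x = 0 := by
        clear hpx
        induction hx using AddSubgroup.closure_induction with
        | mem x hx =>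
          obtain ⟨n, a, hn, rfl⟩ := hx
          exact DFunLike.congr_fun (hn.2.2 p e q hp hs) a
        | zero => exact map_zero _
        | add x y hx hy ihx ihy => rw [map_add, ihx, ihy, add_zero]
        | neg x hx ihx => rw [map_neg, ihx, neg_zero]
      have h1 : (p • q) x = x - e x := by rw [hs.inv]; rfl
      have h2 : (p • q) x = q (p • x) := by rw [map_nsmul]; rfl
      rw [h2, hpx, map_zero, hex, sub_zero] at h1
      exact h1.symm
  have hT : ∀ m : ℕ, m ≠ 0 → ∀ x ∈ D, m • x = 0 → x = 0 := by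
    intro m
    induction m using induction_on_primes with
    | zero => intro h; exact absurd rfl h
    | one => intro _ x hx h; rwa [one_smul] at h
    | prime_mul q a hq ih =>
      intro hqa x hx h
      have ha : a ≠ 0 := fun h => hqa (by rw [h, mul_zero])
      rw [mul_smul] at h
      exact ih ha x hx (hTp q hq _ (D.nsmul_mem hx a) h)
  -- a nonzero element
  obtain ⟨a, ha⟩ : ∃ a, n a ≠ 0 := by
    by_contra hcon
    push Not at hcon
    exact hn0 (AddMonoidHom.ext hcon)
  have huD : n a ∈ D := AddSubgroup.subset_closure ⟨n, a, hnN, rfl⟩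
  let Q : AddSubgroup A :=
    { carrier := {x | x ∈ D ∧ ∃ l : ℕ, l ≠ 0 ∧ ∃ k : ℤ, l • x = k • n a}
      zero_mem' := ⟨D.zero_mem, 1, one_ne_zero, 0, by rw [smul_zero, zero_smul]⟩
      neg_mem' := by
        rintro x ⟨hx, l, hl, k, hk⟩
        exact ⟨D.neg_mem hx, l, hl, -k, by rw [smul_neg, hk, neg_smul]⟩
      add_mem' := by
        rintro x y ⟨hx, l, hl, k, hk⟩ ⟨hy, l', hl', k', hk'⟩
        refine ⟨D.add_mem hx hy, l * l', mul_ne_zero hl hl', l' * k + l * k', ?_⟩
        rw [smul_add, mul_comm l l', mul_smul, hk, mul_comm l' l, mul_smul, hk', add_smul,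
          mul_smul, mul_smul, natCast_zsmul, natCast_zsmul] }
  have hQ : ∀ m : ℕ, m ≠ 0 → ∀ x ∈ Q, ∃ y ∈ Q, m • y = x := by
    rintro m hm x ⟨hx, l, hl, k, hk⟩
    obtain ⟨y, hy, hyx⟩ := hD m hm x hx
    exact ⟨y, ⟨hy, l * m, mul_ne_zero hl hm, k, by rw [mul_smul, hyx, hk]⟩, hyx⟩
  obtain ⟨ρ, hρ1, hρ2⟩ := retract Q hQ
  have hρ : ρ * ρ = ρ := by
    ext b
    exact hρ2 _ (hρ1 b)
  have hu : ρ (n a) = n a := hρ2 _ ⟨huD, 1, one_ne_zero, 1, by rw [one_smul, one_zsmul]⟩
  have hu2 : ρ (n a) = n (ρ a) := DFunLike.congr_fun (hc ρ hρ n) a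
  obtain ⟨-, l, hl, k, hk⟩ := hρ1 a
  apply ha
  apply hT l hl _ huD
  rw [← hu, hu2, ← map_nsmul, hk, map_zsmul]
  have : n (n a) = 0 := DFunLike.congr_fun hn2 a
  rw [this, smul_zero]

end grp

end Pool.Agent.V1155.EndCE
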