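import Mathlib

namespace Pool.Agent.V1155.IntPsd

open Matrix

lemma psd_of {ι : Type*} [Fintype ι] (M : Matrix ι ι ℝ) (hs : ∀ i j, M i j = M j i)
    (h : ∀ x : ι → ℝ, 0 ≤ ∑ i, ∑ j, x i * x j * M i j) : M.PosSemidef := by
  apply PosSemidef.of_dotProduct_mulVec_nonneg
  · ext i j
    simp [hs i j]
  · intro x
    have h1 := h x
    simp only [dotProduct, mulVec, Finset.mul_sum, Pi.star_apply, star_trivial]
    calc (0:ℝ) ≤ _ := h1
      _ = _ := by
        apply Finset.sum_congr rfl; intro i _; apply Finset.sum_congr rfl; intro j _; ring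

lemma psd_to {ι : Type*} [Fintype ι] {M : Matrix ι ι ℝ} (hM : M.PosSemidef) (x : ι → ℝ) :
    0 ≤ ∑ i, ∑ j, x i * x j * M i j := by
  have h1 := hM.dotProduct_mulVec_nonneg x
  simp only [dotProduct, mulVec, Finset.mul_sum, Pi.star_apply, star_trivial] at h1
  calc (0:ℝ) ≤ _ := h1
    _ = _ := by
      apply Finset.sum_congr rfl; intro i _; apply Finset.sum_congr rfl; intro j _; ring

lemma eight_exp (m : ℤ) : (8:ℝ)^m = Real.exp (Real.log 8 * m) := by
  rw [← Real.rpow_intCast, Real.rpow_def_of_pos (by norm_num)]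

lemma expKer {ι : Type*} [Fintype ι] (a : ι → ℤ) (x : ι → ℝ) :
    0 ≤ ∑ i, ∑ j, x i * x j * (8:ℝ)^(a i * a j) := by
  have h : ∀ i j, HasSum (fun k : ℕ => x i * x j *
      ((Real.log 8 * ((a i * a j : ℤ) : ℝ)) ^ k / (k.factorial : ℝ)))
      (x i * x j * (8:ℝ)^(a i * a j)) := by
    intro i j
    rw [eight_exp, Real.exp_eq_exp_ℝ]
    exact (NormedSpace.expSeries_div_hasSum_exp (Real.log 8 * ((a i * a j : ℤ) : ℝ))).mul_left _
  have h2 : HasSum (fun k : ℕ => ∑ i, ∑ j, x i * x j *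
      ((Real.log 8 * ((a i * a j : ℤ) : ℝ)) ^ k / (k.factorial : ℝ)))
      (∑ i, ∑ j, x i * x j * (8:ℝ)^(a i * a j)) := by
    apply hasSum_sum
    intro i _
    apply hasSum_sum
    intro j _
    exact h i j
  refine h2.nonneg ?_
  intro k
  have h3 : ∑ i, ∑ j, x i * x j *
      ((Real.log 8 * ((a i * a j : ℤ) : ℝ)) ^ k / (k.factorial : ℝ)) =
      (Real.log 8)^k / (k.factorial : ℝ) * (∑ i, x i * (a i : ℝ)^k)^2 := by
    rw [sq, Finset.sum_mul_sum, Finset.mul_sum]
    apply Finset.sum_congr rfl; intro i _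
    rw [Finset.mul_sum]
    apply Finset.sum_congr rfl; intro j _
    push_cast
    rw [mul_pow, mul_pow]
    ring
  rw [h3]
  have h4 : 0 ≤ Real.log 8 := Real.log_nonneg (by norm_num)
  positivity

lemma kerMinusOne {ι : Type*} [Fintype ι] (a : ι → ℤ) (x : ι → ℝ) :
    0 ≤ ∑ i, ∑ j, x i * x j * ((8:ℝ)^(a i * a j) - 1) := by
  have h := expKer (ι := Option ι) (fun o => o.elim 0 a) (fun o => o.elim (-∑ i, x i) x)
  simp only [Fintype.sum_option, Option.elim_none, Option.elim_some, zero_mul, mul_zero,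
    zpow_zero, mul_one] at h
  have e1 : ∑ i, ∑ j, x i * x j * ((8:ℝ)^(a i * a j) - 1) =
      (∑ i, ∑ j, x i * x j * (8:ℝ)^(a i * a j)) - (∑ i, x i) * (∑ j, x j) := by
    rw [Finset.sum_mul_sum, ← Finset.sum_sub_distrib]
    apply Finset.sum_congr rfl; intro i _
    rw [← Finset.sum_sub_distrib]
    apply Finset.sum_congr rfl; intro j _
    ring
  rw [Finset.sum_add_distrib, ← Finset.mul_sum, ← Finset.sum_mul] at h
  rw [e1]
  nlinarith [h]

lemma oddKer {ι : Type*} [Fintype ι] (a : ι → ℤ) (x : ι → ℝ) :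
    0 ≤ ∑ i, ∑ j, x i * x j * ((8:ℝ)^(a i * a j) - (8:ℝ)^(-(a i * a j))) := by
  have h := expKer (ι := ι ⊕ ι) (fun o => Sum.elim a (fun i => - a i) o)
    (fun o => Sum.elim x (fun i => - x i) o)
  simp only [Fintype.sum_sum_type, Sum.elim_inl, Sum.elim_inr] at h
  have e1 : ∀ i, (∑ j, x i * x j * (8:ℝ)^(a i * a j)) + (∑ j, x i * (-x j) * (8:ℝ)^(a i * (-a j)))
      = ∑ j, x i * x j * ((8:ℝ)^(a i * a j) - (8:ℝ)^(-(a i * a j))) := by
    intro i
    rw [← Finset.sum_add_distrib]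
    apply Finset.sum_congr rfl; intro j _
    rw [mul_neg (a i) (a j)]
    ring
  have e2 : ∀ i, (∑ j, (-x i) * x j * (8:ℝ)^((-a i) * a j)) +
      (∑ j, (-x i) * (-x j) * (8:ℝ)^((-a i) * (-a j)))
      = ∑ j, x i * x j * ((8:ℝ)^(a i * a j) - (8:ℝ)^(-(a i * a j))) := by
    intro i
    rw [← Finset.sum_add_distrib]
    apply Finset.sum_congr rfl; intro j _
    rw [neg_mul_neg (a i) (a j), neg_mul (a i) (a j)]
    ring
  simp only [e1, e2] at h
  linarith

/-- parity indicator -/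
noncomputable def o (n : ℕ) : ℝ := ((n % 2 : ℕ) : ℝ)

lemma o_cases (n : ℕ) : o n = 0 ∨ o n = 1 := by
  unfold o
  rcases Nat.mod_two_eq_zero_or_one n with h | h <;> simp [h]

lemma neg_one_zpow_eq (a b : ℤ) : (-1:ℝ)^(a*b) = 1 - 2 * o a.natAbs * o b.natAbs := by
  rcases Int.even_or_odd a with ha | ha
  · have h1 : Even (a*b) := ha.mul_right b
    have h2 : a.natAbs % 2 = 0 := by
      have := Int.natAbs_even.mpr ha
      exact Nat.even_iff.mp this
    rw [h1.neg_one_zpow]
    simp [o, h2]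
  · rcases Int.even_or_odd b with hb | hb
    · have h1 : Even (a*b) := hb.mul_left a
      have h2 : b.natAbs % 2 = 0 := by
        have := Int.natAbs_even.mpr hb
        exact Nat.even_iff.mp this
      rw [h1.neg_one_zpow]
      simp [o, h2]
    · have h1 : Odd (a*b) := ha.mul hb
      have h2 : a.natAbs % 2 = 1 := by
        have := Int.natAbs_odd.mpr ha
        exact Nat.odd_iff.mp this
      have h3 : b.natAbs % 2 = 1 := by
        have := Int.natAbs_odd.mpr hb
        exact Nat.odd_iff.mp this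
      rw [h1.neg_one_zpow]
      simp [o, h2, h3]
      norm_num

lemma minusKer {ι : Type*} [Fintype ι] (a : ι → ℤ) (x : ι → ℝ) :
    0 ≤ ∑ i, ∑ j, x i * x j * ((8:ℝ)^(a i * a j) - (-1:ℝ)^(a i * a j)) := by
  have h := kerMinusOne a x
  have e1 : ∑ i, ∑ j, x i * x j * ((8:ℝ)^(a i * a j) - (-1:ℝ)^(a i * a j)) =
      ∑ i, ∑ j, x i * x j * ((8:ℝ)^(a i * a j) - 1) + 2 * (∑ i, x i * o (a i).natAbs)^2 := by
    rw [sq, Finset.sum_mul_sum, Finset.mul_sum, ← Finset.sum_add_distrib]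
    apply Finset.sum_congr rfl; intro i _
    rw [Finset.mul_sum, ← Finset.sum_add_distrib]
    apply Finset.sum_congr rfl; intro j _
    rw [neg_one_zpow_eq]
    ring
  rw [e1]
  positivity

lemma hasSum_contra (c : ℕ → ℝ) (hc : ∀ k, 0 ≤ c k)
    (h : ∀ m : ℤ, HasSum (fun k => c k * (m:ℝ)^k) ((8:ℝ)^m + (-1:ℝ)^m)) : False := by
  have h3 := h 3
  have h3' := h (-3)
  have h2 := h 2
  have h2' := h (-2)
  have h1 := h 1
  have h1' := h (-1)
  have h0 := h 0
  have H := (((h3.add h3').sub (h0.mul_left 2)).mul_left 2).sub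
    ((((h2.add h2').sub (h0.mul_left 2)).mul_left 27)) |>.add
    ((((h1.add h1').sub (h0.mul_left 2)).mul_left 270))
  have hn := H.nonneg ?_
  · norm_num [_root_.zpow_neg] at hn
  · intro k
    push_cast
    rcases Nat.even_or_odd k with hk | hk
    · rcases Nat.eq_zero_or_pos k with h0 | h0
      · subst h0; norm_num; ring_nf; norm_num
      · obtain ⟨j, hj⟩ := hk
        have hj' : k = 2 * j := by omega
        subst hj'
        have hj1 : 1 ≤ j := by omega
        have hz : (0:ℝ)^(2*j) = 0 := zero_pow (by omega)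
        have key : 0 ≤ 2 * (9:ℝ)^j - 27 * 4^j + 270 := by
          rcases Nat.lt_or_ge j 4 with h4 | h4
          · interval_cases j <;> norm_num
          · obtain ⟨i, rfl⟩ := Nat.exists_eq_add_of_le h4
            have h5 : (4:ℝ)^i ≤ 9^i := pow_le_pow_left₀ (by norm_num) (by norm_num) i
            rw [pow_add, pow_add]
            have h6 : (0:ℝ) < 4^i := by positivity
            nlinarith
        have e3 : (3:ℝ)^(2*j) = 9^j := by rw [pow_mul]; norm_num
        have e3' : (-3:ℝ)^(2*j) = 9^j := by rw [pow_mul]; norm_num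
        have e2 : (2:ℝ)^(2*j) = 4^j := by rw [pow_mul]; norm_num
        have e2' : (-2:ℝ)^(2*j) = 4^j := by rw [pow_mul]; norm_num
        have e1 : (1:ℝ)^(2*j) = 1 := by simp
        have e1' : (-1:ℝ)^(2*j) = 1 := by rw [pow_mul]; norm_num
        have hc' := hc (2*j)
        rw [e3, e3', e2, e2', e1, e1', hz]
        nlinarith [mul_nonneg hc' key]
    · have e3' : (-3:ℝ)^k = -3^k := hk.neg_pow 3
      have e2' : (-2:ℝ)^k = -2^k := hk.neg_pow 2
      have e1' : (-1:ℝ)^k = -1 := hk.neg_one_pow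
      have hz : (0:ℝ)^k = 0 := zero_pow (by rcases hk with ⟨j, hj⟩; omega)
      rw [e3', e2', e1', hz]
      simp

end Pool.Agent.V1155.IntPsd
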