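import Mathlib

namespace Pool.Agent.V1155.IntPsd

lemma geom_bound (s : Finset ℕ) : ∑ j ∈ s, ((1:ℝ)/16)^j ≤ 16/15 := by
  have h1 : Summable (fun j : ℕ => ((1:ℝ)/16)^j) :=
    summable_geometric_of_lt_one (by norm_num) (by norm_num)
  have h2 := h1.sum_le_tsum s (fun j _ => by positivity)
  rw [tsum_geometric_of_lt_one (by norm_num) (by norm_num)] at h2
  linarith [h2, show ((1:ℝ) - 1/16)⁻¹ = 16/15 by norm_num]

lemma geom_inj (s : Finset ℕ) (φ : ℕ → ℕ) (hφ : Set.InjOn φ s) :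
    ∑ j ∈ s, ((1:ℝ)/16)^(φ j) ≤ 16/15 := by
  rw [← Finset.sum_image (f := fun j => ((1:ℝ)/16)^j) hφ]
  exact geom_bound _

/-- off-diagonal weights -/
noncomputable def t (k l : ℕ) : ℝ :=
  (if k < l then (9/25) * ((1:ℝ)/16)^(l-k-1) else 0) +
  (if l < k then (9/25) * ((1:ℝ)/16)^(k-l-1) else 0)

lemma t_symm (k l : ℕ) : t k l = t l k := by unfold t; rw [add_comm]

lemma t_self (k : ℕ) : t k k = 0 := by simp [t]

lemma t_nonneg (k l : ℕ) : 0 ≤ t k l := by
  unfold t
  split_ifs <;> positivity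

lemma right_sum (N k : ℕ) :
    ∑ l ∈ Finset.range N, (if k < l then (9/25) * ((1:ℝ)/16)^(l-k-1) else 0) ≤ 48/125 := by
  rw [← Finset.sum_filter, ← Finset.mul_sum]
  have h := geom_inj ((Finset.range N).filter (fun l => k < l)) (fun l => l-k-1) (by
    intro a ha b hb hab
    simp only [Finset.coe_filter, Finset.mem_range, Set.mem_ofPred_eq] at ha hb
    simp only at hab
    omega)
  linarith

lemma left_sum (N k : ℕ) :
    ∑ l ∈ Finset.range N, (if l < k then (9/25) * ((1:ℝ)/16)^(k-l-1) else 0) ≤ 48/125 := by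
  rw [← Finset.sum_filter, ← Finset.mul_sum]
  have h := geom_inj ((Finset.range N).filter (fun l => l < k)) (fun l => k-l-1) (by
    intro a ha b hb hab
    simp only [Finset.coe_filter, Finset.mem_range, Set.mem_ofPred_eq] at ha hb
    simp only at hab
    omega)
  linarith

lemma row_sum (N k : ℕ) : ∑ l ∈ Finset.range N, t k l ≤ 96/125 := by
  unfold t
  rw [Finset.sum_add_distrib]
  linarith [right_sum N k, left_sum N k]

lemma row_sum_zero (N : ℕ) : ∑ l ∈ Finset.range N, t 0 l ≤ 48/125 := by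
  unfold t
  rw [Finset.sum_add_distrib]
  have h : ∑ l ∈ Finset.range N, (if l < 0 then (9/25) * ((1:ℝ)/16)^(0-l-1) else 0) = 0 := by
    apply Finset.sum_eq_zero; intro l _; simp
  linarith [right_sum N 0]

lemma dd (N : ℕ) (V : ℕ → ℕ → ℝ) (p e : ℕ → ℝ)
    (hoff : ∀ k l, k ≠ l → -(t k l * (p k * e k^2 + p l * e l^2)/4) ≤ e k * e l * V k l)
    (hrow : ∀ k, p k * e k^2 * (∑ l ∈ Finset.range N, t k l)/2 ≤ V k k * e k^2) :
    0 ≤ ∑ k ∈ Finset.range N, ∑ l ∈ Finset.range N, e k * e l * V k l := by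
  have h1 : ∀ k ∈ Finset.range N, ∀ l ∈ Finset.range N,
      (if k = l then V k k * e k^2 else 0) - t k l * (p k * e k^2 + p l * e l^2)/4 ≤
      e k * e l * V k l := by
    intro k _ l _
    split_ifs with hkl
    · subst hkl
      rw [t_self]
      apply le_of_eq
      ring
    · have := hoff k l hkl
      linarith
  have h2 : ∑ k ∈ Finset.range N, ∑ l ∈ Finset.range N,
      ((if k = l then V k k * e k^2 else 0) - t k l * (p k * e k^2 + p l * e l^2)/4) ≤
      ∑ k ∈ Finset.range N, ∑ l ∈ Finset.range N, e k * e l * V k l :=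
    Finset.sum_le_sum fun k hk => Finset.sum_le_sum fun l hl => h1 k hk l hl
  refine le_trans ?_ h2
  have h3 : ∑ k ∈ Finset.range N, ∑ l ∈ Finset.range N,
      ((if k = l then V k k * e k^2 else 0) - t k l * (p k * e k^2 + p l * e l^2)/4) =
      ∑ k ∈ Finset.range N, (V k k * e k^2) -
      (∑ k ∈ Finset.range N, ∑ l ∈ Finset.range N, t k l * (p k * e k^2)/4 +
       ∑ k ∈ Finset.range N, ∑ l ∈ Finset.range N, t k l * (p l * e l^2)/4) := by
    rw [← Finset.sum_add_distrib, ← Finset.sum_sub_distrib]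
    apply Finset.sum_congr rfl; intro k hk
    rw [← Finset.sum_add_distrib]
    rw [Finset.sum_sub_distrib]
    congr 1
    · rw [Finset.sum_ite_eq]
      simp only [hk, if_true]
    · apply Finset.sum_congr rfl; intro l _
      ring
  have h4 : ∑ k ∈ Finset.range N, ∑ l ∈ Finset.range N, t k l * (p l * e l^2)/4 =
      ∑ k ∈ Finset.range N, ∑ l ∈ Finset.range N, t k l * (p k * e k^2)/4 := by
    rw [Finset.sum_comm]
    apply Finset.sum_congr rfl; intro k _
    apply Finset.sum_congr rfl; intro l _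
    rw [t_symm]
  rw [h3, h4]
  have h5 : ∑ k ∈ Finset.range N, ∑ l ∈ Finset.range N, t k l * (p k * e k^2)/4 +
      ∑ k ∈ Finset.range N, ∑ l ∈ Finset.range N, t k l * (p k * e k^2)/4 =
      ∑ k ∈ Finset.range N, p k * e k^2 * (∑ l ∈ Finset.range N, t k l)/2 := by
    rw [← Finset.sum_add_distrib]
    apply Finset.sum_congr rfl; intro k _
    rw [← Finset.sum_add_distrib, Finset.mul_sum, Finset.sum_div]
    apply Finset.sum_congr rfl; intro l _
    ring
  rw [h5, sub_nonneg]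
  exact Finset.sum_le_sum fun k _ => hrow k

lemma amgm (c P Q τ x y : ℝ) (hP : 0 ≤ P) (hQ : 0 ≤ Q) (hc : 0 ≤ c) (hτ : 0 ≤ τ)
    (h : c^2 ≤ τ^2 * (P * Q)) : 2 * c * |x * y| ≤ τ * (P * x^2 + Q * y^2) := by
  have h1 : 0 ≤ τ * (P * x^2 + Q * y^2) := by positivity
  have h2 : (2 * c * (x*y))^2 ≤ (τ * (P * x^2 + Q * y^2))^2 := by
    have h3 : (2 * c * (x*y))^2 = 4 * c^2 * (x*y)^2 := by ring
    have h4 : 4 * c^2 * (x*y)^2 ≤ 4 * (τ^2 * (P * Q)) * (x*y)^2 := by
      have : 0 ≤ (x*y)^2 := by positivity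
      nlinarith
    have h5 : 4 * (τ^2 * (P * Q)) * (x*y)^2 ≤ (τ * (P * x^2 + Q * y^2))^2 := by
      have h6 : (τ * (P * x^2 + Q * y^2))^2 - 4 * (τ^2 * (P * Q)) * (x*y)^2
          = (τ * (P * x^2 - Q * y^2))^2 := by ring
      nlinarith [sq_nonneg (τ * (P * x^2 - Q * y^2))]
    linarith
  have h7 := abs_le_of_sq_le_sq h2 h1
  rw [abs_mul, abs_of_nonneg (by positivity : 0 ≤ 2 * c)] at h7
  exact h7

end Pool.Agent.V1155.IntPsd
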