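import Pool.Agent.V1155.IntPsdA
import Pool.Agent.V1155.IntPsdB

namespace Pool.Agent.V1155.IntPsd

open Matrix

noncomputable def C (k : ℕ) : ℝ := ((8:ℝ)^k + ((8:ℝ)^k)⁻¹)/2
noncomputable def W (n : ℕ) : ℝ := C n - 1 - 2 * o n
noncomputable def V (n m : ℕ) : ℝ := C (n*m) - 1 - 2 * o n * o m - (16/17) * (W n * W m)

lemma C_lo (k : ℕ) : (8:ℝ)^k/2 ≤ C k := by
  unfold C
  have : (0:ℝ) < ((8:ℝ)^k)⁻¹ := by positivity
  linarith

lemma C_hi (k : ℕ) : C k ≤ (8:ℝ)^k/2 + 1/2 := by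
  unfold C
  have h1 : (1:ℝ) ≤ (8:ℝ)^k := one_le_pow₀ (by norm_num)
  have : ((8:ℝ)^k)⁻¹ ≤ 1 := inv_le_one_of_one_le₀ h1
  linarith

lemma o_nonneg (n : ℕ) : 0 ≤ o n := by rcases o_cases n with h | h <;> simp [h]
lemma o_le (n : ℕ) : o n ≤ 1 := by rcases o_cases n with h | h <;> simp [h]

lemma W_nonneg (n : ℕ) (hn : 2 ≤ n) : 0 ≤ W n := by
  unfold W
  have h1 : (8:ℝ)^2 ≤ (8:ℝ)^n := pow_le_pow_right₀ (by norm_num) hn
  have h2 := C_lo n
  have h3 := o_le n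
  norm_num at h1
  linarith

lemma W_le (n : ℕ) : W n ≤ (8:ℝ)^n/2 := by
  unfold W
  have h2 := C_hi n
  have h3 := o_nonneg n
  linarith

lemma WW (n m : ℕ) (hn : 2 ≤ n) (hm : 2 ≤ m) : W n * W m ≤ (8:ℝ)^(n+m)/4 := by
  have h1 := W_nonneg n hn
  have h2 := W_nonneg m hm
  have h3 := W_le n
  have h4 := W_le m
  have h5 : W n * W m ≤ ((8:ℝ)^n/2) * ((8:ℝ)^m/2) :=
    mul_le_mul h3 h4 h2 (by positivity)
  rw [pow_add]
  linarith

lemma V_abs (n m : ℕ) (hn : 2 ≤ n) (hm : 2 ≤ m) : |V n m| ≤ (8:ℝ)^(n*m)/2 := by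
  have h1 := WW n m hn hm
  have h2 : n + m ≤ n * m := by nlinarith
  have h3 : (8:ℝ)^(n+m) ≤ (8:ℝ)^(n*m) := pow_le_pow_right₀ (by norm_num) h2
  have h4 := C_lo (n*m)
  have h5 := C_hi (n*m)
  have h6 : 0 ≤ W n * W m := mul_nonneg (W_nonneg n hn) (W_nonneg m hm)
  have h7 : 0 ≤ o n * o m := mul_nonneg (o_nonneg n) (o_nonneg m)
  have h8 : o n * o m ≤ 1 := by nlinarith [o_nonneg n, o_nonneg m, o_le n, o_le m]
  have h9 : (8:ℝ)^2 ≤ (8:ℝ)^(n*m) := pow_le_pow_right₀ (by norm_num) (by nlinarith)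
  norm_num at h9
  rw [abs_le]
  unfold V
  constructor <;> nlinarith

lemma V_diag (n : ℕ) (hn : 3 ≤ n) : (8:ℝ)^(n*n) * (48/125) ≤ V n n := by
  have h1 := WW n n (by omega) (by omega)
  have h2 : (n + n) + 3 ≤ n * n := by nlinarith
  have h3 : (8:ℝ)^((n+n)+3) ≤ (8:ℝ)^(n*n) := pow_le_pow_right₀ (by norm_num) h2
  rw [pow_add _ (n+n) 3] at h3
  norm_num at h3
  have h4 := C_lo (n*n)
  have h8 : o n * o n ≤ 1 := by nlinarith [o_nonneg n, o_le n]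
  have h9 : (8:ℝ)^3 ≤ (8:ℝ)^(n*n) := pow_le_pow_right₀ (by norm_num) (by nlinarith)
  norm_num at h9
  unfold V
  nlinarith

lemma o_two : o 2 = 0 := by simp [o]
lemma o_one : o 1 = 1 := by simp [o]
lemma o_zero : o 0 = 0 := by simp [o]

lemma V_22 : (4096:ℝ) * (24/125) ≤ V 2 2 := by
  unfold V W C
  rw [o_two]
  norm_num

lemma key (n j : ℕ) : ((8:ℝ)^(n*(n+j+1)))^2 ≤
    ((9/25) * ((1:ℝ)/16)^j)^2 * ((8:ℝ)^(n*n) * (8:ℝ)^((n+j+1)*(n+j+1))) := by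
  have e1 : (8:ℝ)^(n*n) * (8:ℝ)^((n+j+1)*(n+j+1)) =
      ((8:ℝ)^(n*(n+j+1)))^2 * (8 * 64^j * 8^(j*j)) := by
    rw [← pow_mul, ← pow_add]
    have : (64:ℝ)^j = 8^(2*j) := by rw [pow_mul]; norm_num
    rw [this]
    have e : (8:ℝ) * 8^(2*j) * 8^(j*j) = 8^(1+2*j+j*j) := by
      rw [pow_add, pow_add, pow_one]
    rw [e, ← pow_add]
    congr 1
    ring
  have e2 : (((9:ℝ)/25) * ((1:ℝ)/16)^j)^2 = (81/625) * (1/256)^j := by
    rw [mul_pow, ← pow_mul, mul_comm j 2, pow_mul]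
    norm_num
  rw [e1, e2]
  have h1 : (4:ℝ)^j ≤ 8^(j*j) := by
    calc (4:ℝ)^j ≤ 8^j := pow_le_pow_left₀ (by norm_num) (by norm_num) j
      _ ≤ 8^(j*j) := pow_le_pow_right₀ (by norm_num) (Nat.le_mul_self j)
  have h2 : (1/256:ℝ)^j * 64^j * 4^j = 1 := by
    rw [← mul_pow, ← mul_pow]; norm_num
  have h3 : (1:ℝ) ≤ (81/625) * (1/256)^j * (8 * 64^j * 8^(j*j)) := by
    have h4 : (1/256:ℝ)^j * 64^j * 4^j ≤ (1/256:ℝ)^j * 64^j * 8^(j*j) :=
      mul_le_mul_of_nonneg_left h1 (by positivity)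
    rw [h2] at h4
    nlinarith
  have h5 : (0:ℝ) ≤ ((8:ℝ)^(n*(n+j+1)))^2 := by positivity
  calc ((8:ℝ)^(n*(n+j+1)))^2 = ((8:ℝ)^(n*(n+j+1)))^2 * 1 := by ring
    _ ≤ ((8:ℝ)^(n*(n+j+1)))^2 * ((81/625) * (1/256)^j * (8 * 64^j * 8^(j*j))) :=
      mul_le_mul_of_nonneg_left h3 h5
    _ = _ := by ring

lemma key' (k l : ℕ) (hkl : k ≠ l) : ((8:ℝ)^((k+2)*(l+2)))^2 ≤
    (t k l)^2 * ((8:ℝ)^((k+2)*(k+2)) * (8:ℝ)^((l+2)*(l+2))) := by
  rcases Nat.lt_or_gt_of_ne hkl with h | h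
  · obtain ⟨j, rfl⟩ := Nat.exists_eq_add_of_lt h
    have e : t k (k+j+1) = (9/25) * ((1:ℝ)/16)^j := by
      unfold t
      rw [if_pos (by omega), if_neg (by omega), add_zero]
      congr 2
      omega
    rw [e]
    have := key (k+2) j
    have e3 : k + j + 1 + 2 = k + 2 + j + 1 := by ring
    rw [e3]
    exact this
  · obtain ⟨j, rfl⟩ := Nat.exists_eq_add_of_lt h
    have e : t (l+j+1) l = (9/25) * ((1:ℝ)/16)^j := by
      unfold t
      rw [if_neg (by omega), if_pos (by omega), zero_add]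
      congr 2
      omega
    rw [e]
    have := key (l+2) j
    have e3 : l + j + 1 + 2 = l + 2 + j + 1 := by ring
    rw [e3, mul_comm (l+2+j+1) (l+2)]
    rw [mul_comm ((8:ℝ)^((l+2+j+1)*(l+2+j+1)))]
    exact this

lemma natKer (N : ℕ) (e : ℕ → ℝ) :
    0 ≤ ∑ k ∈ Finset.range N, ∑ l ∈ Finset.range N, e k * e l * V (k+2) (l+2) := by
  apply dd N (fun k l => V (k+2) (l+2)) (fun k => (8:ℝ)^((k+2)*(k+2))) e
  · intro k l hkl
    have h1 := amgm ((8:ℝ)^((k+2)*(l+2))) ((8:ℝ)^((k+2)*(k+2))) ((8:ℝ)^((l+2)*(l+2)))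
      (t k l) (e k) (e l) (by positivity) (by positivity) (by positivity) (t_nonneg k l)
      (key' k l hkl)
    have h2 := V_abs (k+2) (l+2) (by omega) (by omega)
    have h3 : |e k * e l * V (k+2) (l+2)| ≤ |e k * e l| * ((8:ℝ)^((k+2)*(l+2))/2) := by
      rw [abs_mul]
      exact mul_le_mul_of_nonneg_left h2 (abs_nonneg _)
    have h4 := neg_abs_le (e k * e l * V (k+2) (l+2))
    linarith
  · intro k
    rcases Nat.eq_zero_or_pos k with h | h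
    · subst h
      have h1 := row_sum_zero N
      have h2 := V_22
      have h3 : 0 ≤ e 0 ^2 := sq_nonneg _
      norm_num
      have h4 : (4096:ℝ) * (∑ l ∈ Finset.range N, t 0 l)/2 ≤ V 2 2 := by linarith
      have h5 := mul_le_mul_of_nonneg_right h4 h3
      linarith
    · have h1 := row_sum N k
      have h2 := V_diag (k+2) (by omega)
      have h3 : 0 ≤ e k ^2 := sq_nonneg _
      have h6 : (0:ℝ) ≤ (8:ℝ)^((k+2)*(k+2)) := by positivity
      have h4 : (8:ℝ)^((k+2)*(k+2)) * (∑ l ∈ Finset.range N, t k l)/2 ≤ V (k+2) (k+2) := by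
        have := mul_le_mul_of_nonneg_left h1 h6
        linarith
      have h5 := mul_le_mul_of_nonneg_right h4 h3
      linarith

lemma natPlus (N : ℕ) (e : ℕ → ℝ) :
    0 ≤ ∑ n ∈ Finset.range (N+2), ∑ m ∈ Finset.range (N+2),
      e n * e m * (C (n*m) + 1 - 2 * o n * o m) := by
  have hB := natKer N (fun k => e (k+2))
  have E1 : ∑ k ∈ Finset.range N, ∑ l ∈ Finset.range N,
      e (k+2) * e (l+2) * (C ((k+2)*(l+2)) + 1 - 2 * o (k+2) * o (l+2)) =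
      (∑ k ∈ Finset.range N, ∑ l ∈ Finset.range N, e (k+2) * e (l+2) * V (k+2) (l+2)) +
      2 * ((∑ k ∈ Finset.range N, e (k+2)) * (∑ l ∈ Finset.range N, e (l+2))) +
      (16/17) * ((∑ k ∈ Finset.range N, e (k+2) * W (k+2)) *
        (∑ l ∈ Finset.range N, e (l+2) * W (l+2))) := by
    rw [Finset.sum_mul_sum, Finset.sum_mul_sum, Finset.mul_sum, Finset.mul_sum,
      ← Finset.sum_add_distrib, ← Finset.sum_add_distrib]
    apply Finset.sum_congr rfl; intro k _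
    rw [Finset.mul_sum, Finset.mul_sum, ← Finset.sum_add_distrib, ← Finset.sum_add_distrib]
    apply Finset.sum_congr rfl; intro l _
    unfold V
    ring
  have E2 : ∑ k ∈ Finset.range N, e (k+2) * e 1 * (C ((k+2)*1) + 1 - 2 * o (k+2) * o 1) =
      e 1 * ((∑ k ∈ Finset.range N, e (k+2) * W (k+2)) + 2 * (∑ k ∈ Finset.range N, e (k+2))) := by
    rw [Finset.mul_sum, ← Finset.sum_add_distrib, Finset.mul_sum]
    apply Finset.sum_congr rfl; intro k _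
    rw [mul_one, o_one]
    unfold W
    ring
  have E2' : ∑ k ∈ Finset.range N, e 1 * e (k+2) * (C (1*(k+2)) + 1 - 2 * o 1 * o (k+2)) =
      e 1 * ((∑ k ∈ Finset.range N, e (k+2) * W (k+2)) + 2 * (∑ k ∈ Finset.range N, e (k+2))) := by
    rw [← E2]
    apply Finset.sum_congr rfl; intro k _
    rw [one_mul, mul_one]
    ring
  have C0 : C 0 = 1 := by unfold C; norm_num
  have C1 : C 1 = 65/16 := by unfold C; norm_num
  have E3 : ∑ k ∈ Finset.range N, e (k+2) * e 0 * (C ((k+2)*0) + 1 - 2 * o (k+2) * o 0) =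
      2 * e 0 * (∑ k ∈ Finset.range N, e (k+2)) := by
    rw [Finset.mul_sum]
    apply Finset.sum_congr rfl; intro k _
    rw [mul_zero, o_zero, C0]
    ring
  have E3' : ∑ k ∈ Finset.range N, e 0 * e (k+2) * (C (0*(k+2)) + 1 - 2 * o 0 * o (k+2)) =
      2 * e 0 * (∑ k ∈ Finset.range N, e (k+2)) := by
    rw [Finset.mul_sum]
    apply Finset.sum_congr rfl; intro k _
    rw [zero_mul, o_zero, C0]
    ring
  simp only [Finset.sum_range_succ', Finset.sum_add_distrib, zero_add,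
    show ∀ k : ℕ, k + 1 + 1 = k + 2 from fun k => rfl]
  rw [E1, E2, E2', E3, E3']
  simp only [mul_one, mul_zero, C0, C1, o_zero, o_one]
  set A := ∑ k ∈ Finset.range N, e (k+2)
  set L := ∑ k ∈ Finset.range N, e (k+2) * W (k+2)
  nlinarith [sq_nonneg (A + e 0 + e 1), sq_nonneg (L + (17/16) * e 1)]

end Pool.Agent.V1155.IntPsd
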