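import Pool.Agent.V1155.IntPsdC

namespace Pool.Agent.V1155.IntPsd

open Matrix

/-- the label kernel on absolute values -/
noncomputable def MC (N : ℕ) : Matrix (Fin (N+2)) (Fin (N+2)) ℝ :=
  fun n m => C ((n:ℕ)*(m:ℕ)) + 1 - 2 * o (n:ℕ) * o (m:ℕ)

lemma MC_psd (N : ℕ) : (MC N).PosSemidef := by
  apply psd_of
  · intro i j
    unfold MC
    rw [mul_comm (i:ℕ) (j:ℕ)]
    ring
  · intro x
    have h := natPlus N (fun n => if hn : n < N+2 then x ⟨n, hn⟩ else 0)
    rw [Finset.sum_range] at h
    simp only [Finset.sum_range, Fin.is_lt, dif_pos, Fin.eta] at h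
    exact h

lemma C_natAbs (m : ℤ) : C m.natAbs = ((8:ℝ)^m + (8:ℝ)^(-m))/2 := by
  unfold C
  rcases Int.natAbs_eq m with h | h
  · rw [h]
    simp only [Int.natAbs_natCast, zpow_natCast, _root_.zpow_neg]
  · rw [h]
    simp only [Int.natAbs_neg, Int.natAbs_natCast, zpow_natCast, _root_.zpow_neg, inv_inv]
    ring

lemma absKer {ι : Type*} [Fintype ι] (a : ι → ℤ) (x : ι → ℝ) :
    0 ≤ ∑ i, ∑ j, x i * x j *
      (((8:ℝ)^(a i * a j) + (8:ℝ)^(-(a i * a j)))/2 + (-1:ℝ)^(a i * a j)) := by
  classical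
  have hb : ∀ i, (a i).natAbs < (∑ i, (a i).natAbs) + 2 := by
    intro i
    have := Finset.single_le_sum (f := fun i => (a i).natAbs) (fun i _ => Nat.zero_le _)
      (Finset.mem_univ i)
    omega
  have h := psd_to ((MC_psd (∑ i, (a i).natAbs)).submatrix
    (fun i => (⟨(a i).natAbs, hb i⟩ : Fin ((∑ i, (a i).natAbs) + 2)))) x
  have e : ∀ i j, ((8:ℝ)^(a i * a j) + (8:ℝ)^(-(a i * a j)))/2 + (-1:ℝ)^(a i * a j) =
      (MC (∑ i, (a i).natAbs)).submatrix
    (fun i => (⟨(a i).natAbs, hb i⟩ : Fin ((∑ i, (a i).natAbs) + 2)))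
    (fun i => (⟨(a i).natAbs, hb i⟩ : Fin ((∑ i, (a i).natAbs) + 2))) i j := by
    intro i j
    simp only [submatrix_apply, MC]
    rw [← C_natAbs, Int.natAbs_mul, neg_one_zpow_eq]
    ring
  simp only [e]
  exact h

lemma plusKer {ι : Type*} [Fintype ι] (a : ι → ℤ) (x : ι → ℝ) :
    0 ≤ ∑ i, ∑ j, x i * x j * ((8:ℝ)^(a i * a j) + (-1:ℝ)^(a i * a j)) := by
  have h1 := absKer a x
  have h2 := oddKer a x
  have e : ∑ i, ∑ j, x i * x j * ((8:ℝ)^(a i * a j) + (-1:ℝ)^(a i * a j)) =
      (∑ i, ∑ j, x i * x j *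
      (((8:ℝ)^(a i * a j) + (8:ℝ)^(-(a i * a j)))/2 + (-1:ℝ)^(a i * a j))) +
      (1/2) * (∑ i, ∑ j, x i * x j * ((8:ℝ)^(a i * a j) - (8:ℝ)^(-(a i * a j)))) := by
    rw [Finset.mul_sum, ← Finset.sum_add_distrib]
    apply Finset.sum_congr rfl; intro i _
    rw [Finset.mul_sum, ← Finset.sum_add_distrib]
    apply Finset.sum_congr rfl; intro j _
    ring
  rw [e]
  linarith

lemma tensor (n d : ℕ) : ∀ (u : Fin n → Fin d → ℤ),
    (Matrix.of fun i j => (8:ℝ)^(∑ s, u i s * u j s) +
      (-1:ℝ)^(∑ s, u i s * u j s)).PosSemidef ∧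
    (Matrix.of fun i j => (8:ℝ)^(∑ s, u i s * u j s) -
      (-1:ℝ)^(∑ s, u i s * u j s)).PosSemidef := by
  induction d with
  | zero =>
    intro u
    constructor
    · apply psd_of
      · intro i j; simp
      · intro x
        simp only [Finset.univ_eq_empty, Finset.sum_empty, zpow_zero, of_apply]
        have : ∑ i, ∑ j, x i * x j * ((1:ℝ) + 1) = 2 * (∑ i, x i)^2 := by
          rw [sq, Finset.sum_mul_sum, Finset.mul_sum]
          apply Finset.sum_congr rfl; intro i _
          rw [Finset.mul_sum]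
          apply Finset.sum_congr rfl; intro j _
          ring
        rw [this]
        positivity
    · apply psd_of
      · intro i j; simp
      · intro x
        simp only [Finset.univ_eq_empty, Finset.sum_empty, zpow_zero, of_apply, sub_self,
          mul_zero, Finset.sum_const_zero, le_refl]
  | succ d ih =>
    intro u
    obtain ⟨hP, hM⟩ := ih (fun i s => u i s.succ)
    have hP1 : (Matrix.of fun i j : Fin n => (8:ℝ)^(u i 0 * u j 0) +
        (-1:ℝ)^(u i 0 * u j 0)).PosSemidef := by
      apply psd_of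
      · intro i j; simp only [of_apply]; rw [mul_comm (u i 0)]
      · intro x
        exact plusKer (fun i => u i 0) x
    have hM1 : (Matrix.of fun i j : Fin n => (8:ℝ)^(u i 0 * u j 0) -
        (-1:ℝ)^(u i 0 * u j 0)).PosSemidef := by
      apply psd_of
      · intro i j; simp only [of_apply]; rw [mul_comm (u i 0)]
      · intro x
        exact minusKer (fun i => u i 0) x
    have hsym : ∀ i j : Fin n, ∑ s, u i s * u j s = ∑ s, u j s * u i s := by
      intro i j
      apply Finset.sum_congr rfl; intro s _; ring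
    constructor
    · apply psd_of
      · intro i j; simp only [of_apply]; rw [hsym]
      · intro x
        have h := psd_to ((hP1.hadamard hP).add (hM1.hadamard hM)) x
        have e : ∑ i, ∑ j, x i * x j * (Matrix.of fun i j => (8:ℝ)^(∑ s, u i s * u j s) +
            (-1:ℝ)^(∑ s, u i s * u j s)) i j = (1/2) * ∑ i, ∑ j, x i * x j *
            (((Matrix.of fun i j : Fin n => (8:ℝ)^(u i 0 * u j 0) + (-1:ℝ)^(u i 0 * u j 0)).hadamard
              (Matrix.of fun i j => (8:ℝ)^(∑ s : Fin d, u i s.succ * u j s.succ) +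
                (-1:ℝ)^(∑ s : Fin d, u i s.succ * u j s.succ)) +
              (Matrix.of fun i j : Fin n => (8:ℝ)^(u i 0 * u j 0) - (-1:ℝ)^(u i 0 * u j 0)).hadamard
              (Matrix.of fun i j => (8:ℝ)^(∑ s : Fin d, u i s.succ * u j s.succ) -
                (-1:ℝ)^(∑ s : Fin d, u i s.succ * u j s.succ))) i j) := by
          rw [Finset.mul_sum]
          apply Finset.sum_congr rfl; intro i _
          rw [Finset.mul_sum]
          apply Finset.sum_congr rfl; intro j _
          simp only [of_apply, Matrix.add_apply, hadamard_apply, Fin.sum_univ_succ]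
          rw [zpow_add₀ (by norm_num), zpow_add₀ (by norm_num)]
          ring
        rw [e]
        linarith
    · apply psd_of
      · intro i j; simp only [of_apply]; rw [hsym]
      · intro x
        have h := psd_to ((hP1.hadamard hM).add (hM1.hadamard hP)) x
        have e : ∑ i, ∑ j, x i * x j * (Matrix.of fun i j => (8:ℝ)^(∑ s, u i s * u j s) -
            (-1:ℝ)^(∑ s, u i s * u j s)) i j = (1/2) * ∑ i, ∑ j, x i * x j *
            (((Matrix.of fun i j : Fin n => (8:ℝ)^(u i 0 * u j 0) + (-1:ℝ)^(u i 0 * u j 0)).hadamard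
              (Matrix.of fun i j => (8:ℝ)^(∑ s : Fin d, u i s.succ * u j s.succ) -
                (-1:ℝ)^(∑ s : Fin d, u i s.succ * u j s.succ)) +
              (Matrix.of fun i j : Fin n => (8:ℝ)^(u i 0 * u j 0) - (-1:ℝ)^(u i 0 * u j 0)).hadamard
              (Matrix.of fun i j => (8:ℝ)^(∑ s : Fin d, u i s.succ * u j s.succ) +
                (-1:ℝ)^(∑ s : Fin d, u i s.succ * u j s.succ))) i j) := by
          rw [Finset.mul_sum]
          apply Finset.sum_congr rfl; intro i _
          rw [Finset.mul_sum]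
          apply Finset.sum_congr rfl; intro j _
          simp only [of_apply, Matrix.add_apply, hadamard_apply, Fin.sum_univ_succ]
          rw [zpow_add₀ (by norm_num), zpow_add₀ (by norm_num)]
          ring
        rw [e]
        linarith

end Pool.Agent.V1155.IntPsd
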