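import Pool.Agent.V1155.SL

set_option autoImplicit false

/-!
A local commutative ring `A`, whose maximal ideal is additively generated by elements `b` with
`b φⁿ(b) = 0` for all `n ≠ 0`, has a local skew Laurent series ring.
-/

namespace Pool.Agent.V1155

universe u

/-- Quasi-regular left multiples. -/
def Jp {R : Type u} [Ring R] (x : R) : Prop := ∀ r : R, IsUnit (1 + r * x)

theorem Jp.zero {R : Type u} [Ring R] : Jp (0 : R) := fun r => by
  rw [mul_zero, add_zero]; exact isUnit_one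

theorem Jp.unit_add {R : Type u} [Ring R] {x g : R} (hx : Jp x) (hg : IsUnit g) :
    IsUnit (g + x) := by
  obtain ⟨u, rfl⟩ := hg
  have : (u : R) + x = u * (1 + (↑u⁻¹ : R) * x) := by
    rw [mul_add, mul_one, ← mul_assoc, Units.mul_inv, one_mul]
  rw [this]
  exact u.isUnit.mul (hx _)

theorem Jp.add {R : Type u} [Ring R] {x y : R} (hx : Jp x) (hy : Jp y) : Jp (x + y) := by
  intro r
  rw [mul_add, ← add_assoc]
  have h1 : Jp (r * y) := fun s => by rw [← mul_assoc]; exact hy _
  exact h1.unit_add (hx r)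

theorem Jp.mul_left {R : Type u} [Ring R] {x : R} (hx : Jp x) (s : R) : Jp (s * x) := fun r => by
  rw [← mul_assoc]; exact hx _

theorem Jp.neg {R : Type u} [Ring R] {x : R} (hx : Jp x) : Jp (-x) := fun r => by
  rw [mul_neg, ← neg_mul]; exact hx _

theorem Jp.sum {R : Type u} [Ring R] {ι : Type*} (s : Finset ι) (f : ι → R)
    (h : ∀ i ∈ s, Jp (f i)) : Jp (∑ i ∈ s, f i) := by
  classical
  induction s using Finset.induction_on with
  | empty => rw [Finset.sum_empty]; exact Jp.zero
  | insert a s ha ih =>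
    rw [Finset.sum_insert ha]
    exact (h a (Finset.mem_insert_self a s)).add (ih fun i hi => h i (Finset.mem_insert_of_mem hi))

section unit

variable {A : Type u} [Ring A] {φ : A ≃+* A}

/-- Elements with no coefficients below `m`. -/
def oGe (m : ℤ) (r : SL A φ) : Prop := ∀ i < m, r.co i = 0

theorem oGe_mul {m l : ℤ} {r s : SL A φ} (hr : oGe m r) (hs : oGe l s) :
    oGe (m + l) (r * s) := SL.mul_bdd r s hr hs

theorem oGe_pow {g : SL A φ} (hg : oGe 1 g) (n : ℕ) : oGe n (g ^ n) := by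
  induction n with
  | zero =>
    intro i hi
    rw [pow_zero, SL.one_co, if_neg (by omega)]
  | succ n ih =>
    rw [pow_succ]
    have := oGe_mul ih hg
    push_cast
    exact this

/-- Partial sums of the geometric series. -/
noncomputable def geo (g : SL A φ) (m : ℕ) : SL A φ := ∑ j ∈ Finset.range m, g ^ j

theorem geo_co {g : SL A φ} (hg : oGe 1 g) {m l : ℕ} (n : ℤ) (hm : n < m) (hl : n < l) :
    (geo g m).co n = (geo g l).co n := by
  wlog hml : m ≤ l generalizing m l
  · exact (this hl hm (by omega)).symm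
  obtain ⟨d, rfl⟩ := Nat.exists_eq_add_of_le hml
  have : geo g (m + d) = geo g m + ∑ j ∈ Finset.range d, g ^ (m + j) :=
    Finset.sum_range_add _ _ _
  rw [this, SL.add_co, SL.sum_co, Finset.sum_eq_zero, add_zero]
  intro j _
  exact oGe_pow hg (m + j) n (by push_cast; omega)

theorem isUnit_one_sub {g : SL A φ} (hg : oGe 1 g) : IsUnit (1 - g) := by
  let h : SL A φ := ⟨fun n => (geo g (n.toNat + 1)).co n, 0, fun i hi => by
    rw [geo_co hg (l := 0) i (by omega) (by omega)]
    simp [geo]⟩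
  have hh : ∀ m : ℕ, oGe m (h - geo g m) := by
    intro m i hi
    rw [SL.sub_co, sub_eq_zero]
    exact geo_co hg i (by omega) hi
  have hg0 : oGe 0 (1 - g) := by
    intro i hi
    rw [SL.sub_co, SL.one_co, if_neg (by omega), hg i (by omega), sub_zero]
  have e1 : ∀ m, (1 - g) * geo g m = 1 - g ^ m := fun m => by
    unfold geo
    exact mul_neg_geom_sum g m
  have e2 : ∀ m, geo g m * (1 - g) = 1 - g ^ m := fun m => geom_sum_mul_neg g m
  have r1 : (1 - g) * h = 1 := by
    ext n
    have : (1 - g) * h = (1 - g) * geo g (n.toNat + 1) + (1 - g) * (h - geo g (n.toNat + 1)) := by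
      rw [← mul_add]; congr 1; abel
    rw [this, e1, SL.add_co, SL.sub_co, oGe_pow hg (n.toNat + 1) n (by omega),
      oGe_mul hg0 (hh (n.toNat + 1)) n (by omega), sub_zero, add_zero]
  have r2 : h * (1 - g) = 1 := by
    ext n
    have : h * (1 - g) = geo g (n.toNat + 1) * (1 - g) + (h - geo g (n.toNat + 1)) * (1 - g) := by
      rw [← add_mul]; congr 1; abel
    rw [this, e2, SL.add_co, SL.sub_co, oGe_pow hg (n.toNat + 1) n (by omega),
      oGe_mul (hh (n.toNat + 1)) hg0 n (by omega), sub_zero, add_zero]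
  exact ⟨⟨1 - g, h, r1, r2⟩, rfl⟩

theorem isUnit_one_add {g : SL A φ} (hg : oGe 1 g) : IsUnit (1 + g) := by
  have : IsUnit (1 - (-g)) := isUnit_one_sub (fun i hi => by rw [SL.neg_co, hg i hi, neg_zero])
  rwa [sub_neg_eq_add] at this

theorem isUnit_lead {r : SL A φ} (i : ℤ) (hr : oGe i r) (hu : IsUnit (r.co i)) : IsUnit r := by
  obtain ⟨c, hc⟩ := hu
  let a : SL A φ := SL.mono i c
  let b : SL A φ := SL.mono (-i) (SL.pw φ (-i) (↑c⁻¹ : A))
  have hab : a * b = 1 := by
    rw [SL.mono_mul_mono, SL.pw_pw_neg, Units.mul_inv, add_neg_cancel]; rfl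
  have hba : b * a = 1 := by
    rw [SL.mono_mul_mono, ← map_mul, Units.inv_mul, map_one, neg_add_cancel]; rfl
  have hg : oGe 1 (b * r - 1) := by
    intro n hn
    rw [SL.sub_co, SL.mono_mul_co, SL.one_co]
    by_cases h0 : n = 0
    · subst h0
      rw [if_pos rfl, zero_sub, neg_neg, ← map_mul, ← hc, Units.inv_mul, map_one, sub_self]
    · rw [if_neg h0, hr _ (by omega), map_zero, mul_zero, sub_zero]
  have h1 : IsUnit (b * r) := by
    have := isUnit_one_add hg
    rwa [add_sub_cancel] at this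
  have h2 : r = a * (b * r) := by rw [← mul_assoc, hab, one_mul]
  rw [h2]
  exact IsUnit.mul ⟨⟨a, b, hab, hba⟩, rfl⟩ h1

/-- The part of a series below `m`. -/
def lowPart (r : SL A φ) (m : ℤ) : SL A φ := ⟨fun n => if n < m then r.co n else 0, by
  obtain ⟨a, ha⟩ := r.bdd
  exact ⟨a, fun i hi => by rw [ha i hi]; simp⟩⟩

theorem lowPart_eq (r : SL A φ) (m a : ℤ) (ha : oGe a r) :
    lowPart r m = ∑ i ∈ Finset.Ico a m, SL.mono i (r.co i) := by
  ext n
  rw [SL.sum_co]
  change (if n < m then r.co n else 0) = _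
  by_cases h : n < m ∧ a ≤ n
  · rw [if_pos h.1, Finset.sum_eq_single n]
    · rw [SL.mono_co, if_pos rfl]
    · intro b _ hb
      rw [SL.mono_co, if_neg (Ne.symm hb)]
    · intro hn
      exact absurd (Finset.mem_Ico.2 ⟨h.2, h.1⟩) hn
  · rw [Finset.sum_eq_zero]
    · by_cases h1 : n < m
      · rw [if_pos h1, ha n (by omega)]
      · rw [if_neg h1]
    · intro b hb
      rw [Finset.mem_Ico] at hb
      rw [SL.mono_co, if_neg (by omega)]

end unit

section comm

variable {A : Type u} [CommRing A] {φ : A ≃+* A}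

theorem mono_mul_comm (a b : A) (n : ℤ) (r : SL A φ) :
    (SL.mono 0 a * r * SL.mono 0 b).co n = a * r.co n * SL.pw φ n b := by
  rw [SL.mul_mono_co, SL.mono_mul_co]
  simp only [sub_zero, SL.pw_zero]

/-- The key computation. -/
theorem Jp_C {a : A} (ha : ∀ n : ℤ, n ≠ 0 → a * SL.pw φ n a = 0) (hu : ∀ z, IsUnit (1 + a * z)) :
    Jp (SL.C a : SL A φ) := by
  intro r
  obtain ⟨w, hw⟩ := hu (r.co 0)
  have hw1 : (1 + a * r.co 0) * ↑w⁻¹ = 1 := by rw [← hw, Units.mul_inv]
  obtain ⟨v, hv⟩ : ∃ v : A, v = ↑w⁻¹ := ⟨_, rfl⟩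
  rw [← hv] at hw1
  have key : ∀ x y : A, (SL.C (a * x) * r * SL.C (a * y) : SL A φ) =
      SL.C (a * x * r.co 0 * (a * y)) := by
    intro x y
    ext n
    rw [SL.C_apply, SL.C_apply, SL.C_apply, mono_mul_comm, SL.mono_co]
    by_cases h : n = 0
    · subst h
      rw [if_pos rfl, SL.pw_zero]
    · rw [if_neg h, map_mul]
      calc a * x * r.co n * (SL.pw φ n a * SL.pw φ n y)
          = (a * SL.pw φ n a) * (x * r.co n * SL.pw φ n y) := by ring
        _ = 0 := by rw [ha n h, zero_mul]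
  have k1 := key 1 v
  have k2 := key v 1
  rw [mul_one] at k1 k2
  have e1 : (1 + r * SL.C a) * (1 - r * SL.C (a * v)) = (1 : SL A φ) := by
    calc (1 + r * SL.C a) * (1 - r * SL.C (a * v))
        = 1 + r * (SL.C a - SL.C (a * v) - SL.C a * r * SL.C (a * v)) := by noncomm_ring
      _ = 1 + r * SL.C (a - a * v - a * r.co 0 * (a * v)) := by
          rw [k1, map_sub, map_sub]
      _ = 1 := by
          have : a - a * v - a * r.co 0 * (a * v) = a * (1 - (1 + a * r.co 0) * v) := by ring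
          rw [this, hw1]; simp
  have e2 : (1 - r * SL.C (a * v)) * (1 + r * SL.C a) = (1 : SL A φ) := by
    calc (1 - r * SL.C (a * v)) * (1 + r * SL.C a)
        = 1 + r * (SL.C a - SL.C (a * v) - SL.C (a * v) * r * SL.C a) := by noncomm_ring
      _ = 1 + r * SL.C (a - a * v - a * v * r.co 0 * a) := by
          rw [k2, map_sub, map_sub]
      _ = 1 := by
          have : a - a * v - a * v * r.co 0 * a = a * (1 - (1 + a * r.co 0) * v) := by ring
          rw [this, hw1]; simp
  exact ⟨⟨1 + r * SL.C a, 1 - r * SL.C (a * v), e1, e2⟩, rfl⟩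

variable [IsLocalRing A]

/-- The maximal ideal is additively generated by elements orthogonal to their translates. -/
def Wand (φ : A ≃+* A) : Prop := ∀ a ∈ IsLocalRing.maximalIdeal A,
  a ∈ AddSubgroup.closure {b : A | b ∈ IsLocalRing.maximalIdeal A ∧
    ∀ n : ℤ, n ≠ 0 → b * SL.pw φ n b = 0}

theorem Jp_C_of_mem (hφ : Wand φ) {a : A} (ha : a ∈ IsLocalRing.maximalIdeal A) :
    Jp (SL.C a : SL A φ) := by
  have h := hφ a ha
  induction h using AddSubgroup.closure_induction with
  | mem x hx =>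
    refine Jp_C hx.2 fun z => ?_
    by_contra hcon
    have h1 : (1 + x * z) ∈ IsLocalRing.maximalIdeal A := hcon
    have h2 : x * z ∈ IsLocalRing.maximalIdeal A := Ideal.mul_mem_right _ _ hx.1
    have h3 := Ideal.sub_mem _ h1 h2
    rw [add_sub_cancel_right] at h3
    exact h3 isUnit_one
  | zero => rw [map_zero]; exact Jp.zero
  | add x y hx hy ihx ihy =>
    have hx' : x ∈ IsLocalRing.maximalIdeal A :=
      (AddSubgroup.closure_le (K := (IsLocalRing.maximalIdeal A).toAddSubgroup)).2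
        (fun b hb => hb.1) hx
    have hy' : y ∈ IsLocalRing.maximalIdeal A :=
      (AddSubgroup.closure_le (K := (IsLocalRing.maximalIdeal A).toAddSubgroup)).2
        (fun b hb => hb.1) hy
    rw [map_add]; exact (ihx hx').add (ihy hy')
  | neg x hx ihx =>
    have hx' : x ∈ IsLocalRing.maximalIdeal A :=
      (AddSubgroup.closure_le (K := (IsLocalRing.maximalIdeal A).toAddSubgroup)).2
        (fun b hb => hb.1) hx
    rw [map_neg]; exact (ihx hx').neg

theorem Jp_mono (hφ : Wand φ) {a : A} (ha : a ∈ IsLocalRing.maximalIdeal A) (i : ℤ) :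
    Jp (SL.mono i a : SL A φ) := by
  have h : (SL.mono i a : SL A φ) = SL.mono i 1 * SL.C (SL.pw φ (-i) a) := by
    rw [SL.C_apply, SL.mono_mul_mono, SL.pw_pw_neg, one_mul, add_zero]
  rw [h]
  refine (Jp_C_of_mem hφ ?_).mul_left _
  intro hu
  apply ha
  have := hu.map (SL.pw φ i)
  rwa [SL.pw_pw_neg] at this

theorem isUnit_of_co (hφ : Wand φ) {r : SL A φ} (hr : ∃ i, IsUnit (r.co i)) : IsUnit r := by
  obtain ⟨a, ha⟩ := r.bdd
  -- the least index with a unit coefficient
  have hex : ∃ n : ℕ, IsUnit (r.co (a + n)) := by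
    obtain ⟨i, hi⟩ := hr
    have : a ≤ i := by
      by_contra h
      rw [ha i (by omega)] at hi
      exact not_isUnit_zero hi
    exact ⟨(i - a).toNat, by
      have h2 : a + ((i - a).toNat : ℤ) = i := by omega
      rw [h2]; exact hi⟩
  classical
  obtain ⟨n, hn, hmin⟩ : ∃ n : ℕ, IsUnit (r.co (a + n)) ∧ ∀ m < n, ¬ IsUnit (r.co (a + m)) :=
    ⟨Nat.find hex, Nat.find_spec hex, fun m hm => Nat.find_min hex hm⟩
  have hlow : Jp (lowPart r (a + n)) := by
    rw [lowPart_eq r (a + n) a ha]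
    refine Jp.sum _ _ fun i hi => Jp_mono hφ ?_ i
    rw [Finset.mem_Ico] at hi
    have := hmin (i - a).toNat (by omega)
    have h2 : a + ((i - a).toNat : ℤ) = i := by omega
    rw [h2] at this
    exact this
  have hhigh : IsUnit (r - lowPart r (a + n)) := by
    refine isUnit_lead (a + n) ?_ ?_
    · intro i hi
      rw [SL.sub_co]
      change r.co i - (if i < a + n then r.co i else 0) = 0
      rw [if_pos hi, sub_self]
    · rw [SL.sub_co]
      change IsUnit (r.co (a + n) - (if a + (n : ℤ) < a + n then r.co (a + n) else 0))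
      rw [if_neg (by omega), sub_zero]
      exact hn
  have := hlow.unit_add hhigh
  rwa [sub_add_cancel] at this

theorem local_SL (hφ : Wand φ) : IsLocalRing (SL A φ) := by
  have : Nontrivial (SL A φ) := ⟨⟨0, 1, fun h => by
    have h1 := congrArg (fun f => f.co 0) h
    simp only [SL.zero_co, SL.one_co, if_pos] at h1
    exact zero_ne_one h1⟩⟩
  refine ⟨fun {a b} hab => ?_⟩
  have h1 : a.co 0 + b.co 0 = 1 := by
    have := congrArg (fun f => f.co 0) hab
    simpa [SL.one_co] using this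
  rcases IsLocalRing.isUnit_or_isUnit_of_add_one h1 with h | h
  · exact Or.inl (isUnit_of_co hφ ⟨0, h⟩)
  · exact Or.inr (isUnit_of_co hφ ⟨0, h⟩)

theorem Jp_of_nonunit (hφ : Wand φ) {r : SL A φ} (hr : ¬ IsUnit r) : Jp r := by
  have hm : ∀ i, r.co i ∈ IsLocalRing.maximalIdeal A := fun i hi => hr (isUnit_of_co hφ ⟨i, hi⟩)
  intro s
  refine isUnit_of_co hφ ⟨0, ?_⟩
  have h1 : (s * r).co 0 ∈ IsLocalRing.maximalIdeal A := by
    obtain ⟨a, ha⟩ := s.bdd
    obtain ⟨b, hb⟩ := r.bdd
    rw [SL.mul_co s r 0 ha hb]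
    refine Ideal.sum_mem _ fun i _ => Ideal.mul_mem_left _ _ ?_
    intro hu
    apply hm (0 - i)
    have := hu.map (SL.pw φ (-i))
    rwa [SL.pw_neg_pw] at this
  by_contra hcon
  have h2 : (1 + s * r : SL A φ).co 0 ∈ IsLocalRing.maximalIdeal A := hcon
  rw [SL.add_co, SL.one_co, if_pos rfl] at h2
  have h3 := Ideal.sub_mem _ h2 h1
  rw [add_sub_cancel_right] at h3
  exact h3 isUnit_one

end comm

/-- A ring in which nonunits satisfy `Jp` has a semisimple quotient by its Jacobson radical. -/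
theorem semisimple_quot {R : Type u} [Ring R] (h : ∀ r : R, ¬ IsUnit r → Jp r) :
    IsSemisimpleRing (R ⧸ Ring.jacobson R) := by
  have hu : ∀ x : R ⧸ Ring.jacobson R, x ≠ 0 → IsUnit x := by
    intro x hx
    obtain ⟨r, rfl⟩ := Ideal.Quotient.mk_surjective x
    have hr : IsUnit r := by
      by_contra hr
      apply hx
      rw [Ideal.Quotient.eq_zero_iff_mem, ← Ideal.jacobson_bot, Ideal.mem_jacobson_iff]
      intro y
      obtain ⟨u, hu⟩ := h r hr y
      refine ⟨(↑u⁻¹ : R), ?_⟩
      have : (↑u⁻¹ : R) * y * r + ↑u⁻¹ - 1 = ↑u⁻¹ * (1 + y * r) - 1 := by noncomm_ring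
      rw [this, ← hu, Units.inv_mul, sub_self]
      exact Ideal.zero_mem _
    exact hr.map (Ideal.Quotient.mk (Ring.jacobson R))
  rw [IsSemisimpleRing, isSemisimpleModule_iff]
  refine ⟨fun I => ?_⟩
  by_cases hI : I = ⊥
  · exact ⟨⊤, by rw [hI]; exact isCompl_bot_top⟩
  · have : I = ⊤ := by
      obtain ⟨x, hx, hx0⟩ := Submodule.exists_mem_ne_zero_of_ne_bot hI
      exact Ideal.eq_top_of_isUnit_mem I hx (hu x hx0)
    exact ⟨⊥, by rw [this]; exact isCompl_top_bot⟩

end Pool.Agent.V1155
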