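import Pool.Agent.V1155.MTMain

/-!
Witness points, the odd cycle of overlaps, and injectivity of the two families.
-/

open Set

namespace Pool.Agent.V1155.MT

/-- witness points -/
noncomputable def wp (k l : ℤ) : ℂ := ⟨k + 1 / 14, l + 1 / 14⟩

lemma wp_int (o al be : Bool) (c d k l : ℤ) :
    ∃ U V : ℤ, (loc o al be c d (wp k l)).re = U / 14 ∧ (loc o al be c d (wp k l)).im = V / 14 ∧
      (U % 14 = 1 ∨ U % 14 = 13) ∧ (V % 14 = 1 ∨ V % 14 = 13) := by
  refine ⟨if al then 42 - (if o then 14 * k + 1 - 14 * c else 14 * l + 1 - 14 * d) else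
      (if o then 14 * k + 1 - 14 * c else 14 * l + 1 - 14 * d),
    if be then 14 - (if o then 14 * l + 1 - 14 * d else 14 * k + 1 - 14 * c) else
      (if o then 14 * l + 1 - 14 * d else 14 * k + 1 - 14 * c), ?_, ?_, ?_, ?_⟩
  · cases o <;> cases al <;> simp only [loc, wp, Bool.false_eq_true, if_false, if_true] <;>
      push_cast <;> ring
  · cases o <;> cases be <;> simp only [loc, wp, Bool.false_eq_true, if_false, if_true] <;>
      push_cast <;> ring
  · cases o <;> cases al <;> simp only [Bool.false_eq_true, if_false, if_true] <;> omega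
  · cases o <;> cases be <;> simp only [Bool.false_eq_true, if_false, if_true] <;> omega

lemma wp_genT (k l : ℤ) (i) : wp k l ∉ frontier (τT i) := by
  apply not_frontier (isClosed_τT i)
  rw [τT, interior_pre, interior_PT]
  simp only [Set.mem_preimage, Set.mem_ofPred_eq, PT]
  obtain ⟨U, V, h1, h2, h3, h4⟩ := wp_int (O i.1.1) i.2 (xor i.2 (D i.1.1))
    (X i.1.1 + 6 * i.1.2.1) (Y i.1.1 + 6 * i.1.2.2) k l
  rw [h1, h2]
  rintro ⟨a1, a2, a3⟩
  have b1 : 0 ≤ U := by
    have : (0:ℝ) ≤ U := by linarith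
    exact_mod_cast this
  have b2 : 0 ≤ V := by
    have : (0:ℝ) ≤ V := by linarith
    exact_mod_cast this
  have b3 : U + 3 * V ≤ 42 := by
    have : (U:ℝ) + 3 * V ≤ 42 := by linarith
    exact_mod_cast this
  have c1 : 0 < U := by omega
  have c2 : 0 < V := by omega
  have c3 : U + 3 * V < 42 := by omega
  have d1 : (0:ℝ) < U := by exact_mod_cast c1
  have d2 : (0:ℝ) < V := by exact_mod_cast c2
  have d3 : (U:ℝ) + 3 * V < 42 := by exact_mod_cast c3
  refine ⟨?_, ?_, ?_⟩ <;> linarith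

lemma wp_genR (k l : ℤ) (i) : wp k l ∉ frontier (τR i) := by
  apply not_frontier (isClosed_τR i)
  rw [τR, interior_pre, interior_PR]
  simp only [Set.mem_preimage, Set.mem_ofPred_eq, PR]
  obtain ⟨U, V, h1, h2, h3, h4⟩ := wp_int (O i.1) false false
    (X i.1 + 6 * i.2.1) (Y i.1 + 6 * i.2.2) k l
  rw [h1, h2]
  rintro ⟨a1, a2, a3, a4⟩
  have b1 : 0 ≤ U := by
    have : (0:ℝ) ≤ U := by linarith
    exact_mod_cast this
  have b2 : U ≤ 42 := by
    have : (U:ℝ) ≤ 42 := by linarith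
    exact_mod_cast this
  have b3 : 0 ≤ V := by
    have : (0:ℝ) ≤ V := by linarith
    exact_mod_cast this
  have b4 : V ≤ 14 := by
    have : (V:ℝ) ≤ 14 := by linarith
    exact_mod_cast this
  have c1 : 0 < U := by omega
  have c2 : U < 42 := by omega
  have c3 : 0 < V := by omega
  have c4 : V < 14 := by omega
  have d1 : (0:ℝ) < U := by exact_mod_cast c1
  have d2 : (U:ℝ) < 42 := by exact_mod_cast c2
  have d3 : (0:ℝ) < V := by exact_mod_cast c3
  have d4 : (V:ℝ) < 14 := by exact_mod_cast c4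
  refine ⟨?_, ?_, ?_, ?_⟩ <;> linarith

lemma floor_wp (k l : ℤ) : ⌊(wp k l).re⌋ = k ∧ ⌊(wp k l).im⌋ = l := by
  constructor
  · rw [Int.floor_eq_iff]; simp only [wp]; constructor <;> linarith
  · rw [Int.floor_eq_iff]; simp only [wp]; constructor <;> linarith

lemma wp_setR (k l : ℤ) : {i | wp k l ∈ interior (τR i)} = B k l := by
  have := setR (wp k l) (wp_genR k l)
  rwa [(floor_wp k l).1, (floor_wp k l).2] at this

lemma B_pair (k l : ℤ) (t t' : Fin 24) (h : F k l = {t, t'}) (e1 : (k - X t) / 6 = 0)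
    (e2 : (l - Y t) / 6 = 0) (e3 : (k - X t') / 6 = 0) (e4 : (l - Y t') / 6 = 0) :
    B k l = {(t, 0, 0), (t', 0, 0)} := by
  rw [B_eq, h]
  simp only [Finset.coe_insert, Finset.coe_singleton, Set.image_insert_eq, Set.image_singleton,
    e1, e2, e3, e4]

lemma B0 : B 2 2 = {((7 : Fin 24), (0:ℤ), (0:ℤ)), (8, 0, 0)} :=
  B_pair 2 2 7 8 (by decide +kernel) (by decide +kernel) (by decide +kernel) (by decide +kernel)
    (by decide +kernel)

lemma B1 : B 3 2 = {((8 : Fin 24), (0:ℤ), (0:ℤ)), (19, 0, 0)} :=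
  B_pair 3 2 8 19 (by decide +kernel) (by decide +kernel) (by decide +kernel) (by decide +kernel)
    (by decide +kernel)

lemma B2 : B 3 3 = {((19 : Fin 24), (0:ℤ), (0:ℤ)), (20, 0, 0)} :=
  B_pair 3 3 19 20 (by decide +kernel) (by decide +kernel) (by decide +kernel) (by decide +kernel)
    (by decide +kernel)

lemma B3 : B 3 4 = {((20 : Fin 24), (0:ℤ), (0:ℤ)), (11, 0, 0)} :=
  B_pair 3 4 20 11 (by decide +kernel) (by decide +kernel) (by decide +kernel) (by decide +kernel)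
    (by decide +kernel)

lemma B4 : B 2 4 = {((11 : Fin 24), (0:ℤ), (0:ℤ)), (7, 0, 0)} :=
  B_pair 2 4 11 7 (by decide +kernel) (by decide +kernel) (by decide +kernel) (by decide +kernel)
    (by decide +kernel)

/-- the triangles through a witness point -/
lemma wp_setT (k l : ℤ) (i j : Fin 24 × ℤ × ℤ) (s s' : Bool) (hB : B k l = {i, j})
    (hi : wp k l ∈ interior (τT (i, s))) (hj : wp k l ∈ interior (τT (j, s'))) :
    {x | wp k l ∈ interior (τT x)} = {(i, s), (j, s')} := by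
  have uniq : ∀ (x : Fin 24 × ℤ × ℤ) (a b : Bool), wp k l ∈ interior (τT (x, a)) →
      wp k l ∈ interior (τT (x, b)) → a = b := by
    intro x a b ha hb
    cases a <;> cases b
    · rfl
    · exact (intT_unique _ x ha hb).elim
    · exact (intT_unique _ x hb ha).elim
    · rfl
  ext ⟨x, a⟩
  simp only [Set.mem_ofPred_eq, Set.mem_insert_iff, Set.mem_singleton_iff, Prod.mk.injEq]
  constructor
  · intro h
    have hx := mem_intT _ _ _ h
    rw [(floor_wp k l).1, (floor_wp k l).2, hB] at hx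
    rcases hx with hx | hx
    · subst hx
      exact Or.inl ⟨rfl, uniq _ _ _ h hi⟩
    · have hx : x = j := hx
      subst hx
      exact Or.inr ⟨rfl, uniq _ _ _ h hj⟩
  · rintro (⟨rfl, rfl⟩ | ⟨rfl, rfl⟩)
    · exact hi
    · exact hj

lemma wp_intT (k l : ℤ) (t : Fin 24) (s o d : Bool) (x y : ℤ) (hO : O t = o) (hD : D t = d)
    (hX : X t = x) (hY : Y t = y)
    (h : 0 < (loc o s (xor s d) x y (wp k l)).re ∧ 0 < (loc o s (xor s d) x y (wp k l)).im ∧
      (loc o s (xor s d) x y (wp k l)).re + 3 * (loc o s (xor s d) x y (wp k l)).im < 3) :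
    wp k l ∈ interior (τT ((t, 0, 0), s)) := by
  subst hO hD hX hY
  rw [τT, interior_pre, interior_PT]
  simpa using h

lemma T0a : wp 2 2 ∈ interior (τT ((7, 0, 0), false)) :=
  wp_intT 2 2 7 false false false 2 2 rfl rfl rfl rfl (by simp [loc, wp]; norm_num)

lemma T0b : wp 2 2 ∈ interior (τT ((8, 0, 0), false)) :=
  wp_intT 2 2 8 false true false 2 2 rfl rfl rfl rfl (by simp [loc, wp]; norm_num)

lemma T1a : wp 3 2 ∈ interior (τT ((8, 0, 0), false)) :=
  wp_intT 3 2 8 false true false 2 2 rfl rfl rfl rfl (by simp [loc, wp]; norm_num)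

lemma T1b : wp 3 2 ∈ interior (τT ((19, 0, 0), false)) :=
  wp_intT 3 2 19 false false false 3 1 rfl rfl rfl rfl (by simp [loc, wp]; norm_num)

lemma T2a : wp 3 3 ∈ interior (τT ((19, 0, 0), false)) :=
  wp_intT 3 3 19 false false false 3 1 rfl rfl rfl rfl (by simp [loc, wp]; norm_num)

lemma T2b : wp 3 3 ∈ interior (τT ((20, 0, 0), false)) :=
  wp_intT 3 3 20 false false false 3 3 rfl rfl rfl rfl (by simp [loc, wp]; norm_num)

lemma T3a : wp 3 4 ∈ interior (τT ((20, 0, 0), false)) :=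
  wp_intT 3 4 20 false false false 3 3 rfl rfl rfl rfl (by simp [loc, wp]; norm_num)

lemma T3b : wp 3 4 ∈ interior (τT ((11, 0, 0), true)) :=
  wp_intT 3 4 11 true true true 1 4 rfl rfl rfl rfl (by simp [loc, wp]; norm_num)

lemma T4a : wp 2 4 ∈ interior (τT ((11, 0, 0), true)) :=
  wp_intT 2 4 11 true true true 1 4 rfl rfl rfl rfl (by simp [loc, wp]; norm_num)

lemma T4b : wp 2 4 ∈ interior (τT ((7, 0, 0), false)) :=
  wp_intT 2 4 7 false false false 2 2 rfl rfl rfl rfl (by simp [loc, wp]; norm_num)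

/-- at a point covered by exactly the two tiles `a`, `b`, a subfamily of density one
contains exactly one of them -/
lemma step {ι κ : Type} (τ : ι → Set ℂ) (c : ι → κ) (k : κ) (z : ℂ)
    (hz : ∀ i, z ∉ frontier (τ i)) (a b : ι) (hab : a ≠ b)
    (hs : {i | z ∈ interior (τ i)} = {a, b})
    (h : ∀ z : ℂ, (∀ i : {i // c i = k}, z ∉ frontier (τ i)) →
      {i : {i // c i = k} | z ∈ interior (τ i)}.encard = 1) : c a = k ↔ ¬ c b = k := by
  have h1 := h z (fun i => hz i)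
  rw [Set.encard_eq_one] at h1
  obtain ⟨x, hx⟩ := h1
  have ha : z ∈ interior (τ a) := by
    have : a ∈ {i | z ∈ interior (τ i)} := by rw [hs]; simp
    exact this
  have hb : z ∈ interior (τ b) := by
    have : b ∈ {i | z ∈ interior (τ i)} := by rw [hs]; simp
    exact this
  constructor
  · intro h1 h2
    have m1 : (⟨a, h1⟩ : {i // c i = k}) ∈ {i : {i // c i = k} | z ∈ interior (τ i)} := ha
    have m2 : (⟨b, h2⟩ : {i // c i = k}) ∈ {i : {i // c i = k} | z ∈ interior (τ i)} := hb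
    rw [hx] at m1 m2
    have : (⟨a, h1⟩ : {i // c i = k}) = ⟨b, h2⟩ := by
      rw [Set.mem_singleton_iff] at m1 m2
      rw [m1, m2]
    exact hab (congrArg Subtype.val this)
  · intro h2
    by_contra h1
    have m : x ∈ {i : {i // c i = k} | z ∈ interior (τ i)} := by rw [hx]; simp
    have m' : x.1 ∈ {i | z ∈ interior (τ i)} := m
    rw [hs] at m'
    rcases m' with m' | m'
    · exact h1 (m' ▸ x.2)
    · have m' : x.1 = b := m'
      exact h2 (m' ▸ x.2)

/-- an odd cycle of overlaps prevents a subfamily of density one from containing `a0` -/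
lemma odd_cycle {ι κ : Type} (τ : ι → Set ℂ) (a0 a1 a2 a3 a4 : ι) (z0 z1 z2 z3 z4 : ℂ)
    (g0 : ∀ i, z0 ∉ frontier (τ i)) (g1 : ∀ i, z1 ∉ frontier (τ i))
    (g2 : ∀ i, z2 ∉ frontier (τ i)) (g3 : ∀ i, z3 ∉ frontier (τ i))
    (g4 : ∀ i, z4 ∉ frontier (τ i))
    (s0 : {i | z0 ∈ interior (τ i)} = {a0, a1}) (s1 : {i | z1 ∈ interior (τ i)} = {a1, a2})
    (s2 : {i | z2 ∈ interior (τ i)} = {a2, a3}) (s3 : {i | z3 ∈ interior (τ i)} = {a3, a4})
    (s4 : {i | z4 ∈ interior (τ i)} = {a4, a0})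
    (n0 : a0 ≠ a1) (n1 : a1 ≠ a2) (n2 : a2 ≠ a3) (n3 : a3 ≠ a4) (n4 : a4 ≠ a0)
    (c : ι → κ)
    (h : ∀ z : ℂ, (∀ i : {i // c i = c a0}, z ∉ frontier (τ i)) →
      {i : {i // c i = c a0} | z ∈ interior (τ i)}.encard = 1) : False := by
  have e0 := step τ c (c a0) z0 g0 a0 a1 n0 s0 h
  have e1 := step τ c (c a0) z1 g1 a1 a2 n1 s1 h
  have e2 := step τ c (c a0) z2 g2 a2 a3 n2 s2 h
  have e3 := step τ c (c a0) z3 g3 a3 a4 n3 s3 h
  have e4 := step τ c (c a0) z4 g4 a4 a0 n4 s4 h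
  tauto

lemma cycleR {κ : Type} (c : Fin 24 × ℤ × ℤ → κ)
    (h : ∀ z : ℂ, (∀ i : {i // c i = c (7, 0, 0)}, z ∉ frontier (τR i)) →
      {i : {i // c i = c (7, 0, 0)} | z ∈ interior (τR i)}.encard = 1) : False :=
  odd_cycle τR (7, 0, 0) (8, 0, 0) (19, 0, 0) (20, 0, 0) (11, 0, 0)
    (wp 2 2) (wp 3 2) (wp 3 3) (wp 3 4) (wp 2 4)
    (wp_genR _ _) (wp_genR _ _) (wp_genR _ _) (wp_genR _ _) (wp_genR _ _)
    ((wp_setR _ _).trans B0) ((wp_setR _ _).trans B1) ((wp_setR _ _).trans B2)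
    ((wp_setR _ _).trans B3) ((wp_setR _ _).trans B4)
    (by decide) (by decide) (by decide) (by decide) (by decide) c h

lemma cycleT {κ : Type} (c : (Fin 24 × ℤ × ℤ) × Bool → κ)
    (h : ∀ z : ℂ, (∀ i : {i // c i = c ((7, 0, 0), false)}, z ∉ frontier (τT i)) →
      {i : {i // c i = c ((7, 0, 0), false)} | z ∈ interior (τT i)}.encard = 1) : False :=
  odd_cycle τT ((7, 0, 0), false) ((8, 0, 0), false) ((19, 0, 0), false) ((20, 0, 0), false)
    ((11, 0, 0), true)
    (wp 2 2) (wp 3 2) (wp 3 3) (wp 3 4) (wp 2 4)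
    (wp_genT _ _) (wp_genT _ _) (wp_genT _ _) (wp_genT _ _) (wp_genT _ _)
    (wp_setT _ _ _ _ _ _ B0 T0a T0b) (wp_setT _ _ _ _ _ _ B1 T1a T1b)
    (wp_setT _ _ _ _ _ _ B2 T2a T2b) (wp_setT _ _ _ _ _ _ B3 T3a T3b)
    (wp_setT _ _ _ _ _ _ B4 T4a T4b)
    (by decide) (by decide) (by decide) (by decide) (by decide) c h

end Pool.Agent.V1155.MT
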