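import Mathlib

/-!
Multiple tilings of the plane `ℂ` by congruent `1 × 3` rectangles and by congruent
right triangles with legs `1` and `3`: data and the counting lemmas.
-/

open Set

namespace Pool.Agent.V1155.MT

/-- the prototile rectangle `[0,3] × [0,1]` -/
def PR : Set ℂ := {z | 0 ≤ z.re ∧ z.re ≤ 3 ∧ 0 ≤ z.im ∧ z.im ≤ 1}

/-- the prototile triangle with vertices `0`, `3`, `i` -/
def PT : Set ℂ := {z | 0 ≤ z.re ∧ 0 ≤ z.im ∧ z.re + 3 * z.im ≤ 3}

lemma interior_PR : interior PR = {z : ℂ | 0 < z.re ∧ z.re < 3 ∧ 0 < z.im ∧ z.im < 1} := by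
  have h : PR = Set.Icc (0:ℝ) 3 ×ℂ Set.Icc (0:ℝ) 1 := by
    ext z
    simp only [PR, Set.mem_ofPred_eq, Complex.mem_reProdIm, Set.mem_Icc]
    tauto
  rw [h, Complex.interior_reProdIm, interior_Icc, interior_Icc]
  ext z
  simp only [Set.mem_ofPred_eq, Complex.mem_reProdIm, Set.mem_Ioo]
  tauto

lemma interior_PT : interior PT = {z : ℂ | 0 < z.re ∧ 0 < z.im ∧ z.re + 3 * z.im < 3} := by
  have h : PT = {z : ℂ | 0 ≤ z.re} ∩ ({z : ℂ | 0 ≤ z.im} ∩
      (Complex.reCLM + (3:ℝ) • Complex.imCLM) ⁻¹' Set.Iic (3:ℝ)) := by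
    ext z
    simp [PT]
  have hs : Function.Surjective (Complex.reCLM + (3:ℝ) • Complex.imCLM) := by
    intro x
    exact ⟨⟨x, 0⟩, by simp⟩
  rw [h, interior_inter, interior_inter, Complex.interior_setOfPred_le_re,
    Complex.interior_setOfPred_le_im, ContinuousLinearMap.interior_preimage _ hs, interior_Iic]
  ext z
  simp

lemma isClosed_PR : IsClosed PR := by
  have h : PR = Set.Icc (0:ℝ) 3 ×ℂ Set.Icc (0:ℝ) 1 := by
    ext z
    simp only [PR, Set.mem_ofPred_eq, Complex.mem_reProdIm, Set.mem_Icc]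
    tauto
  rw [h]
  exact isClosed_Icc.reProdIm isClosed_Icc

lemma isClosed_PT : IsClosed PT := by
  have h : PT = {z : ℂ | 0 ≤ z.re} ∩ ({z : ℂ | 0 ≤ z.im} ∩ {z : ℂ | z.re + 3 * z.im ≤ 3}) := by
    ext z
    simp [PT]
  rw [h]
  refine (isClosed_le continuous_const Complex.continuous_re).inter
    ((isClosed_le continuous_const Complex.continuous_im).inter
    (isClosed_le ?_ continuous_const))
  exact Complex.continuous_re.add (continuous_const.mul Complex.continuous_im)

/-- local coordinates: translate by `-(c,d)`, swap the axes unless `o`, and reflect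
the long coordinate if `al`, the short one if `be`. -/
def loc (o al be : Bool) (c d : ℝ) (z : ℂ) : ℂ :=
  ⟨if al then 3 - (if o then z.re - c else z.im - d) else (if o then z.re - c else z.im - d),
   if be then 1 - (if o then z.im - d else z.re - c) else (if o then z.im - d else z.re - c)⟩

/-- the inverse of `loc` -/
def locInv (o al be : Bool) (c d : ℝ) (z : ℂ) : ℂ :=
  ⟨(if o then (if al then 3 - z.re else z.re) else (if be then 1 - z.im else z.im)) + c,
   (if o then (if be then 1 - z.im else z.im) else (if al then 3 - z.re else z.re)) + d⟩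

lemma loc_locInv (o al be : Bool) (c d : ℝ) (z : ℂ) :
    loc o al be c d (locInv o al be c d z) = z := by
  cases o <;> cases al <;> cases be <;> apply Complex.ext <;> simp [loc, locInv]

lemma isometry_loc (o al be : Bool) (c d : ℝ) : Isometry (loc o al be c d) := by
  refine Isometry.of_dist_eq fun z w => ?_
  rw [Complex.dist_eq_re_im, Complex.dist_eq_re_im]
  congr 1
  cases o <;> cases al <;> cases be <;> simp [loc] <;> ring

/-- `loc` as an isometry of the plane -/
noncomputable def locE (o al be : Bool) (c d : ℝ) : ℂ ≃ᵢ ℂ :=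
  IsometryEquiv.mk' (loc o al be c d) (locInv o al be c d) (loc_locInv o al be c d)
    (isometry_loc o al be c d)

lemma locE_apply (o al be : Bool) (c d : ℝ) (z : ℂ) : locE o al be c d z = loc o al be c d z :=
  rfl

/-- first coordinates of the lower left corners -/
def X : Fin 24 → ℤ := ![4,0,0,5,1,1,2,2,2,0,5,1,5,4,5,5,0,5,3,3,3,4,4,4]

/-- second coordinates of the lower left corners -/
def Y : Fin 24 → ℤ := ![0,0,1,2,0,0,5,2,2,3,3,4,4,4,1,5,5,5,5,1,3,5,1,3]

/-- `true` for horizontal rectangles -/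
def O : Fin 24 → Bool := ![true, false, true, true, false, true, false, false, true, true, true,
  true, true, true, false, false, true, true, false, false, false, false, false, false]

/-- `true` when the rectangle is cut along its rising diagonal (in local coordinates) -/
def D : Fin 24 → Bool := ![false, true, false, false, true, true, false, false, false, true, true,
  true, true, false, false, true, true, true, true, false, false, true, false, false]

/-- width -/
def W (t : Fin 24) : ℤ := if O t then 3 else 1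

/-- height -/
def H (t : Fin 24) : ℤ := if O t then 1 else 3

/-- types of rectangles that cover the unit cell `(p,q)` -/
def F (p q : ℤ) : Finset (Fin 24) :=
  Finset.univ.filter (fun t => (p - X t) % 6 < W t ∧ (q - Y t) % 6 < H t)

lemma card_F_aux : ∀ p : Fin 6, ∀ q : Fin 6, (F (p:ℤ) (q:ℤ)).card = 2 := by
  decide +kernel

lemma card_F (p q : ℤ) : (F p q).card = 2 := by
  have h : F p q = F (p % 6) (q % 6) := by
    ext t
    simp only [F, Finset.mem_filter, Finset.mem_univ, true_and]
    have h1 : (p - X t) % 6 = (p % 6 - X t) % 6 := by omega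
    have h2 : (q - Y t) % 6 = (q % 6 - Y t) % 6 := by omega
    rw [h1, h2]
  rw [h]
  have h1 : 0 ≤ p % 6 ∧ p % 6 < 6 := by omega
  have h2 : 0 ≤ q % 6 ∧ q % 6 < 6 := by omega
  have := card_F_aux ⟨(p % 6).toNat, by omega⟩ ⟨(q % 6).toNat, by omega⟩
  have e1 : (((p % 6).toNat : ℕ) : ℤ) = p % 6 := by omega
  have e2 : (((q % 6).toNat : ℕ) : ℤ) = q % 6 := by omega
  simp only [e1, e2] at this
  exact this

/-- rectangles that cover the unit cell `(p,q)` -/
def B (p q : ℤ) : Set (Fin 24 × ℤ × ℤ) :=
  {i | 0 ≤ p - X i.1 - 6 * i.2.1 ∧ p - X i.1 - 6 * i.2.1 < W i.1 ∧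
    0 ≤ q - Y i.1 - 6 * i.2.2 ∧ q - Y i.1 - 6 * i.2.2 < H i.1}

lemma W_le (t : Fin 24) : 1 ≤ W t ∧ W t ≤ 3 := by
  unfold W; split_ifs <;> norm_num

lemma H_le (t : Fin 24) : 1 ≤ H t ∧ H t ≤ 3 := by
  unfold H; split_ifs <;> norm_num

lemma B_eq (p q : ℤ) :
    B p q = (fun t => (t, (p - X t) / 6, (q - Y t) / 6)) '' (F p q : Set (Fin 24)) := by
  ext ⟨t, a, b⟩
  have hW := W_le t
  have hH := H_le t
  simp only [B, Set.mem_ofPred_eq, Set.mem_image, Finset.mem_coe, F, Finset.mem_filter,
    Finset.mem_univ, true_and, Prod.mk.injEq]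
  constructor
  · rintro ⟨h1, h2, h3, h4⟩
    exact ⟨t, ⟨by omega, by omega⟩, rfl, by omega, by omega⟩
  · rintro ⟨t', ⟨h1, h2⟩, rfl, h3, h4⟩
    refine ⟨by omega, by omega, by omega, by omega⟩

lemma encard_B (p q : ℤ) : (B p q).encard = 2 := by
  rw [B_eq, Function.Injective.encard_image, Set.encard_coe_eq_coe_finsetCard, card_F]
  · rfl
  · intro t t' h
    simp only [Prod.mk.injEq] at h
    exact h.1

end Pool.Agent.V1155.MT
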