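import Pool.Agent.V1155.MTCycle

/-!
The two families consist of pairwise distinct tiles, congruent to a parallelogram
and to a triangle.
-/

open Set

namespace Pool.Agent.V1155.MT

lemma types_inj : ∀ t t' : Fin 24, X t = X t' → Y t = Y t' → W t = W t' → t = t' := by
  decide +kernel

lemma XY_range : ∀ t : Fin 24, 0 ≤ X t ∧ X t < 6 ∧ 0 ≤ Y t ∧ Y t < 6 := by
  decide +kernel

/-- if a triangle lies in a rectangle then so does its bounding box -/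
lemma box (i j : Fin 24 × ℤ × ℤ) (s : Bool) (h : τT (i, s) ⊆ τR j) :
    X j.1 + 6 * j.2.1 ≤ X i.1 + 6 * i.2.1 ∧
    X i.1 + 6 * i.2.1 + W i.1 ≤ X j.1 + 6 * j.2.1 + W j.1 ∧
    Y j.1 + 6 * j.2.2 ≤ Y i.1 + 6 * i.2.2 ∧
    Y i.1 + 6 * i.2.2 + H i.1 ≤ Y j.1 + 6 * j.2.2 + H j.1 := by
  have key : ∀ p ∈ PT, locInv (O i.1) s (xor s (D i.1)) ((X i.1 + 6 * i.2.1 : ℤ) : ℝ)
      ((Y i.1 + 6 * i.2.2 : ℤ) : ℝ) p ∈ τR j := by
    intro p hp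
    apply h
    show _ ∈ _ ⁻¹' PT
    rw [Set.mem_preimage, loc_locInv]
    exact hp
  have k1 := (mem_R _ _).1 (key ⟨0, 0⟩ (by simp [PT]))
  have k2 := (mem_R _ _).1 (key ⟨3, 0⟩ (by simp [PT]))
  have k3 := (mem_R _ _).1 (key ⟨0, 1⟩ (by simp [PT]))
  have hgoal : ((X j.1 + 6 * j.2.1 : ℤ) : ℝ) ≤ ((X i.1 + 6 * i.2.1 : ℤ) : ℝ) ∧
      ((X i.1 + 6 * i.2.1 : ℤ) : ℝ) + W i.1 ≤ ((X j.1 + 6 * j.2.1 : ℤ) : ℝ) + W j.1 ∧
      ((Y j.1 + 6 * j.2.2 : ℤ) : ℝ) ≤ ((Y i.1 + 6 * i.2.2 : ℤ) : ℝ) ∧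
      ((Y i.1 + 6 * i.2.2 : ℤ) : ℝ) + H i.1 ≤ ((Y j.1 + 6 * j.2.2 : ℤ) : ℝ) + H j.1 := by
    generalize ((X i.1 + 6 * i.2.1 : ℤ) : ℝ) = c at *
    generalize ((Y i.1 + 6 * i.2.2 : ℤ) : ℝ) = d at *
    generalize ((X j.1 + 6 * j.2.1 : ℤ) : ℝ) = c' at *
    generalize ((Y j.1 + 6 * j.2.2 : ℤ) : ℝ) = d' at *
    generalize ((W j.1 : ℤ) : ℝ) = w' at *
    generalize ((H j.1 : ℤ) : ℝ) = h' at *
    simp only [W, H]
    cases hO : O i.1 <;> cases hD : D i.1 <;> cases s <;>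
      simp only [locInv, hO, hD, Bool.false_eq_true, if_false, if_true, Bool.xor_false,
        Bool.xor_true, Bool.not_true, Bool.not_false, Bool.false_xor, Bool.true_xor]
        at k1 k2 k3 ⊢ <;>
      push_cast <;>
      refine ⟨?_, ?_, ?_, ?_⟩ <;> linarith [k1.1.1, k1.1.2, k1.2.1, k1.2.2, k2.1.1, k2.1.2,
        k2.2.1, k2.2.2, k3.1.1, k3.1.2, k3.2.1, k3.2.2]
  exact_mod_cast hgoal

lemma sub_TR (i : Fin 24 × ℤ × ℤ) (s : Bool) : τT (i, s) ⊆ τR i := by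
  intro z
  rw [mem_R, τT]
  simp only [Set.mem_preimage, PT, Set.mem_ofPred_eq, loc, W, H]
  cases O i.1 <;> cases s <;> cases D i.1 <;>
    simp only [Bool.false_eq_true, if_false, if_true, Bool.xor_false, Bool.xor_true,
      Bool.not_true, Bool.not_false, Bool.false_xor, Bool.true_xor] <;> push_cast <;>
    rintro ⟨h1, h2, h3⟩ <;>
    refine ⟨⟨?_, ?_⟩, ?_, ?_⟩ <;> linarith

lemma eq_of_box (i j : Fin 24 × ℤ × ℤ)
    (h : X j.1 + 6 * j.2.1 ≤ X i.1 + 6 * i.2.1 ∧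
      X i.1 + 6 * i.2.1 + W i.1 ≤ X j.1 + 6 * j.2.1 + W j.1 ∧
      Y j.1 + 6 * j.2.2 ≤ Y i.1 + 6 * i.2.2 ∧
      Y i.1 + 6 * i.2.2 + H i.1 ≤ Y j.1 + 6 * j.2.2 + H j.1)
    (h' : X i.1 + 6 * i.2.1 ≤ X j.1 + 6 * j.2.1 ∧
      X j.1 + 6 * j.2.1 + W j.1 ≤ X i.1 + 6 * i.2.1 + W i.1 ∧
      Y i.1 + 6 * i.2.2 ≤ Y j.1 + 6 * j.2.2 ∧
      Y j.1 + 6 * j.2.2 + H j.1 ≤ Y i.1 + 6 * i.2.2 + H i.1) : i = j := by
  obtain ⟨t, a, b⟩ := i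
  obtain ⟨t', a', b'⟩ := j
  have r1 := XY_range t
  have r2 := XY_range t'
  simp only at h h'
  obtain rfl : t = t' := types_inj t t' (by omega) (by omega) (by omega)
  obtain rfl : a = a' := by omega
  obtain rfl : b = b' := by omega
  rfl

lemma inj_R : Function.Injective τR := by
  intro i j hij
  exact eq_of_box i j (box i j false (hij ▸ sub_TR i false))
    (box j i false (hij ▸ sub_TR j false))

lemma inj_T : Function.Injective τT := by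
  rintro ⟨i, s⟩ ⟨j, s'⟩ hij
  obtain rfl : i = j := eq_of_box i j (box i j s (hij ▸ sub_TR j s'))
    (box j i s' (hij ▸ sub_TR i s))
  have key : ∀ a : Bool, ∃ z, z ∈ interior (τT (i, a)) := by
    intro a
    refine ⟨locInv (O i.1) a (xor a (D i.1)) ((X i.1 + 6 * i.2.1 : ℤ) : ℝ)
      ((Y i.1 + 6 * i.2.2 : ℤ) : ℝ) ⟨1, 1 / 3⟩, ?_⟩
    rw [τT, interior_pre, interior_PT, Set.mem_preimage, loc_locInv]
    simp only [Set.mem_ofPred_eq]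
    norm_num
  cases s <;> cases s'
  · rfl
  · obtain ⟨z, hz⟩ := key false
    exact (intT_unique z i hz (hij ▸ hz)).elim
  · obtain ⟨z, hz⟩ := key true
    exact (intT_unique z i (hij ▸ hz) hz).elim
  · rfl

lemma congr_R (i) : ∃ e : ℂ ≃ᵢ ℂ, τR i = e '' PR :=
  ⟨(locE (O i.1) false false ((X i.1 + 6 * i.2.1 : ℤ) : ℝ) ((Y i.1 + 6 * i.2.2 : ℤ) : ℝ)).symm, by
    rw [IsometryEquiv.image_symm]; rfl⟩

lemma congr_T (i) : ∃ e : ℂ ≃ᵢ ℂ, τT i = e '' PT :=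
  ⟨(locE (O i.1.1) i.2 (xor i.2 (D i.1.1)) ((X i.1.1 + 6 * i.1.2.1 : ℤ) : ℝ)
    ((Y i.1.1 + 6 * i.1.2.2 : ℤ) : ℝ)).symm, by
    rw [IsometryEquiv.image_symm]; rfl⟩

lemma li : LinearIndependent ℝ ![(3:ℂ), Complex.I] := by
  rw [LinearIndependent.pair_iff]
  intro s t h
  have h1 := congrArg Complex.re h
  have h2 := congrArg Complex.im h
  simp at h1 h2
  exact ⟨h1, h2⟩

lemma PR_eq : PR = {z : ℂ | ∃ s t : ℝ, 0 ≤ s ∧ s ≤ 1 ∧ 0 ≤ t ∧ t ≤ 1 ∧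
    z = 0 + s • (3:ℂ) + t • Complex.I} := by
  ext z
  simp only [PR, Set.mem_ofPred_eq]
  constructor
  · rintro ⟨h1, h2, h3, h4⟩
    refine ⟨z.re / 3, z.im, by positivity, by linarith, h3, h4, ?_⟩
    apply Complex.ext <;> simp
  · rintro ⟨s, t, h1, h2, h3, h4, rfl⟩
    simp
    exact ⟨h1, by linarith, h3, h4⟩

lemma PT_eq : PT = {z : ℂ | ∃ s t : ℝ, 0 ≤ s ∧ 0 ≤ t ∧ s + t ≤ 1 ∧
    z = 0 + s • (3:ℂ) + t • Complex.I} := by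
  ext z
  simp only [PT, Set.mem_ofPred_eq]
  constructor
  · rintro ⟨h1, h2, h3⟩
    refine ⟨z.re / 3, z.im, by positivity, h2, by linarith, ?_⟩
    apply Complex.ext <;> simp
  · rintro ⟨s, t, h1, h2, h3, rfl⟩
    simp
    exact ⟨h1, h2, by linarith⟩

end Pool.Agent.V1155.MT
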