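import Pool.Agent.V1155.MTData

/-!
The two families (rectangles and triangles), their density, and the odd cycle.
-/

open Set

namespace Pool.Agent.V1155.MT

/-- the rectangles -/
def τR (i : Fin 24 × ℤ × ℤ) : Set ℂ :=
  loc (O i.1) false false ((X i.1 + 6 * i.2.1 : ℤ) : ℝ) ((Y i.1 + 6 * i.2.2 : ℤ) : ℝ) ⁻¹' PR

/-- the triangles: each rectangle is cut along a diagonal -/
def τT (i : (Fin 24 × ℤ × ℤ) × Bool) : Set ℂ :=
  loc (O i.1.1) i.2 (xor i.2 (D i.1.1)) ((X i.1.1 + 6 * i.1.2.1 : ℤ) : ℝ)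
    ((Y i.1.1 + 6 * i.1.2.2 : ℤ) : ℝ) ⁻¹' PT

lemma isClosed_τR (i) : IsClosed (τR i) :=
  isClosed_PR.preimage (isometry_loc _ _ _ _ _).continuous

lemma isClosed_τT (i) : IsClosed (τT i) :=
  isClosed_PT.preimage (isometry_loc _ _ _ _ _).continuous

lemma interior_pre (o al be : Bool) (c d : ℝ) (P : Set ℂ) :
    interior (loc o al be c d ⁻¹' P) = loc o al be c d ⁻¹' interior P :=
  ((locE o al be c d).toHomeomorph.preimage_interior P).symm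

lemma mem_of_not_frontier {s : Set ℂ} {z : ℂ} (h : z ∉ frontier s) (hz : z ∈ s) :
    z ∈ interior s := by
  by_contra h'
  exact h ⟨subset_closure hz, h'⟩

lemma not_frontier {s : Set ℂ} (hs : IsClosed s) {z : ℂ} (h : z ∈ s → z ∈ interior s) :
    z ∉ frontier s := by
  rintro ⟨h1, h2⟩
  rw [hs.closure_eq] at h1
  exact h2 (h h1)

/-- floor bookkeeping -/
lemma floor_iff (x : ℝ) (c w : ℤ) :
    ((c : ℝ) ≤ x ∧ x < c + w) ↔ (0 ≤ ⌊x⌋ - c ∧ ⌊x⌋ - c < w) := by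
  rw [← Int.le_floor]
  have : x < (c : ℝ) + w ↔ ⌊x⌋ < c + w := by
    rw [Int.floor_lt]; push_cast; rfl
  rw [this]
  constructor
  · rintro ⟨h1, h2⟩; constructor <;> omega
  · rintro ⟨h1, h2⟩; constructor <;> omega

lemma mem_B (z : ℂ) (i : Fin 24 × ℤ × ℤ) :
    i ∈ B ⌊z.re⌋ ⌊z.im⌋ ↔
      (((X i.1 + 6 * i.2.1 : ℤ) : ℝ) ≤ z.re ∧ z.re < ((X i.1 + 6 * i.2.1 : ℤ) : ℝ) + W i.1) ∧
      (((Y i.1 + 6 * i.2.2 : ℤ) : ℝ) ≤ z.im ∧ z.im < ((Y i.1 + 6 * i.2.2 : ℤ) : ℝ) + H i.1) := by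
  rw [floor_iff, floor_iff]
  simp only [B, Set.mem_ofPred_eq]
  constructor
  · rintro ⟨h1, h2, h3, h4⟩
    refine ⟨⟨?_, ?_⟩, ?_, ?_⟩ <;> omega
  · rintro ⟨⟨h1, h2⟩, h3, h4⟩
    refine ⟨?_, ?_, ?_, ?_⟩ <;> omega

lemma mem_intR (z : ℂ) (i : Fin 24 × ℤ × ℤ) :
    z ∈ interior (τR i) ↔
      (((X i.1 + 6 * i.2.1 : ℤ) : ℝ) < z.re ∧ z.re < ((X i.1 + 6 * i.2.1 : ℤ) : ℝ) + W i.1) ∧
      (((Y i.1 + 6 * i.2.2 : ℤ) : ℝ) < z.im ∧ z.im < ((Y i.1 + 6 * i.2.2 : ℤ) : ℝ) + H i.1) := by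
  rw [τR, interior_pre, interior_PR]
  simp only [Set.mem_preimage, Set.mem_ofPred_eq, loc, W, H]
  cases O i.1 <;> simp only [Bool.false_eq_true, if_false, if_true] <;> push_cast <;>
    constructor
  · rintro ⟨h1, h2, h3, h4⟩
    refine ⟨⟨?_, ?_⟩, ?_, ?_⟩ <;> linarith
  · rintro ⟨⟨h1, h2⟩, h3, h4⟩
    refine ⟨?_, ?_, ?_, ?_⟩ <;> linarith
  · rintro ⟨h1, h2, h3, h4⟩
    refine ⟨⟨?_, ?_⟩, ?_, ?_⟩ <;> linarith
  · rintro ⟨⟨h1, h2⟩, h3, h4⟩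
    refine ⟨?_, ?_, ?_, ?_⟩ <;> linarith

lemma mem_R (z : ℂ) (i : Fin 24 × ℤ × ℤ) :
    z ∈ τR i ↔
      (((X i.1 + 6 * i.2.1 : ℤ) : ℝ) ≤ z.re ∧ z.re ≤ ((X i.1 + 6 * i.2.1 : ℤ) : ℝ) + W i.1) ∧
      (((Y i.1 + 6 * i.2.2 : ℤ) : ℝ) ≤ z.im ∧ z.im ≤ ((Y i.1 + 6 * i.2.2 : ℤ) : ℝ) + H i.1) := by
  rw [τR, PR]
  simp only [Set.mem_preimage, Set.mem_ofPred_eq, loc, W, H]
  cases O i.1 <;> simp only [Bool.false_eq_true, if_false, if_true] <;> push_cast <;>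
    constructor
  · rintro ⟨h1, h2, h3, h4⟩
    refine ⟨⟨?_, ?_⟩, ?_, ?_⟩ <;> linarith
  · rintro ⟨⟨h1, h2⟩, h3, h4⟩
    refine ⟨?_, ?_, ?_, ?_⟩ <;> linarith
  · rintro ⟨h1, h2, h3, h4⟩
    refine ⟨⟨?_, ?_⟩, ?_, ?_⟩ <;> linarith
  · rintro ⟨⟨h1, h2⟩, h3, h4⟩
    refine ⟨?_, ?_, ?_, ?_⟩ <;> linarith

/-- for a generic point the rectangles that contain it are those of its unit cell -/
lemma setR (z : ℂ) (hz : ∀ i, z ∉ frontier (τR i)) :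
    {i | z ∈ interior (τR i)} = B ⌊z.re⌋ ⌊z.im⌋ := by
  ext i
  rw [mem_B]
  constructor
  · intro h
    have h := (mem_intR z i).1 h
    exact ⟨⟨h.1.1.le, h.1.2⟩, h.2.1.le, h.2.2⟩
  · rintro ⟨⟨h1, h2⟩, h3, h4⟩
    exact mem_of_not_frontier (hz i) ((mem_R z i).2 ⟨⟨h1, h2.le⟩, h3, h4.le⟩)

lemma mem_intT (z : ℂ) (i : Fin 24 × ℤ × ℤ) (s : Bool) :
    z ∈ interior (τT (i, s)) → i ∈ B ⌊z.re⌋ ⌊z.im⌋ := by
  rw [mem_B, τT, interior_pre, interior_PT]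
  simp only [Set.mem_preimage, Set.mem_ofPred_eq, loc, W, H]
  cases O i.1 <;> cases s <;> cases D i.1 <;>
    simp only [Bool.false_eq_true, if_false, if_true, Bool.xor_false, Bool.xor_true,
      Bool.not_true, Bool.not_false, Bool.false_xor, Bool.true_xor] <;> push_cast <;>
    rintro ⟨h1, h2, h3⟩ <;>
    refine ⟨⟨?_, ?_⟩, ?_, ?_⟩ <;> linarith

lemma intT_unique (z : ℂ) (i : Fin 24 × ℤ × ℤ) (h0 : z ∈ interior (τT (i, false)))
    (h1 : z ∈ interior (τT (i, true))) : False := by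
  rw [τT, interior_pre, interior_PT] at h0 h1
  simp only [Set.mem_preimage, Set.mem_ofPred_eq, loc] at h0 h1
  cases hO : O i.1 <;> cases hD : D i.1 <;>
    simp only [hO, hD, Bool.false_eq_true, if_false, if_true, Bool.xor_false, Bool.xor_true,
      Bool.not_true, Bool.not_false, Bool.false_xor, Bool.true_xor] at h0 h1 <;>
    linarith [h0.2.2, h1.2.2]

lemma existsT (z : ℂ) (i : Fin 24 × ℤ × ℤ) (h : i ∈ B ⌊z.re⌋ ⌊z.im⌋) :
    ∃ s, z ∈ τT (i, s) := by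
  rw [mem_B] at h
  obtain ⟨⟨h1, h2⟩, h3, h4⟩ := h
  by_contra hc
  push Not at hc
  have hf := hc false
  have ht := hc true
  simp only [τT, PT, Set.mem_preimage, Set.mem_ofPred_eq, loc, not_and_or, not_le] at hf ht
  simp only [W, H] at h2 h4
  cases hO : O i.1 <;> cases hD : D i.1 <;>
    simp only [hO, hD, Bool.false_eq_true, if_false, if_true, Bool.xor_false, Bool.xor_true,
      Bool.not_true, Bool.not_false, Bool.false_xor, Bool.true_xor] at h1 h2 h3 h4 hf ht <;>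
    push_cast at h1 h2 h3 h4 hf ht <;>
    rcases hf with hf | hf | hf <;> rcases ht with ht | ht | ht <;> linarith

/-- for a generic point, the triangles that contain it are in bijection with the
rectangles of its unit cell -/
lemma setT (z : ℂ) (hz : ∀ i, z ∉ frontier (τT i)) :
    {i | z ∈ interior (τT i)}.encard = 2 := by
  have h1 : Set.InjOn (Prod.fst : (Fin 24 × ℤ × ℤ) × Bool → _) {i | z ∈ interior (τT i)} := by
    rintro ⟨i, s⟩ hi ⟨j, t⟩ hj (hij : i = j)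
    subst hij
    simp only [Set.mem_ofPred_eq] at hi hj
    cases s <;> cases t
    · rfl
    · exact (intT_unique z i hi hj).elim
    · exact (intT_unique z i hj hi).elim
    · rfl
  rw [← h1.encard_image]
  have h2 : Prod.fst '' {i | z ∈ interior (τT i)} = B ⌊z.re⌋ ⌊z.im⌋ := by
    ext i
    constructor
    · rintro ⟨⟨j, s⟩, hj, rfl⟩
      exact mem_intT z j s hj
    · intro hi
      obtain ⟨s, hs⟩ := existsT z i hi
      exact ⟨(i, s), mem_of_not_frontier (hz _) hs, rfl⟩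
  rw [h2, encard_B]

end Pool.Agent.V1155.MT
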