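import Pool.Agent.V1155.RegSL

set_option autoImplicit false

/-!
Skew Laurent series over a left Noetherian ring form a left Noetherian ring, and a left Noetherian
von Neumann regular ring is semisimple.
-/

namespace Pool.Agent.V1155

universe u

variable {A : Type u} [Ring A]

/-- Elements with no coefficients below `m`. -/
def ordGe {φ : A ≃+* A} (m : ℤ) (r : SL A φ) : Prop := ∀ i < m, r.co i = 0

theorem ordGe_mul {φ : A ≃+* A} {m l : ℤ} {r s : SL A φ} (hr : ordGe m r) (hs : ordGe l s) :
    ordGe (m + l) (r * s) := SL.mul_bdd r s hr hs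

/-- The left ideal of leading coefficients. -/
def lead {φ : A ≃+* A} (I : Ideal (SL A φ)) : Ideal A where
  carrier := {a | ∃ r ∈ I, ordGe 0 r ∧ r.co 0 = a}
  zero_mem' := ⟨0, I.zero_mem, fun i _ => rfl, rfl⟩
  add_mem' := by
    rintro a b ⟨r, hr, hr0, rfl⟩ ⟨s, hs, hs0, rfl⟩
    exact ⟨r + s, I.add_mem hr hs, fun i hi => by rw [SL.add_co, hr0 i hi, hs0 i hi, add_zero], rfl⟩
  smul_mem' := by
    rintro c a ⟨r, hr, hr0, rfl⟩
    refine ⟨SL.C c * r, I.mul_mem_left _ hr, fun i hi => ?_, ?_⟩
    · rw [SL.C_apply, SL.mono_mul_co, sub_zero, hr0 i hi, map_zero, mul_zero]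
    · rw [SL.C_apply, SL.mono_mul_co, sub_zero, SL.pw_zero]; rfl

theorem noeth_SL {φ : A ≃+* A} [IsNoetherianRing A] : IsNoetherianRing (SL A φ) := by
  classical
  rw [isNoetherianRing_iff_ideal_fg]
  intro I
  obtain ⟨k, v, hv⟩ := Submodule.fg_iff_exists_fin_generating_family.1
    ((isNoetherianRing_iff_ideal_fg A).1 inferInstance (lead I))
  have hvm : ∀ j, ∃ r ∈ I, ordGe 0 r ∧ r.co 0 = v j := by
    intro j
    have : v j ∈ lead I := by
      rw [← hv]; exact Submodule.subset_span ⟨j, rfl⟩
    exact this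
  choose q hq1 hq2 hq3 using hvm
  refine Submodule.fg_iff_exists_fin_generating_family.2 ?_
  refine ⟨k, q, le_antisymm (Submodule.span_le.2 ?_) ?_⟩
  · rintro _ ⟨j, rfl⟩
    exact hq1 j
  -- one step of the approximation
  have stepc : ∀ (m : ℕ) (r : SL A φ), r ∈ I → ordGe m r → ∃ c : Fin k → A,
      ordGe (m + 1 : ℕ) (r - ∑ j, SL.mono m (c j) * q j) := by
    intro m r hr hm
    have hmem : SL.pw φ (-m) (r.co m) ∈ lead I := by
      refine ⟨SL.mono (-m) 1 * r, I.mul_mem_left _ hr, ?_, ?_⟩
      · intro i hi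
        rw [SL.mono_mul_co, hm (i - -m) (by omega), map_zero, mul_zero]
      · rw [SL.mono_mul_co, one_mul]
        congr 2
        omega
    rw [← hv] at hmem
    obtain ⟨c, hc⟩ := (Submodule.mem_span_range_iff_exists_fun A).1 hmem
    have hc' : r.co m = ∑ j, SL.pw φ m (c j) * SL.pw φ m (v j) := by
      have := congrArg (SL.pw φ m) hc
      rw [SL.pw_pw_neg, map_sum] at this
      rw [← this]
      refine Finset.sum_congr rfl fun j _ => ?_
      rw [smul_eq_mul, map_mul]
    refine ⟨fun j => SL.pw φ m (c j), ?_⟩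
    intro i hi
    rw [SL.sub_co, SL.sum_co]
    rcases lt_or_eq_of_le (show i ≤ m by omega) with h | h
    · rw [hm i h, Finset.sum_eq_zero, sub_zero]
      intro j _
      rw [SL.mono_mul_co, hq2 j (i - m) (by omega), map_zero, mul_zero]
    · subst h
      rw [hc', sub_eq_zero]
      refine Finset.sum_congr rfl fun j _ => ?_
      rw [SL.mono_mul_co, sub_self, hq3]
  -- elements of nonnegative order
  have key : ∀ r : SL A φ, r ∈ I → ordGe 0 r → r ∈ Submodule.span (SL A φ) (Set.range q) := by
    intro r hr hr0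
    let T : ℕ → Type u := fun m => {r : SL A φ // r ∈ I ∧ ordGe m r}
    have hmem : ∀ (m : ℕ) (r : SL A φ) (c : Fin k → A), r ∈ I →
        r - ∑ j, SL.mono m (c j) * q j ∈ I := fun m r c hr =>
      I.sub_mem hr (Submodule.sum_mem _ fun j _ => I.mul_mem_left _ (hq1 j))
    choose c hc using stepc
    let nx : ∀ m, T m → T (m + 1) := fun m s =>
      ⟨s.1 - ∑ j, SL.mono m (c m s.1 s.2.1 s.2.2 j) * q j, hmem m s.1 _ s.2.1,
        hc m s.1 s.2.1 s.2.2⟩
    let R : ∀ m, T m := fun m => Nat.rec (motive := T) ⟨r, hr, by simpa using hr0⟩ nx m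
    have hR0 : (R 0).1 = r := rfl
    obtain ⟨d, hd⟩ : ∃ d : ℕ → Fin k → A, ∀ m j, d m j = c m (R m).1 (R m).2.1 (R m).2.2 j :=
      ⟨fun m j => c m (R m).1 (R m).2.1 (R m).2.2 j, fun _ _ => rfl⟩
    have hR1 : ∀ m, (R (m + 1)).1 = (R m).1 - ∑ j, SL.mono m (d m j) * q j := fun m => by
      simp only [hd]; rfl
    have hRd : ∀ m, (R m).1 = r - ∑ j, (∑ i ∈ Finset.range m, SL.mono i (d i j)) * q j := by
      intro m
      induction m with
      | zero => simp [hR0]
      | succ m ih =>
        rw [hR1, ih, sub_sub, ← Finset.sum_add_distrib]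
        congr 1
        refine Finset.sum_congr rfl fun j _ => ?_
        rw [Finset.sum_range_succ, add_mul]
    let s : Fin k → SL A φ := fun j => ⟨fun l => if 0 ≤ l then d l.toNat j else 0, 0,
      fun i hi => if_neg (by omega)⟩
    have hs : ∀ j m, ordGe (m : ℕ) (s j - ∑ i ∈ Finset.range m, SL.mono i (d i j)) := by
      intro j m i hi
      rw [SL.sub_co, SL.sum_co]
      change (if 0 ≤ i then d i.toNat j else 0) - _ = 0
      by_cases h0 : 0 ≤ i
      · rw [if_pos h0, Finset.sum_eq_single i.toNat]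
        · rw [SL.mono_co, if_pos (by omega), sub_self]
        · intro b _ hb
          rw [SL.mono_co, if_neg (by omega)]
        · intro h
          rw [Finset.mem_range] at h
          omega
      · rw [if_neg h0, Finset.sum_eq_zero, sub_zero]
        intro b _
        rw [SL.mono_co, if_neg (by omega)]
    have hfin : r = ∑ j, s j * q j := by
      rw [← sub_eq_zero]
      ext l
      rw [SL.zero_co]
      have h1 : r - ∑ j, s j * q j = (R (l.toNat + 1)).1 -
          ∑ j, (s j - ∑ i ∈ Finset.range (l.toNat + 1), SL.mono i (d i j)) * q j := by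
        rw [hRd]
        simp only [sub_mul]
        rw [Finset.sum_sub_distrib]
        abel
      rw [h1, SL.sub_co, SL.sum_co, (R (l.toNat + 1)).2.2 l (by omega), Finset.sum_eq_zero,
        sub_zero]
      intro j _
      exact ordGe_mul (hs j (l.toNat + 1)) (hq2 j) l (by omega)
    rw [hfin]
    refine Submodule.sum_mem _ fun j _ => ?_
    exact Ideal.mul_mem_left (Ideal.span (Set.range q)) _ (Ideal.subset_span ⟨j, rfl⟩)
  intro r hr
  obtain ⟨a, ha⟩ := r.bdd
  have h1 : SL.mono (-a) 1 * r ∈ Submodule.span (SL A φ) (Set.range q) := by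
    refine key _ (I.mul_mem_left _ hr) ?_
    intro i hi
    rw [SL.mono_mul_co, ha _ (by omega), map_zero, mul_zero]
  have h2 : r = SL.mono a 1 * (SL.mono (-a) 1 * r) := by
    rw [← mul_assoc, SL.mono_mul_mono, map_one, mul_one, add_neg_cancel, ← SL.one_eq_mono, one_mul]
  rw [h2]
  exact Ideal.mul_mem_left (Ideal.span (Set.range q)) _ h1

/-- In a von Neumann regular ring finitely generated left ideals are generated by idempotents. -/
theorem fg_idem (hA : IsReg A) (I : Ideal A) (hI : I.FG) :
    ∃ e : A, e * e = e ∧ I = Ideal.span {e} := by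
  classical
  induction I, hI using Submodule.fg_induction with
  | singleton x =>
    obtain ⟨s, hs⟩ := hA x
    refine ⟨s * x, ?_, le_antisymm (sp_le (a := x) ?_) (sp_le rfl)⟩
    · calc s * x * (s * x) = s * (x * s * x) := by noncomm_ring
        _ = s * x := by rw [← hs]
    · rw [← mul_assoc]; exact hs
  | sup I J hI hJ ihI ihJ =>
    obtain ⟨e, he, rfl⟩ := ihI
    obtain ⟨y, hy, rfl⟩ := ihJ
    obtain ⟨v, hv⟩ := hA (y * (1 - e))
    obtain ⟨z, hz⟩ : ∃ z, z = y * (1 - e) := ⟨_, rfl⟩
    rw [← hz] at hv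
    have hze : z * e = 0 := by rw [hz, mul_assoc, sub_mul, one_mul, he, sub_self, mul_zero]
    obtain ⟨g, hg⟩ : ∃ g, g = (1 - e) * (v * z) := ⟨_, rfl⟩
    have hge : g * e = 0 := by rw [hg, mul_assoc, mul_assoc, hze, mul_zero, mul_zero]
    have heg : e * g = 0 := by rw [hg, ← mul_assoc, mul_sub, mul_one, he, sub_self, zero_mul]
    have hzg : z * g = z := by
      calc z * g = (z - z * e) * (v * z) := by rw [hg]; noncomm_ring
        _ = z * v * z := by rw [hze, sub_zero, mul_assoc]
        _ = z := hv.symm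
    have hgg : g * g = g := by
      calc g * g = (1 - e) * v * (z * g) := by rw [hg]; noncomm_ring
        _ = g := by rw [hzg, hg]; noncomm_ring
    refine ⟨e + g, ?_, ?_⟩
    · rw [add_mul, mul_add, mul_add, he, hgg, heg, hge]; simp
    · have hge1 : g * (e + g) = g := by rw [mul_add, hge, hgg, zero_add]
      have hee1 : e * (e + g) = e := by rw [mul_add, heg, he, add_zero]
      apply le_antisymm
      · refine sup_le (sp_le (a := e) hee1.symm) (sp_le (a := y * e + z) ?_)
        calc y = y * e + y * (1 - e) := by noncomm_ring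
          _ = y * (e * (e + g)) + z * g * (e + g) := by
            rw [hee1, ← hz, mul_assoc z g, hge1, hzg]
          _ = (y * e + z) * (e + g) := by rw [hzg]; noncomm_ring
      · rw [Ideal.span_singleton_le_iff_mem]
        have h1 : e ∈ (Ideal.span {e} ⊔ Ideal.span {y} : Ideal A) :=
          Ideal.mem_sup_left (Ideal.mem_span_singleton_self e)
        have h2 : y ∈ (Ideal.span {e} ⊔ Ideal.span {y} : Ideal A) :=
          Ideal.mem_sup_right (Ideal.mem_span_singleton_self y)
        refine Ideal.add_mem _ h1 ?_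
        rw [hg, hz]
        have : (1 - e) * (v * (y * (1 - e))) = (1 - e) * v * y - (1 - e) * v * y * e := by
          noncomm_ring
        rw [this]
        exact Ideal.sub_mem _ (Ideal.mul_mem_left _ _ h2) (Ideal.mul_mem_left _ _ h1)

theorem semisimple_of_reg (hA : IsReg A) [IsNoetherianRing A] : IsSemisimpleRing A := by
  rw [IsSemisimpleRing, isSemisimpleModule_iff]
  refine ⟨fun I => ?_⟩
  obtain ⟨e, he, rfl⟩ := fg_idem hA I ((isNoetherianRing_iff_ideal_fg A).1 inferInstance I)
  refine ⟨Ideal.span {1 - e}, ?_, ?_⟩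
  · rw [disjoint_iff, eq_bot_iff]
    intro x hx
    obtain ⟨hx1, hx2⟩ := Submodule.mem_inf.1 hx
    obtain ⟨a, rfl⟩ := mem_sp.1 hx1
    obtain ⟨b, hb⟩ := mem_sp.1 hx2
    rw [Submodule.mem_bot]
    calc a * e = a * e * e := by rw [mul_assoc, he]
      _ = b * ((1 - e) * e) := by rw [hb, mul_assoc]
      _ = 0 := by rw [sub_mul, he, one_mul, sub_self, mul_zero]
  · rw [codisjoint_iff, Ideal.eq_top_iff_one]
    have h1 : e ∈ (Ideal.span {e} ⊔ Ideal.span {1 - e} : Ideal A) :=
      Ideal.mem_sup_left (Ideal.mem_span_singleton_self e)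
    have h2 : 1 - e ∈ (Ideal.span {e} ⊔ Ideal.span {1 - e} : Ideal A) :=
      Ideal.mem_sup_right (Ideal.mem_span_singleton_self (1 - e))
    have := Ideal.add_mem _ h1 h2
    rwa [add_sub_cancel] at this

theorem semisimple_SL {φ : A ≃+* A} (hR : IsReg (SL A φ)) : IsSemisimpleRing (SL A φ) := by
  have h1 := finite_of_reg hR
  rw [Module.length_ne_top_iff, isFiniteLength_iff_isNoetherian_isArtinian] at h1
  have : IsNoetherianRing A := h1.1
  have : IsNoetherianRing (SL A φ) := noeth_SL
  exact semisimple_of_reg hR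

end Pool.Agent.V1155
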