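import Mathlib

set_option autoImplicit false
set_option linter.unusedSectionVars false

/-!
The sum of the `k`-th powers of all matrices over a finite field vanishes, unless the field has two
elements and the matrices have size at most two.
-/

namespace Pool.Agent.V1155.PowSum

open Matrix

section field

variable {F : Type*} [Field F] [Fintype F] [DecidableEq F] {ι : Type*} [Fintype ι] [DecidableEq ι]

/-- The stabiliser of `v`. -/
noncomputable def stab (v : ι → F) : Finset (Matrix ι ι F)ˣ := by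
  classical exact Finset.univ.filter fun g => (g : Matrix ι ι F) *ᵥ v = v

theorem mem_stab {v : ι → F} {g : (Matrix ι ι F)ˣ} :
    g ∈ stab v ↔ (g : Matrix ι ι F) *ᵥ v = v := by
  classical
  unfold stab
  rw [Finset.mem_filter]
  exact ⟨fun h => h.2, fun h => ⟨Finset.mem_univ _, h⟩⟩

/-- The sum of the elements of the stabiliser. -/
noncomputable def TT (v : ι → F) : Matrix ι ι F := ∑ g ∈ stab v, (g : Matrix ι ι F)

theorem TT_mul (v : ι → F) (h : (Matrix ι ι F)ˣ) (hh : h ∈ stab v) :
    TT v * (h : Matrix ι ι F) = TT v := by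
  classical
  unfold TT
  rw [Finset.sum_mul]
  refine Finset.sum_nbij' (fun g => g * h) (fun g => g * h⁻¹) ?_ ?_ ?_ ?_ ?_
  · intro g hg
    rw [mem_stab] at *
    rw [Units.val_mul, ← mulVec_mulVec, hh, hg]
  · intro g hg
    rw [mem_stab] at *
    have h1 : (h⁻¹ : (Matrix ι ι F)ˣ).1 *ᵥ v = v := by
      nth_rewrite 1 [← hh]
      rw [mulVec_mulVec, Units.inv_mul, one_mulVec]
    rw [Units.val_mul, ← mulVec_mulVec, h1, hg]
  · intro g _; simp
  · intro g _; simp
  · intro g _; simp

theorem single_mulVec_single (i0 : ι) (M : Matrix ι ι F) :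
    M *ᵥ (Pi.single i0 1) = fun i => M i i0 := by
  rw [mulVec_single_one]; rfl

theorem TT_zero (i0 : ι) (h : 3 ≤ Fintype.card ι ∨ (2 ≤ Fintype.card ι ∧ 2 < Fintype.card F)) :
    TT (Pi.single i0 (1 : F) : ι → F) = 0 := by
  classical
  -- a transvection argument
  have key1 : ∀ i j : ι, i ≠ j → j ≠ i0 → ∀ a, TT (Pi.single i0 (1 : F) : ι → F) a i = 0 := by
    intro i j hij hj a
    let u : (Matrix ι ι F)ˣ := ⟨transvection i j 1, transvection i j (-1), by
      rw [transvection_mul_transvection_same i j hij, add_neg_cancel, transvection_zero], by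
      rw [transvection_mul_transvection_same i j hij, neg_add_cancel, transvection_zero]⟩
    have hu : u ∈ stab (Pi.single i0 (1 : F) : ι → F) := by
      rw [mem_stab, single_mulVec_single]
      funext a
      change transvection i j (1 : F) a i0 = _
      rw [transvection, Matrix.add_apply, Matrix.one_apply, Matrix.single_apply]
      rw [if_neg (c := i = a ∧ j = i0) (fun h => hj h.2), add_zero, Pi.single_apply]
    have h1 := TT_mul _ u hu
    have h2 := congrFun (congrFun h1 a) j
    change (TT (Pi.single i0 (1 : F) : ι → F) * transvection i j (1 : F) : Matrix ι ι F) a j = _ at h2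
    rw [mul_transvection_apply_same, one_mul] at h2
    exact add_eq_left.1 h2
  rcases h with h | ⟨h, h'⟩
  · ext a i
    have : ∃ j : ι, j ∉ ({i, i0} : Finset ι) := by
      by_contra hcon
      push Not at hcon
      have h1 : (Finset.univ : Finset ι) ⊆ {i, i0} := fun j _ => hcon j
      have h2 := Finset.card_le_card h1
      rw [Finset.card_univ] at h2
      have h3 : ({i, i0} : Finset ι).card ≤ 2 := Finset.card_le_two
      omega
    obtain ⟨j, hj⟩ := this
    rw [Finset.mem_insert, Finset.mem_singleton, not_or] at hj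
    exact key1 i j (Ne.symm hj.1) hj.2 a
  · ext a i
    by_cases hi : i = i0
    · subst hi
      obtain ⟨j, hj⟩ : ∃ j : ι, j ≠ i := by
        by_contra hcon
        push Not at hcon
        have : Fintype.card ι ≤ 1 := Fintype.card_le_one_iff.2 fun a b => by
          rw [hcon a, hcon b]
        omega
      exact key1 i j (Ne.symm hj) hj a
    · obtain ⟨l, hl⟩ : ∃ l : F, l ∉ ({0, 1} : Finset F) := by
        by_contra hcon
        push Not at hcon
        have h1 : (Finset.univ : Finset F) ⊆ {0, 1} := fun j _ => hcon j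
        have h2 := Finset.card_le_card h1
        rw [Finset.card_univ] at h2
        have h3 : ({0, 1} : Finset F).card ≤ 2 := Finset.card_le_two
        omega
      rw [Finset.mem_insert, Finset.mem_singleton, not_or] at hl
      let d : ι → F := fun j => if j = i then l else 1
      let d' : ι → F := fun j => if j = i then l⁻¹ else 1
      have hdd : ∀ j, d j * d' j = 1 := by
        intro j
        simp only [d, d']
        split_ifs
        · exact mul_inv_cancel₀ hl.1
        · exact mul_one 1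
      let u : (Matrix ι ι F)ˣ := ⟨diagonal d, diagonal d', by
        rw [diagonal_mul_diagonal, ← diagonal_one]; congr 1; funext j; exact hdd j, by
        rw [diagonal_mul_diagonal, ← diagonal_one]; congr 1; funext j
        rw [mul_comm]; exact hdd j⟩
      have hu : u ∈ stab (Pi.single i0 (1 : F) : ι → F) := by
        rw [mem_stab, single_mulVec_single]
        funext a
        change diagonal d a i0 = _
        rw [diagonal_apply, Pi.single_apply]
        by_cases ha : a = i0
        · rw [if_pos ha, if_pos ha]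
          simp only [d]
          rw [if_neg (by rw [ha]; exact Ne.symm hi)]
        · rw [if_neg ha, if_neg ha]
      have h1 := TT_mul _ u hu
      have h2 := congrFun (congrFun h1 a) i
      change (TT (Pi.single i0 (1 : F) : ι → F) * diagonal d) a i = _ at h2
      rw [mul_diagonal] at h2
      have h3 : d i = l := if_pos rfl
      rw [h3] at h2
      have h4 : TT (Pi.single i0 (1 : F) : ι → F) a i * (l - 1) = 0 := by
        rw [mul_sub, h2, mul_one, sub_self]
      rcases mul_eq_zero.1 h4 with h5 | h5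
      · exact h5
      · exact absurd (sub_eq_zero.1 h5) hl.2

/-- Cyclic pairs. -/
def Cyc (v : ι → F) (A : Matrix ι ι F) : Prop :=
  ∀ φ : ι → F, (∀ j : ℕ, φ ⬝ᵥ (A ^ j *ᵥ v) = 0) → φ = 0

theorem conj_pow (g : (Matrix ι ι F)ˣ) (A : Matrix ι ι F) (j : ℕ) :
    ((g : Matrix ι ι F) * A * (g⁻¹ : (Matrix ι ι F)ˣ).1) ^ j =
      (g : Matrix ι ι F) * A ^ j * (g⁻¹ : (Matrix ι ι F)ˣ).1 := by
  induction j with
  | zero => rw [pow_zero, pow_zero, mul_one, Units.mul_inv]
  | succ j ih =>
    rw [pow_succ, ih, pow_succ]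
    calc (g : Matrix ι ι F) * A ^ j * (g⁻¹ : (Matrix ι ι F)ˣ).1 *
          ((g : Matrix ι ι F) * A * (g⁻¹ : (Matrix ι ι F)ˣ).1)
        = (g : Matrix ι ι F) * A ^ j * ((g⁻¹ : (Matrix ι ι F)ˣ).1 * (g : Matrix ι ι F)) * A *
            (g⁻¹ : (Matrix ι ι F)ˣ).1 := by noncomm_ring
      _ = _ := by rw [Units.inv_mul]; noncomm_ring

theorem stab_inv {v : ι → F} {g : (Matrix ι ι F)ˣ} (hg : g ∈ stab v) :
    (g⁻¹ : (Matrix ι ι F)ˣ).1 *ᵥ v = v := by
  rw [mem_stab] at hg
  nth_rewrite 1 [← hg]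
  rw [mulVec_mulVec, Units.inv_mul, one_mulVec]

theorem conj_pow_vec {v : ι → F} {g : (Matrix ι ι F)ˣ} (hg : g ∈ stab v) (A : Matrix ι ι F)
    (j : ℕ) : ((g : Matrix ι ι F) * A * (g⁻¹ : (Matrix ι ι F)ˣ).1) ^ j *ᵥ v =
      (g : Matrix ι ι F) *ᵥ (A ^ j *ᵥ v) := by
  rw [conj_pow, ← mulVec_mulVec, stab_inv hg, mulVec_mulVec]

/-- Conjugacy under the stabiliser. -/
def conjSetoid (v : ι → F) : Setoid (Matrix ι ι F) where
  r A B := ∃ g ∈ stab v, A = (g : Matrix ι ι F) * B * (g⁻¹ : (Matrix ι ι F)ˣ).1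
  iseqv := by
    refine ⟨fun A => ⟨1, ?_, ?_⟩, ?_, ?_⟩
    · rw [mem_stab, Units.val_one, one_mulVec]
    · simp
    · rintro A B ⟨g, hg, rfl⟩
      refine ⟨g⁻¹, mem_stab.2 (stab_inv hg), ?_⟩
      rw [inv_inv]
      calc B = ((g⁻¹ : (Matrix ι ι F)ˣ).1 * (g : Matrix ι ι F)) * B *
            ((g⁻¹ : (Matrix ι ι F)ˣ).1 * (g : Matrix ι ι F)) := by rw [Units.inv_mul]; simp
        _ = _ := by noncomm_ring
    · rintro A B C ⟨g, hg, rfl⟩ ⟨h, hh, rfl⟩
      refine ⟨g * h, ?_, ?_⟩
      · rw [mem_stab] at *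
        rw [Units.val_mul, ← mulVec_mulVec, hh, hg]
      · rw [_root_.mul_inv_rev, Units.val_mul, Units.val_mul]; noncomm_ring

theorem cyc_sum {v : ι → F} (hT : TT v = 0) (k : ℕ) [DecidablePred (Cyc v)] :
    ∑ A ∈ Finset.univ.filter (Cyc v), A ^ k *ᵥ v = 0 := by
  classical
  refine Finset.sum_cancels_of_partition_cancels (conjSetoid v) ?_
  intro A hA
  rw [Finset.mem_filter] at hA
  have hA2 := hA.2
  have h1 : ∑ B ∈ Finset.univ.filter (Cyc v) with (conjSetoid v) B A, B ^ k *ᵥ v =
      ∑ g ∈ stab v, (g : Matrix ι ι F) *ᵥ (A ^ k *ᵥ v) := by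
    symm
    refine Finset.sum_bij
      (fun (g : (Matrix ι ι F)ˣ) _ => (g : Matrix ι ι F) * A * (g⁻¹ : (Matrix ι ι F)ˣ).1)
      ?_ ?_ ?_ ?_
    · intro g hg
      rw [Finset.mem_filter, Finset.mem_filter]
      refine ⟨⟨Finset.mem_univ _, ?_⟩, ⟨g, hg, rfl⟩⟩
      intro φ hφ
      have h2 : φ ᵥ* (g : Matrix ι ι F) = 0 := by
        apply hA2
        intro j
        have := hφ j
        rw [conj_pow_vec hg] at this
        rw [← dotProduct_mulVec]
        exact this
      calc φ = φ ᵥ* ((g : Matrix ι ι F) * (g⁻¹ : (Matrix ι ι F)ˣ).1) := by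
            rw [Units.mul_inv, vecMul_one]
        _ = 0 := by rw [← vecMul_vecMul, h2, zero_vecMul]
    · intro g hg g' hg' hgg
      beta_reduce at hgg
      have h2 : ∀ j : ℕ, (g : Matrix ι ι F) *ᵥ (A ^ j *ᵥ v) =
          (g' : Matrix ι ι F) *ᵥ (A ^ j *ᵥ v) := by
        intro j
        rw [← conj_pow_vec hg, ← conj_pow_vec hg', hgg]
      apply Units.ext
      have h3 : (g : Matrix ι ι F) - (g' : Matrix ι ι F) = 0 := by
        funext i
        apply hA2
        intro j
        have h4 := congrFun (h2 j) i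
        have h5 : ((g : Matrix ι ι F) - (g' : Matrix ι ι F)) i ⬝ᵥ (A ^ j *ᵥ v) =
            ((g : Matrix ι ι F) *ᵥ (A ^ j *ᵥ v)) i - ((g' : Matrix ι ι F) *ᵥ (A ^ j *ᵥ v)) i := by
          rw [← Pi.sub_apply, ← sub_mulVec]; rfl
        rw [h5, h4, sub_self]
      exact sub_eq_zero.1 h3
    · intro B hB
      rw [Finset.mem_filter] at hB
      obtain ⟨g, hg, hB2⟩ := hB.2
      exact ⟨g, hg, hB2.symm⟩
    · intro g hg
      rw [conj_pow_vec hg]
  rw [h1, ← sum_mulVec]
  change TT v *ᵥ _ = 0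
  rw [hT, zero_mulVec]

/-- Agreement on the Krylov space. -/
def krySetoid (v : ι → F) : Setoid (Matrix ι ι F) where
  r A B := ∀ j : ℕ, A ^ j *ᵥ v = B ^ j *ᵥ v
  iseqv := ⟨fun _ _ => rfl, fun h j => (h j).symm, fun h h' j => (h j).trans (h' j)⟩

theorem kry_iff {v : ι → F} (A D : Matrix ι ι F) :
    (∀ j : ℕ, (A + D) ^ j *ᵥ v = A ^ j *ᵥ v) ↔ ∀ j : ℕ, D *ᵥ (A ^ j *ᵥ v) = 0 := by
  constructor
  · intro h j
    have h1 := h (j + 1)
    rw [pow_succ', ← mulVec_mulVec, h j, add_mulVec, pow_succ', ← mulVec_mulVec] at h1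
    exact add_eq_left.1 h1
  · intro h j
    induction j with
    | zero => rw [pow_zero, pow_zero]
    | succ j ih =>
      rw [pow_succ', ← mulVec_mulVec, ih, add_mulVec, h j, add_zero, pow_succ', ← mulVec_mulVec]

theorem noncyc_sum (v : ι → F) (hι : Nonempty ι) (k : ℕ) [DecidablePred (Cyc v)] :
    ∑ A ∈ Finset.univ.filter (fun A => ¬ Cyc v A), A ^ k *ᵥ v = 0 := by
  classical
  refine Finset.sum_cancels_of_partition_cancels (krySetoid v) ?_
  intro A hA
  rw [Finset.mem_filter] at hA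
  obtain ⟨-, hA2⟩ := hA
  unfold Cyc at hA2
  push Not at hA2
  obtain ⟨φ, hφ, hφ0⟩ := hA2
  -- the group of translations
  let W : AddSubgroup (Matrix ι ι F) :=
    { carrier := {D | ∀ j : ℕ, D *ᵥ (A ^ j *ᵥ v) = 0}
      zero_mem' := fun j => zero_mulVec _
      add_mem' := fun {D E} hD hE j => by rw [add_mulVec, hD j, hE j, add_zero]
      neg_mem' := fun {D} hD j => by rw [neg_mulVec, hD j, neg_zero] }
  have hWmem : ∀ D, D ∈ W ↔ ∀ j : ℕ, D *ᵥ (A ^ j *ᵥ v) = 0 := fun D => Iff.rfl
  obtain ⟨i0⟩ := hι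
  have hDW : vecMulVec (Pi.single i0 (1 : F) : ι → F) φ ∈ W := by
    intro j
    rw [vecMulVec_mulVec, hφ j]
    simp
  have hD0 : vecMulVec (Pi.single i0 (1 : F) : ι → F) φ ≠ 0 := by
    intro h
    apply hφ0
    funext i
    have := congrFun (congrFun h i0) i
    rw [vecMulVec_apply, Pi.single_eq_same, one_mul] at this
    exact this
  obtain ⟨p, hp⟩ := CharP.exists F
  have hpp : p.Prime := CharP.char_is_prime F p
  have hcardW : ((Nat.card W : ℕ) : F) = 0 := by
    rw [CharP.cast_eq_zero_iff F p]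
    have h1 : addOrderOf (⟨_, hDW⟩ : W) = p := by
      have : Fact p.Prime := ⟨hpp⟩
      apply addOrderOf_eq_prime
      · apply Subtype.ext
        change p • vecMulVec (Pi.single i0 (1 : F) : ι → F) φ = 0
        rw [← Nat.cast_smul_eq_nsmul F, CharP.cast_eq_zero, zero_smul]
      · intro h
        exact hD0 (congrArg Subtype.val h)
    rw [← h1]
    exact addOrderOf_dvd_natCard _
  -- the class of `A` is `A + W`
  have h1 : ∑ B ∈ Finset.univ.filter (fun A => ¬ Cyc v A) with (krySetoid v) B A, B ^ k *ᵥ v =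
      ∑ D : W, A ^ k *ᵥ v := by
    symm
    refine Finset.sum_bij (fun (D : W) _ => A + D.1) ?_ ?_ ?_ ?_
    · rintro ⟨D, hD⟩ _
      rw [Finset.mem_filter, Finset.mem_filter]
      have h2 := (kry_iff A D).2 hD
      refine ⟨⟨Finset.mem_univ _, ?_⟩, h2⟩
      intro hcyc
      apply hφ0
      apply hcyc
      intro j
      rw [h2 j]
      exact hφ j
    · rintro D _ D' _ h
      exact Subtype.ext (add_left_cancel h)
    · intro B hB
      rw [Finset.mem_filter] at hB
      refine ⟨⟨B - A, ?_⟩, Finset.mem_univ _, add_sub_cancel _ _⟩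
      rw [hWmem, ← kry_iff, add_sub_cancel]
      exact hB.2
    · rintro ⟨D, hD⟩ _
      exact ((kry_iff A D).2 hD k).symm
  rw [h1, Finset.sum_const, Finset.card_univ, ← Nat.card_eq_fintype_card,
    ← Nat.cast_smul_eq_nsmul F, hcardW, zero_smul]

theorem sum_pow_zero
    (h : 3 ≤ Fintype.card ι ∨ (2 ≤ Fintype.card ι ∧ 2 < Fintype.card F)) (k : ℕ) :
    ∑ A : Matrix ι ι F, A ^ k = 0 := by
  classical
  ext i i0
  have h1 : (∑ A : Matrix ι ι F, A ^ k) *ᵥ (Pi.single i0 (1 : F)) = 0 := by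
    rw [sum_mulVec, ← Finset.sum_filter_add_sum_filter_not Finset.univ
      (Cyc (Pi.single i0 (1 : F) : ι → F)), cyc_sum (TT_zero i0 h), noncyc_sum _ ⟨i0⟩, add_zero]
  rw [single_mulVec_single] at h1
  exact congrFun h1 i

end field

end Pool.Agent.V1155.PowSum
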