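import Pool.Agent.V1155.PowSum1

set_option autoImplicit false
set_option linter.unusedSectionVars false

/-!
Power sums over matrices with entries in a finite ring, possibly without identity: square-zero
ideals and surjections.
-/

namespace Pool.Agent.V1155.PowSum

/-- `npw A n` is the power `A ^ (n + 1)`, for rings without identity. -/
def npw {M : Type*} [Mul M] (A : M) : ℕ → M
  | 0 => A
  | n + 1 => npw A n * A

theorem npw_zero {M : Type*} [Mul M] (A : M) : npw A 0 = A := rfl

theorem npw_succ {M : Type*} [Mul M] (A : M) (n : ℕ) : npw A (n + 1) = npw A n * A := rfl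

theorem npw_eq_pow {M : Type*} [Monoid M] (A : M) (n : ℕ) : npw A n = A ^ (n + 1) := by
  induction n with
  | zero => rw [npw_zero, zero_add, pow_one]
  | succ n ih => rw [npw_succ, ih, ← pow_succ]

theorem map_npw {M N : Type*} [Mul M] [Mul N] (f : M →ₙ* N) (A : M) (n : ℕ) :
    f (npw A n) = npw (f A) n := by
  induction n with
  | zero => rfl
  | succ n ih => rw [npw_succ, map_mul, ih, npw_succ]

section

variable {R : Type*} [NonUnitalRing R] {d : ℕ}

/-- The linear part of `(A + X) ^ (n + 1)`. -/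
def Lin (A : Matrix (Fin d) (Fin d) R) :
    ℕ → (Matrix (Fin d) (Fin d) R →+ Matrix (Fin d) (Fin d) R)
  | 0 => AddMonoidHom.id _
  | n + 1 => (AddMonoidHom.mulRight A).comp (Lin A n) + AddMonoidHom.mulLeft (npw A n)

theorem Lin_succ (A X : Matrix (Fin d) (Fin d) R) (n : ℕ) :
    Lin A (n + 1) X = Lin A n X * A + npw A n * X := rfl

/-- Matrices with entries in a subgroup. -/
def matSub (d : ℕ) (I : AddSubgroup R) : AddSubgroup (Matrix (Fin d) (Fin d) R) where
  carrier := {X | ∀ i j, X i j ∈ I}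
  zero_mem' := fun _ _ => I.zero_mem
  add_mem' := fun hX hY i j => I.add_mem (hX i j) (hY i j)
  neg_mem' := fun hX i j => I.neg_mem (hX i j)

theorem mem_matSub {I : AddSubgroup R} {X : Matrix (Fin d) (Fin d) R} :
    X ∈ matSub d I ↔ ∀ i j, X i j ∈ I := Iff.rfl

theorem card_matSub (I : AddSubgroup R) : Nat.card (matSub d I) = Nat.card I ^ (d * d) := by
  let e : matSub d I ≃ (Fin d → Fin d → I) :=
    { toFun := fun X i j => ⟨X.1 i j, X.2 i j⟩
      invFun := fun Y => ⟨Matrix.of fun i j => (Y i j).1, fun i j => (Y i j).2⟩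
      left_inv := fun X => rfl
      right_inv := fun Y => rfl }
  rw [Nat.card_congr e, Nat.card_fun, Nat.card_fun, Nat.card_eq_fintype_card (α := Fin d),
    Fintype.card_fin, ← pow_mul]

variable (I : AddSubgroup R)

theorem sum_matSub [Finite R] [Fintype (matSub d I)] (hd : 2 ≤ d) :
    ∑ X : matSub d I, (X : Matrix (Fin d) (Fin d) R) = 0 := by
  classical
  ext i j
  rw [Matrix.sum_apply, Matrix.zero_apply]
  obtain ⟨i', hi'⟩ : ∃ i' : Fin d, i' ≠ i := by
    by_cases h : i.1 = 0
    · exact ⟨⟨1, by omega⟩, fun h' => by rw [← h'] at h; simp at h⟩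
    · exact ⟨⟨0, by omega⟩, fun h' => h (by rw [← h'])⟩
  let up : Matrix (Fin d) (Fin d) R → ℤ → Matrix (Fin d) (Fin d) R := fun X s =>
    Matrix.of fun a b => if a = i' then X a b + s • X i b else X a b
  have hup1 : ∀ X s b, up X s i' b = X i' b + s • X i b := fun X s b => if_pos rfl
  have hup2 : ∀ X s a b, a ≠ i' → up X s a b = X a b := fun X s a b h => if_neg h
  have hmem : ∀ (X : matSub d I) (s : ℤ), up X.1 s ∈ matSub d I := by
    intro X s a b
    by_cases ha : a = i'
    · subst ha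
      rw [hup1]
      exact I.add_mem (X.2 _ _) (I.zsmul_mem (X.2 _ _) s)
    · rw [hup2 _ _ _ _ ha]
      exact X.2 _ _
  have hup3 : ∀ X s t, s + t = 0 → up (up X s) t = X := by
    intro X s t hst
    ext a b
    by_cases ha : a = i'
    · subst ha
      rw [hup1, hup1, hup2 _ _ _ _ hi'.symm, add_assoc, ← add_smul, hst, zero_smul, add_zero]
    · rw [hup2 _ _ _ _ ha, hup2 _ _ _ _ ha]
  let φ : matSub d I ≃ matSub d I :=
    { toFun := fun X => ⟨_, hmem X 1⟩
      invFun := fun X => ⟨_, hmem X (-1)⟩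
      left_inv := fun X => Subtype.ext (hup3 X.1 1 (-1) (by norm_num))
      right_inv := fun X => Subtype.ext (hup3 X.1 (-1) 1 (by norm_num)) }
  have h1 : ∑ X : matSub d I, (φ X).1 i' j = ∑ X : matSub d I, X.1 i' j :=
    φ.sum_comp (fun X : matSub d I => X.1 i' j)
  have h2 : ∀ X : matSub d I, (φ X).1 i' j = X.1 i' j + X.1 i j := by
    intro X
    change up X.1 1 i' j = _
    rw [hup1, one_smul]
  rw [Finset.sum_congr rfl (fun X _ => h2 X), Finset.sum_add_distrib] at h1
  exact add_eq_left.1 h1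

variable {I}

theorem mul_mem_left (hl : ∀ r, ∀ x ∈ I, r * x ∈ I) (B : Matrix (Fin d) (Fin d) R)
    {X : Matrix (Fin d) (Fin d) R} (hX : X ∈ matSub d I) : B * X ∈ matSub d I := by
  intro i j
  rw [Matrix.mul_apply]
  exact AddSubgroup.sum_mem _ fun l _ => hl _ _ (hX _ _)

theorem mul_mem_right (hr : ∀ r, ∀ x ∈ I, x * r ∈ I) (B : Matrix (Fin d) (Fin d) R)
    {X : Matrix (Fin d) (Fin d) R} (hX : X ∈ matSub d I) : X * B ∈ matSub d I := by
  intro i j
  rw [Matrix.mul_apply]
  exact AddSubgroup.sum_mem _ fun l _ => hr _ _ (hX _ _)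

theorem mul_zero_of (hII : ∀ x ∈ I, ∀ y ∈ I, x * y = 0) {X Y : Matrix (Fin d) (Fin d) R}
    (hX : X ∈ matSub d I) (hY : Y ∈ matSub d I) : X * Y = 0 := by
  ext i j
  rw [Matrix.mul_apply]
  exact Finset.sum_eq_zero fun l _ => hII _ (hX _ _) _ (hY _ _)

theorem Lin_mem (hl : ∀ r, ∀ x ∈ I, r * x ∈ I) (hr : ∀ r, ∀ x ∈ I, x * r ∈ I)
    (A : Matrix (Fin d) (Fin d) R) {X : Matrix (Fin d) (Fin d) R} (hX : X ∈ matSub d I) (n : ℕ) :
    Lin A n X ∈ matSub d I := by
  induction n with
  | zero => exact hX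
  | succ n ih =>
    rw [Lin_succ]
    exact add_mem (mul_mem_right hr _ ih) (mul_mem_left hl _ hX)

theorem npw_add (hl : ∀ r, ∀ x ∈ I, r * x ∈ I) (hr : ∀ r, ∀ x ∈ I, x * r ∈ I)
    (hII : ∀ x ∈ I, ∀ y ∈ I, x * y = 0) (A : Matrix (Fin d) (Fin d) R)
    {X : Matrix (Fin d) (Fin d) R} (hX : X ∈ matSub d I) (n : ℕ) :
    npw (A + X) n = npw A n + Lin A n X := by
  induction n with
  | zero => rfl
  | succ n ih =>
    rw [npw_succ, ih, npw_succ, Lin_succ, add_mul, mul_add, mul_add,
      mul_zero_of hII (Lin_mem hl hr A hX n) hX]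
    abel

/-- Square-zero ideals of large order kill the power sum. -/
theorem sum_zero_of_ideal [Fintype R] (hl : ∀ r, ∀ x ∈ I, r * x ∈ I)
    (hr : ∀ r, ∀ x ∈ I, x * r ∈ I) (hII : ∀ x ∈ I, ∀ y ∈ I, x * y = 0) (hd : 2 ≤ d)
    (hc : ∀ r : R, (Nat.card I ^ (d * d)) • r = 0) (n : ℕ) :
    ∑ A : Matrix (Fin d) (Fin d) R, npw A n = 0 := by
  classical
  refine Finset.sum_cancels_of_partition_cancels
    (QuotientAddGroup.leftRel (matSub d I)) ?_
  intro A _
  have h1 : ∑ B ∈ (Finset.univ : Finset (Matrix (Fin d) (Fin d) R)) with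
      (QuotientAddGroup.leftRel (matSub d I)) B A, npw B n = ∑ X : matSub d I, npw (A + X.1) n := by
    symm
    refine Finset.sum_bij (fun (X : matSub d I) _ => A + X.1) ?_ ?_ ?_ ?_
    · rintro ⟨X, hX⟩ _
      rw [Finset.mem_filter]
      refine ⟨Finset.mem_univ _, ?_⟩
      rw [QuotientAddGroup.leftRel_apply]
      have : -(A + X) + A = -X := by abel
      rw [this]
      exact neg_mem hX
    · rintro X _ Y _ h
      exact Subtype.ext (add_left_cancel h)
    · intro B hB
      rw [Finset.mem_filter, QuotientAddGroup.leftRel_apply] at hB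
      refine ⟨⟨-A + B, ?_⟩, Finset.mem_univ _, by simp⟩
      have := neg_mem hB.2
      rwa [neg_add, neg_neg, add_comm] at this
    · rintro ⟨X, hX⟩ _
      rfl
  rw [h1, Finset.sum_congr rfl (fun (X : matSub d I) _ => npw_add hl hr hII A X.2 n),
    Finset.sum_add_distrib, ← map_sum, sum_matSub I hd, map_zero, add_zero, Finset.sum_const,
    Finset.card_univ, ← Nat.card_eq_fintype_card, card_matSub]
  ext i j
  exact hc _

end

section surj

variable {R R' : Type*} [NonUnitalRing R] [NonUnitalRing R'] [Fintype R] [Fintype R'] {d : ℕ}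

/-- Number of matrices killed by `f`. -/
noncomputable def kc (d : ℕ) (f : R →ₙ+* R') : ℕ :=
  Nat.card (matSub d (f : R →+ R').ker)

theorem map_sum_npw (f : R →ₙ+* R') (hf : Function.Surjective f) (n : ℕ) :
    (∑ A : Matrix (Fin d) (Fin d) R, npw A n).map f =
      kc d f • ∑ B : Matrix (Fin d) (Fin d) R', npw B n := by
  classical
  let g : Matrix (Fin d) (Fin d) R →+ Matrix (Fin d) (Fin d) R' := (f : R →+ R').mapMatrix
  have hg : ∀ A, g A = A.map f := fun A => rfl
  have hgm : ∀ A B, g (A * B) = g A * g B := by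
    intro A B
    ext i j
    rw [hg, hg, hg, Matrix.map_apply, Matrix.mul_apply, Matrix.mul_apply, map_sum]
    refine Finset.sum_congr rfl fun l _ => ?_
    rw [map_mul, Matrix.map_apply, Matrix.map_apply]
  have hgn : ∀ A, g (npw A n) = npw (g A) n := by
    intro A
    induction n with
    | zero => rfl
    | succ n ih => rw [npw_succ, hgm, ih, npw_succ]
  have hgs : Function.Surjective g := by
    intro B
    choose s hs using hf
    exact ⟨B.map s, by ext i j; rw [hg]; exact hs _⟩
  rw [← hg, map_sum, Finset.sum_congr rfl (fun A _ => hgn A),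
    ← Finset.sum_fiberwise Finset.univ g, Finset.smul_sum]
  refine Finset.sum_congr rfl fun B _ => ?_
  rw [Finset.sum_congr rfl (g := fun _ => npw B n) (fun A hA => by
    rw [(Finset.mem_filter.1 hA).2]), Finset.sum_const]
  congr 1
  rw [AddMonoidHom.card_fiber_eq_of_mem_range g (x := B) (y := 0) (hgs B) (hgs 0)]
  unfold kc
  rw [Nat.card_eq_fintype_card, Fintype.card_subtype]
  congr 1
  ext A
  rw [Finset.mem_filter, Finset.mem_filter]
  refine and_congr_right fun _ => ?_
  constructor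
  · intro h i j
    exact congrFun (congrFun h i) j
  · intro h
    ext i j
    exact h i j

theorem dvd_kc (f : R →ₙ+* R') {p : ℕ} (hp : p.Prime) (hd : 1 ≤ d) {x : R} (hx : x ≠ 0)
    (hfx : f x = 0) (hpx : p • x = 0) : p ∣ kc d f := by
  have : Fact p.Prime := ⟨hp⟩
  let X : Matrix (Fin d) (Fin d) R := Matrix.of fun _ _ => x
  have hX : X ∈ matSub d (f : R →+ R').ker := fun i j => hfx
  have h1 : addOrderOf (⟨X, hX⟩ : matSub d (f : R →+ R').ker) = p := by
    apply addOrderOf_eq_prime
    · apply Subtype.ext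
      ext i j
      exact hpx
    · intro h
      have h2 := congrArg Subtype.val h
      exact hx (congrFun (congrFun h2 ⟨0, hd⟩) ⟨0, hd⟩)
  unfold kc
  rw [← h1]
  exact addOrderOf_dvd_natCard _

theorem exists_of_dvd_kc (f : R →ₙ+* R') {p : ℕ} (hp : p.Prime) (h : p ∣ kc d f) :
    ∃ x : R, x ≠ 0 ∧ f x = 0 ∧ p • x = 0 := by
  have : Fact p.Prime := ⟨hp⟩
  obtain ⟨⟨X, hX⟩, hX2⟩ := exists_prime_addOrderOf_dvd_card' p h
  have hX0 : X ≠ 0 := by
    intro h0
    have : (⟨X, hX⟩ : matSub d (f : R →+ R').ker) = 0 := Subtype.ext h0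
    rw [this, addOrderOf_zero] at hX2
    exact hp.one_lt.ne hX2
  have hpX : p • X = 0 := by
    have := addOrderOf_nsmul_eq_zero (⟨X, hX⟩ : matSub d (f : R →+ R').ker)
    rw [hX2] at this
    exact congrArg Subtype.val this
  obtain ⟨i, j, hij⟩ : ∃ i j, X i j ≠ 0 := by
    by_contra hcon
    push Not at hcon
    exact hX0 (by ext i j; exact hcon i j)
  exact ⟨X i j, hij, hX i j, congrFun (congrFun hpX i) j⟩

end surj

end Pool.Agent.V1155.PowSum
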