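import Pool.Agent.V1155.PowSum2

set_option autoImplicit false
set_option linter.unusedSectionVars false

/-!
Finite rings without square-zero ideals have an identity and are semisimple. Power sums over rings
whose additive group is a `p`-group.
-/

namespace Pool.Agent.V1155.PowSum

universe u

section semi

variable {R : Type u} [NonUnitalRing R]

/-- No nonzero two-sided ideal has square zero. -/
def NoSq (R : Type u) [NonUnitalRing R] : Prop :=
  ∀ I : AddSubgroup R, (∀ r, ∀ x ∈ I, r * x ∈ I) → (∀ r, ∀ x ∈ I, x * r ∈ I) →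
    (∀ x ∈ I, ∀ y ∈ I, x * y = 0) → I = ⊥

/-- The two-sided ideal generated by a left ideal of square zero has square zero. -/
theorem left_sq (hR : NoSq R) (L : AddSubgroup R) (hL : ∀ r, ∀ x ∈ L, r * x ∈ L)
    (hLL : ∀ x ∈ L, ∀ y ∈ L, x * y = 0) : L = ⊥ := by
  let S : Set R := {z | z ∈ L ∨ ∃ l ∈ L, ∃ r, z = l * r}
  have h1 : ∀ r, ∀ x ∈ AddSubgroup.closure S, r * x ∈ AddSubgroup.closure S := by
    intro r x hx
    induction hx using AddSubgroup.closure_induction with
    | mem x hx =>
      apply AddSubgroup.subset_closure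
      rcases hx with hx | ⟨l, hl, s, rfl⟩
      · exact Or.inl (hL _ _ hx)
      · exact Or.inr ⟨r * l, hL _ _ hl, s, by rw [mul_assoc]⟩
    | zero => rw [mul_zero]; exact zero_mem _
    | add x y _ _ ihx ihy => rw [mul_add]; exact add_mem ihx ihy
    | neg x _ ih => rw [mul_neg]; exact neg_mem ih
  have h2 : ∀ r, ∀ x ∈ AddSubgroup.closure S, x * r ∈ AddSubgroup.closure S := by
    intro r x hx
    induction hx using AddSubgroup.closure_induction with
    | mem x hx =>
      apply AddSubgroup.subset_closure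
      rcases hx with hx | ⟨l, hl, s, rfl⟩
      · exact Or.inr ⟨x, hx, r, rfl⟩
      · exact Or.inr ⟨l, hl, s * r, by rw [mul_assoc]⟩
    | zero => rw [zero_mul]; exact zero_mem _
    | add x y _ _ ihx ihy => rw [add_mul]; exact add_mem ihx ihy
    | neg x _ ih => rw [neg_mul]; exact neg_mem ih
  have h3 : ∀ x ∈ AddSubgroup.closure S, ∀ y ∈ AddSubgroup.closure S, x * y = 0 := by
    intro x hx y hy
    induction hx using AddSubgroup.closure_induction with
    | mem x hx =>
      induction hy using AddSubgroup.closure_induction with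
      | mem y hy =>
        rcases hx with hx | ⟨l, hl, s, rfl⟩
        · rcases hy with hy | ⟨l', hl', s', rfl⟩
          · exact hLL _ hx _ hy
          · rw [← mul_assoc, hLL _ hx _ hl', zero_mul]
        · rcases hy with hy | ⟨l', hl', s', rfl⟩
          · rw [mul_assoc]; exact hLL _ hl _ (hL _ _ hy)
          · rw [mul_assoc, ← mul_assoc s, ← mul_assoc, hLL _ hl _ (hL _ _ hl'), zero_mul]
      | zero => rw [mul_zero]
      | add x y _ _ ihx ihy => rw [mul_add, ihx, ihy, add_zero]
      | neg x _ ih => rw [mul_neg, ih, neg_zero]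
    | zero => rw [zero_mul]
    | add x y _ _ ihx ihy => rw [add_mul, ihx, ihy, add_zero]
    | neg x _ ih => rw [neg_mul, ih, neg_zero]
  have h4 := hR _ h1 h2 h3
  rw [eq_bot_iff]
  intro x hx
  rw [← h4]
  exact AddSubgroup.subset_closure (Or.inl hx)

/-- Brauer's lemma: nonzero left ideals contain nonzero idempotents. -/
theorem brauer [Finite R] (hR : NoSq R) (n : ℕ) : ∀ L : AddSubgroup R, Nat.card L ≤ n →
    (∀ r, ∀ x ∈ L, r * x ∈ L) → L ≠ ⊥ → ∃ e ∈ L, e ≠ 0 ∧ e * e = e := by
  induction n with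
  | zero =>
    intro L hn _ _
    have : 0 < Nat.card L := Nat.card_pos
    omega
  | succ n ih =>
    intro L hn hL hL0
    by_cases hmin : ∃ L' : AddSubgroup R, L' < L ∧ (∀ r, ∀ x ∈ L', r * x ∈ L') ∧ L' ≠ ⊥
    · obtain ⟨L', hlt, hL', hL'0⟩ := hmin
      have hcard : Nat.card L' < Nat.card L := by
        apply Set.ncard_lt_ncard (s := (L' : Set R)) (t := (L : Set R))
        exact hlt
      obtain ⟨e, he, h⟩ := ih L' (by omega) hL' hL'0
      exact ⟨e, hlt.le he, h⟩
    · push Not at hmin
      have hne : ∃ a0 ∈ L, ∃ a ∈ L, a0 * a ≠ 0 := by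
        by_contra hcon
        push Not at hcon
        exact hL0 (left_sq hR L hL hcon)
      obtain ⟨a0, ha0, a, ha, haa⟩ := hne
      -- `L a = L`
      let La : AddSubgroup R := L.map (AddMonoidHom.mulRight a)
      have hLa1 : La ≤ L := by
        rintro _ ⟨x, hx, rfl⟩
        exact hL x a ha
      have hLa2 : ∀ r, ∀ x ∈ La, r * x ∈ La := by
        rintro r _ ⟨x, hx, rfl⟩
        exact ⟨r * x, hL r x hx, mul_assoc r x a⟩
      have hLa3 : La ≠ ⊥ := by
        intro h
        have : a0 * a ∈ La := ⟨a0, ha0, rfl⟩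
        rw [h, AddSubgroup.mem_bot] at this
        exact haa this
      have hLa : La = L := by
        by_contra hcon
        exact hLa3 (hmin La (lt_of_le_of_ne hLa1 hcon) hLa2)
      obtain ⟨e, he, hea⟩ : a ∈ La := by rw [hLa]; exact ha
      have hea' : e * a = a := hea
      let K : AddSubgroup R := L ⊓ (AddMonoidHom.mulRight a).ker
      have hK : K = ⊥ := by
        apply hmin K
        · refine lt_of_le_of_ne inf_le_left ?_
          intro h
          have h1 : a0 ∈ K := by rw [h]; exact ha0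
          exact haa h1.2
        · intro r x hx
          refine ⟨hL r x hx.1, ?_⟩
          change r * x * a = 0
          have : x * a = 0 := hx.2
          rw [mul_assoc, this, mul_zero]
      have h1 : e * e - e ∈ K := by
        refine ⟨L.sub_mem (hL e e he) he, ?_⟩
        change (e * e - e) * a = 0
        rw [sub_mul, mul_assoc, hea', hea', sub_self]
      rw [hK, AddSubgroup.mem_bot, sub_eq_zero] at h1
      refine ⟨e, he, ?_, h1⟩
      rintro rfl
      rw [zero_mul] at hea'
      rw [← hea', mul_zero] at haa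
      exact haa rfl

/-- The left annihilator of `e`. -/
def lann (e : R) : AddSubgroup R := (AddMonoidHom.mulRight e).ker

theorem mem_lann {e x : R} : x ∈ lann e ↔ x * e = 0 := Iff.rfl

theorem exists_right_one [Finite R] (hR : NoSq R) (n : ℕ) : ∀ e : R, e * e = e →
    Nat.card (lann e) ≤ n → ∃ e' : R, e' * e' = e' ∧ lann e' = ⊥ := by
  induction n with
  | zero =>
    intro e _ hn
    have : 0 < Nat.card (lann e) := Nat.card_pos
    omega
  | succ n ih =>
    intro e he hn
    by_cases h0 : lann e = ⊥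
    · exact ⟨e, he, h0⟩
    · obtain ⟨f, hf, hf0, hff⟩ := brauer hR _ (lann e) le_rfl (by
        intro r x hx
        rw [mem_lann] at *
        rw [mul_assoc, hx, mul_zero]) h0
      rw [mem_lann] at hf
      have h1 : (e + f - e * f) * e = e := by
        rw [sub_mul, add_mul, he, hf, mul_assoc, hf, mul_zero]; simp
      have h2 : (e + f - e * f) * f = f := by
        rw [sub_mul, add_mul, hff, mul_assoc, hff]; simp
      have h3 : (e + f - e * f) * (e + f - e * f) = e + f - e * f := by
        rw [mul_sub, mul_add, h1, h2, ← mul_assoc, h1]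
      refine ih (e + f - e * f) h3 ?_
      have hlt : lann (e + f - e * f) < lann e := by
        refine lt_of_le_of_ne ?_ ?_
        · intro r hr
          rw [mem_lann] at *
          rw [← h1, ← mul_assoc, hr, zero_mul]
        · intro h
          have h4 : f ∈ lann (e + f - e * f) := by rw [h]; exact hf
          rw [mem_lann, mul_sub, mul_add, hf, hff, ← mul_assoc, hf, zero_mul, zero_add,
            sub_zero] at h4
          exact hf0 h4
      have : Nat.card (lann (e + f - e * f)) < Nat.card (lann e) :=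
        Set.ncard_lt_ncard (s := (lann (e + f - e * f) : Set R)) (t := (lann e : Set R)) hlt
      omega

theorem exists_one [Finite R] (hR : NoSq R) : ∃ e : R, ∀ x, e * x = x ∧ x * e = x := by
  obtain ⟨e, he, hann⟩ := exists_right_one hR _ 0 (mul_zero 0) le_rfl
  have hr : ∀ x, x * e = x := by
    intro x
    have h1 : x * e - x ∈ lann e := by
      rw [mem_lann, sub_mul, mul_assoc, he, sub_self]
    rw [hann, AddSubgroup.mem_bot, sub_eq_zero] at h1
    exact h1
  let N : AddSubgroup R :=
    { carrier := {x | ∀ r, r * x = 0}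
      zero_mem' := fun r => mul_zero r
      add_mem' := fun {x y} hx hy r => by rw [mul_add, hx r, hy r, add_zero]
      neg_mem' := fun {x} hx r => by rw [mul_neg, hx r, neg_zero] }
  have hN : N = ⊥ := by
    apply hR
    · intro r x hx s
      rw [← mul_assoc]; exact hx _
    · intro r x hx s
      rw [← mul_assoc, hx s, zero_mul]
    · intro x _ y hy
      exact hy x
  refine ⟨e, fun x => ⟨?_, hr x⟩⟩
  have h1 : e * x - x ∈ N := by
    intro r
    rw [mul_sub, ← mul_assoc, hr, sub_self]
  rw [hN, AddSubgroup.mem_bot, sub_eq_zero] at h1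
  exact h1

end semi

section ss

variable {R : Type u} [Ring R] [Finite R]

theorem isSemisimple_of (hR : NoSq R) : IsSemisimpleRing R := by
  rw [IsArtinianRing.isSemisimpleRing_iff_jacobson]
  by_contra hJ
  obtain ⟨e, he, he0, hee⟩ := brauer hR _ (Ring.jacobson R).toAddSubgroup le_rfl
    (fun r x hx => Ideal.mul_mem_left _ r hx) (by
      intro h
      apply hJ
      rw [eq_bot_iff]
      intro x hx
      have : x ∈ (Ring.jacobson R).toAddSubgroup := hx
      rw [h] at this
      exact this)
  have he' : e ∈ Ring.jacobson R := he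
  rw [← Ideal.jacobson_bot, Ideal.mem_jacobson_iff] at he'
  obtain ⟨z, hz⟩ := he' (-1)
  rw [Ideal.mem_bot, sub_eq_zero] at hz
  apply he0
  calc e = (z * -1 * e + z) * e := by rw [hz, one_mul]
    _ = z * (e - e * e) := by noncomm_ring
    _ = 0 := by rw [hee, sub_self, mul_zero]

end ss

section matrixcase

theorem sum_matrix_zero {D : Type*} [Field D] [Fintype D] {d m : ℕ}
    (h : 3 ≤ d * m ∨ (2 ≤ d * m ∧ 2 < Fintype.card D)) (n : ℕ) :
    ∑ A : Matrix (Fin d) (Fin d) (Matrix (Fin m) (Fin m) D), npw A n = 0 := by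
  classical
  let e := Matrix.compRingEquiv (Fin d) (Fin m) D
  apply e.injective
  rw [map_zero, map_sum]
  have h1 : ∑ A : Matrix (Fin d) (Fin d) (Matrix (Fin m) (Fin m) D), e (npw A n) =
      ∑ A : Matrix (Fin d) (Fin d) (Matrix (Fin m) (Fin m) D), (e A) ^ (n + 1) :=
    Finset.sum_congr rfl fun A _ => by rw [npw_eq_pow, map_pow]
  have h2 := e.toEquiv.sum_comp
    (fun B : Matrix (Fin d × Fin m) (Fin d × Fin m) D => B ^ (n + 1))
  rw [h1]
  refine h2.trans ?_
  apply sum_pow_zero
  rw [Fintype.card_prod, Fintype.card_fin, Fintype.card_fin]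
  exact h

end matrixcase

section pring

variable {R : Type u} [NonUnitalRing R] [Fintype R]

theorem case_exp {p : ℕ} (hp : p.Prime) {a : ℕ} (ha : ∀ x : R, p ^ a • x = 0)
    (hx : ∃ x : R, p • x ≠ 0) {d : ℕ} (hd : 2 ≤ d) (n : ℕ) :
    ∑ A : Matrix (Fin d) (Fin d) R, npw A n = 0 := by
  classical
  have hex : ∃ a : ℕ, ∀ x : R, p ^ a • x = 0 := ⟨a, ha⟩
  obtain ⟨E, hE, hmin⟩ : ∃ E : ℕ, (∀ x : R, p ^ E • x = 0) ∧
      ∀ b < E, ¬ ∀ x : R, p ^ b • x = 0 :=
    ⟨Nat.find hex, Nat.find_spec hex, fun b hb => Nat.find_min hex hb⟩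
  have hE2 : 2 ≤ E := by
    by_contra hcon
    obtain ⟨x, hx⟩ := hx
    apply hx
    have h1 : E = 0 ∨ E = 1 := by omega
    rcases h1 with rfl | rfl
    · have := hE x
      rw [pow_zero, one_smul] at this
      rw [this, smul_zero]
    · have := hE x
      rwa [pow_one] at this
  obtain ⟨E', rfl⟩ : ∃ E', E = E' + 1 := ⟨E - 1, by omega⟩
  have hy := hmin E' (by omega)
  push Not at hy
  obtain ⟨y, hy⟩ := hy
  obtain ⟨h, hh⟩ : ∃ h, h = (E' + 2) / 2 := ⟨_, rfl⟩
  let I : AddSubgroup R := (nsmulAddMonoidHom (p ^ h) : R →+ R).range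
  have hcard : p ^ (E' + 1 - h) ∣ Nat.card I := by
    have hyI : p ^ h • y ∈ I := ⟨y, rfl⟩
    have : Fact p.Prime := ⟨hp⟩
    obtain ⟨s, hs⟩ : ∃ s, E' + 1 - h = s + 1 := ⟨E' - h, by omega⟩
    have h1 : addOrderOf (⟨_, hyI⟩ : I) = p ^ (s + 1) := by
      apply addOrderOf_eq_prime_pow
      · intro h2
        have h3 : p ^ s • (p ^ h • y) = 0 := congrArg Subtype.val h2
        rw [← mul_smul, ← pow_add] at h3
        have : s + h = E' := by omega
        rw [this] at h3
        exact hy h3
      · apply Subtype.ext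
        change p ^ (s + 1) • (p ^ h • y) = 0
        rw [← mul_smul, ← pow_add]
        have : s + 1 + h = E' + 1 := by omega
        rw [this]
        exact hE y
    rw [hs, ← h1]
    exact addOrderOf_dvd_natCard _
  refine sum_zero_of_ideal (I := I) ?_ ?_ ?_ hd ?_ n
  · rintro r _ ⟨x, rfl⟩
    exact ⟨r * x, by
      change p ^ h • (r * x) = r * (p ^ h • x)
      rw [mul_smul_comm]⟩
  · rintro r _ ⟨x, rfl⟩
    exact ⟨x * r, by
      change p ^ h • (x * r) = (p ^ h • x) * r
      rw [smul_mul_assoc]⟩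
  · rintro _ ⟨x, rfl⟩ _ ⟨z, rfl⟩
    change (p ^ h • x) * (p ^ h • z) = 0
    rw [smul_mul_assoc, mul_smul_comm, ← mul_smul, ← pow_add]
    obtain ⟨t, ht⟩ : ∃ t, h + h = t + (E' + 1) := ⟨h + h - (E' + 1), by omega⟩
    rw [ht, pow_add, mul_smul, hE, smul_zero]
  · intro r
    have h1 : p ^ (E' + 1) ∣ Nat.card I ^ (d * d) := by
      refine dvd_trans ?_ (pow_dvd_pow_of_dvd hcard (d * d))
      rw [← pow_mul]
      apply pow_dvd_pow
      have h2 : 4 ≤ d * d := by nlinarith
      have h3 : E' + 1 ≤ (E' + 1 - h) * 4 := by omega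
      exact h3.trans (Nat.mul_le_mul_left _ h2)
    obtain ⟨c, hc⟩ := h1
    rw [hc, mul_comm, mul_smul, hE, smul_zero]

theorem case_sq {p : ℕ} (hp : p.Prime) (ha : ∀ x : R, p • x = 0)
    (hx : ¬ NoSq R) {d : ℕ} (hd : 2 ≤ d) (n : ℕ) :
    ∑ A : Matrix (Fin d) (Fin d) R, npw A n = 0 := by
  classical
  unfold NoSq at hx
  push Not at hx
  obtain ⟨I, h1, h2, h3, h4⟩ := hx
  refine sum_zero_of_ideal (I := I) h1 h2 h3 hd ?_ n
  intro r
  obtain ⟨x, hx, hx0⟩ : ∃ x ∈ I, x ≠ 0 := by
    by_contra hcon
    push Not at hcon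
    apply h4
    rw [eq_bot_iff]
    intro x hx
    exact hcon x hx
  have : Fact p.Prime := ⟨hp⟩
  have h5 : addOrderOf (⟨x, hx⟩ : I) = p := by
    apply addOrderOf_eq_prime
    · exact Subtype.ext (ha x)
    · intro h
      exact hx0 (congrArg Subtype.val h)
  have h6 : p ∣ Nat.card I := by rw [← h5]; exact addOrderOf_dvd_natCard _
  have h7 : p ∣ Nat.card I ^ (d * d) := dvd_pow h6 (by positivity)
  obtain ⟨c, hc⟩ := h7
  rw [hc, mul_comm, mul_smul, ha, smul_zero]

theorem case_ss_ring {R : Type u} [Ring R] [Fintype R] {p : ℕ} (hp : p.Prime)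
    (ha : ∀ x : R, p • x = 0) (hx : NoSq R) {d : ℕ} (hd : 2 ≤ d)
    (hex : ¬ (d = 2 ∧ Nat.card R = 2 ∧ ∃ e : R, e ≠ 0 ∧ e * e = e)) (n : ℕ) :
    ∑ A : Matrix (Fin d) (Fin d) R, npw A n = 0 := by
  classical
  have : IsSemisimpleRing R := isSemisimple_of hx
  obtain ⟨N, D, m, hD, hm, ⟨φ⟩⟩ := IsSemisimpleRing.exists_ringEquiv_pi_matrix_divisionRing R
  let f : ∀ i, R →+* Matrix (Fin (m i)) (Fin (m i)) (D i) := fun i =>
    (Pi.evalRingHom (fun i => Matrix (Fin (m i)) (Fin (m i)) (D i)) i).comp φ.toRingHom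
  have hf : ∀ i, Function.Surjective (f i) := by
    intro i y
    obtain ⟨x, hx⟩ := φ.surjective (Pi.single i y)
    refine ⟨x, ?_⟩
    change φ x i = y
    rw [hx, Pi.single_eq_same]
  -- each component of the sum vanishes
  have key : ∀ i, (∑ A : Matrix (Fin d) (Fin d) R, npw A n).map (f i) = 0 := by
    intro i
    have hmi := hm i
    have hfinM : Finite (Matrix (Fin (m i)) (Fin (m i)) (D i)) := Finite.of_surjective _ (hf i)
    have hfinD : Finite (D i) := by
      have h0 : 0 < m i := Nat.pos_of_ne_zero hmi.out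
      refine Finite.of_injective (fun x : D i => Matrix.diagonal (fun _ : Fin (m i) => x)) ?_
      intro x y hxy
      have := congrFun (congrFun hxy ⟨0, h0⟩) ⟨0, h0⟩
      simpa using this
    let _ : Fintype (D i) := Fintype.ofFinite _
    let _ : Fintype (Matrix (Fin (m i)) (Fin (m i)) (D i)) := Fintype.ofFinite _
    let g : R →ₙ+* Matrix (Fin (m i)) (Fin (m i)) (D i) :=
      { toFun := f i
        map_mul' := map_mul (f i)
        map_zero' := map_zero (f i)
        map_add' := map_add (f i) }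
    have h1 := map_sum_npw (d := d) g (hf i) n
    have h2 : (∑ A : Matrix (Fin d) (Fin d) R, npw A n).map (f i) =
      (∑ A : Matrix (Fin d) (Fin d) R, npw A n).map g := rfl
    rw [h2, h1]
    have hpk : ∀ X : Matrix (Fin d) (Fin d) (Matrix (Fin (m i)) (Fin (m i)) (D i)),
        p • X = 0 := by
      intro X
      refine Matrix.ext fun a b => ?_
      obtain ⟨x, hx⟩ := hf i (X a b)
      change p • X a b = 0
      rw [← hx, ← map_nsmul, ha, map_zero]
    by_cases hker : ∃ x : R, x ≠ 0 ∧ f i x = 0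
    · obtain ⟨x, hx0, hfx⟩ := hker
      obtain ⟨c, hc⟩ := dvd_kc (d := d) g hp (by omega) hx0 hfx (ha x)
      rw [hc, mul_comm, mul_smul, hpk, smul_zero]
    · -- `f i` is an isomorphism
      have hinj : Function.Injective (f i) := by
        rw [injective_iff_map_eq_zero]
        intro x hx
        by_contra h
        exact hker ⟨x, h, hx⟩
      have hm0 : 0 < m i := Nat.pos_of_ne_zero hmi.out
      have hDc : 2 ≤ Fintype.card (D i) := Fintype.one_lt_card
      have hcond : 3 ≤ d * m i ∨ (2 ≤ d * m i ∧ 2 < Fintype.card (D i)) := by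
        by_contra hcon
        rw [not_or, not_le, not_and_or, not_le, not_lt] at hcon
        have h3 : 2 ≤ d * m i := by nlinarith
        have h4 : d * m i = 2 := by omega
        have h5 : m i = 1 := by
          by_contra h6
          have : 2 ≤ m i := by omega
          nlinarith
        rw [h5, mul_one] at h4
        have h6 : Fintype.card (D i) = 2 := by
          rcases hcon.2 with h | h
          · omega
          · omega
        apply hex
        refine ⟨h4, ?_, 1, ?_, one_mul 1⟩
        · rw [Nat.card_congr (Equiv.ofBijective (f i) ⟨hinj, hf i⟩)]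
          have : Nat.card (Matrix (Fin (m i)) (Fin (m i)) (D i)) =
              Nat.card (Fin (m i) → Fin (m i) → D i) := rfl
          rw [this, Nat.card_fun, Nat.card_fun, Nat.card_eq_fintype_card (α := Fin (m i)),
            Fintype.card_fin, h5, pow_one, pow_one, Nat.card_eq_fintype_card, h6]
        · intro h7
          have h8 : (1 : Matrix (Fin (m i)) (Fin (m i)) (D i)) = 0 := by
            rw [← map_one (f i), h7, map_zero]
          have h9 := congrFun (congrFun h8 ⟨0, hm0⟩) ⟨0, hm0⟩
          rw [Matrix.one_apply_eq, Matrix.zero_apply] at h9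
          exact one_ne_zero h9
      let _ : Field (D i) := littleWedderburn (D i)
      have h10 := sum_matrix_zero (D := D i) hcond n
      have h11 : ∑ B : Matrix (Fin d) (Fin d) (Matrix (Fin (m i)) (Fin (m i)) (D i)), npw B n =
          0 := by
        rw [← h10]
        refine Finset.sum_congr ?_ fun _ _ => rfl
        ext x
        simp
      rw [h11, smul_zero]
  ext a b
  rw [Matrix.zero_apply]
  apply φ.injective
  rw [map_zero]
  funext i
  exact congrFun (congrFun (key i) a) b

theorem case_ss {p : ℕ} (hp : p.Prime) (ha : ∀ x : R, p • x = 0)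
    (hx : NoSq R) {d : ℕ} (hd : 2 ≤ d)
    (hex : ¬ (d = 2 ∧ Nat.card R = 2 ∧ ∃ e : R, e ≠ 0 ∧ e * e = e)) (n : ℕ) :
    ∑ A : Matrix (Fin d) (Fin d) R, npw A n = 0 := by
  obtain ⟨e, he⟩ := exists_one hx
  let _ : Ring R := { ‹NonUnitalRing R› with
    one := e
    one_mul := fun x => (he x).1
    mul_one := fun x => (he x).2 }
  exact case_ss_ring hp ha hx hd hex n

theorem pring_main {p : ℕ} (hp : p.Prime) {a : ℕ} (ha : ∀ x : R, p ^ a • x = 0) {d : ℕ}
    (hd : 2 ≤ d)
    (hex : ¬ (d = 2 ∧ Nat.card R = 2 ∧ ∃ e : R, e ≠ 0 ∧ e * e = e)) (n : ℕ) :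
    ∑ A : Matrix (Fin d) (Fin d) R, npw A n = 0 := by
  by_cases h1 : ∃ x : R, p • x ≠ 0
  · exact case_exp hp ha h1 hd n
  · push Not at h1
    by_cases h2 : NoSq R
    · exact case_ss hp h1 h2 hd hex n
    · exact case_sq hp h1 h2 hd n

end pring

end Pool.Agent.V1155.PowSum
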