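import Pool.Agent.V1155.PowSum3

set_option autoImplicit false
set_option linter.unusedSectionVars false

/-!
The exceptional case of two by two matrices, and the general theorem on power sums of matrices over
finite rings.
-/

namespace Pool.Agent.V1155.PowSum

universe u

open Matrix

/-- The condition on the exponent. -/
def expCond (k : ℕ) : Prop := 1 < k ∧ (k % 6 = 5 ∨ k % 6 = 0 ∨ k % 6 = 1)

instance (k : ℕ) : Decidable (expCond k) := by unfold expCond; infer_instance

theorem pow8 : ∀ B : Matrix (Fin 2) (Fin 2) (ZMod 2), B ^ 8 = B ^ 2 := by decide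

theorem pow_period (B : Matrix (Fin 2) (Fin 2) (ZMod 2)) (k j : ℕ) :
    B ^ (k + 2 + 6 * j) = B ^ (k + 2) := by
  induction j with
  | zero => rfl
  | succ j ih =>
    have h : k + 2 + 6 * (j + 1) = (k + 6 * j) + 8 := by ring
    rw [h, pow_add, pow8, ← pow_add]
    have h2 : k + 6 * j + 2 = k + 2 + 6 * j := by ring
    rw [h2, ih]

theorem sum_ZMod2 (k : ℕ) (hk : 1 ≤ k) :
    ∑ B : Matrix (Fin 2) (Fin 2) (ZMod 2), B ^ k = if expCond k then 1 else 0 := by
  by_cases h1 : k = 1
  · subst h1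
    rw [if_neg (by decide)]
    decide
  · obtain ⟨r, j, hr, hk2⟩ : ∃ r j : ℕ, r < 6 ∧ k = r + 2 + 6 * j :=
      ⟨(k - 2) % 6, (k - 2) / 6, Nat.mod_lt _ (by norm_num), by omega⟩
    have h2 : ∑ B : Matrix (Fin 2) (Fin 2) (ZMod 2), B ^ k =
        ∑ B : Matrix (Fin 2) (Fin 2) (ZMod 2), B ^ (r + 2) := by
      rw [hk2]
      exact Finset.sum_congr rfl fun B _ => pow_period B r j
    have h3 : expCond k ↔ expCond (r + 2) := by
      unfold expCond
      rw [hk2]
      omega
    rw [h2]
    simp only [h3]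
    clear h2 h3 hk2
    interval_cases r <;> decide

section exc

variable {R : Type u} [NonUnitalRing R] [Fintype R]

theorem exc_sum (hR : Nat.card R = 2) {e : R} (he0 : e ≠ 0) (he : e * e = e) (n : ℕ) :
    ∑ A : Matrix (Fin 2) (Fin 2) R, npw A n =
      if expCond (n + 1) then diagonal (fun _ => e) else 0 := by
  classical
  have hall : ∀ x : R, x = 0 ∨ x = e := by
    intro x
    by_contra hcon
    rw [not_or] at hcon
    have h1 : ({0, e, x} : Finset R).card = 3 := by
      rw [Finset.card_eq_three]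
      exact ⟨0, e, x, Ne.symm he0, Ne.symm hcon.1, Ne.symm hcon.2, rfl⟩
    have h2 := Finset.card_le_univ ({0, e, x} : Finset R)
    rw [h1, ← Nat.card_eq_fintype_card, hR] at h2
    omega
  have hee : e + e = 0 := by
    rcases hall (e + e) with h | h
    · exact h
    · exact absurd (add_eq_left.1 h) he0
  let f : R →ₙ+* ZMod 2 :=
    { toFun := fun x => if x = 0 then 0 else 1
      map_zero' := if_pos rfl
      map_mul' := fun x y => by
        rcases hall x with rfl | rfl
        · rw [zero_mul, if_pos rfl, zero_mul]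
        · rcases hall y with rfl | rfl
          · rw [mul_zero, if_pos rfl, mul_zero]
          · rw [he, if_neg he0]; rfl
      map_add' := fun x y => by
        rcases hall x with rfl | rfl
        · rw [zero_add, if_pos rfl, zero_add]
        · rcases hall y with rfl | rfl
          · rw [add_zero, if_neg he0, if_pos rfl]; rfl
          · rw [hee, if_pos rfl, if_neg he0]; rfl }
  have hf0 : f 0 = 0 := map_zero f
  have hfe : f e = 1 := if_neg he0
  have hinj : Function.Injective f := by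
    intro x y hxy
    rcases hall x with rfl | rfl
    · rcases hall y with rfl | rfl
      · rfl
      · rw [hf0, hfe] at hxy; exact absurd hxy (by decide)
    · rcases hall y with rfl | rfl
      · rw [hf0, hfe] at hxy; exact absurd hxy (by decide)
      · rfl
  have hsurj : Function.Surjective f := by
    intro z
    have : z = 0 ∨ z = 1 := by revert z; decide
    rcases this with rfl | rfl
    · exact ⟨0, hf0⟩
    · exact ⟨e, hfe⟩
  have h1 := map_sum_npw (d := 2) f hsurj n
  have h2 : ∑ B : Matrix (Fin 2) (Fin 2) (ZMod 2), npw B n =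
      if expCond (n + 1) then 1 else 0 := by
    rw [← sum_ZMod2 (n + 1) (by omega)]
    exact Finset.sum_congr rfl fun B _ => npw_eq_pow B n
  rw [h2] at h1
  have hodd : ¬ 2 ∣ kc 2 f := by
    intro h
    obtain ⟨x, hx0, hfx, -⟩ := exists_of_dvd_kc f Nat.prime_two h
    exact hx0 (hinj (by rw [hfx, hf0]))
  have hk : ∀ X : Matrix (Fin 2) (Fin 2) (ZMod 2), kc 2 f • X = X := by
    intro X
    obtain ⟨c, hc⟩ : ∃ c, kc 2 f = 2 * c + 1 := ⟨kc 2 f / 2, by omega⟩
    have h3 : 2 • (c • X) = 0 := by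
      ext i j
      change 2 • (c • X) i j = 0
      rw [← Nat.cast_smul_eq_nsmul (ZMod 2)]
      have : ((2 : ℕ) : ZMod 2) = 0 := rfl
      rw [this, zero_smul]
    rw [hc, add_smul, mul_smul, h3, zero_add, one_smul]
  rw [hk] at h1
  -- compare entries
  have hmap : ∀ X Y : Matrix (Fin 2) (Fin 2) R, X.map f = Y.map f → X = Y := by
    intro X Y h
    ext i j
    exact hinj (congrFun (congrFun h i) j)
  apply hmap
  rw [h1]
  split_ifs
  · ext i j
    rw [map_apply, diagonal_apply, Matrix.one_apply]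
    split_ifs
    · exact hfe.symm
    · exact hf0.symm
  · ext i j
    exact hf0.symm

end exc

section main

variable {R : Type u} [NonUnitalRing R] [Fintype R]

/-- The `p`-part of a ring. -/
def ppart (R : Type u) [NonUnitalRing R] (q : ℕ) : NonUnitalSubring R where
  carrier := {x | q • x = 0}
  zero_mem' := smul_zero q
  add_mem' := fun {x y} hx hy => by
    change q • (x + y) = 0
    have hx' : q • x = 0 := hx
    have hy' : q • y = 0 := hy
    rw [smul_add, hx', hy', add_zero]
  neg_mem' := fun {x} hx => by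
    change q • (-x) = 0
    have hx' : q • x = 0 := hx
    rw [smul_neg, hx', neg_zero]
  mul_mem' := fun {x y} hx hy => by
    change q • (x * y) = 0
    have hx' : q • x = 0 := hx
    rw [← smul_mul_assoc, hx', zero_mul]

theorem mem_ppart {q : ℕ} {x : R} : x ∈ ppart R q ↔ q • x = 0 := Iff.rfl

/-- The projection to the `p`-part. -/
theorem exists_proj {q m : ℕ} (hqm : Nat.Coprime q m) (hcard : Nat.card R = q * m) :
    ∃ (t : ℕ) (f : R →ₙ+* ppart R q), (∀ x, (f x : R) = t • x) ∧ ∀ x : ppart R q, f x = x := by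
  obtain ⟨t, ht1, ht2⟩ := Nat.chineseRemainder hqm 1 0
  have hkill : ∀ x : R, (q * m) • x = 0 := fun x => by
    rw [← hcard, Nat.card_eq_fintype_card]
    exact card_nsmul_eq_zero
  have hm : m ∣ t := (Nat.modEq_zero_iff_dvd).1 ht2
  have hmem : ∀ x : R, t • x ∈ ppart R q := by
    intro x
    rw [mem_ppart]
    obtain ⟨c, rfl⟩ := hm
    rw [← mul_smul, ← mul_assoc, mul_comm _ c, mul_smul, hkill, smul_zero]
  have hfix : ∀ x ∈ ppart R q, t • x = x := by
    intro x hx
    rw [mem_ppart] at hx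
    have h1 : (q : ℤ) ∣ (t : ℤ) - 1 := by
      have := (Nat.modEq_iff_dvd.1 ht1.symm)
      simpa using this
    obtain ⟨c, hc⟩ := h1
    have h2 : ((t : ℤ) - 1) • x = 0 := by
      rw [hc, mul_comm, mul_smul, natCast_zsmul, hx, smul_zero]
    rw [sub_smul, one_smul, natCast_zsmul, sub_eq_zero] at h2
    exact h2
  let f : R →ₙ+* ppart R q :=
    { toFun := fun x => ⟨t • x, hmem x⟩
      map_zero' := Subtype.ext (smul_zero t)
      map_add' := fun x y => Subtype.ext (smul_add t x y)
      map_mul' := fun x y => by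
        apply Subtype.ext
        change t • (x * y) = (t • x) * (t • y)
        rw [smul_mul_assoc, mul_smul_comm, hfix _ (hmem _)] }
  exact ⟨t, f, fun x => rfl, fun x => Subtype.ext (hfix x.1 x.2)⟩

/-- All the data of the exceptional case. -/
def Exc (R : Type u) [NonUnitalRing R] (d k : ℕ) : Prop :=
  d = 2 ∧ Nat.card R % 4 = 2 ∧ expCond k ∧ ∃ e : R, e ≠ 0 ∧ e + e = 0 ∧ e * e = e

theorem zero_of_proj {x : R} (h : ∀ p : ℕ, p.Prime → ∀ a m : ℕ, 0 < a → Nat.card R = p ^ a * m →
    ¬ p ∣ m → ∀ f : R →ₙ+* ppart R (p ^ a), (∀ x : ppart R (p ^ a), f x = x) → f x = 0) :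
    x = 0 := by
  classical
  by_contra hx
  have h1 : addOrderOf x ≠ 1 := fun h => hx (AddMonoid.addOrderOf_eq_one_iff.1 h)
  obtain ⟨p, hp, c, hc⟩ := Nat.exists_prime_and_dvd h1
  have hord : addOrderOf x ∣ Nat.card R := addOrderOf_dvd_natCard x
  have hN : Nat.card R ≠ 0 := Nat.card_pos.ne'
  obtain ⟨a, m, hm, ham⟩ := Nat.exists_eq_pow_mul_and_not_dvd hN p hp.one_lt.ne'
  have ha : 0 < a := by
    by_contra h0
    have : a = 0 := by omega
    rw [this, pow_zero, one_mul] at ham
    apply hm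
    rw [← ham]
    exact (Dvd.intro c hc.symm).trans hord
  have hcop : Nat.Coprime (p ^ a) m :=
    Nat.Coprime.pow_left _ ((Nat.Prime.coprime_iff_not_dvd hp).2 hm)
  obtain ⟨t, f, hf1, hf2⟩ := exists_proj hcop ham
  have h2 := h p hp a m ha ham hm f hf2
  -- `c • x` has order `p`
  have h3 : p • (c • x) = 0 := by rw [← mul_smul, ← hc]; exact addOrderOf_nsmul_eq_zero x
  have h4 : c • x ∈ ppart R (p ^ a) := by
    rw [mem_ppart]
    obtain ⟨b, rfl⟩ : ∃ b, a = b + 1 := ⟨a - 1, by omega⟩
    rw [pow_succ, mul_smul, h3, smul_zero]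
  have h5 : f (c • x) = 0 := by rw [map_nsmul, h2, smul_zero]
  have h6 : c • x = 0 := by
    have h7 := hf2 ⟨c • x, h4⟩
    change f (c • x) = _ at h7
    rw [h5] at h7
    exact (congrArg Subtype.val h7).symm
  have h8 : addOrderOf x ∣ c := addOrderOf_dvd_of_nsmul_eq_zero h6
  have hc0 : c ≠ 0 := by
    rintro rfl
    rw [mul_zero] at hc
    exact (addOrderOf_pos x).ne' hc
  have h9 := Nat.le_of_dvd (Nat.pos_of_ne_zero hc0) h8
  rw [hc] at h9
  have h10 := hp.two_le
  nlinarith [Nat.pos_of_ne_zero hc0]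

theorem card_ker_mul {q : ℕ} (f : R →ₙ+* ppart R q) (hf : ∀ x : ppart R q, f x = x) :
    Nat.card R = Nat.card (f : R →+ ppart R q).ker * Nat.card (ppart R q) := by
  have h1 := AddSubgroup.card_mul_index (f : R →+ ppart R q).ker
  rw [AddSubgroup.index_ker] at h1
  have h2 : (f : R →+ ppart R q).range = ⊤ :=
    AddMonoidHom.range_eq_top.2 fun x => ⟨x.1, hf x⟩
  rw [h2, AddSubgroup.card_top] at h1
  exact h1.symm

theorem odd_ker {a : ℕ} (ha : 0 < a) (f : R →ₙ+* ppart R (2 ^ a))
    (hf : ∀ x : ppart R (2 ^ a), f x = x) : ¬ 2 ∣ Nat.card (f : R →+ ppart R (2 ^ a)).ker := by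
  intro h
  have : Fact (Nat.Prime 2) := ⟨Nat.prime_two⟩
  obtain ⟨⟨x, hx⟩, hx2⟩ := exists_prime_addOrderOf_dvd_card' 2 h
  have h1 : 2 • x = 0 := by
    have := addOrderOf_nsmul_eq_zero (⟨x, hx⟩ : (f : R →+ ppart R (2 ^ a)).ker)
    rw [hx2] at this
    exact congrArg Subtype.val this
  have h2 : x ∈ ppart R (2 ^ a) := by
    rw [mem_ppart]
    obtain ⟨b, rfl⟩ : ∃ b, a = b + 1 := ⟨a - 1, by omega⟩
    rw [pow_succ, mul_smul, h1, smul_zero]
  have h3 : f x = 0 := hx
  have h4 := hf ⟨x, h2⟩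
  change f x = _ at h4
  rw [h3] at h4
  have h5 : x = 0 := (congrArg Subtype.val h4).symm
  have h6 : (⟨x, hx⟩ : (f : R →+ ppart R (2 ^ a)).ker) = 0 := Subtype.ext h5
  rw [h6, addOrderOf_zero] at hx2
  omega

theorem part_sum {p a : ℕ} (hp : p.Prime)
    (f : R →ₙ+* ppart R (p ^ a)) (hf : ∀ x : ppart R (p ^ a), f x = x) {d : ℕ} (hd : 2 ≤ d)
    (n : ℕ) (hex : ¬ (d = 2 ∧ p = 2 ∧ Nat.card (ppart R (p ^ a)) = 2 ∧ expCond (n + 1) ∧
      ∃ e : ppart R (p ^ a), e ≠ 0 ∧ e * e = e)) :
    (∑ A : Matrix (Fin d) (Fin d) R, npw A n).map f = 0 := by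
  classical
  have : Fintype (ppart R (p ^ a)) := Fintype.ofFinite _
  rw [map_sum_npw f (fun x => ⟨x.1, hf x⟩) n]
  by_cases h1 : d = 2 ∧ Nat.card (ppart R (p ^ a)) = 2 ∧
      ∃ e : ppart R (p ^ a), e ≠ 0 ∧ e * e = e
  · obtain ⟨rfl, h2, e, he0, he⟩ := h1
    have hp2 : p = 2 := by
      have h3 : addOrderOf e ∣ 2 := by rw [← h2]; exact addOrderOf_dvd_natCard e
      have h4 : p ^ a • e = 0 := Subtype.ext e.2
      have h5 : addOrderOf e ∣ p ^ a := addOrderOf_dvd_of_nsmul_eq_zero h4
      have h6 : addOrderOf e ≠ 1 := fun h => he0 (AddMonoid.addOrderOf_eq_one_iff.1 h)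
      have h7 : addOrderOf e = 2 := ((Nat.dvd_prime Nat.prime_two).1 h3).resolve_left h6
      rw [h7] at h5
      exact ((Nat.prime_dvd_prime_iff_eq Nat.prime_two hp).1
        (Nat.prime_two.dvd_of_dvd_pow h5)).symm
    rw [exc_sum h2 he0 he n, if_neg (fun hc => hex ⟨rfl, hp2, h2, hc, e, he0, he⟩), smul_zero]
  · rw [pring_main hp (a := a) (fun x => Subtype.ext x.2) hd h1 n, smul_zero]

/-- Vanishing of the power sum outside of the exceptional case. -/
theorem main_zero {d : ℕ} (hd : 2 ≤ d) (n : ℕ) (hex : ¬ Exc R d (n + 1)) :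
    ∑ A : Matrix (Fin d) (Fin d) R, npw A n = 0 := by
  classical
  ext i j
  rw [Matrix.zero_apply]
  apply zero_of_proj
  intro p hp a m ha hcard hm f hf
  have h1 := part_sum hp f hf hd n (by
    rintro ⟨h2, h3, h4, h5, e, he0, he⟩
    subst h3
    apply hex
    refine ⟨h2, ?_, h5, e.1, fun h => he0 (Subtype.ext h), ?_, ?_⟩
    · have h6 := card_ker_mul f hf
      have h7 := odd_ker ha f hf
      rw [h4] at h6
      omega
    · have h6 : 2 • e = 0 := by
        have : Nat.card (ppart R (2 ^ a)) • e = 0 := by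
          have := Fintype.ofFinite (ppart R (2 ^ a))
          rw [Nat.card_eq_fintype_card]
          exact card_nsmul_eq_zero
        rwa [h4] at this
      have h7 := congrArg Subtype.val h6
      rw [← two_smul ℕ]
      exact h7
    · exact congrArg Subtype.val he)
  exact congrFun (congrFun h1 i) j

/-- The value of the power sum in the exceptional case. -/
theorem main_exc (n : ℕ) (hcard : Nat.card R % 4 = 2) (hk : expCond (n + 1)) {e : R}
    (he0 : e ≠ 0) (hee : e + e = 0) (he : e * e = e) :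
    ∑ A : Matrix (Fin 2) (Fin 2) R, npw A n = diagonal (fun _ => e) := by
  classical
  rw [← sub_eq_zero]
  ext i j
  rw [Matrix.zero_apply]
  apply zero_of_proj
  intro p hp a m ha hcard' hm f hf
  have hdiag : (diagonal (fun _ => e) : Matrix (Fin 2) (Fin 2) R).map f =
      diagonal (fun _ => f e) := by
    rw [diagonal_map (map_zero f)]
  have hgoal : f ((∑ A : Matrix (Fin 2) (Fin 2) R, npw A n - diagonal (fun _ => e) :
      Matrix (Fin 2) (Fin 2) R) i j) =
      ((∑ A : Matrix (Fin 2) (Fin 2) R, npw A n).map f -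
        (diagonal (fun _ => e) : Matrix (Fin 2) (Fin 2) R).map f) i j := by
    rw [Matrix.sub_apply, map_sub]; rfl
  rw [hgoal, hdiag]
  suffices h : (∑ A : Matrix (Fin 2) (Fin 2) R, npw A n).map f = diagonal (fun _ => f e) by
    rw [h, sub_self]; rfl
  by_cases hp2 : p = 2
  · subst hp2
    have : Fintype (ppart R (2 ^ a)) := Fintype.ofFinite _
    have h2e : 2 • e = 0 := by rw [two_smul]; exact hee
    have heP : e ∈ ppart R (2 ^ a) := by
      rw [mem_ppart]
      obtain ⟨b, rfl⟩ : ∃ b, a = b + 1 := ⟨a - 1, by omega⟩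
      rw [pow_succ, mul_smul, h2e, smul_zero]
    have hfe : f e = ⟨e, heP⟩ := hf ⟨e, heP⟩
    have ha1 : a = 1 := by
      by_contra hcon
      obtain ⟨b, rfl⟩ : ∃ b, a = b + 2 := ⟨a - 2, by omega⟩
      rw [hcard', pow_add] at hcard
      have : 2 ^ b * 2 ^ 2 * m = 4 * (2 ^ b * m) := by ring
      rw [this] at hcard
      omega
    subst ha1
    -- the 2-part has order two
    have hc2 : Nat.card (ppart R (2 ^ 1)) = 2 := by
      let _ : Module (ZMod 2) (ppart R (2 ^ 1)) :=
        AddCommGroup.zmodModule (fun x => by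
          have h : ∀ y : R, 2 ^ 1 • y = 0 → 2 • y = 0 := fun y hy => by rwa [pow_one] at hy
          exact Subtype.ext (h x.1 x.2))
      have : Fact (Nat.Prime 2) := ⟨Nat.prime_two⟩
      have h3 := Module.card_eq_pow_finrank (K := ZMod 2) (V := ppart R (2 ^ 1))
      rw [ZMod.card] at h3
      have h4 := card_ker_mul f hf
      have h5 : Nat.card (ppart R (2 ^ 1)) = 2 ^ Module.finrank (ZMod 2) (ppart R (2 ^ 1)) := by
        rw [Nat.card_eq_fintype_card]; exact h3
      have h6 : 1 < Nat.card (ppart R (2 ^ 1)) := by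
        have : Nontrivial (ppart R (2 ^ 1)) :=
          ⟨⟨⟨e, heP⟩, 0, fun h => he0 (congrArg Subtype.val h)⟩⟩
        exact Finite.one_lt_card
      generalize Module.finrank (ZMod 2) (ppart R (2 ^ 1)) = r at h5
      rcases r with _ | _ | r
      · rw [h5] at h6; omega
      · exact h5
      · rw [h5, pow_add, pow_add] at h4
        have h7 : Nat.card (f : R →+ ppart R (2 ^ 1)).ker * (2 ^ r * 2 ^ 1 * 2 ^ 1) =
            4 * (Nat.card (f : R →+ ppart R (2 ^ 1)).ker * 2 ^ r) := by ring
        rw [h7] at h4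
        rw [h4] at hcard
        omega
    rw [map_sum_npw f (fun x => ⟨x.1, hf x⟩) n,
      exc_sum hc2 (e := ⟨e, heP⟩) (fun h => he0 (congrArg Subtype.val h)) (Subtype.ext he) n,
      if_pos hk, hfe]
    have hodd : ¬ 2 ∣ kc 2 f := by
      intro h
      obtain ⟨x, hx0, hfx, h2x⟩ := exists_of_dvd_kc f Nat.prime_two h
      have hxP : x ∈ ppart R (2 ^ 1) := by rw [mem_ppart, pow_one]; exact h2x
      have h8 := hf ⟨x, hxP⟩
      change f x = _ at h8
      rw [hfx] at h8
      exact hx0 (congrArg Subtype.val h8).symm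
    obtain ⟨c, hc⟩ : ∃ c, kc 2 f = 2 * c + 1 := ⟨kc 2 f / 2, by omega⟩
    have h9 : 2 • (diagonal (fun _ => (⟨e, heP⟩ : ppart R (2 ^ 1))) :
        Matrix (Fin 2) (Fin 2) (ppart R (2 ^ 1))) = 0 := by
      refine Matrix.ext fun a b => ?_
      change 2 • (diagonal (fun _ => (⟨e, heP⟩ : ppart R (2 ^ 1))) :
        Matrix (Fin 2) (Fin 2) (ppart R (2 ^ 1))) a b = 0
      rw [diagonal_apply]
      split_ifs
      · exact Subtype.ext h2e
      · exact smul_zero 2
    rw [hc, add_smul, mul_comm, mul_smul, h9, smul_zero, zero_add, one_smul]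
  · have h1 := part_sum hp f hf (le_refl 2) n (fun h => hp2 h.2.1)
    have h2 : f e = 0 := by
      have h3 : 2 • f e = 0 := by
        rw [← map_nsmul, two_smul, hee, map_zero]
      have h4 : p ^ a • f e = 0 := Subtype.ext (f e).2
      have h5 : addOrderOf (f e) ∣ 2 := addOrderOf_dvd_of_nsmul_eq_zero h3
      have h6 : addOrderOf (f e) ∣ p ^ a := addOrderOf_dvd_of_nsmul_eq_zero h4
      have h7 : Nat.Coprime 2 (p ^ a) :=
        Nat.Coprime.pow_right _ ((Nat.coprime_primes Nat.prime_two hp).2 (Ne.symm hp2))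
      exact AddMonoid.addOrderOf_eq_one_iff.1 (Nat.eq_one_of_dvd_coprimes h7 h5 h6)
    rw [h1, h2]
    ext a b
    rw [diagonal_apply]
    split_ifs <;> rfl

end main

end Pool.Agent.V1155.PowSum
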