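import Pool.Agent.V1155.SL

set_option autoImplicit false

/-!
Lengths of principal left ideals in von Neumann regular rings.
-/

namespace Pool.Agent.V1155

universe u

variable {A : Type u} [Ring A]

/-- Length of the left ideal `A y`. -/
noncomputable def len (y : A) : ℕ∞ := Module.length A (Ideal.span {y} : Ideal A)

theorem len_le_of_le {y z : A} (h : (Ideal.span {y} : Ideal A) ≤ Ideal.span {z}) : len y ≤ len z :=
  Module.length_le_of_injective (Submodule.inclusion h) (Submodule.inclusion_injective h)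

theorem mem_sp {y z : A} : z ∈ (Ideal.span {y} : Ideal A) ↔ ∃ a, z = a * y := by
  rw [Ideal.mem_span_singleton']
  constructor
  · rintro ⟨a, h⟩; exact ⟨a, h.symm⟩
  · rintro ⟨a, h⟩; exact ⟨a, h.symm⟩

theorem sp_le {y z a : A} (h : z = a * y) : (Ideal.span {z} : Ideal A) ≤ Ideal.span {y} := by
  rw [Ideal.span_singleton_le_iff_mem, mem_sp]
  exact ⟨a, h⟩

theorem len_mul_le (x y : A) : len (x * y) ≤ len y := len_le_of_le (sp_le rfl)

theorem len_add_le (y z : A) : len (y + z) ≤ len y + len z := by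
  unfold len
  rw [← Module.length_prod]
  let f : (Ideal.span {y} : Ideal A) × (Ideal.span {z} : Ideal A) →ₗ[A] A :=
    LinearMap.coprod (Submodule.subtype _) (Submodule.subtype _)
  have h1 : (Ideal.span {y + z} : Ideal A) ≤ LinearMap.range f := by
    rw [Ideal.span_singleton_le_iff_mem]
    exact ⟨(⟨y, Ideal.mem_span_singleton_self y⟩, ⟨z, Ideal.mem_span_singleton_self z⟩), by
      simp [f]⟩
  refine (Module.length_le_of_injective (Submodule.inclusion h1)
    (Submodule.inclusion_injective h1)).trans ?_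
  exact Module.length_le_of_surjective f.rangeRestrict f.surjective_rangeRestrict

theorem len_one : len (1 : A) = Module.length A A := by
  unfold len
  have : (Ideal.span {1} : Ideal A) = ⊤ := Ideal.span_singleton_one
  rw [this, Module.length_top]

theorem len_zero : len (0 : A) = 0 := by
  unfold len
  rw [Module.length_eq_zero_iff]
  refine ⟨fun a b => ?_⟩
  obtain ⟨a, ha⟩ := a
  obtain ⟨b, hb⟩ := b
  obtain ⟨c, rfl⟩ := mem_sp.1 ha
  obtain ⟨d, rfl⟩ := mem_sp.1 hb
  simp

/-- Von Neumann regular rings. -/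
def IsReg (A : Type u) [Ring A] : Prop := ∀ r : A, ∃ s : A, r = r * s * r

/-- An idempotent of length at least two splits. -/
theorem split_two (hA : IsReg A) {h : A} (hh : h * h = h) (h2 : 2 ≤ len h) :
    ∃ p : A, p * p = p ∧ p * h = p ∧ h * p = p ∧ p ≠ 0 ∧ h - p ≠ 0 := by
  classical
  by_contra hcon
  have key : ∀ u : A, u * h = u → u ≠ 0 → ∃ a, h = a * u := by
    intro u hu hu0
    obtain ⟨v, hv⟩ := hA u
    by_contra hna
    apply hcon
    refine ⟨h * (v * u), ?_, ?_, ?_, ?_, ?_⟩
    · calc h * (v * u) * (h * (v * u)) = h * v * (u * h) * v * u := by noncomm_ring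
        _ = h * v * (u * v * u) := by rw [hu]; noncomm_ring
        _ = h * (v * u) := by rw [← hv]; noncomm_ring
    · calc h * (v * u) * h = h * v * (u * h) := by noncomm_ring
        _ = h * (v * u) := by rw [hu]; noncomm_ring
    · calc h * (h * (v * u)) = (h * h) * (v * u) := by noncomm_ring
        _ = h * (v * u) := by rw [hh]
    · intro h0
      apply hu0
      calc u = u * v * u := hv
        _ = (u * h) * v * u := by rw [hu]
        _ = u * (h * (v * u)) := by noncomm_ring
        _ = 0 := by rw [h0, mul_zero]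
    · intro h0
      apply hna
      exact ⟨h * v, by rw [mul_assoc]; exact sub_eq_zero.1 h0⟩
  have hle : len h ≤ 1 := by
    by_cases h0 : h = 0
    · rw [h0, len_zero]; exact zero_le_one
    · have : IsSimpleModule A (Ideal.span {h} : Ideal A) := by
        rw [isSimpleModule_iff_toSpanSingleton_surjective]
        refine ⟨⟨⟨0, ⟨h, Ideal.mem_span_singleton_self h⟩, fun hne => h0 ?_⟩⟩, ?_⟩
        · exact (Subtype.ext_iff.1 hne).symm
        · rintro ⟨x, hx⟩ hx0
          have hx0' : x ≠ 0 := fun hne => hx0 (Subtype.ext hne)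
          obtain ⟨c, rfl⟩ := mem_sp.1 hx
          have hxh : c * h * h = c * h := by rw [mul_assoc, hh]
          obtain ⟨a, ha⟩ := key _ hxh hx0'
          rintro ⟨y, hy⟩
          obtain ⟨d, rfl⟩ := mem_sp.1 hy
          refine ⟨d * a, ?_⟩
          apply Subtype.ext
          change (d * a) * (c * h) = d * h
          rw [mul_assoc, ← ha]
      have : len h = 1 := Module.length_eq_one_iff.2 this
      exact this.le
  have : (2 : ℕ∞) ≤ 1 := h2.trans hle
  exact absurd this (by decide)

/-- An idempotent of length at least three splits in three. -/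
theorem split_three (hA : IsReg A) {h : A} (hh : h * h = h) (h3 : 3 ≤ len h) :
    ∃ p : Fin 3 → A, (∀ i, p i * p i = p i) ∧ (∀ i j, i ≠ j → p i * p j = 0) ∧ (∀ i, p i ≠ 0) ∧
      p 0 + p 1 + p 2 = h := by
  obtain ⟨p, hp, hph, hhp, hp0, hhp0⟩ := split_two hA hh (le_trans (by decide) h3)
  have hq : (h - p) * (h - p) = h - p := by
    rw [sub_mul, mul_sub, mul_sub, hh, hp, hph, hhp]; simp
  have hpq : p * (h - p) = 0 := by rw [mul_sub, hph, hp, sub_self]
  have hqp : (h - p) * p = 0 := by rw [sub_mul, hhp, hp, sub_self]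
  -- one of `p`, `h - p` has length at least two
  have hor : 2 ≤ len p ∨ 2 ≤ len (h - p) := by
    by_contra hcon
    rw [not_or, not_le, not_le] at hcon
    have h1 : len p ≤ 1 := Order.le_of_lt_succ hcon.1
    have h2 : len (h - p) ≤ 1 := Order.le_of_lt_succ hcon.2
    have h4 : len h ≤ len p + len (h - p) := by
      have := len_add_le p (h - p)
      rwa [add_sub_cancel] at this
    have h5 : len h ≤ 1 + 1 := h4.trans (add_le_add h1 h2)
    have : (3 : ℕ∞) ≤ 1 + 1 := h3.trans h5
    exact absurd this (by decide)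
  have gen : ∀ p q : A, p * p = p → q * q = q → p * q = 0 → q * p = 0 → q ≠ 0 → p + q = h →
      2 ≤ len p → ∃ p : Fin 3 → A, (∀ i, p i * p i = p i) ∧ (∀ i j, i ≠ j → p i * p j = 0) ∧
        (∀ i, p i ≠ 0) ∧ p 0 + p 1 + p 2 = h := by
    intro p q hp hq hpq hqp hq0 hsum hl
    obtain ⟨r, hr, hrp, hpr, hr0, hpr0⟩ := split_two hA hp hl
    have e1 : r * (p - r) = 0 := by rw [mul_sub, hrp, hr, sub_self]
    have e2 : (p - r) * r = 0 := by rw [sub_mul, hpr, hr, sub_self]
    have e3 : (p - r) * (p - r) = p - r := by rw [mul_sub, e2, sub_zero, sub_mul, hp, hrp]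
    have e4 : r * q = 0 := by rw [← hrp, mul_assoc, hpq, mul_zero]
    have e5 : q * r = 0 := by rw [← hpr, ← mul_assoc, hqp, zero_mul]
    have e6 : (p - r) * q = 0 := by rw [sub_mul, hpq, e4, sub_zero]
    have e7 : q * (p - r) = 0 := by rw [mul_sub, hqp, e5, sub_zero]
    refine ⟨![r, p - r, q], ?_, ?_, ?_, ?_⟩
    · intro i; fin_cases i <;> simp [hr, e3, hq]
    · intro i j hij
      fin_cases i <;> fin_cases j <;> simp_all
    · intro i; fin_cases i
      · exact hr0
      · exact hpr0
      · exact hq0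
    · simp [hsum]
  rcases hor with hl | hl
  · exact gen p (h - p) hp hq hpq hqp hhp0 (by abel) hl
  · exact gen (h - p) p hq hp hqp hpq hp0 (by abel) hl

/-- The basic step. -/
theorem step (hA : IsReg A) {w F : A} (hF : F * F = F) (h3 : 3 ≤ len (w * F)) :
    ∃ k w' : Fin 3 → A, (∀ i, k i * k i = k i) ∧ (∀ i j, i ≠ j → k i * k j = 0) ∧
      k 0 + k 1 + k 2 = F ∧ w' 0 + w' 1 + w' 2 = w ∧ (∀ j, ∃ a, w' j = a * w) ∧
      (∀ i j, i ≠ j → w' j * k i = 0) ∧ ∀ i, w * k i ≠ 0 := by
  obtain ⟨t, ht⟩ := hA (w * F)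
  obtain ⟨y, hy⟩ : ∃ y, y = w * F := ⟨_, rfl⟩
  rw [← hy] at ht h3
  have hyF : y * F = y := by rw [hy, mul_assoc, hF]
  obtain ⟨h, hh⟩ : ∃ h, h = F * t * y := ⟨_, rfl⟩
  have hyh : y * h = y := by
    rw [hh, ← mul_assoc, ← mul_assoc, hyF]; exact ht.symm
  have hhh : h * h = h := by
    calc h * h = F * t * (y * h) := by rw [hh]; noncomm_ring
      _ = h := by rw [hyh, ← hh]
  have hFh : F * h = h := by rw [hh, ← mul_assoc, ← mul_assoc, hF]
  have hhF : h * F = h := by rw [hh, mul_assoc, hyF]
  have hlen : 3 ≤ len h := by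
    refine h3.trans (len_le_of_le (sp_le (a := y) hyh.symm))
  obtain ⟨p, hp, hpo, hp0, hps⟩ := split_three hA hhh hlen
  have hph : ∀ i, p i * h = p i := by
    intro i
    rw [← hps, mul_add, mul_add]
    fin_cases i <;> simp [hp, hpo]
  have hhp : ∀ i, h * p i = p i := by
    intro i
    rw [← hps, add_mul, add_mul]
    fin_cases i <;> simp [hp, hpo]
  have hpF : ∀ i, p i * F = p i := fun i => by
    conv_lhs => rw [← hph i]
    rw [mul_assoc, hhF, hph]
  have hFp : ∀ i, F * p i = p i := fun i => by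
    conv_lhs => rw [← hhp i]
    rw [← mul_assoc, hFh, hhp]
  have hyp0 : ∀ i, y * p i ≠ 0 := by
    intro i h0
    apply hp0 i
    rw [← hhp i, hh, mul_assoc, h0, mul_zero]
  -- `F - h` is orthogonal to everything
  have hD : (F - h) * (F - h) = F - h := by
    rw [sub_mul, mul_sub, mul_sub, hF, hhh, hFh, hhF]; simp
  have hDp : ∀ i, (F - h) * p i = 0 := fun i => by rw [sub_mul, hFp, hhp, sub_self]
  have hpD : ∀ i, p i * (F - h) = 0 := fun i => by rw [mul_sub, hpF, hph, sub_self]
  have hyD : y * (F - h) = 0 := by rw [mul_sub, hyF, hyh, sub_self]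
  let k : Fin 3 → A := ![p 0 + (F - h), p 1, p 2]
  have hwk : ∀ i, w * k i = y * p i := by
    have h1 : ∀ i, w * p i = y * p i := fun i => by rw [hy, mul_assoc, hFp]
    have h2 : w * (F - h) = 0 := by
      rw [← hyD, hy, mul_assoc]
      congr 1
      rw [mul_sub, hF, hFh]
    intro i
    fin_cases i
    · change w * (p 0 + (F - h)) = y * p 0
      rw [mul_add, h1, h2, add_zero]
    · exact h1 1
    · exact h1 2
  have hpk : ∀ i j, p i * k j = p i * p j := by
    intro i j
    fin_cases j
    · change p i * (p 0 + (F - h)) = p i * p 0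
      rw [mul_add, hpD, add_zero]
    · rfl
    · rfl
  have hpty : ∀ j, p j * t * y = p j := by
    intro j
    calc p j * t * y = (p j * F) * t * y := by rw [hpF]
      _ = p j * h := by rw [hh]; noncomm_ring
      _ = p j := hph j
  -- `w' j`
  let v : Fin 3 → A := fun j => y * p j * t * w
  have hvk : ∀ i j, v j * k i = y * (p j * p i) := by
    intro i j
    calc v j * k i = y * p j * t * (w * k i) := by simp only [v]; noncomm_ring
      _ = y * (p j * t * y) * p i := by rw [hwk]; noncomm_ring
      _ = y * (p j * p i) := by rw [hpty]; noncomm_ring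
  refine ⟨k, ![w - v 1 - v 2, v 1, v 2], ?_, ?_, ?_, ?_, ?_, ?_, ?_⟩
  · intro i
    fin_cases i
    · change (p 0 + (F - h)) * (p 0 + (F - h)) = p 0 + (F - h)
      rw [mul_add, add_mul, add_mul, hp, hD, hDp, hpD]; simp
    · exact hp 1
    · exact hp 2
  · intro i j hij
    fin_cases i
    · fin_cases j
      · exact absurd rfl hij
      · change (p 0 + (F - h)) * p 1 = 0
        rw [add_mul, hDp, hpo 0 1 (by decide), add_zero]
      · change (p 0 + (F - h)) * p 2 = 0
        rw [add_mul, hDp, hpo 0 2 (by decide), add_zero]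
    · change p 1 * k j = 0
      rw [hpk, hpo 1 j hij]
    · change p 2 * k j = 0
      rw [hpk, hpo 2 j hij]
  · change p 0 + (F - h) + p 1 + p 2 = F
    rw [← hps]; abel
  · change w - v 1 - v 2 + v 1 + v 2 = w
    abel
  · intro j
    fin_cases j
    · exact ⟨1 - y * p 1 * t - y * p 2 * t, by
        change w - v 1 - v 2 = _
        simp only [v]; noncomm_ring⟩
    · exact ⟨y * p 1 * t, rfl⟩
    · exact ⟨y * p 2 * t, rfl⟩
  · intro i j hij
    fin_cases j
    · change (w - v 1 - v 2) * k i = 0
      rw [sub_mul, sub_mul, hwk, hvk, hvk]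
      fin_cases i
      · exact absurd rfl hij
      · change y * p 1 - y * (p 1 * p 1) - y * (p 2 * p 1) = 0
        rw [hp, hpo 2 1 (by decide)]; simp
      · change y * p 2 - y * (p 1 * p 2) - y * (p 2 * p 2) = 0
        rw [hp, hpo 1 2 (by decide)]; simp
    · change v 1 * k i = 0
      rw [hvk, hpo 1 i (Ne.symm hij), mul_zero]
    · change v 2 * k i = 0
      rw [hvk, hpo 2 i (Ne.symm hij), mul_zero]
  · intro i
    rw [hwk]
    exact hyp0 i

end Pool.Agent.V1155
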