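import Pool.Agent.V1155.Reg

set_option autoImplicit false

/-!
A von Neumann regular skew Laurent series ring is semisimple Artinian.
-/

namespace Pool.Agent.V1155

universe u

variable {A : Type u} [Ring A]

theorem len_mul_right_le (y b : A) : len (y * b) ≤ len y := by
  let f : (Ideal.span {y} : Ideal A) →ₗ[A] A :=
    (LinearMap.toSpanSingleton A A b).comp (Submodule.subtype _)
  have h1 : (Ideal.span {y * b} : Ideal A) ≤ LinearMap.range f := by
    rw [Ideal.span_singleton_le_iff_mem]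
    exact ⟨⟨y, Ideal.mem_span_singleton_self y⟩, by simp [f]⟩
  refine (Module.length_le_of_injective (Submodule.inclusion h1)
    (Submodule.inclusion_injective h1)).trans ?_
  exact Module.length_le_of_surjective f.rangeRestrict f.surjective_rangeRestrict

/-- Unbounded lengths along a subsequence. -/
def Lg (φ : A ≃+* A) (w f : A) : Prop :=
  ∀ k N : ℕ, ∃ n : ℕ, N ≤ n ∧ (k : ℕ∞) ≤ len (w * SL.pw φ n f)

theorem Lg.of_add {φ : A ≃+* A} {w f w1 f1 w2 f2 : A} (h : Lg φ w f)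
    (hle : ∀ n : ℕ, len (w * SL.pw φ n f) ≤
      len (w1 * SL.pw φ n f1) + len (w2 * SL.pw φ n f2)) :
    Lg φ w1 f1 ∨ Lg φ w2 f2 := by
  by_contra hcon
  rw [not_or] at hcon
  obtain ⟨h1, h2⟩ := hcon
  unfold Lg at h1 h2
  push Not at h1 h2
  obtain ⟨k1, N1, h1⟩ := h1
  obtain ⟨k2, N2, h2⟩ := h2
  obtain ⟨n, hn, hk⟩ := h (k1 + k2) (max N1 N2)
  have a1 := h1 n (le_trans (le_max_left _ _) hn)
  have a2 := h2 n (le_trans (le_max_right _ _) hn)
  have := (hk.trans (hle n)).trans_lt (ENat.add_lt_add a1 a2)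
  rw [Nat.cast_add] at this
  exact lt_irrefl _ this

theorem Lg.add_left {φ : A ≃+* A} {w1 w2 f : A} (h : Lg φ (w1 + w2) f) :
    Lg φ w1 f ∨ Lg φ w2 f :=
  h.of_add fun n => by rw [add_mul]; exact len_add_le _ _

theorem Lg.add_right {φ : A ≃+* A} {w f1 f2 : A} (h : Lg φ w (f1 + f2)) :
    Lg φ w f1 ∨ Lg φ w f2 :=
  h.of_add fun n => by rw [map_add, mul_add]; exact len_add_le _ _

theorem Lg.three {φ : A ≃+* A} {w f : Fin 3 → A} (h : Lg φ (w 0 + w 1 + w 2) (f 0 + f 1 + f 2)) :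
    ∃ i j, Lg φ (w j) (f i) := by
  have h1 : ∃ j, Lg φ (w j) (f 0 + f 1 + f 2) := by
    rcases h.add_left with h | h
    · rcases h.add_left with h | h
      · exact ⟨0, h⟩
      · exact ⟨1, h⟩
    · exact ⟨2, h⟩
  obtain ⟨j, h⟩ := h1
  rcases h.add_right with h | h
  · rcases h.add_right with h | h
    · exact ⟨0, j, h⟩
    · exact ⟨1, j, h⟩
  · exact ⟨2, j, h⟩

theorem Lg.mono {φ : A ≃+* A} {w f g : A} (h : Lg φ w f) (hf : g * f = f) : Lg φ w g := by
  intro k N
  obtain ⟨n, hn, hk⟩ := h k N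
  refine ⟨n, hn, hk.trans ?_⟩
  rw [← hf, map_mul, ← mul_assoc]
  exact len_mul_right_le _ _

/-- The states of the recursive construction. -/
structure St (A : Type u) [Ring A] (φ : A ≃+* A) where
  /-- exponent -/
  n : ℕ
  /-- what remains -/
  f : A
  /-- witness -/
  w : A
  idem : f * f = f
  lg : Lg φ w f

theorem St.next {φ : A ≃+* A} (hA : IsReg A) (s : St A φ) : ∃ s' : St A φ, s.n < s'.n ∧
    s.f * s'.f = s'.f ∧ s'.f * s.f = s'.f ∧ (∃ a, s'.w = a * s.w) ∧
    s.w * SL.pw φ s'.n (s.f - s'.f) ≠ 0 ∧ s'.w * SL.pw φ s'.n (s.f - s'.f) = 0 := by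
  obtain ⟨n, hn, hk⟩ := s.lg 3 (s.n + 1)
  have hF : SL.pw φ n s.f * SL.pw φ n s.f = SL.pw φ n s.f := by rw [← map_mul, s.idem]
  obtain ⟨k, w', hk1, hk2, hk3, hw1, hw2, hw3, hw4⟩ := step hA hF hk
  let a : Fin 3 → A := fun i => SL.pw φ (-n) (k i)
  have ha1 : ∀ i, a i * a i = a i := fun i => by simp only [a]; rw [← map_mul, hk1]
  have ha2 : ∀ i j, i ≠ j → a i * a j = 0 := fun i j hij => by
    simp only [a]; rw [← map_mul, hk2 i j hij, map_zero]
  have ha3 : a 0 + a 1 + a 2 = s.f := by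
    simp only [a]; rw [← map_add, ← map_add, hk3, SL.pw_neg_pw]
  have ha4 : ∀ i, SL.pw φ n (a i) = k i := fun i => SL.pw_pw_neg _ _
  have hfa : ∀ i, s.f * a i = a i := by
    intro i
    rw [← ha3, add_mul, add_mul]
    fin_cases i <;> simp [ha1, ha2]
  have haf : ∀ i, a i * s.f = a i := by
    intro i
    rw [← ha3, mul_add, mul_add]
    fin_cases i <;> simp [ha1, ha2]
  have hlg : Lg φ (w' 0 + w' 1 + w' 2) (a 0 + a 1 + a 2) := by rw [hw1, ha3]; exact s.lg
  obtain ⟨i, j, hij⟩ := hlg.three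
  have aux : ∀ i j : Fin 3, ∃ l : Fin 3, l ≠ i ∧ l ≠ j := by decide
  obtain ⟨l, hli, hlj⟩ := aux i j
  have hfl : s.f - (s.f - a l) = a l := by abel
  refine ⟨⟨n, s.f - a l, w' j, ?_, ?_⟩, ?_, ?_, ?_, ?_, ?_, ?_⟩
  · rw [sub_mul, mul_sub, mul_sub, s.idem, hfa, haf, ha1]; simp
  · refine hij.mono ?_
    rw [sub_mul, hfa, ha2 l i hli, sub_zero]
  · change s.n < n
    omega
  · change s.f * (s.f - a l) = s.f - a l
    rw [mul_sub, s.idem, hfa]
  · change (s.f - a l) * s.f = s.f - a l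
    rw [sub_mul, s.idem, haf]
  · exact hw2 j
  · change s.w * SL.pw φ n (s.f - (s.f - a l)) ≠ 0
    rw [hfl, ha4]
    exact hw4 l
  · change w' j * SL.pw φ n (s.f - (s.f - a l)) = 0
    rw [hfl, ha4]
    exact hw3 l j hlj

theorem finite_of_reg {φ : A ≃+* A} (hR : IsReg (SL A φ)) : Module.length A A ≠ ⊤ := by
  classical
  -- `A` is regular
  have hA : IsReg A := by
    intro a
    obtain ⟨s, hs⟩ := hR (SL.C a)
    refine ⟨s.co 0, ?_⟩
    have := congrArg (fun f => f.co 0) hs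
    simp only [SL.C_apply] at this
    rw [SL.mul_mono_co, SL.mono_mul_co, SL.mono_co, if_pos rfl] at this
    simpa [SL.pw_zero] using this
  intro htop
  let s0 : St A φ := ⟨0, 1, 1, mul_one 1, by
    intro k N
    refine ⟨N, le_refl _, ?_⟩
    rw [map_one, mul_one, len_one, htop]
    exact le_top⟩
  choose nx h1 h2 h3 h4 h5 h6 using fun s : St A φ => St.next hA s
  let S : ℕ → St A φ := fun m => nx^[m] s0
  have hS : ∀ m, S (m + 1) = nx (S m) := fun m => Function.iterate_succ_apply' nx m s0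
  have k1 : ∀ m, (S m).n < (S (m + 1)).n := fun m => by rw [hS]; exact h1 _
  have k2 : ∀ m, (S m).f * (S (m + 1)).f = (S (m + 1)).f := fun m => by rw [hS]; exact h2 _
  have k3 : ∀ m, (S (m + 1)).f * (S m).f = (S (m + 1)).f := fun m => by rw [hS]; exact h3 _
  have k4 : ∀ m, ∃ a, (S (m + 1)).w = a * (S m).w := fun m => by rw [hS]; exact h4 _
  have k5 : ∀ m, (S m).w * SL.pw φ (S (m + 1)).n ((S m).f - (S (m + 1)).f) ≠ 0 := fun m => by
    rw [hS]; exact h5 _
  have k6 : ∀ m, (S (m + 1)).w * SL.pw φ (S (m + 1)).n ((S m).f - (S (m + 1)).f) = 0 :=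
    fun m => by rw [hS]; exact h6 _
  clear h1 h2 h3 h4 h5 h6
  -- the exponents
  let N : ℕ → ℕ := fun m => (S (m + 1)).n
  have hN : StrictMono N := strictMono_nat_of_lt_succ fun m => k1 (m + 1)
  have hNle : ∀ m, m ≤ N m := hN.id_le
  have ord1 : ∀ i d, (S i).f * (S (i + d)).f = (S (i + d)).f := by
    intro i d
    induction d with
    | zero => exact (S i).idem
    | succ d ih =>
      rw [← add_assoc, ← k2 (i + d), ← mul_assoc, ih]
  have ord2 : ∀ i d, (S (i + d)).f * (S i).f = (S (i + d)).f := by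
    intro i d
    induction d with
    | zero => exact (S i).idem
    | succ d ih =>
      rw [← add_assoc, ← k3 (i + d), mul_assoc, ih]
  have ord1' : ∀ i j, i ≤ j → (S i).f * (S j).f = (S j).f := fun i j hij => by
    obtain ⟨d, rfl⟩ := Nat.exists_eq_add_of_le hij
    exact ord1 i d
  have ord2' : ∀ i j, i ≤ j → (S j).f * (S i).f = (S j).f := fun i j hij => by
    obtain ⟨d, rfl⟩ := Nat.exists_eq_add_of_le hij
    exact ord2 i d
  let g : ℕ → A := fun m => (S m).f - (S (m + 1)).f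
  have gg : ∀ m, g m * g m = g m := by
    intro m
    change ((S m).f - (S (m + 1)).f) * ((S m).f - (S (m + 1)).f) = (S m).f - (S (m + 1)).f
    rw [sub_mul, mul_sub, mul_sub, (S m).idem, (S (m + 1)).idem, k2, k3]
    simp
  have g0 : ∀ i j, i ≠ j → g i * g j = 0 := by
    intro i j hij
    change ((S i).f - (S (i + 1)).f) * ((S j).f - (S (j + 1)).f) = 0
    rw [sub_mul, mul_sub, mul_sub]
    rcases lt_or_gt_of_ne hij with h | h
    · rw [ord1' i j h.le, ord1' i (j + 1) (by omega), ord1' (i + 1) j h,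
        ord1' (i + 1) (j + 1) (by omega)]
      simp
    · rw [ord2' j i h.le, ord2' (j + 1) i h, ord2' j (i + 1) (by omega),
        ord2' (j + 1) (i + 1) (by omega)]
      simp
  let E : ℕ → A := fun m => SL.pw φ (N m) (g m)
  have wE1 : ∀ m, (S m).w * E m ≠ 0 := fun m => k5 m
  have wE2 : ∀ m d, (S (m + 1 + d)).w * E m = 0 := by
    intro m d
    induction d with
    | zero => exact k6 m
    | succ d ih =>
      obtain ⟨a, ha⟩ := k4 (m + 1 + d)
      rw [← add_assoc, ha, mul_assoc, ih, mul_zero]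
  have wE3 : ∀ m M, m < M → (S M).w * E m = 0 := by
    intro m M hM
    obtain ⟨d, rfl⟩ := Nat.exists_eq_add_of_le (Nat.succ_le_of_lt hM)
    exact wE2 m d
  -- the series
  let cr : ℤ → A := fun l => if h : ∃ m : ℕ, (N m : ℤ) = l then E h.choose else 0
  have cr1 : ∀ m : ℕ, cr (N m) = E m := by
    intro m
    have hex : ∃ m' : ℕ, (N m' : ℤ) = (N m : ℤ) := ⟨m, rfl⟩
    simp only [cr]
    rw [dif_pos hex]
    congr 1
    exact hN.injective (by exact_mod_cast hex.choose_spec)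
  have cr2 : ∀ l : ℤ, (¬ ∃ m : ℕ, (N m : ℤ) = l) → cr l = 0 := fun l hl => dif_neg hl
  let r : SL A φ := ⟨cr, 0, fun i hi => cr2 i (by rintro ⟨m, hm⟩; omega)⟩
  have hr0 : ∀ i < 0, r.co i = 0 := fun i hi => cr2 i (by rintro ⟨m, hm⟩; omega)
  obtain ⟨s, hs⟩ := hR r
  have hrC : ∀ i, r * SL.C (g i) = SL.mono (N i) (E i) := by
    intro i
    ext l
    rw [SL.C_apply, SL.mul_mono_co, SL.mono_co, sub_zero]
    change cr l * SL.pw φ l (g i) = _
    by_cases hl : ∃ m : ℕ, (N m : ℤ) = l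
    · obtain ⟨m, rfl⟩ := hl
      rw [cr1]
      by_cases hmi : m = i
      · subst hmi
        rw [if_pos rfl]
        change SL.pw φ (N m) (g m) * SL.pw φ (N m) (g m) = SL.pw φ (N m) (g m)
        rw [← map_mul, gg]
      · rw [if_neg (fun h => hmi (hN.injective (by exact_mod_cast h)))]
        change SL.pw φ (N m) (g m) * SL.pw φ (N m) (g i) = 0
        rw [← map_mul, g0 m i hmi, map_zero]
    · rw [cr2 l hl, zero_mul, if_neg (fun h => hl ⟨i, h.symm⟩)]
  have hE : ∀ i, E i = (r * s).co 0 * E i := by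
    intro i
    have h1 : SL.mono (N i) (E i) = r * s * SL.mono (N i) (E i) := by
      rw [← hrC, ← mul_assoc, ← hs]
    have h2 : (SL.mono (N i) (E i) : SL A φ).co (N i) =
        (r * s * SL.mono (N i) (E i)).co (N i) := congrArg (fun f => f.co (N i)) h1
    rw [SL.mul_mono_co, SL.mono_co, if_pos rfl, sub_self, SL.pw_zero] at h2
    exact h2
  obtain ⟨b, hb⟩ := s.bdd
  have hsb : ∀ i < -((-b).toNat : ℤ), s.co i = 0 := fun i hi => hb i (by omega)
  have hco := SL.mul_co_nonneg r s hr0 (-b).toNat hsb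
  set M := (-b).toNat + 1 with hM
  apply wE1 M
  rw [hE M, ← mul_assoc, hco, Finset.mul_sum, Finset.sum_eq_zero, zero_mul]
  intro l hl
  rw [Finset.mem_range] at hl
  rw [← mul_assoc]
  change (S M).w * cr l * _ = 0
  by_cases hex : ∃ m : ℕ, (N m : ℤ) = (l : ℤ)
  · obtain ⟨m, hm⟩ := hex
    rw [← hm, cr1, wE3 m M ?_, zero_mul]
    have := hNle m
    have h3 : N m = l := by exact_mod_cast hm
    omega
  · rw [cr2 _ hex, mul_zero, zero_mul]

end Pool.Agent.V1155
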