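import Mathlib

set_option autoImplicit false

/-!
The skew Laurent series ring over a ring `A` with an automorphism `φ`, where `x a = φ(a) x`.
-/

namespace Pool.Agent.V1155

universe u

/-- Skew Laurent series: `co i` is the coefficient of `x ^ i` (written on the left of `x ^ i`), and
only finitely many negative powers occur. -/
structure SL (A : Type u) [Ring A] (φ : A ≃+* A) where
  /-- coefficients -/
  co : ℤ → A
  /-- bounded below -/
  bdd : ∃ n : ℤ, ∀ i < n, co i = 0

namespace SL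

variable {A : Type u} [Ring A] {φ : A ≃+* A}

@[ext] theorem ext' {f g : SL A φ} (h : ∀ n, f.co n = g.co n) : f = g := by
  cases f; cases g; congr; funext n; exact h n

/-- The integer powers of the automorphism. -/
def pw (φ : A ≃+* A) (i : ℤ) : A ≃+* A := (show RingAut A from φ) ^ i

theorem pw_zero (a : A) : pw φ 0 a = a := by
  unfold pw; rw [zpow_zero]; rfl

theorem pw_add (i j : ℤ) (a : A) : pw φ (i + j) a = pw φ i (pw φ j a) := by
  unfold pw; rw [zpow_add]; rfl

theorem pw_neg_pw (i : ℤ) (a : A) : pw φ (-i) (pw φ i a) = a := by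
  rw [← pw_add, neg_add_cancel, pw_zero]

theorem pw_pw_neg (i : ℤ) (a : A) : pw φ i (pw φ (-i) a) = a := by
  rw [← pw_add, add_neg_cancel, pw_zero]

theorem pw_one (a : A) : pw φ 1 a = φ a := by
  unfold pw; rw [zpow_one]

/-- The coefficients of a product. -/
noncomputable def mulco (f g : SL A φ) (n : ℤ) : A :=
  ∑ᶠ i : ℤ, f.co i * pw φ i (g.co (n - i))

theorem mulco_eq (f g : SL A φ) (n : ℤ) {a b : ℤ} (ha : ∀ i < a, f.co i = 0)
    (hb : ∀ i < b, g.co i = 0) :
    mulco f g n = ∑ i ∈ Finset.Icc a (n - b), f.co i * pw φ i (g.co (n - i)) := by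
  unfold mulco
  apply finsum_eq_sum_of_support_subset
  intro i hi
  rw [Function.mem_support] at hi
  rw [Finset.coe_Icc, Set.mem_Icc]
  constructor
  · by_contra h
    apply hi
    rw [ha i (by omega), zero_mul]
  · by_contra h
    apply hi
    rw [hb (n - i) (by omega), map_zero, mul_zero]

instance : Zero (SL A φ) := ⟨⟨fun _ => 0, 0, fun _ _ => rfl⟩⟩
instance : One (SL A φ) := ⟨⟨fun n => if n = 0 then 1 else 0, 0, fun i hi => by
  rw [if_neg (by omega)]⟩⟩
instance : Add (SL A φ) := ⟨fun f g => ⟨fun n => f.co n + g.co n, by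
  obtain ⟨a, ha⟩ := f.bdd
  obtain ⟨b, hb⟩ := g.bdd
  exact ⟨min a b, fun i hi => by rw [ha i (by omega), hb i (by omega), add_zero]⟩⟩⟩
instance : Neg (SL A φ) := ⟨fun f => ⟨fun n => -f.co n, by
  obtain ⟨a, ha⟩ := f.bdd
  exact ⟨a, fun i hi => by rw [ha i hi, neg_zero]⟩⟩⟩
noncomputable instance : Mul (SL A φ) := ⟨fun f g => ⟨mulco f g, by
  obtain ⟨a, ha⟩ := f.bdd
  obtain ⟨b, hb⟩ := g.bdd
  exact ⟨a + b, fun i hi => by
    rw [mulco_eq f g i ha hb, Finset.Icc_eq_empty (by omega), Finset.sum_empty]⟩⟩⟩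

@[simp] theorem zero_co (n : ℤ) : (0 : SL A φ).co n = 0 := rfl
theorem one_co (n : ℤ) : (1 : SL A φ).co n = if n = 0 then 1 else 0 := rfl
@[simp] theorem add_co (f g : SL A φ) (n : ℤ) : (f + g).co n = f.co n + g.co n := rfl
@[simp] theorem neg_co (f : SL A φ) (n : ℤ) : (-f).co n = -f.co n := rfl

theorem mul_co (f g : SL A φ) (n : ℤ) {a b : ℤ} (ha : ∀ i < a, f.co i = 0)
    (hb : ∀ i < b, g.co i = 0) :
    (f * g).co n = ∑ i ∈ Finset.Icc a (n - b), f.co i * pw φ i (g.co (n - i)) :=
  mulco_eq f g n ha hb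

theorem mul_co' (f g : SL A φ) (n : ℤ) :
    (f * g).co n = ∑ᶠ i : ℤ, f.co i * pw φ i (g.co (n - i)) := rfl

theorem mul_bdd (f g : SL A φ) {a b : ℤ} (ha : ∀ i < a, f.co i = 0)
    (hb : ∀ i < b, g.co i = 0) : ∀ i < a + b, (f * g).co i = 0 := by
  intro i hi
  rw [mul_co f g i ha hb, Finset.Icc_eq_empty (by omega), Finset.sum_empty]

theorem add_bdd (f g : SL A φ) {a : ℤ} (ha : ∀ i < a, f.co i = 0)
    (hb : ∀ i < a, g.co i = 0) : ∀ i < a, (f + g).co i = 0 := by
  intro i hi
  rw [add_co, ha i hi, hb i hi, add_zero]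

theorem common_bdd (f g : SL A φ) : ∃ a : ℤ, (∀ i < a, f.co i = 0) ∧ ∀ i < a, g.co i = 0 := by
  obtain ⟨a, ha⟩ := f.bdd
  obtain ⟨b, hb⟩ := g.bdd
  exact ⟨min a b, fun i hi => ha i (by omega), fun i hi => hb i (by omega)⟩

theorem mul_assoc' (f g h : SL A φ) : f * g * h = f * (g * h) := by
  obtain ⟨a, ha⟩ := f.bdd
  obtain ⟨b, hb⟩ := g.bdd
  obtain ⟨c, hc⟩ := h.bdd
  ext n
  rw [mul_co (f * g) h n (mul_bdd f g ha hb) hc, mul_co f (g * h) n ha (mul_bdd g h hb hc)]
  have h1 : ∀ k, (f * g).co k = ∑ i ∈ Finset.Icc a (k - b), f.co i * pw φ i (g.co (k - i)) :=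
    fun k => mul_co f g k ha hb
  have h2 : ∀ k, (g * h).co k = ∑ i ∈ Finset.Icc b (k - c), g.co i * pw φ i (h.co (k - i)) :=
    fun k => mul_co g h k hb hc
  simp only [h1, h2, map_sum, map_mul, Finset.sum_mul, Finset.mul_sum, Finset.sum_sigma']
  refine Finset.sum_nbij' (i := fun x => ⟨x.2, x.1 - x.2⟩) (j := fun x => ⟨x.1 + x.2, x.1⟩)
    ?_ ?_ ?_ ?_ ?_
  · rintro ⟨k, i⟩ hx
    simp only [Finset.mem_sigma, Finset.mem_Icc] at hx ⊢
    omega
  · rintro ⟨k, i⟩ hx
    simp only [Finset.mem_sigma, Finset.mem_Icc] at hx ⊢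
    omega
  · rintro ⟨k, i⟩ hx
    simp
  · rintro ⟨k, i⟩ hx
    simp
  · rintro ⟨k, i⟩ hx
    simp only
    rw [← pw_add, mul_assoc]
    congr 3
    · congr 1
      omega
    · congr 1
      omega

theorem mul_add' (f g h : SL A φ) : f * (g + h) = f * g + f * h := by
  obtain ⟨a, ha⟩ := f.bdd
  obtain ⟨b, hb, hc⟩ := common_bdd g h
  ext n
  rw [add_co, mul_co f g n ha hb, mul_co f h n ha hc, mul_co f (g + h) n ha (add_bdd g h hb hc),
    ← Finset.sum_add_distrib]
  refine Finset.sum_congr rfl fun i _ => ?_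
  rw [add_co, map_add, mul_add]

theorem add_mul' (f g h : SL A φ) : (f + g) * h = f * h + g * h := by
  obtain ⟨a, ha, hb⟩ := common_bdd f g
  obtain ⟨c, hc⟩ := h.bdd
  ext n
  rw [add_co, mul_co f h n ha hc, mul_co g h n hb hc, mul_co (f + g) h n (add_bdd f g ha hb) hc,
    ← Finset.sum_add_distrib]
  refine Finset.sum_congr rfl fun i _ => ?_
  rw [add_co, add_mul]

noncomputable instance instRing : Ring (SL A φ) where
  add_assoc f g h := by ext n; simp [add_assoc]
  zero_add f := by ext n; simp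
  add_zero f := by ext n; simp
  add_comm f g := by ext n; simp [add_comm]
  neg_add_cancel f := by ext n; simp
  nsmul := nsmulRec
  zsmul := zsmulRec
  left_distrib := mul_add'
  right_distrib := add_mul'
  zero_mul f := by
    ext n
    rw [mul_co', zero_co]
    simp
  mul_zero f := by
    ext n
    rw [mul_co', zero_co]
    simp
  one_mul f := by
    ext n
    rw [mul_co', finsum_eq_single _ 0]
    · rw [one_co, if_pos rfl, one_mul, sub_zero, pw_zero]
    · intro i hi
      rw [one_co, if_neg hi, zero_mul]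
  mul_one f := by
    ext n
    rw [mul_co', finsum_eq_single _ n]
    · rw [one_co, if_pos (sub_self n), map_one, mul_one]
    · intro i hi
      rw [one_co, if_neg (by omega), map_zero, mul_zero]
  mul_assoc := mul_assoc'

@[simp] theorem sub_co (f g : SL A φ) (n : ℤ) : (f - g).co n = f.co n - g.co n := by
  rw [sub_eq_add_neg, add_co, neg_co, sub_eq_add_neg]

@[simp] theorem sum_co {ι : Type*} (s : Finset ι) (f : ι → SL A φ) (n : ℤ) :
    (∑ i ∈ s, f i).co n = ∑ i ∈ s, (f i).co n := by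
  classical
  induction s using Finset.induction_on with
  | empty => simp
  | insert a s ha ih => rw [Finset.sum_insert ha, Finset.sum_insert ha, add_co, ih]

/-- The monomial `a x ^ k`. -/
def mono (k : ℤ) (a : A) : SL A φ := ⟨fun n => if n = k then a else 0, k, fun i hi => by
  rw [if_neg (by omega)]⟩

theorem mono_co (k : ℤ) (a : A) (n : ℤ) : (mono k a : SL A φ).co n = if n = k then a else 0 := rfl

theorem mul_mono_co (f : SL A φ) (k : ℤ) (a : A) (n : ℤ) :
    (f * mono k a).co n = f.co (n - k) * pw φ (n - k) a := by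
  rw [mul_co', finsum_eq_single _ (n - k)]
  · rw [mono_co, if_pos (by omega)]
  · intro i hi
    rw [mono_co, if_neg (by omega), map_zero, mul_zero]

theorem mono_mul_co (f : SL A φ) (k : ℤ) (a : A) (n : ℤ) :
    (mono k a * f).co n = a * pw φ k (f.co (n - k)) := by
  rw [mul_co', finsum_eq_single _ k]
  · rw [mono_co, if_pos rfl]
  · intro i hi
    rw [mono_co, if_neg hi, zero_mul]

theorem mono_mul_mono (k l : ℤ) (a b : A) :
    (mono k a * mono l b : SL A φ) = mono (k + l) (a * pw φ k b) := by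
  ext n
  rw [mono_mul_co, mono_co, mono_co]
  by_cases h : n = k + l
  · rw [if_pos (by omega), if_pos h]
  · rw [if_neg (by omega), if_neg h, map_zero, mul_zero]

theorem one_eq_mono : (1 : SL A φ) = mono 0 1 := rfl

/-- Constants, as a ring homomorphism. -/
def C : A →+* SL A φ where
  toFun a := mono 0 a
  map_one' := rfl
  map_zero' := by ext n; simp [mono_co]
  map_mul' a b := by rw [mono_mul_mono, add_zero, pw_zero]
  map_add' a b := by
    ext n
    rw [add_co, mono_co, mono_co, mono_co]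
    split_ifs <;> simp

theorem C_apply (a : A) : (C a : SL A φ) = mono 0 a := rfl

/-- The defining relation `x a = φ(a) x`. -/
theorem x_mul (a : A) : (mono 1 1 * C a : SL A φ) = C (φ a) * mono 1 1 := by
  rw [C_apply, C_apply, mono_mul_mono, mono_mul_mono, map_one, pw_one, mul_one, one_mul, add_zero,
    zero_add]

/-- Constant term of the product with an element of nonnegative order. -/
theorem mul_co_nonneg (f g : SL A φ) (hf : ∀ i < 0, f.co i = 0) (N : ℕ)
    (hg : ∀ i < -(N : ℤ), g.co i = 0) :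
    (f * g).co 0 = ∑ i ∈ Finset.range (N + 1), f.co i * pw φ i (g.co (-(i : ℤ))) := by
  rw [mul_co f g 0 hf hg]
  refine (Finset.sum_nbij' (fun i : ℕ => (i : ℤ)) (fun i : ℤ => i.toNat) ?_ ?_ ?_ ?_ ?_).symm
  · intro i hi
    simp only [Finset.mem_range, Finset.mem_Icc] at hi ⊢
    omega
  · intro i hi
    simp only [Finset.mem_range, Finset.mem_Icc] at hi ⊢
    omega
  · intro i hi
    simp
  · intro i hi
    simp only [Finset.mem_Icc] at hi
    omega
  · intro i hi
    simp only [zero_sub]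

end SL

end Pool.Agent.V1155
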