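import Mathlib

namespace Pool.Agent.V1155.Ships

/-- distance to the nearest integer -/
def nr (z : ℚ) : ℚ := |z - round z|

theorem nr_le_half (z : ℚ) : nr z ≤ 1 / 2 := abs_sub_round z

theorem nr_nonneg (z : ℚ) : 0 ≤ nr z := abs_nonneg _

theorem nr_le (z : ℚ) (n : ℤ) : nr z ≤ |z - n| := round_le z n

theorem nr_eq_of (z : ℚ) (n : ℤ) (h : |z - n| ≤ 1 / 2) : nr z = |z - n| := by
  apply le_antisymm (nr_le z n)
  unfold nr
  by_cases e : round z = n
  · rw [e]
  · have h1 : (1 : ℚ) ≤ |((round z - n : ℤ) : ℚ)| := by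
      rw [← Int.cast_abs]
      exact_mod_cast Int.one_le_abs (sub_ne_zero.mpr e)
    have h2 : |((round z - n : ℤ) : ℚ)| ≤ |z - n| + |z - round z| := by
      have : ((round z - n : ℤ) : ℚ) = (z - n) - (z - round z) := by push_cast; ring
      rw [this]
      exact abs_sub _ _
    linarith

theorem nr_add_int (z : ℚ) (n : ℤ) : nr (z + n) = nr z := by
  unfold nr
  rw [round_add_intCast]
  congr 1
  push_cast
  ring

theorem nr_neg (z : ℚ) : nr (-z) = nr z := by
  have key : ∀ w : ℚ, nr (-w) ≤ nr w := by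
    intro w
    have := nr_le (-w) (-round w)
    have e : |(-w) - ((-round w : ℤ) : ℚ)| = nr w := by
      unfold nr
      rw [← abs_neg]
      congr 1
      push_cast
      ring
    rwa [e] at this
  apply le_antisymm (key z)
  have := key (-z)
  rwa [neg_neg] at this

theorem nr_half (z : ℚ) : nr (z + 1 / 2) = 1 / 2 - nr z := by
  have h0 := nr_le_half z
  have e0 : nr z = |z - round z| := rfl
  rw [e0] at h0
  rcases le_total 0 (z - round z) with h | h
  · rw [abs_of_nonneg h] at h0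
    have := nr_eq_of (z + 1 / 2) (round z + 1) (by
      rw [abs_le]; push_cast; constructor <;> linarith)
    rw [this, e0, abs_of_nonneg h, abs_of_nonpos (by push_cast; linarith)]
    push_cast
    ring
  · rw [abs_of_nonpos h] at h0
    have := nr_eq_of (z + 1 / 2) (round z) (by
      rw [abs_le]; constructor <;> linarith)
    rw [this, e0, abs_of_nonpos h, abs_of_nonneg (by linarith)]
    ring

theorem nr_int (n : ℤ) : nr n = 0 := by
  unfold nr
  rw [round_intCast]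
  simp

theorem nr_odd_half (k : ℤ) (hk : Odd k) : nr ((k : ℚ) / 2) = 1 / 2 := by
  obtain ⟨m, rfl⟩ := hk
  have : (((2 * m + 1 : ℤ) : ℚ)) / 2 = (m : ℚ) + 1 / 2 := by push_cast; ring
  rw [this, nr_half, nr_int]
  norm_num

/-- the linear growth lemma -/
theorem lemN (x y : ℚ) (h : ¬ ∃ Y : ℤ, y = Y) : ∃ i : ℕ, 1 / 4 ≤ nr (x + i * y) := by
  by_contra hcon
  push Not at hcon
  set a : ℕ → ℤ := fun i => round (x + i * y) with ha
  have hd : ∀ i : ℕ, |x + i * y - a i| < 1 / 4 := fun i => hcon i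
  set Y : ℤ := a 1 - a 0 with hY
  have hY1 : |y - Y| < 1 / 2 := by
    have h0 := hd 0
    have h1 := hd 1
    rw [abs_lt] at *
    rw [hY]
    push_cast at *
    constructor <;> linarith [h0.1, h0.2, h1.1, h1.2]
  have hind : ∀ i : ℕ, a i = a 0 + i * Y := by
    intro i
    induction i with
    | zero => simp
    | succ i ih =>
      have h0 := hd i
      have h1 := hd (i + 1)
      have h2 : |((a (i + 1) - a i - Y : ℤ) : ℚ)| < 1 := by
        rw [abs_lt] at *
        push_cast at *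
        constructor <;> linarith [h0.1, h0.2, h1.1, h1.2, hY1.1, hY1.2]
      have h3 : |(a (i + 1) - a i - Y : ℤ)| < 1 := by
        exact_mod_cast h2
      have h4 : a (i + 1) - a i - Y = 0 := Int.abs_lt_one_iff.mp h3
      push_cast
      linarith
  have hne : y - Y ≠ 0 := by
    intro e
    exact h ⟨Y, by linarith⟩
  have hpos : 0 < |y - Y| := abs_pos.mpr hne
  obtain ⟨i, hi⟩ := exists_nat_gt (1 / |y - Y|)
  have hi2 : 1 < i * |y - Y| := by
    rw [div_lt_iff₀ hpos] at hi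
    exact hi
  have h0 := hd 0
  have h1 := hd i
  rw [hind i] at h1
  have h5 : (i : ℚ) * (y - Y) = (x + i * y - ((a 0 + i * Y : ℤ) : ℚ)) - (x + ((0 : ℕ) : ℚ) * y - a 0) := by
    push_cast
    ring
  have h6 : |(i : ℚ) * (y - Y)| < 1 / 2 := by
    rw [h5]
    calc _ ≤ |x + i * y - ((a 0 + i * Y : ℤ) : ℚ)| + |x + ((0 : ℕ) : ℚ) * y - a 0| := abs_sub _ _
      _ < 1 / 4 + 1 / 4 := by linarith
      _ = 1 / 2 := by norm_num
  rw [abs_mul, Nat.abs_cast] at h6
  linarith

/-- three angles not contained in a half-open half circle -/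
def Tri (u v w : ℚ) : Prop :=
  ∀ t : ℚ, ¬ (⌊2 * (u + t)⌋ % 2 = ⌊2 * (v + t)⌋ % 2 ∧ ⌊2 * (v + t)⌋ % 2 = ⌊2 * (w + t)⌋ % 2)

theorem tri_core (u v w : ℚ) (h1 : u ≤ v) (h2 : v ≤ u + 1 / 2) (h3 : v ≤ w) (h4 : w ≤ v + 1 / 2)
    (h5 : u + 1 / 2 ≤ w) : Tri u v w := by
  intro t ⟨e1, e2⟩
  have a1 : ⌊2 * (u + t)⌋ ≤ ⌊2 * (v + t)⌋ := Int.floor_le_floor (by linarith)
  have a2 : ⌊2 * (v + t)⌋ ≤ ⌊2 * (u + t)⌋ + 1 := by
    rw [← Int.floor_add_one]
    exact Int.floor_le_floor (by linarith)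
  have a3 : ⌊2 * (v + t)⌋ ≤ ⌊2 * (w + t)⌋ := Int.floor_le_floor (by linarith)
  have a4 : ⌊2 * (w + t)⌋ ≤ ⌊2 * (v + t)⌋ + 1 := by
    rw [← Int.floor_add_one]
    exact Int.floor_le_floor (by linarith)
  have a5 : ⌊2 * (u + t)⌋ + 1 ≤ ⌊2 * (w + t)⌋ := by
    rw [← Int.floor_add_one]
    exact Int.floor_le_floor (by linarith)
  omega

theorem tri_int {u v w : ℚ} (h : Tri u v w) (m n k : ℤ) : Tri (u + m) (v + n) (w + k) := by
  intro t
  have e : ∀ (z : ℚ) (m : ℤ), ⌊2 * (z + m + t)⌋ = ⌊2 * (z + t)⌋ + 2 * m := by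
    intro z m
    rw [← Int.floor_add_intCast]
    congr 1
    push_cast
    ring
  rw [e, e, e]
  have := h t
  omega

theorem tri_shift {u v w : ℚ} (h : Tri u v w) (s : ℚ) : Tri (u + s) (v + s) (w + s) := by
  intro t
  have := h (s + t)
  rw [← add_assoc, ← add_assoc, ← add_assoc] at this
  exact this

theorem tri_swap {u v w : ℚ} (h : Tri u v w) : Tri v u w := by
  intro t ⟨h1, h2⟩
  exact h t ⟨h1.symm, h1.trans h2⟩

theorem tri_rot {u v w : ℚ} (h : Tri u v w) : Tri v w u := by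
  intro t ⟨h1, h2⟩
  exact h t ⟨(h1.trans h2).symm, h1⟩

theorem tri_anti (u v w : ℚ) (k : ℤ) (hk : Odd k) (e : v = u + k / 2) : Tri u v w := by
  intro t ⟨h1, _⟩
  have : ⌊2 * (v + t)⌋ = ⌊2 * (u + t)⌋ + k := by
    rw [← Int.floor_add_intCast]
    congr 1
    rw [e]
    ring
  rw [this] at h1
  obtain ⟨m, rfl⟩ := hk
  omega

/-- cross lemma: a point where `H` is closer to the integers than `E` -/
theorem cross (E H : ℤ) (ho : Odd (E + H)) (φ : ℚ) (h : nr (H * φ) ≤ nr (E * φ)) :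
    ∃ s : ℤ, Tri (-E * ((φ + s) / 2)) (E * ((φ + s) / 2)) (H * ((φ + s) / 2)) := by
  set q : ℤ := round (E * φ) with hq
  set p : ℤ := round (H * φ) with hp
  have hd := nr_le_half (E * φ)
  have e1 : nr (E * φ) = |E * φ - q| := rfl
  have e2 : nr (H * φ) = |H * φ - p| := rfl
  rw [e1] at h hd
  rw [e2] at h
  set d : ℚ := E * φ - q with hd'
  set k : ℚ := H * φ - p with hk'
  obtain ⟨r, hr⟩ := ho
  refine ⟨p + q + 1, ?_⟩
  have hEφ : (E : ℚ) * φ = d + q := by rw [hd']; ring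
  have hHφ : (H : ℚ) * φ = k + p := by rw [hk']; ring
  have hH : (H : ℚ) = 2 * r + 1 - E := by
    have : H = 2 * r + 1 - E := by omega
    rw [this]; push_cast; ring
  -- base configuration
  have base : Tri (-d / 2) (d / 2) (k / 2 + 1 / 2) := by
    have hk2 : |k| ≤ |d| := h
    rcases le_total 0 d with hdd | hdd
    · rw [abs_of_nonneg hdd] at hk2 hd
      rw [abs_le] at hk2
      apply tri_core <;> linarith [hk2.1, hk2.2]
    · rw [abs_of_nonpos hdd] at hk2 hd
      rw [abs_le] at hk2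
      apply tri_swap
      apply tri_core <;> linarith [hk2.1, hk2.2]
  -- M = q + s*E
  set s : ℤ := p + q + 1 with hs
  set M : ℤ := q + s * E with hM
  -- parity statement
  have hpar : Odd (M + (p + s * H)) := by
    refine ⟨p + q + s * r, ?_⟩
    have : M + (p + s * H) = p + q + s * (E + H) := by rw [hM]; ring
    rw [this, hr, hs]
    ring
  have f1 : -(E : ℚ) * ((φ + s) / 2) = -d / 2 + (-(M : ℚ) / 2) := by
    rw [hM]; push_cast; linear_combination (-1 / 2) * hEφ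
  have f2 : (E : ℚ) * ((φ + s) / 2) = d / 2 + (M : ℚ) / 2 := by
    rw [hM]; push_cast; linear_combination (1 / 2) * hEφ
  have f3 : (H : ℚ) * ((φ + s) / 2) = k / 2 + ((p + s * H : ℤ) : ℚ) / 2 := by
    push_cast; linear_combination (1 / 2) * hHφ
  rw [f1, f2, f3]
  rcases Int.even_or_odd M with hev | hod
  · obtain ⟨m, hm⟩ := hev
    have ho2 : Odd (p + s * H) := by
      rw [Int.odd_add] at hpar
      rw [← Int.not_even_iff_odd]
      intro hc
      have := hpar.mpr hc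
      rw [← Int.not_even_iff_odd] at this
      exact this ⟨m, hm⟩
    obtain ⟨l, hl⟩ := ho2
    have := tri_int base (-m) m l
    have g1 : -d / 2 + -(M : ℚ) / 2 = -d / 2 + ((-m : ℤ) : ℚ) := by rw [hm]; push_cast; ring
    have g2 : d / 2 + (M : ℚ) / 2 = d / 2 + (m : ℚ) := by rw [hm]; push_cast; ring
    have g3 : k / 2 + ((p + s * H : ℤ) : ℚ) / 2 = k / 2 + 1 / 2 + (l : ℚ) := by rw [hl]; push_cast; ring
    rw [g1, g2, g3]
    exact this
  · obtain ⟨m, hm⟩ := hod
    have ho2 : Even (p + s * H) := by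
      rw [Int.odd_add] at hpar
      exact hpar.mp ⟨m, hm⟩
    obtain ⟨l, hl⟩ := ho2
    have := tri_shift (tri_int base (-m - 1) m (l - 1)) (1 / 2)
    have g1 : -d / 2 + -(M : ℚ) / 2 = -d / 2 + ((-m - 1 : ℤ) : ℚ) + 1 / 2 := by rw [hm]; push_cast; ring
    have g2 : d / 2 + (M : ℚ) / 2 = d / 2 + (m : ℚ) + 1 / 2 := by rw [hm]; push_cast; ring
    have g3 : k / 2 + ((p + s * H : ℤ) : ℚ) / 2 = k / 2 + 1 / 2 + ((l - 1 : ℤ) : ℚ) + 1 / 2 := by rw [hl]; push_cast; ring
    rw [g1, g2, g3]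
    exact this

end Pool.Agent.V1155.Ships
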