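import Pool.Agent.V1155.ShipsA

namespace Pool.Agent.V1155.Ships

open Finset

/-- periodic pattern hitting both triples, of density at most one half -/
def PX (a b c d e f : ℤ) : Prop :=
  ∃ s : ℕ, 0 < s ∧ ∃ X : ℤ → Bool, (∀ x, X (x + s) = X x) ∧
    (∀ t, X (t + a) = true ∨ X (t + b) = true ∨ X (t + c) = true) ∧
    (∀ t, X (t + d) = true ∨ X (t + e) = true ∨ X (t + f) = true) ∧
    2 * ((range s).filter (fun i : ℕ => X (i : ℤ) = true)).card ≤ s

theorem px_of_theta (a b c d e f : ℤ) (θ : ℚ) (h1 : Tri (a * θ) (b * θ) (c * θ))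
    (h2 : Tri (d * θ) (e * θ) (f * θ)) : PX a b c d e f := by
  set g : ℤ → ℤ := fun x => ⌊2 * (x * θ)⌋ with hg
  have hper : ∀ x : ℤ, g (x + (θ.den : ℤ)) = g x + 2 * θ.num := by
    intro x
    simp only [hg]
    rw [← Int.floor_add_intCast]
    congr 1
    push_cast
    have := Rat.mul_den_eq_num θ
    linear_combination 2 * this
  have key : ∀ (a b c : ℤ), Tri (a * θ) (b * θ) (c * θ) → ∀ t : ℤ,
      ¬ (g (t + a) % 2 = g (t + b) % 2 ∧ g (t + b) % 2 = g (t + c) % 2) := by
    intro a b c h t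
    have := h (t * θ)
    simp only [hg]
    push_cast
    have e : ∀ a : ℤ, ((t : ℚ) + a) * θ = a * θ + t * θ := by intro a; ring
    rw [e, e, e]
    exact this
  have k1 := key a b c h1
  have k2 := key d e f h2
  have hcard : ((range θ.den).filter (fun i : ℕ => g (i : ℤ) % 2 = 0)).card +
      ((range θ.den).filter (fun i : ℕ => ¬ g (i : ℤ) % 2 = 0)).card = θ.den := by
    rw [Finset.card_filter_add_card_filter_not]
    simp
  rcases le_total ((range θ.den).filter (fun i : ℕ => g (i : ℤ) % 2 = 0)).card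
    ((range θ.den).filter (fun i : ℕ => ¬ g (i : ℤ) % 2 = 0)).card with hle | hle
  · refine ⟨θ.den, θ.den_pos, fun x => decide (g x % 2 = 0), ?_, ?_, ?_, ?_⟩
    · intro x
      simp only [hper]
      congr 1
      apply propext
      omega
    · intro t
      simp only [decide_eq_true_eq]
      have := k1 t
      omega
    · intro t
      simp only [decide_eq_true_eq]
      have := k2 t
      omega
    · simp only [decide_eq_true_eq]
      omega
  · refine ⟨θ.den, θ.den_pos, fun x => decide (¬ g x % 2 = 0), ?_, ?_, ?_, ?_⟩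
    · intro x
      simp only [hper]
      congr 1
      apply propext
      omega
    · intro t
      simp only [decide_eq_true_eq]
      have := k1 t
      omega
    · intro t
      simp only [decide_eq_true_eq]
      have := k2 t
      omega
    · simp only [decide_eq_true_eq]
      omega

theorem px_trans {a b c d e f : ℤ} (h : PX a b c d e f) (m n : ℤ) :
    PX (a + m) (b + m) (c + m) (d + n) (e + n) (f + n) := by
  obtain ⟨s, hs, X, h1, h2, h3, h4⟩ := h
  refine ⟨s, hs, X, h1, ?_, ?_, h4⟩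
  · intro t
    have := h2 (t + m)
    have e : ∀ a : ℤ, t + (a + m) = t + m + a := by intro a; ring
    rw [e, e, e]
    exact this
  · intro t
    have := h3 (t + n)
    have e : ∀ a : ℤ, t + (a + n) = t + n + a := by intro a; ring
    rw [e, e, e]
    exact this

theorem px_swap {a b c d e f : ℤ} (h : PX a b c d e f) : PX d e f a b c := by
  obtain ⟨s, hs, X, h1, h2, h3, h4⟩ := h
  exact ⟨s, hs, X, h1, h3, h2, h4⟩

theorem px_s1 {a b c d e f : ℤ} (h : PX a b c d e f) : PX b a c d e f := by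
  obtain ⟨s, hs, X, h1, h2, h3, h4⟩ := h
  refine ⟨s, hs, X, h1, fun t => ?_, h3, h4⟩
  have := h2 t
  tauto

theorem px_r1 {a b c d e f : ℤ} (h : PX a b c d e f) : PX b c a d e f := by
  obtain ⟨s, hs, X, h1, h2, h3, h4⟩ := h
  refine ⟨s, hs, X, h1, fun t => ?_, h3, h4⟩
  have := h2 t
  tauto

theorem px_s2 {a b c d e f : ℤ} (h : PX a b c d e f) : PX a b c e d f :=
  px_swap (px_s1 (px_swap h))

theorem px_r2 {a b c d e f : ℤ} (h : PX a b c d e f) : PX a b c e f d :=
  px_swap (px_r1 (px_swap h))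

theorem sum_div (g : ℤ → ℕ) (k : ℕ) (hk : 0 < k) (s : ℕ) :
    ∑ i ∈ range (k * s), g ((i : ℤ) / k) = k * ∑ j ∈ range s, g j := by
  induction s with
  | zero => simp
  | succ s ih =>
    rw [Nat.mul_succ, Finset.sum_range_add, ih, Finset.sum_range_succ, Nat.mul_add]
    congr 1
    rw [Finset.sum_congr rfl (g := fun _ => g s)]
    · simp
    · intro x hx
      rw [mem_range] at hx
      congr 1
      push_cast
      have hk' : (0 : ℤ) < k := by exact_mod_cast hk
      rw [Int.mul_add_ediv_left _ _ (ne_of_gt hk')]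
      rw [Int.ediv_eq_zero_of_lt (by positivity) (by exact_mod_cast hx)]
      ring

theorem px_scale {a b c d e f : ℤ} (h : PX a b c d e f) (k : ℕ) (hk : 0 < k) :
    PX (k * a) (k * b) (k * c) (k * d) (k * e) (k * f) := by
  obtain ⟨s, hs, X, h1, h2, h3, h4⟩ := h
  have hk' : (0 : ℤ) < k := by exact_mod_cast hk
  have ediv : ∀ t a : ℤ, (t + k * a) / k = t / k + a := by
    intro t a
    rw [Int.add_mul_ediv_left _ _ (ne_of_gt hk')]
  refine ⟨k * s, Nat.mul_pos hk hs, fun x => X (x / k), ?_, ?_, ?_, ?_⟩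
  · intro x
    simp only
    push_cast
    rw [ediv, h1]
  · intro t
    simp only [ediv]
    exact h2 _
  · intro t
    simp only [ediv]
    exact h3 _
  · have e1 : ((range (k * s)).filter (fun i : ℕ => X ((i : ℤ) / k) = true)).card =
        k * ((range s).filter (fun i : ℕ => X (i : ℤ) = true)).card := by
      rw [Finset.card_filter, Finset.card_filter]
      exact sum_div (fun x => if X x = true then 1 else 0) k hk s
    rw [e1]
    calc 2 * (k * _) = k * (2 * ((range s).filter (fun i : ℕ => X (i : ℤ) = true)).card) := by ring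
      _ ≤ k * s := Nat.mul_le_mul_left _ h4

/-- the reduced form -/
def Q (E H t1 t2 t3 : ℤ) : Prop :=
  ∃ φ : ℚ, nr (H * φ) ≤ nr (E * φ) ∧ Tri (t1 * φ) (t2 * φ) (t3 * φ)

def R (E H t1 t2 t3 : ℤ) : Prop := PX (-E) E H (2 * t1) (2 * t2) (2 * t3)

theorem r_of_q (E H t1 t2 t3 : ℤ) (ho : Odd (E + H)) (h : Q E H t1 t2 t3) : R E H t1 t2 t3 := by
  obtain ⟨φ, h1, h2⟩ := h
  obtain ⟨s, hs⟩ := cross E H ho φ h1
  apply px_of_theta (-E) E H (2 * t1) (2 * t2) (2 * t3) ((φ + s) / 2)
  · push_cast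
    exact hs
  · have := tri_int h2 (t1 * s) (t2 * s) (t3 * s)
    have e : ∀ t : ℤ, ((2 * t : ℤ) : ℚ) * ((φ + s) / 2) = t * φ + ((t * s : ℤ) : ℚ) := by
      intro t; push_cast; ring
    rw [e, e, e]
    exact this

theorem r_swap {E H t1 t2 t3 : ℤ} (h : R E H t1 t2 t3) : R E H t2 t1 t3 := px_s2 h
theorem r_rot {E H t1 t2 t3 : ℤ} (h : R E H t1 t2 t3) : R E H t2 t3 t1 := px_r2 h
theorem r_neg {E H t1 t2 t3 : ℤ} (h : R (-E) H t1 t2 t3) : R E H t1 t2 t3 := by
  unfold R at *
  rw [neg_neg] at h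
  exact px_s1 h
theorem r_trans {E H t1 t2 t3 : ℤ} (h : R E H t1 t2 t3) (m : ℤ) :
    R E H (t1 + m) (t2 + m) (t3 + m) := by
  unfold R at *
  have := px_trans h 0 (2 * m)
  rw [add_zero, add_zero, add_zero] at this
  have e : ∀ t : ℤ, 2 * (t + m) = 2 * t + 2 * m := by intro t; ring
  rw [e, e, e]
  exact this

end Pool.Agent.V1155.Ships
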