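import Pool.Agent.V1155.ShipsB

namespace Pool.Agent.V1155.Ships

theorem case1_odd (E H t1 t2 t3 : ℤ) (hH : Even H) (hD : Odd (t2 - t1)) : Q E H t1 t2 t3 := by
  refine ⟨1 / 2, ?_, ?_⟩
  · obtain ⟨m, rfl⟩ := hH
    have : (((m + m : ℤ)) : ℚ) * (1 / 2) = (m : ℤ) := by push_cast; ring
    rw [this, nr_int]
    exact nr_nonneg _
  · apply tri_anti _ _ _ (t2 - t1) hD
    push_cast
    ring

theorem case1_even (E H t1 t2 t3 : ℤ) (hE : Odd E) (hH : Even H) (hD : Even (t2 - t1))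
    (h0 : t2 - t1 ≠ 0) (hk : ¬ ∃ k : ℤ, Odd k ∧ H = k * (t2 - t1)) : Q E H t1 t2 t3 := by
  set D : ℤ := t2 - t1 with hDdef
  have hDq : (D : ℚ) ≠ 0 := by exact_mod_cast h0
  have main : ∀ (φ : ℚ) (j : ℤ), Odd j → 2 * D * φ = j → nr (H * φ) ≤ 1 / 4 → Q E H t1 t2 t3 := by
    intro φ j hj hφ hn
    by_cases hq : 1 / 4 ≤ nr (E * φ)
    · refine ⟨φ, hn.trans hq, ?_⟩
      apply tri_anti _ _ _ j hj
      have : (t2 : ℚ) = t1 + D := by rw [hDdef]; push_cast; ring
      rw [this, ← hφ]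
      ring
    · push Not at hq
      refine ⟨φ + 1 / 2, ?_, ?_⟩
      · obtain ⟨m, hm⟩ := hH
        obtain ⟨l, hl⟩ := hE
        have e1 : (H : ℚ) * (φ + 1 / 2) = H * φ + (m : ℤ) := by
          rw [hm]; push_cast; ring
        have e2 : (E : ℚ) * (φ + 1 / 2) = (E * φ + 1 / 2) + (l : ℤ) := by
          rw [hl]; push_cast; ring
        rw [e1, e2, nr_add_int, nr_add_int, nr_half]
        linarith
      · apply tri_anti _ _ _ (j + D) (hj.add_even hD)
        have : (t2 : ℚ) = t1 + D := by rw [hDdef]; push_cast; ring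
        push_cast
        rw [this, ← hφ]
        ring
  by_cases hY : ∃ Y : ℤ, (H : ℚ) / D = Y
  · obtain ⟨Y, hY⟩ := hY
    have hH2 : H = Y * D := by
      rw [div_eq_iff hDq] at hY
      exact_mod_cast hY
    have hYe : Even Y := by
      rw [← Int.not_odd_iff_even]
      intro ho
      exact hk ⟨Y, ho, hH2⟩
    obtain ⟨y, hy⟩ := hYe
    apply main (1 / (2 * D)) 1 odd_one
    · push_cast
      field_simp
    · have : (H : ℚ) * (1 / (2 * D)) = (y : ℤ) := by
        rw [hH2, hy]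
        push_cast
        field_simp
        ring
      rw [this, nr_int]
      norm_num
  · obtain ⟨i, hi⟩ := lemN (H / (2 * D) + 1 / 2) (H / D) hY
    apply main ((1 + 2 * i) / (2 * D)) (1 + 2 * i)
    · exact ⟨i, by ring⟩
    · push_cast
      field_simp
    · have e : (H : ℚ) / (2 * D) + 1 / 2 + i * (H / D) = H * ((1 + 2 * i) / (2 * D)) + 1 / 2 := by
        field_simp
        ring
      rw [e, nr_half] at hi
      linarith

theorem case2a (E H t1 t2 t3 : ℤ) (hE : Even E) (hH : Odd H) (hD : Even (t2 - t1))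
    (h0 : t2 - t1 ≠ 0) (hk : ¬ ∃ k : ℤ, Even k ∧ E = k * (t2 - t1)) : Q E H t1 t2 t3 := by
  set D : ℤ := t2 - t1 with hDdef
  have hDq : (D : ℚ) ≠ 0 := by exact_mod_cast h0
  have ht2 : (t2 : ℚ) = t1 + D := by rw [hDdef]; push_cast; ring
  by_cases hY : ∃ Y : ℤ, (E : ℚ) / D = Y
  · obtain ⟨Y, hY⟩ := hY
    have hE2 : E = Y * D := by
      rw [div_eq_iff hDq] at hY
      exact_mod_cast hY
    have hYo : Odd Y := by
      rw [← Int.not_even_iff_odd]
      intro ho
      exact hk ⟨Y, ho, hE2⟩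
    refine ⟨1 / (2 * D), ?_, ?_⟩
    · have : (E : ℚ) * (1 / (2 * D)) = (Y : ℚ) / 2 := by
        rw [hE2]
        push_cast
        field_simp
      rw [this, nr_odd_half Y hYo]
      exact nr_le_half _
    · apply tri_anti _ _ _ 1 odd_one
      rw [ht2]
      push_cast
      field_simp
  · obtain ⟨i, hi⟩ := lemN (E / (2 * D)) (E / D) hY
    set φ : ℚ := (1 + 2 * i) / (2 * D) with hφ
    have e : (E : ℚ) / (2 * D) + i * (E / D) = E * φ := by
      rw [hφ]
      field_simp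
    rw [e] at hi
    have hφD : 2 * D * φ = 1 + 2 * i := by
      rw [hφ]; field_simp
    by_cases hq : nr (H * φ) ≤ 1 / 4
    · refine ⟨φ, hq.trans hi, ?_⟩
      apply tri_anti _ _ _ (1 + 2 * i) ⟨i, by ring⟩
      rw [ht2]
      push_cast
      rw [← hφD]
      ring
    · push Not at hq
      refine ⟨φ + 1 / 2, ?_, ?_⟩
      · obtain ⟨m, hm⟩ := hE
        obtain ⟨l, hl⟩ := hH
        have e1 : (E : ℚ) * (φ + 1 / 2) = E * φ + (m : ℤ) := by
          rw [hm]; push_cast; ring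
        have e2 : (H : ℚ) * (φ + 1 / 2) = (H * φ + 1 / 2) + (l : ℤ) := by
          rw [hl]; push_cast; ring
        rw [e1, e2, nr_add_int, nr_add_int, nr_half]
        linarith
      · apply tri_anti _ _ _ ((1 + 2 * i) + D) (Odd.add_even ⟨i, by ring⟩ hD)
        rw [ht2]
        push_cast
        rw [← hφD]
        ring

theorem step2 (n F K G H u v : ℤ) (huv : u * F + v * K = 1) (hF : 4 ≤ F) (hG : 0 < G)
    (hn : 0 < n) : Q (2 * G * F * n) H 0 (G * F) (G * K) := by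
  have hFq : (4 : ℚ) ≤ F := by exact_mod_cast hF
  have hGq : (0 : ℚ) < G := by exact_mod_cast hG
  have hnq : (1 : ℚ) ≤ n := by exact_mod_cast hn
  have hF0 : (F : ℚ) ≠ 0 := by linarith
  have hG0 : (G : ℚ) ≠ 0 := by linarith
  have hn0 : (n : ℚ) ≠ 0 := by linarith
  have huvq : (u : ℚ) * F + v * K = 1 := by exact_mod_cast huv
  set x0 : ℚ := (2 * n - 1) * K / (4 * F * n) with hx0
  set t : ℤ := ⌈F * (1 / 2 - x0)⌉ with ht
  have ht1 : F * (1 / 2 - x0) ≤ t := Int.le_ceil _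
  have ht2 : (t : ℚ) < F * (1 / 2 - x0) + 1 := Int.ceil_lt_add_one _
  set s : ℤ := v * t with hs
  set j : ℤ := 2 * n - 1 + 4 * n * s with hj
  have hjo : Odd j := ⟨n - 1 + 2 * n * s, by rw [hj]; ring⟩
  refine ⟨j / (4 * G * F * n), ?_, ?_⟩
  · have : ((2 * G * F * n : ℤ) : ℚ) * (j / (4 * G * F * n)) = (j : ℚ) / 2 := by
      push_cast
      field_simp
      ring
    rw [this, nr_odd_half j hjo]
    exact nr_le_half _
  · have base : Tri 0 (1 / 2 - 1 / (4 * n)) (x0 + t / F) := by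
      have hxt1 : 1 / 2 ≤ x0 + t / F := by
        have : 1 / 2 - x0 ≤ t / F := by
          rw [le_div_iff₀ (by linarith)]
          linarith
        linarith
      have hxt2 : x0 + t / F ≤ 3 / 4 := by
        have : (t : ℚ) / F < 1 / 2 - x0 + 1 / 4 := by
          rw [div_lt_iff₀ (by linarith)]
          nlinarith
        linarith
      have hq : 1 / (4 * (n : ℚ)) ≤ 1 / 4 := by
        rw [div_le_div_iff₀ (by linarith) (by norm_num)]
        linarith
      have hq0 : 0 < 1 / (4 * (n : ℚ)) := by positivity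
      apply tri_core <;> linarith
    have := tri_int base 0 s (-(t * u))
    have e1 : ((0 : ℤ) : ℚ) * (j / (4 * G * F * n)) = 0 + ((0 : ℤ) : ℚ) := by simp
    have e2 : ((G * F : ℤ) : ℚ) * (j / (4 * G * F * n)) = 1 / 2 - 1 / (4 * n) + (s : ℚ) := by
      rw [hj]
      push_cast
      field_simp
      ring
    have e3 : ((G * K : ℤ) : ℚ) * (j / (4 * G * F * n)) = x0 + t / F + ((-(t * u) : ℤ) : ℚ) := by
      rw [hj, hx0, hs]
      push_cast
      field_simp
      linear_combination (4 * (n : ℚ) * t) * huvq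
    rw [e1, e2, e3]
    exact this

theorem tri_sw23 {u v w : ℚ} (h : Tri u v w) : Tri u w v := tri_swap (tri_rot (tri_rot h))

theorem tri_I3 (k : ℤ) (hk : 0 ≤ k) (ψ : ℚ) (h1 : 4 * k + 2 ≤ 4 * (4 * k + 3) * ψ) (h2 : ψ ≤ 1 / 4) :
    Tri 0 (2 * ψ) ((4 * k + 3) * ψ) := by
  have hkq : (0 : ℚ) ≤ k := by exact_mod_cast hk
  have hψ : 0 ≤ ψ := by
    by_contra hc
    push Not at hc
    nlinarith
  have base : Tri 0 (2 * ψ) ((4 * k + 3) * ψ + ((-k : ℤ) : ℚ)) := by
    push_cast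
    apply tri_core
    · linarith
    · linarith
    · nlinarith
    · nlinarith
    · nlinarith
  have := tri_int base 0 0 k
  simpa using this

theorem tri_I1 (k : ℤ) (hk : 0 ≤ k) (ψ : ℚ) (h1 : 1 / 4 ≤ ψ) (h2 : 4 * (4 * k + 1) * ψ ≤ 4 * k + 2) :
    Tri 0 (2 * ψ) ((4 * k + 1) * ψ) := by
  have hkq : (0 : ℚ) ≤ k := by exact_mod_cast hk
  have base : Tri 0 ((4 * k + 1) * ψ + ((-k : ℤ) : ℚ)) (2 * ψ) := by
    push_cast
    rcases eq_or_lt_of_le hk with h0 | h0
    · rw [← h0] at h2 ⊢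
      norm_num at h2 ⊢
      apply tri_core <;> linarith
    · have hk1 : (1 : ℚ) ≤ k := by exact_mod_cast h0
      apply tri_core
      · nlinarith
      · nlinarith
      · nlinarith [mul_le_mul_of_nonneg_left h2 (show (0 : ℚ) ≤ 4 * k - 1 by linarith)]
      · nlinarith
      · linarith
  have := tri_sw23 (tri_int base 0 k 0)
  simpa using this

theorem lift (G n γ H u v : ℤ) (huv : u * H + v * G = 1) (hG : 0 < G) (ψ : ℚ)
    (h1 : nr (H * ψ) ≤ G * nr (4 * n * ψ)) (h2 : Tri 0 (2 * ψ) (γ * ψ)) :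
    Q (4 * G * n) H 0 (2 * G) (G * γ) := by
  have hGq : (0 : ℚ) < G := by exact_mod_cast hG
  have hG0 : (G : ℚ) ≠ 0 := ne_of_gt hGq
  have huvq : (u : ℚ) * H + v * G = 1 := by exact_mod_cast huv
  set r : ℤ := round (H * ψ) with hr
  have hnr : nr (H * ψ) = |H * ψ - r| := rfl
  set s : ℤ := -(r * u) with hs
  refine ⟨(ψ + s) / G, ?_, ?_⟩
  · have e1 : (H : ℚ) * ((ψ + s) / G) = (H * ψ - r) / G + ((r * v : ℤ) : ℚ) := by
      rw [hs]
      push_cast
      field_simp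
      linear_combination (-(r : ℚ)) * huvq
    have e2 : ((4 * G * n : ℤ) : ℚ) * ((ψ + s) / G) = 4 * n * ψ + ((4 * n * s : ℤ) : ℚ) := by
      push_cast
      field_simp
    rw [e1, e2, nr_add_int, nr_add_int]
    calc nr ((H * ψ - r) / G) ≤ |(H * ψ - r) / G - ((0 : ℤ) : ℚ)| := nr_le _ _
      _ = |H * ψ - r| / G := by
        rw [Int.cast_zero, sub_zero, abs_div, abs_of_pos hGq]
      _ ≤ nr (4 * n * ψ) := by
        rw [div_le_iff₀ hGq, ← hnr]
        linarith
  · have := tri_int h2 0 (2 * s) (γ * s)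
    have e1 : ((0 : ℤ) : ℚ) * ((ψ + s) / G) = 0 + ((0 : ℤ) : ℚ) := by simp
    have e2 : ((2 * G : ℤ) : ℚ) * ((ψ + s) / G) = 2 * ψ + ((2 * s : ℤ) : ℚ) := by
      push_cast
      field_simp
    have e3 : ((G * γ : ℤ) : ℚ) * ((ψ + s) / G) = γ * ψ + ((γ * s : ℤ) : ℚ) := by
      push_cast
      field_simp
    rw [e1, e2, e3]
    exact this

end Pool.Agent.V1155.Ships
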