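import Pool.Agent.V1155.ShipsC

namespace Pool.Agent.V1155.Ships

theorem lemD_aux (D a b : ℤ) (hD : Odd D) (hD0 : 0 < D) (hb : ¬ D ∣ b)
    (hg : Int.gcd a D ≤ Int.gcd b D) :
    ∃ k : ℤ, 1 / 2 ≤ nr (a * k / D) + nr (b * k / D) := by
  have hDq : (0 : ℚ) < D := by exact_mod_cast hD0
  have hD1 : (D : ℚ) ≠ 0 := ne_of_gt hDq
  set ga : ℤ := (Int.gcd a D : ℤ) with hga
  set gb : ℤ := (Int.gcd b D : ℤ) with hgb
  have hgab : ga ≤ gb := by rw [hga, hgb]; exact_mod_cast hg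
  have hga0 : 0 < ga := by
    rw [hga]
    have : 0 < Int.gcd a D := Int.gcd_pos_of_ne_zero_right a (ne_of_gt hD0)
    exact_mod_cast this
  have hgaD : ga ∣ D := Int.gcd_dvd_right a D
  have hgaa : ga ∣ a := Int.gcd_dvd_left a D
  obtain ⟨r, hr⟩ := hgaD
  obtain ⟨a', ha'⟩ := hgaa
  have hga_odd : Odd ga := by
    rw [← Int.not_even_iff_odd]
    intro he
    have : Even D := by rw [hr]; exact he.mul_right r
    exact (Int.not_even_iff_odd.mpr hD) this
  obtain ⟨x, y, hxy⟩ : ∃ x y : ℤ, a * x + D * y = ga :=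
    ⟨Int.gcdA a D, Int.gcdB a D, (Int.gcd_eq_gcd_ab a D).symm⟩
  obtain ⟨h0, hh0⟩ := hD
  set k1 : ℤ := -(x * (h0 + 1)) with hk1
  set t : ℤ := -ga + y * (D + 1) with ht
  have hk1e : 2 * a * k1 = -ga + D * t := by
    have e1 : 2 * a * k1 = -(a * x) * (2 * h0 + 1 + 1) := by rw [hk1]; ring
    rw [e1, ← hh0, ht]
    have : a * x = ga - D * y := by linarith
    rw [this]
    ring
  have hto : Odd t := by
    rw [← Int.not_even_iff_odd]
    intro he
    have h1 : Even (D * t) := he.mul_left D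
    have h2 : Even (2 * a * k1) := by
      rw [mul_assoc]; exact even_two_mul _
    have h3 : Even ga := by
      have : ga = D * t - 2 * a * k1 := by linarith
      rw [this]
      exact h1.sub h2
    exact (Int.not_even_iff_odd.mpr hga_odd) h3
  obtain ⟨t', ht'⟩ := hto
  -- norm of the a-part
  have hna : ∀ k : ℤ, (∃ m : ℤ, a * k = a * k1 + m * D) →
      1 / 2 - ga / (2 * D) ≤ nr (a * k / D) := by
    intro k ⟨m, hm⟩
    have e : (a : ℚ) * k / D = (-(ga / (2 * D)) + 1 / 2) + ((t' + m : ℤ) : ℚ) := by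
      have hm' : (a : ℚ) * k = a * k1 + m * D := by exact_mod_cast hm
      have hk1' : 2 * (a : ℚ) * k1 = -ga + D * (2 * t' + 1) := by
        rw [ht'] at hk1e
        exact_mod_cast hk1e
      push_cast
      field_simp
      linear_combination 2 * hm' + hk1'
    rw [e, nr_add_int, nr_half, nr_neg]
    have : nr ((ga : ℚ) / (2 * D)) ≤ ga / (2 * D) := by
      have h := nr_le ((ga : ℚ) / (2 * D)) 0
      rw [Int.cast_zero, sub_zero, abs_of_nonneg] at h
      · exact h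
      · have : (0 : ℚ) < ga := by exact_mod_cast hga0
        positivity
    linarith
  have hnb : ∀ k : ℤ, ¬ D ∣ b * k → (gb : ℚ) / D ≤ nr (b * k / D) := by
    intro k hk
    unfold nr
    set m := round ((b : ℚ) * k / D) with hm
    have hne : b * k - m * D ≠ 0 := by
      intro e
      exact hk ⟨m, by linarith⟩
    have hdv : gb ∣ b * k - m * D := by
      apply dvd_sub
      · exact Dvd.dvd.mul_right (Int.gcd_dvd_left b D) k
      · exact Dvd.dvd.mul_left (Int.gcd_dvd_right b D) m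
    have hle : gb ≤ |b * k - m * D| := by
      apply Int.le_of_dvd (abs_pos.mpr hne)
      exact (dvd_abs _ _).mpr hdv
    have e : (b : ℚ) * k / D - m = ((b * k - m * D : ℤ) : ℚ) / D := by
      push_cast
      field_simp
    rw [e, abs_div, abs_of_pos hDq, div_le_div_iff_of_pos_right hDq, ← Int.cast_abs]
    exact_mod_cast hle
  have fin : ∀ k : ℤ, (∃ m : ℤ, a * k = a * k1 + m * D) → ¬ D ∣ b * k →
      ∃ k : ℤ, 1 / 2 ≤ nr (a * k / D) + nr (b * k / D) := by
    intro k h1 h2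
    refine ⟨k, ?_⟩
    have h3 := hna k h1
    have h4 := hnb k h2
    have h5 : (ga : ℚ) / (2 * D) ≤ gb / D := by
      rw [div_le_div_iff₀ (by linarith) hDq]
      have h6 : (ga : ℚ) ≤ gb := by exact_mod_cast hgab
      have h7 : (0 : ℚ) < ga := by exact_mod_cast hga0
      nlinarith
    linarith
  by_cases hd1 : D ∣ b * k1
  · apply fin (k1 + r)
    · exact ⟨a', by rw [ha', hr]; ring⟩
    · intro hd2
      have hbr : D ∣ b * r := by
        have : b * r = b * (k1 + r) - b * k1 := by ring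
        rw [this]
        exact dvd_sub hd2 hd1
      have hr0 : r ≠ 0 := by
        rintro rfl
        rw [hr] at hD0
        simp at hD0
      have hgb' : ga ∣ b := by
        rw [hr] at hbr
        exact Int.dvd_of_mul_dvd_mul_right hr0 hbr
      obtain ⟨b'', hb''⟩ := hgb'
      have hrb : r ∣ b'' * k1 := by
        rw [hr, hb'', mul_assoc] at hd1
        exact Int.dvd_of_mul_dvd_mul_left (ne_of_gt hga0) hd1
      have hcop : IsCoprime r k1 := by
        refine ⟨t, -(2 * a'), ?_⟩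
        have h1 : ga * (t * r + -(2 * a') * k1) = ga * 1 := by
          have := hk1e
          rw [ha'] at this
          have h2 : D * t = ga * r * t := by rw [← hr]
          linear_combination -this - h2
        exact mul_left_cancel₀ (ne_of_gt hga0) h1
      have hrb2 : r ∣ b'' := hcop.dvd_of_dvd_mul_right hrb
      apply hb
      rw [hr, hb'']
      exact mul_dvd_mul_left ga hrb2
  · exact fin k1 ⟨0, by ring⟩ hd1

theorem lemD (D a b : ℤ) (hD : Odd D) (hD0 : 0 < D) (ha : ¬ D ∣ a) (hb : ¬ D ∣ b) :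
    ∃ k : ℤ, 1 / 2 ≤ nr (a * k / D) + nr (b * k / D) := by
  rcases le_total (Int.gcd a D) (Int.gcd b D) with h | h
  · exact lemD_aux D a b hD hD0 hb h
  · obtain ⟨k, hk⟩ := lemD_aux D b a hD hD0 ha h
    exact ⟨k, by linarith⟩

/-- points of the good interval -/
theorem tri_I (γ : ℤ) (hγ : Odd γ) (h0 : 0 < γ) :
    (∀ ψ : ℚ, γ - 1 ≤ 4 * γ * ψ → ψ ≤ 1 / 4 → γ % 4 = 3 → Tri 0 (2 * ψ) (γ * ψ)) ∧
    (∀ ψ : ℚ, 1 / 4 ≤ ψ → 4 * γ * ψ ≤ γ + 1 → γ % 4 = 1 → Tri 0 (2 * ψ) (γ * ψ)) := by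
  constructor
  · intro ψ h1 h2 h3
    obtain ⟨k, rfl⟩ : ∃ k, γ = 4 * k + 3 := ⟨γ / 4, by omega⟩
    push_cast at *
    exact tri_I3 k (by omega) ψ (by linarith) h2
  · intro ψ h1 h2 h3
    obtain ⟨k, rfl⟩ : ∃ k, γ = 4 * k + 1 := ⟨γ / 4, by omega⟩
    push_cast at *
    exact tri_I1 k (by omega) ψ h1 (by linarith)

theorem mod4 (γ : ℤ) (hγ : Odd γ) : γ % 4 = 1 ∨ γ % 4 = 3 := by
  obtain ⟨m, rfl⟩ := hγ
  omega

/-- case 2n ≥ γ -/
theorem caseA (G n γ H u v : ℤ) (huv : u * H + v * G = 1) (hG : 0 < G) (hn : 0 < n)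
    (hγ : Odd γ) (hγ0 : 0 < γ) (h : γ ≤ 2 * n) : Q (4 * G * n) H 0 (2 * G) (G * γ) := by
  have hnq : (0 : ℚ) < n := by exact_mod_cast hn
  have hn0 : (n : ℚ) ≠ 0 := ne_of_gt hnq
  have hGq : (1 : ℚ) ≤ G := by exact_mod_cast hG
  have hγq : (0 : ℚ) < γ := by exact_mod_cast hγ0
  have hq : (γ : ℚ) ≤ 2 * n := by exact_mod_cast h
  obtain ⟨i3, i1⟩ := tri_I γ hγ hγ0
  have hle : (γ : ℚ) * (1 / (8 * n)) ≤ 1 / 4 := by
    rw [mul_one_div, div_le_div_iff₀ (by positivity) (by norm_num)]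
    linarith
  have hpos : 0 < 1 / (8 * (n : ℚ)) := by positivity
  have hnr : ∀ ψ : ℚ, nr (4 * n * ψ) = 1 / 2 → nr (H * ψ) ≤ G * nr (4 * n * ψ) := by
    intro ψ e
    rw [e]
    have := nr_le_half (H * ψ)
    nlinarith
  rcases mod4 γ hγ with h4 | h4
  · apply lift G n γ H u v huv hG (1 / 4 + 1 / (8 * n))
    · apply hnr
      have : 4 * (n : ℚ) * (1 / 4 + 1 / (8 * n)) = ((2 * n + 1 : ℤ) : ℚ) / 2 := by
        push_cast; field_simp; ring
      rw [this, nr_odd_half _ ⟨n, rfl⟩]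
    · apply i1 _ _ _ h4
      · linarith
      · nlinarith
  · apply lift G n γ H u v huv hG (1 / 4 - 1 / (8 * n))
    · apply hnr
      have : 4 * (n : ℚ) * (1 / 4 - 1 / (8 * n)) = ((2 * n - 1 : ℤ) : ℚ) / 2 := by
        push_cast; field_simp; ring
      rw [this, nr_odd_half _ ⟨n - 1, by ring⟩]
    · apply i3 _ _ _ h4
      · nlinarith
      · linarith

/-- case G ≥ 2 -/
theorem caseB (G n γ H u v : ℤ) (huv : u * H + v * G = 1) (hG : 2 ≤ G) (hn : 0 < n)
    (hγ : Odd γ) (hγ0 : 0 < γ) (h : 2 * n < γ) : Q (4 * G * n) H 0 (2 * G) (G * γ) := by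
  have hGq : (2 : ℚ) ≤ G := by exact_mod_cast hG
  have hγq : (0 : ℚ) < γ := by exact_mod_cast hγ0
  have hγ1 : (γ : ℚ) ≠ 0 := ne_of_gt hγq
  have hno : ¬ ∃ Y : ℤ, (4 * n / γ : ℚ) = Y := by
    rintro ⟨Y, hY⟩
    rw [div_eq_iff hγ1] at hY
    have hY' : 4 * n = Y * γ := by exact_mod_cast hY
    have hd : γ ∣ 4 * n := ⟨Y, by linarith⟩
    have hc : IsCoprime γ 4 := by
      obtain ⟨m, rfl⟩ := hγ
      exact ⟨(2 * m + 1), -(m * m + m), by ring⟩
    have hd2 : γ ∣ n := hc.dvd_of_dvd_mul_left hd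
    have := Int.le_of_dvd hn hd2
    omega
  obtain ⟨i, hi⟩ := lemN (4 * n / (2 * γ)) (4 * n / γ) hno
  apply lift G n γ H u v huv (by omega) ((1 + 2 * i) / (2 * γ))
  · have e : (4 * (n : ℚ) / (2 * γ)) + i * (4 * n / γ) = 4 * n * ((1 + 2 * i) / (2 * γ)) := by
      field_simp
    rw [e] at hi
    have := nr_le_half (H * ((1 + 2 * i) / (2 * γ)))
    nlinarith
  · apply tri_sw23
    apply tri_anti _ _ _ (1 + 2 * i) ⟨i, by ring⟩
    push_cast
    field_simp
    ring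

end Pool.Agent.V1155.Ships
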