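import Pool.Agent.V1155.ShipsD

namespace Pool.Agent.V1155.Ships

theorem odd_not_dvd (D n : ℤ) (hD : Odd D) (hn : 0 < n) (h : n < D) : ¬ D ∣ 4 * n := by
  intro hd
  have hc : IsCoprime D 4 := by
    obtain ⟨m, rfl⟩ := hD
    exact ⟨(2 * m + 1), -(m * m + m), by ring⟩
  have hd2 : D ∣ n := hc.dvd_of_dvd_mul_left hd
  have := Int.le_of_dvd hn hd2
  omega

/-- common computation: ψ = 1/2 + k/D -/
theorem half_plus (D n H k : ℤ) (hH : Odd H)
    (hk : 1 / 2 ≤ nr (H * k / D) + nr (((4 * n : ℤ) : ℚ) * k / D)) :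
    nr (H * (1 / 2 + k / D)) ≤ ((1 : ℤ) : ℚ) * nr (4 * n * (1 / 2 + k / D)) := by
  obtain ⟨l, hl⟩ := hH
  have e1 : (H : ℚ) * (1 / 2 + k / D) = (H * k / D + 1 / 2) + (l : ℤ) := by
    have : (H : ℚ) = 2 * l + 1 := by rw [hl]; push_cast; ring
    linear_combination (1 / 2) * this
  have e2 : 4 * (n : ℚ) * (1 / 2 + k / D) = ((4 * n : ℤ) : ℚ) * k / D + ((2 * n : ℤ) : ℚ) := by
    push_cast
    ring
  rw [e1, e2, nr_add_int, nr_add_int, nr_half, Int.cast_one, one_mul]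
  linarith

theorem caseC1 (n γ H : ℤ) (hn : 0 < n) (hγ : Odd γ) (hH : Odd H) (h : 2 * n < γ)
    (hd : ¬ γ ∣ H) : Q (4 * 1 * n) H 0 (2 * 1) (1 * γ) := by
  have hγ0 : 0 < γ := by omega
  have hγq : (0 : ℚ) < γ := by exact_mod_cast hγ0
  obtain ⟨k, hk⟩ := lemD γ H (4 * n) hγ hγ0 hd (odd_not_dvd γ n hγ hn (by omega))
  apply lift 1 n γ H 0 1 (by ring) (by norm_num) (1 / 2 + k / γ)
  · exact half_plus γ n H k hH hk
  · apply tri_sw23
    apply tri_anti _ _ _ (γ + 2 * k) (hγ.add_even (even_two_mul k))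
    push_cast
    field_simp
    ring

theorem caseC3 (n γ H : ℤ) (hn : 0 < n) (hγ : Odd γ) (hH : Odd H) (h : 2 * n < γ) (h5 : 5 ≤ γ)
    (hd : ¬ (γ - 2) ∣ H) : Q (4 * 1 * n) H 0 (2 * 1) (1 * γ) := by
  have hγ0 : 0 < γ - 2 := by omega
  have hγq : (0 : ℚ) < (γ : ℚ) - 2 := by exact_mod_cast hγ0
  have hγ1 : (γ : ℚ) - 2 ≠ 0 := ne_of_gt hγq
  have ho : Odd (γ - 2) := by
    obtain ⟨m, rfl⟩ := hγ
    exact ⟨m - 1, by ring⟩
  obtain ⟨k, hk⟩ := lemD (γ - 2) H (4 * n) ho hγ0 hd (odd_not_dvd (γ - 2) n ho hn (by omega))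
  apply lift 1 n γ H 0 1 (by ring) (by norm_num) (1 / 2 + k / ((γ - 2 : ℤ) : ℚ))
  · exact half_plus (γ - 2) n H k hH hk
  · apply tri_rot
    apply tri_rot
    apply tri_anti _ _ _ (γ - 2 + 2 * k) (ho.add_even (even_two_mul k))
    push_cast
    field_simp
    ring

theorem caseC2 (n γ H : ℤ) (hγ : Odd γ) (hγ0 : 0 < γ) (hH : Odd H) (h3 : 3 * γ ≤ |H|) :
    Q (4 * 1 * n) H 0 (2 * 1) (1 * γ) := by
  obtain ⟨i3, i1⟩ := tri_I γ hγ hγ0
  set h : ℤ := |H| with hh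
  have hpos : 0 < h := by omega
  have hhq : (0 : ℚ) < h := by exact_mod_cast hpos
  have hh1 : (h : ℚ) ≠ 0 := ne_of_gt hhq
  have hγq : (0 : ℚ) < γ := by exact_mod_cast hγ0
  have h3q : 3 * (γ : ℚ) ≤ h := by exact_mod_cast h3
  have hho : Odd h := by
    rw [hh]
    exact (odd_abs).mpr hH
  have zero : ∀ m : ℤ, nr (H * (m / h)) ≤ ((1 : ℤ) : ℚ) * nr (4 * n * (m / h)) := by
    intro m
    have : nr (H * (m / h)) = 0 := by
      rcases abs_choice H with hc | hc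
      · have e : (H : ℚ) = h := by rw [hh, hc]
        rw [e]
        have : (h : ℚ) * (m / h) = (m : ℤ) := by field_simp
        rw [this, nr_int]
      · have e : (H : ℚ) = -h := by
          have : H = -h := by omega
          rw [this]
          push_cast
          ring
        rw [e]
        have : (-(h : ℚ)) * (m / h) = ((-m : ℤ) : ℚ) := by push_cast; field_simp
        rw [this, nr_int]
    rw [this, Int.cast_one, one_mul]
    exact nr_nonneg _
  rcases mod4 γ hγ with h4 | h4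
  · -- right interval
    obtain ⟨m, c, hm, hc⟩ : ∃ m c : ℤ, 4 * m = h + c ∧ (1 ≤ c ∧ c ≤ 3) := by
      obtain ⟨l, hl⟩ := hho
      exact ⟨h / 4 + 1, 4 * (h / 4 + 1) - h, by ring, by omega, by omega⟩
    have hmq : 4 * (m : ℚ) = h + c := by exact_mod_cast hm
    have hc1 : (1 : ℚ) ≤ c := by exact_mod_cast hc.1
    have hc3 : (c : ℚ) ≤ 3 := by exact_mod_cast hc.2
    apply lift 1 n γ H 0 1 (by ring) (by norm_num) (m / h) (zero m)
    apply i1 _ _ _ h4
    · rw [div_le_div_iff₀ (by norm_num) hhq]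
      linarith
    · rw [← mul_div_assoc, div_le_iff₀ hhq]
      nlinarith
  · obtain ⟨m, c, hm, hc⟩ : ∃ m c : ℤ, 4 * m = h - c ∧ (0 ≤ c ∧ c ≤ 3) := by
      exact ⟨h / 4, h - 4 * (h / 4), by ring, by omega, by omega⟩
    have hmq : 4 * (m : ℚ) = h - c := by exact_mod_cast hm
    have hc1 : (0 : ℚ) ≤ c := by exact_mod_cast hc.1
    have hc3 : (c : ℚ) ≤ 3 := by exact_mod_cast hc.2
    apply lift 1 n γ H 0 1 (by ring) (by norm_num) (m / h) (zero m)
    apply i3 _ _ _ h4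
    · rw [← mul_div_assoc, le_div_iff₀ hhq]
      nlinarith
    · rw [div_le_div_iff₀ hhq (by norm_num)]
      linarith

/-- the reduced problem for positive γ -/
theorem step3 (G n γ H u v : ℤ) (huv : u * H + v * G = 1) (hG : 0 < G) (hn : 0 < n)
    (hγ : Odd γ) (hγ0 : 0 < γ) (hH : Odd H) :
    Q (4 * G * n) H 0 (2 * G) (G * γ) ∨ (G = 1 ∧ n = 1 ∧ γ = 3 ∧ (H = 3 ∨ H = -3)) := by
  by_cases h1 : γ ≤ 2 * n
  · exact Or.inl (caseA G n γ H u v huv hG hn hγ hγ0 h1)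
  push Not at h1
  by_cases h2 : 2 ≤ G
  · exact Or.inl (caseB G n γ H u v huv h2 hn hγ hγ0 h1)
  have hG1 : G = 1 := by omega
  subst hG1
  by_cases hd : γ ∣ H
  swap
  · exact Or.inl (caseC1 n γ H hn hγ hH h1 hd)
  by_cases h3 : 3 * γ ≤ |H|
  · exact Or.inl (caseC2 n γ H hγ hγ0 hH h3)
  push Not at h3
  obtain ⟨c, hc⟩ := hd
  have hco : Odd c := by
    rw [hc] at hH
    exact (Int.odd_mul.mp hH).2
  have hcabs : |c| < 3 := by
    rw [hc, abs_mul, abs_of_pos hγ0] at h3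
    by_contra hcon
    push Not at hcon
    nlinarith
  have hc1 : c = 1 ∨ c = -1 := by
    rw [abs_lt] at hcabs
    obtain ⟨l, hl⟩ := hco
    omega
  have hH1 : H = γ ∨ H = -γ := by
    rcases hc1 with h | h
    · left; rw [hc, h]; ring
    · right; rw [hc, h]; ring
  by_cases h5 : 5 ≤ γ
  · left
    apply caseC3 n γ H hn hγ hH h1 h5
    intro hdv
    have hdv2 : (γ - 2) ∣ γ := by
      rcases hH1 with h | h
      · rwa [h] at hdv
      · rw [h] at hdv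
        exact (dvd_neg).mp hdv
    have hdv3 : (γ - 2) ∣ 2 := by
      have h2 : (γ - 2) ∣ (γ - (γ - 2)) := dvd_sub hdv2 (dvd_refl _)
      have e : γ - (γ - 2) = 2 := by ring
      rwa [e] at h2
    have := Int.le_of_dvd (by norm_num) hdv3
    omega
  · right
    have h33 : γ = 3 := by
      obtain ⟨l, hl⟩ := hγ
      omega
    subst h33
    exact ⟨rfl, by omega, rfl, hH1⟩

theorem step3' (G n K H u v : ℤ) (huv : u * H + v * G = 1) (hG : 0 < G) (hn : 0 < n)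
    (hK : Odd K) (hH : Odd H) :
    Q (4 * G * n) H 0 (2 * G) (G * K) ∨
      (G = 1 ∧ n = 1 ∧ (K = 3 ∨ K = -1) ∧ (H = 3 ∨ H = -3)) := by
  by_cases hK0 : 0 < K
  · rcases step3 G n K H u v huv hG hn hK hK0 hH with h | ⟨h1, h2, h3, h4⟩
    · exact Or.inl h
    · exact Or.inr ⟨h1, h2, Or.inl h3, h4⟩
  · have hK2 : Odd (2 - K) := by
      obtain ⟨m, rfl⟩ := hK
      exact ⟨-m, by ring⟩
    rcases step3 G n (2 - K) H u v huv hG hn hK2 (by omega) hH with h | ⟨h1, h2, h3, h4⟩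
    · left
      obtain ⟨φ, hφ1, hφ2⟩ := h
      refine ⟨-φ, ?_, ?_⟩
      · rw [mul_neg, mul_neg, nr_neg, nr_neg]
        exact hφ1
      · have := tri_swap (tri_shift hφ2 (-(2 * G * φ)))
        have e1 : ((2 * G : ℤ) : ℚ) * φ + -(2 * G * φ) = ((0 : ℤ) : ℚ) * -φ := by push_cast; ring
        have e2 : ((0 : ℤ) : ℚ) * φ + -(2 * G * φ) = ((2 * G : ℤ) : ℚ) * -φ := by push_cast; ring
        have e3 : ((G * (2 - K) : ℤ) : ℚ) * φ + -(2 * G * φ) = ((G * K : ℤ) : ℚ) * -φ := by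
          push_cast; ring
        rw [e1, e2, e3] at this
        exact this
    · right
      exact ⟨h1, h2, Or.inr (by omega), h4⟩

end Pool.Agent.V1155.Ships
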