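import Pool.Agent.V1155.ShipsE

namespace Pool.Agent.V1155.Ships

open Finset

/-! ### exceptional pairs -/

def XA (x : ℤ) : Bool := decide (x % 10 = 0 ∨ x % 10 = 1 ∨ x % 10 = 3 ∨ x % 10 = 4 ∨ x % 10 = 8)
def XB (x : ℤ) : Bool := decide (x % 10 = 0 ∨ x % 10 = 1 ∨ x % 10 = 3 ∨ x % 10 = 4 ∨ x % 10 = 6)

theorem excA (e : ℤ) (he : e = 2 ∨ e = 4) : PX 0 1 8 0 e 6 := by
  refine ⟨10, by norm_num, XA, ?_, ?_, ?_, ?_⟩
  · intro x
    unfold XA
    congr 1
    apply propext
    push_cast
    omega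
  · intro t
    unfold XA
    simp only [decide_eq_true_eq]
    omega
  · intro t
    unfold XA
    simp only [decide_eq_true_eq]
    rcases he with rfl | rfl <;> omega
  · decide

theorem excB (e : ℤ) (he : e = 2 ∨ e = 4) : PX 0 7 8 0 e 6 := by
  refine ⟨10, by norm_num, XB, ?_, ?_, ?_, ?_⟩
  · intro x
    unfold XB
    congr 1
    apply propext
    push_cast
    omega
  · intro t
    unfold XB
    simp only [decide_eq_true_eq]
    omega
  · intro t
    unfold XB
    simp only [decide_eq_true_eq]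
    rcases he with rfl | rfl <;> omega
  · decide

theorem exc (K H : ℤ) (hK : K = 3 ∨ K = -1) (hH : H = 3 ∨ H = -3) : R 4 H 0 2 K := by
  unfold R
  rcases hK with rfl | rfl <;> rcases hH with rfl | rfl
  · -- {-4,4,3} , {0,4,6}
    have := px_trans (excB 4 (Or.inr rfl)) (-4) 0
    norm_num at this ⊢
    -- this : PX (-4) 3 4 0 4 6
    exact px_s1 (px_r1 (px_r1 this))
  · have := px_trans (excA 4 (Or.inr rfl)) (-4) 0
    norm_num at this ⊢
    exact px_s1 (px_r1 (px_r1 this))
  · have := px_trans (excB 2 (Or.inl rfl)) (-4) (-2)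
    norm_num at this ⊢
    exact px_r2 (px_s1 (px_r1 (px_r1 this)))
  · have := px_trans (excA 2 (Or.inl rfl)) (-4) (-2)
    norm_num at this ⊢
    exact px_r2 (px_s1 (px_r1 (px_r1 this)))

/-! ### core -/

theorem cop_of_prim (E H G a b : ℤ) (hG : 0 < G) (hGE : G ∣ E) (hGa : G ∣ a) (hGb : G ∣ b)
    (prim : ∀ p : ℕ, p.Prime → ¬ ((p : ℤ) ∣ E ∧ (p : ℤ) ∣ H ∧ (p : ℤ) ∣ a ∧ (p : ℤ) ∣ b)) :
    ∃ u v : ℤ, u * H + v * G = 1 := by
  have h : IsCoprime H G := by
    rw [Int.isCoprime_iff_gcd_eq_one]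
    by_contra hne
    obtain ⟨p, hp, hpd⟩ := Nat.exists_prime_and_dvd hne
    have hpH : (p : ℤ) ∣ H := (Int.natCast_dvd_natCast.mpr hpd).trans (Int.gcd_dvd_left H G)
    have hpG : (p : ℤ) ∣ G := (Int.natCast_dvd_natCast.mpr hpd).trans (Int.gcd_dvd_right H G)
    exact prim p hp ⟨hpG.trans hGE, hpH, hpG.trans hGa, hpG.trans hGb⟩
  exact h

theorem core4 (G F K H u v u' v' n : ℤ) (huv : u * F + v * K = 1) (huv' : u' * H + v' * G = 1)
    (hG : 0 < G) (hF : 0 < F) (hFe : Even F) (hK : Odd K) (hH : Odd H) (hn : 0 < n) :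
    R (2 * G * F * n) H 0 (G * F) (G * K) := by
  have ho : Odd (2 * G * F * n + H) := by
    apply Even.add_odd _ hH
    exact ⟨G * F * n, by ring⟩
  by_cases h4 : 4 ≤ F
  · exact r_of_q _ _ _ _ _ ho (step2 n F K G H u v huv h4 hG hn)
  · have hF2 : F = 2 := by
      obtain ⟨m, rfl⟩ := hFe
      omega
    subst hF2
    have e1 : 2 * G * 2 * n = 4 * G * n := by ring
    have e2 : G * 2 = 2 * G := by ring
    rw [e1, e2]
    rw [e1] at ho
    rcases step3' G n K H u' v' huv' hG hn hK hH with h | ⟨h1, h2, h3, h4⟩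
    · exact r_of_q _ _ _ _ _ ho h
    · subst h1
      subst h2
      norm_num
      exact exc K H h3 h4

theorem core3 (G F K H u v u' v' n : ℤ) (huv : u * F + v * K = 1) (huv' : u' * H + v' * G = 1)
    (hG : 0 < G) (hF : 0 < F) (hFe : Even F) (hK : Odd K) (hH : Odd H) (hn : n ≠ 0) :
    R (2 * G * F * n) H 0 (G * F) (G * K) := by
  rcases lt_or_gt_of_ne hn with h | h
  · apply r_neg
    have := core4 G F K H u v u' v' (-n) huv huv' hG hF hFe hK hH (by omega)
    have e : -(2 * G * F * n) = 2 * G * F * (-n) := by ring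
    rw [e]
    exact this
  · exact core4 G F K H u v u' v' n huv huv' hG hF hFe hK hH h

theorem core2 (G F K H u v u' v' n t : ℤ) (huv : u * F + v * K = 1) (huv' : u' * H + v' * G = 1)
    (hG : 0 < G) (hF0 : F ≠ 0) (hFe : Even F) (hK : Odd K) (hH : Odd H) (hn : n ≠ 0) :
    R (2 * G * F * n) H t (t + G * F) (t + G * K) := by
  rcases lt_or_gt_of_ne hF0 with h | h
  · -- base change
    have hK' : Odd (K - F) := hK.sub_even hFe
    have := core3 G (-F) (K - F) H (-(u + v)) v u' v' (-n) (by linear_combination huv) huv' hG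
      (by omega) hFe.neg hK' hH (by omega)
    have h2 := r_swap (r_trans this (t + G * F))
    have e0 : 2 * G * -F * -n = 2 * G * F * n := by ring
    have e1 : G * -F + (t + G * F) = t := by ring
    have e2 : 0 + (t + G * F) = t + G * F := by ring
    have e3 : G * (K - F) + (t + G * F) = t + G * K := by ring
    rw [e0, e1, e2, e3] at h2
    exact h2
  · have := r_trans (core3 G F K H u v u' v' n huv huv' hG h hFe hK hH hn) t
    have e1 : 0 + t = t := by ring
    have e2 : G * F + t = t + G * F := by ring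
    have e3 : G * K + t = t + G * K := by ring
    rw [e1, e2, e3] at this
    exact this

theorem core (E H t1 t2 t3 : ℤ) (ho : Odd (E + H)) (hE0 : E ≠ 0) (d12 : t2 - t1 ≠ 0)
    (d13 : t3 - t1 ≠ 0) (d23 : t3 - t2 ≠ 0)
    (prim : ∀ p : ℕ, p.Prime →
      ¬ ((p : ℤ) ∣ E ∧ (p : ℤ) ∣ H ∧ (p : ℤ) ∣ (t2 - t1) ∧ (p : ℤ) ∣ (t3 - t1))) :
    R E H t1 t2 t3 := by
  rcases Int.even_or_odd E with hE | hE
  · -- E even, H odd
    have hH : Odd H := by
      rw [← Int.not_even_iff_odd]
      intro he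
      exact (Int.not_even_iff_odd.mpr ho) (hE.add he)
    by_cases c1 : Even (t2 - t1) ∧ ¬ ∃ k : ℤ, Even k ∧ E = k * (t2 - t1)
    · exact r_of_q _ _ _ _ _ ho (case2a E H t1 t2 t3 hE hH c1.1 d12 c1.2)
    by_cases c2 : Even (t3 - t2) ∧ ¬ ∃ k : ℤ, Even k ∧ E = k * (t3 - t2)
    · exact r_rot (r_rot (r_of_q _ _ _ _ _ ho (case2a E H t2 t3 t1 hE hH c2.1 d23 c2.2)))
    by_cases c3 : Even (t3 - t1) ∧ ¬ ∃ k : ℤ, Even k ∧ E = k * (t3 - t1)
    · exact r_rot (r_rot (r_swap (r_rot
        (r_of_q _ _ _ _ _ ho (case2a E H t1 t3 t2 hE hH c3.1 d13 c3.2)))))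
    have g1 : Even (t2 - t1) → ∃ k : ℤ, Even k ∧ E = k * (t2 - t1) := by tauto
    have g2 : Even (t3 - t2) → ∃ k : ℤ, Even k ∧ E = k * (t3 - t2) := by tauto
    have g3 : Even (t3 - t1) → ∃ k : ℤ, Even k ∧ E = k * (t3 - t1) := by tauto
    set G : ℤ := (Int.gcd (t2 - t1) (t3 - t1) : ℤ) with hGd
    have hG : 0 < G := by
      rw [hGd]
      exact_mod_cast Int.gcd_pos_of_ne_zero_left (t3 - t1) d12
    have dG1 : G ∣ t2 - t1 := Int.gcd_dvd_left _ _
    have dG2 : G ∣ t3 - t1 := Int.gcd_dvd_right _ _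
    obtain ⟨a, ha⟩ := dG1
    obtain ⟨b, hb⟩ := dG2
    obtain ⟨u, v, huv⟩ : ∃ u v : ℤ, u * a + v * b = 1 := by
      refine ⟨Int.gcdA (t2 - t1) (t3 - t1), Int.gcdB (t2 - t1) (t3 - t1), ?_⟩
      have h := Int.gcd_eq_gcd_ab (t2 - t1) (t3 - t1)
      rw [← hGd] at h
      apply mul_left_cancel₀ (ne_of_gt hG)
      rw [mul_one]
      nth_rewrite 2 [h]
      rw [ha, hb]
      ring
    have cop : G ∣ E → ∃ u' v' : ℤ, u' * H + v' * G = 1 := by
      intro hGE
      exact cop_of_prim E H G (t2 - t1) (t3 - t1) hG hGE ⟨a, ha⟩ ⟨b, hb⟩ prim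
    have ha0 : a ≠ 0 := by
      rintro rfl
      exact d12 (by rw [ha]; ring)
    have hb0 : b ≠ 0 := by
      rintro rfl
      exact d13 (by rw [hb]; ring)
    have hba : b - a ≠ 0 := by
      intro e
      apply d23
      have : t3 - t2 = G * (b - a) := by linear_combination hb - ha
      rw [this, e, mul_zero]
    rcases Int.even_or_odd a with hae | hao
    · obtain ⟨k, ⟨m, hk⟩, hE2⟩ := g1 (by rw [ha]; exact hae.mul_left G)
      have hbo : Odd b := by
        rw [← Int.not_even_iff_odd]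
        intro hbe
        have : Even (u * a + v * b) := (hae.mul_left u).add (hbe.mul_left v)
        rw [huv] at this
        exact absurd this (by decide)
      have hEe : E = 2 * G * a * m := by rw [hE2, hk, ha]; ring
      have hm : m ≠ 0 := by
        rintro rfl
        exact hE0 (by rw [hEe]; ring)
      obtain ⟨u', v', huv'⟩ := cop ⟨2 * a * m, by rw [hEe]; ring⟩
      have := core2 G a b H u v u' v' m t1 huv huv' hG ha0 hae hbo hH hm
      rw [← hEe, ← ha, ← hb] at this
      have e1 : t1 + (t2 - t1) = t2 := by ring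
      have e2 : t1 + (t3 - t1) = t3 := by ring
      rw [e1, e2] at this
      exact this
    · rcases Int.even_or_odd b with hbe | hbo
      · obtain ⟨k, ⟨m, hk⟩, hE2⟩ := g3 (by rw [hb]; exact hbe.mul_left G)
        have hEe : E = 2 * G * b * m := by rw [hE2, hk, hb]; ring
        have hm : m ≠ 0 := by
          rintro rfl
          exact hE0 (by rw [hEe]; ring)
        obtain ⟨u', v', huv'⟩ := cop ⟨2 * b * m, by rw [hEe]; ring⟩
        have := core2 G b a H v u u' v' m t1 (by linear_combination huv) huv' hG hb0 hbe hao hH hm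
        rw [← hEe, ← ha, ← hb] at this
        have e1 : t1 + (t2 - t1) = t2 := by ring
        have e2 : t1 + (t3 - t1) = t3 := by ring
        rw [e1, e2] at this
        exact r_rot (r_rot (r_swap (r_rot this)))
      · have hD : t3 - t2 = G * (b - a) := by linear_combination hb - ha
        have hbae : Even (b - a) := hbo.sub_odd hao
        obtain ⟨k, ⟨m, hk⟩, hE2⟩ := g2 (by rw [hD]; exact hbae.mul_left G)
        have hEe : E = 2 * G * (b - a) * m := by rw [hE2, hk, hD]; ring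
        have hm : m ≠ 0 := by
          rintro rfl
          exact hE0 (by rw [hEe]; ring)
        obtain ⟨u', v', huv'⟩ := cop ⟨2 * (b - a) * m, by rw [hEe]; ring⟩
        have := core2 G (b - a) (-a) H v (-(u + v)) u' v' m t2 (by linear_combination huv) huv'
          hG hba hbae hao.neg hH hm
        rw [← hEe, ← hD] at this
        have e1 : t2 + (t3 - t2) = t3 := by ring
        have e2 : t2 + G * -a = t1 := by linear_combination ha
        rw [e1, e2] at this
        exact r_rot (r_rot this)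
  · have hH : Even H := by
      rw [← Int.not_odd_iff_even]
      intro hHo
      exact (Int.not_even_iff_odd.mpr ho) (hE.add_odd hHo)
    by_cases a1 : Odd (t2 - t1)
    · exact r_of_q _ _ _ _ _ ho (case1_odd E H t1 t2 t3 hH a1)
    by_cases a2 : Odd (t3 - t2)
    · exact r_rot (r_rot (r_of_q _ _ _ _ _ ho (case1_odd E H t2 t3 t1 hH a2)))
    rw [Int.not_odd_iff_even] at a1 a2
    have a3 : Even (t3 - t1) := by
      have : t3 - t1 = (t3 - t2) + (t2 - t1) := by ring
      rw [this]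
      exact a2.add a1
    by_cases c1 : ∃ k : ℤ, Odd k ∧ H = k * (t2 - t1)
    swap
    · exact r_of_q _ _ _ _ _ ho (case1_even E H t1 t2 t3 hE hH a1 d12 c1)
    by_cases c2 : ∃ k : ℤ, Odd k ∧ H = k * (t3 - t2)
    swap
    · exact r_rot (r_rot (r_of_q _ _ _ _ _ ho (case1_even E H t2 t3 t1 hE hH a2 d23 c2)))
    by_cases c3 : ∃ k : ℤ, Odd k ∧ H = k * (t3 - t1)
    swap
    · exact r_rot (r_rot (r_swap (r_rot
        (r_of_q _ _ _ _ _ ho (case1_even E H t1 t3 t2 hE hH a3 d13 c3)))))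
    exfalso
    obtain ⟨k1, ho1, h1⟩ := c1
    obtain ⟨k2, ho2, h2⟩ := c2
    obtain ⟨k3, ho3, h3⟩ := c3
    have hH0 : H ≠ 0 := by
      rw [h1]
      apply mul_ne_zero _ d12
      rintro rfl
      exact absurd ho1 (by decide)
    have hmul : H * (k3 * k2 + k3 * k1 - k1 * k2) = 0 := by
      have e : t3 - t1 = (t3 - t2) + (t2 - t1) := by ring
      rw [e] at h3
      linear_combination (-(k1 * k2)) * h3 + k3 * k2 * h1 + k3 * k1 * h2
    have hz : k3 * k2 + k3 * k1 - k1 * k2 = 0 := by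
      rcases mul_eq_zero.mp hmul with h | h
      · exact absurd h hH0
      · exact h
    have hev : Even (k3 * k2 + k3 * k1) := (ho3.mul ho2).add_odd (ho3.mul ho1)
    have hod : Odd (k1 * k2) := ho1.mul ho2
    have he2 : k3 * k2 + k3 * k1 = k1 * k2 := by linarith
    rw [he2] at hev
    exact (Int.not_even_iff_odd.mpr hod) hev

/-- the half case: the second triple is even -/
theorem px_half (m e H c d : ℤ) (ho : Odd (e + H)) (he : e ≠ 0) (hc : c ≠ 0) (hd : d ≠ 0)
    (hcd : d - c ≠ 0)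
    (prim : ∀ p : ℕ, p.Prime → ¬ ((p : ℤ) ∣ e ∧ (p : ℤ) ∣ H ∧ (p : ℤ) ∣ c ∧ (p : ℤ) ∣ d)) :
    PX (m - e) (m + e) (m + H) 0 (2 * c) (2 * d) := by
  have h := core e H 0 c d ho he (by simpa using hc) (by simpa using hd) hcd (by
    intro p hp
    simpa using prim p hp)
  unfold R at h
  have := px_trans h m 0
  have e1 : -e + m = m - e := by ring
  have e2 : e + m = m + e := by ring
  have e3 : H + m = m + H := by ring
  rw [e1, e2, e3, mul_zero, add_zero, add_zero, add_zero] at this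
  exact this

theorem px_semi (a b c d : ℤ) (ha : a ≠ 0) (hb : b ≠ 0) (hab : b - a ≠ 0) (hc : c ≠ 0) (hd : d ≠ 0)
    (hcd : d - c ≠ 0) (hce : Even c) (hde : Even d) (hodd : Odd a ∨ Odd b)
    (prim : ∀ p : ℕ, p.Prime → ¬ ((p : ℤ) ∣ a ∧ (p : ℤ) ∣ b ∧ (p : ℤ) ∣ c ∧ (p : ℤ) ∣ d)) :
    PX 0 a b 0 c d := by
  obtain ⟨c', hc'⟩ := hce
  obtain ⟨d', hd'⟩ := hde
  have hc2 : c = 2 * c' := by omega
  have hd2 : d = 2 * d' := by omega
  have hc0 : c' ≠ 0 := by omega
  have hd0 : d' ≠ 0 := by omega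
  have hcd0 : d' - c' ≠ 0 := by omega
  have prim' : ∀ e H : ℤ, (∀ p : ℕ, (p : ℤ) ∣ e → (p : ℤ) ∣ H → (p : ℤ) ∣ a ∧ (p : ℤ) ∣ b) →
      ∀ p : ℕ, p.Prime → ¬ ((p : ℤ) ∣ e ∧ (p : ℤ) ∣ H ∧ (p : ℤ) ∣ c' ∧ (p : ℤ) ∣ d') := by
    intro e H hEH p hp ⟨h1, h2, h3, h4⟩
    obtain ⟨h5, h6⟩ := hEH p h1 h2
    exact prim p hp ⟨h5, h6, by rw [hc2]; exact h3.mul_left 2, by rw [hd2]; exact h4.mul_left 2⟩
  rw [hc2, hd2]
  rcases Int.even_or_odd a with hae | hao
  · have hbo : Odd b := by
      rcases hodd with h | h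
      · exact absurd hae (Int.not_even_iff_odd.mpr h)
      · exact h
    obtain ⟨e, hae⟩ := hae
    have := px_half e e (b - e) c' d' (by rw [show e + (b - e) = b by ring]; exact hbo)
      (by omega) hc0 hd0 hcd0 (prim' e (b - e) (by
        intro p h1 h2
        refine ⟨by rw [hae]; exact dvd_add h1 h1, ?_⟩
        have : b = (b - e) + e := by ring
        rw [this]
        exact dvd_add h2 h1))
    have e1 : e - e = 0 := by ring
    have e2 : e + e = a := hae.symm
    have e3 : e + (b - e) = b := by ring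
    rw [e1, e2, e3] at this
    exact this
  · rcases Int.even_or_odd b with hbe | hbo
    · obtain ⟨e, hbe⟩ := hbe
      have := px_half e e (a - e) c' d' (by rw [show e + (a - e) = a by ring]; exact hao)
        (by omega) hc0 hd0 hcd0 (prim' e (a - e) (by
          intro p h1 h2
          refine ⟨?_, by rw [hbe]; exact dvd_add h1 h1⟩
          have : a = (a - e) + e := by ring
          rw [this]
          exact dvd_add h2 h1))
      have e1 : e - e = 0 := by ring
      have e2 : e + e = b := hbe.symm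
      have e3 : e + (a - e) = a := by ring
      rw [e1, e2, e3] at this
      exact px_s1 (px_r1 (px_r1 this))
    · obtain ⟨e, he⟩ := hbo.sub_odd hao
      have := px_half (a + e) e (-(a + e)) c' d'
        (by rw [show e + -(a + e) = -a by ring]; exact hao.neg) (by omega) hc0 hd0 hcd0
        (prim' e (-(a + e)) (by
          intro p h1 h2
          have h3 : (p : ℤ) ∣ a := by
            have : a = -(-(a + e)) - e := by ring
            rw [this]
            exact dvd_sub ((dvd_neg).mpr h2) h1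
          refine ⟨h3, ?_⟩
          have : b = a + e + e := by omega
          rw [this]
          exact dvd_add (dvd_add h3 h1) h1))
      have e1 : a + e - e = a := by ring
      have e2 : a + e + e = b := by omega
      have e3 : a + e + -(a + e) = 0 := by ring
      rw [e1, e2, e3] at this
      exact px_r1 (px_r1 this)

theorem tri_half (a b : ℤ) (h : Odd a ∨ Odd b) :
    Tri (((0 : ℤ) : ℚ) * (1 / 2)) ((a : ℚ) * (1 / 2)) ((b : ℚ) * (1 / 2)) := by
  rcases h with h | h
  · apply tri_anti _ _ _ a h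
    push_cast
    ring
  · apply tri_sw23
    apply tri_anti _ _ _ b h
    push_cast
    ring

theorem px_prim (a b c d : ℤ) (ha : a ≠ 0) (hb : b ≠ 0) (hab : b - a ≠ 0) (hc : c ≠ 0) (hd : d ≠ 0)
    (hcd : d - c ≠ 0)
    (prim : ∀ p : ℕ, p.Prime → ¬ ((p : ℤ) ∣ a ∧ (p : ℤ) ∣ b ∧ (p : ℤ) ∣ c ∧ (p : ℤ) ∣ d)) :
    PX 0 a b 0 c d := by
  by_cases h1 : Odd a ∨ Odd b
  · by_cases h2 : Odd c ∨ Odd d
    · exact px_of_theta 0 a b 0 c d (1 / 2) (tri_half a b h1) (tri_half c d h2)
    · push Not at h2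
      rw [Int.not_odd_iff_even, Int.not_odd_iff_even] at h2
      exact px_semi a b c d ha hb hab hc hd hcd h2.1 h2.2 h1 prim
  · push Not at h1
    rw [Int.not_odd_iff_even, Int.not_odd_iff_even] at h1
    have h2 : Odd c ∨ Odd d := by
      by_contra hcon
      push Not at hcon
      rw [Int.not_odd_iff_even, Int.not_odd_iff_even] at hcon
      exact prim 2 Nat.prime_two ⟨by exact_mod_cast h1.1.two_dvd, by exact_mod_cast h1.2.two_dvd,
        by exact_mod_cast hcon.1.two_dvd, by exact_mod_cast hcon.2.two_dvd⟩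
    apply px_swap
    apply px_semi c d a b hc hd hcd ha hb hab h1.1 h1.2 h2
    intro p hp hh
    exact prim p hp ⟨hh.2.2.1, hh.2.2.2, hh.1, hh.2.1⟩

theorem px_all (N : ℕ) : ∀ a b c d : ℤ, a.natAbs ≤ N → a ≠ 0 → b ≠ 0 → b - a ≠ 0 → c ≠ 0 → d ≠ 0 →
    d - c ≠ 0 → PX 0 a b 0 c d := by
  induction N using Nat.strong_induction_on with
  | _ N ih =>
    intro a b c d hN ha hb hab hc hd hcd
    by_cases prim : ∀ p : ℕ, p.Prime →
        ¬ ((p : ℤ) ∣ a ∧ (p : ℤ) ∣ b ∧ (p : ℤ) ∣ c ∧ (p : ℤ) ∣ d)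
    · exact px_prim a b c d ha hb hab hc hd hcd prim
    · push Not at prim
      obtain ⟨p, hp, ⟨a', rfl⟩, ⟨b', rfl⟩, ⟨c', rfl⟩, ⟨d', rfl⟩⟩ := prim
      have hp0 : (p : ℤ) ≠ 0 := by exact_mod_cast hp.ne_zero
      have ha' : a' ≠ 0 := right_ne_zero_of_mul ha
      have hb' : b' ≠ 0 := right_ne_zero_of_mul hb
      have hc' : c' ≠ 0 := right_ne_zero_of_mul hc
      have hd' : d' ≠ 0 := right_ne_zero_of_mul hd
      have hab' : b' - a' ≠ 0 := by
        intro e
        apply hab
        have : (p : ℤ) * b' - p * a' = p * (b' - a') := by ring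
        rw [this, e, mul_zero]
      have hcd' : d' - c' ≠ 0 := by
        intro e
        apply hcd
        have : (p : ℤ) * d' - p * c' = p * (d' - c') := by ring
        rw [this, e, mul_zero]
      have hlt : a'.natAbs < N := by
        have h1 : ((p : ℤ) * a').natAbs = p * a'.natAbs := by
          rw [Int.natAbs_mul, Int.natAbs_natCast]
        have h2 : 0 < a'.natAbs := Int.natAbs_pos.mpr ha'
        have h3 := hp.two_le
        rw [h1] at hN
        nlinarith
      have := px_scale (ih a'.natAbs hlt a' b' c' d' le_rfl ha' hb' hab' hc' hd' hcd') p hp.pos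
      rw [mul_zero] at this
      exact this

end Pool.Agent.V1155.Ships
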