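import Mathlib

set_option autoImplicit false
set_option linter.unusedSimpArgs false

/-!
Strongly weakly nil-clean rings are the semi-potent WUU rings.
-/

namespace Pool.Agent.V1155.WNC

universe u

/-- `a` is the sum of an idempotent and a nilpotent that commute. -/
def StrNC {R : Type u} [Ring R] (a : R) : Prop :=
  ∃ e b : R, e * e = e ∧ IsNilpotent b ∧ e * b = b * e ∧ a = e + b

/-- Strongly weakly nil-clean rings. -/
def SWNC (R : Type u) [Ring R] : Prop := ∀ a : R, StrNC a ∨ StrNC (-a)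

/-- Weakly UU rings: the units are exactly the elements `n + 1` and `n - 1`, `n` nilpotent. -/
def WUU (R : Type u) [Ring R] : Prop :=
  {u : R | IsUnit u} = {x : R | ∃ n : R, IsNilpotent n ∧ (x = n + 1 ∨ x = n - 1)}

/-- Semi-potent rings: every right ideal not contained in the Jacobson radical contains a nonzero
idempotent. -/
def SemiPotent (R : Type u) [Ring R] : Prop :=
  ∀ I : Submodule Rᵐᵒᵖ R, (∃ a ∈ I, a ∉ Ring.jacobson R) → ∃ e ∈ I, e ≠ 0 ∧ e * e = e

variable {R : Type u} [Ring R]

theorem strNC_of_nilp {a : R} (h : IsNilpotent (a * a - a)) : StrNC a := by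
  obtain ⟨n, hn⟩ := h
  let p : Polynomial ℤ := Polynomial.X * Polynomial.X - Polynomial.X
  let I : Ideal (Polynomial ℤ) := Ideal.span {p ^ n}
  let g0 : Polynomial ℤ →+* R := (Polynomial.aeval a : Polynomial ℤ →ₐ[ℤ] R).toRingHom
  have hX : g0 Polynomial.X = a := Polynomial.aeval_X a
  have hp : g0 p = a * a - a := by
    simp only [p]
    rw [map_sub, map_mul, hX]
  have hI : ∀ q ∈ I, g0 q = 0 := by
    intro q hq
    obtain ⟨c, rfl⟩ := Ideal.mem_span_singleton'.1 hq
    rw [map_mul, map_pow, hp, hn, mul_zero]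
  let g : (Polynomial ℤ ⧸ I) →+* R := Ideal.Quotient.lift I g0 hI
  let x : Polynomial ℤ ⧸ I := Ideal.Quotient.mk I Polynomial.X
  have hgx : g x = a := by
    simp only [g, x]
    rw [Ideal.Quotient.lift_mk, hX]
  have hxn : x * x - x ∈ nilradical (Polynomial ℤ ⧸ I) := by
    rw [mem_nilradical]
    refine ⟨n, ?_⟩
    have : x * x - x = Ideal.Quotient.mk I p := by simp only [x, p]; rw [map_sub, map_mul]
    rw [this, ← map_pow, Ideal.Quotient.eq_zero_iff_mem]
    exact Ideal.mem_span_singleton_self _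
  let f := Ideal.Quotient.mk (nilradical (Polynomial ℤ ⧸ I))
  obtain ⟨e, he, hfe⟩ := exists_isIdempotentElem_eq_of_ker_isNilpotent f
    (fun y hy => by
      rw [Ideal.mk_ker, mem_nilradical] at hy
      exact hy) (f x) ⟨x, rfl⟩ (by
      unfold IsIdempotentElem
      rw [← sub_eq_zero, ← map_mul, ← map_sub, Ideal.Quotient.eq_zero_iff_mem]
      exact hxn)
  have hex : IsNilpotent (x - e) := by
    rw [← mem_nilradical, ← Ideal.Quotient.eq_zero_iff_mem, map_sub, sub_eq_zero]
    exact hfe.symm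
  refine ⟨g e, g (x - e), ?_, hex.map g, ?_, ?_⟩
  · rw [← map_mul, he.eq]
  · rw [← map_mul, ← map_mul, mul_comm]
  · rw [← map_add, add_sub_cancel, hgx]

theorem jac_left {j : R} (hj : j ∈ Ring.jacobson R) : ∃ z, z * (1 + j) = 1 := by
  rw [← Ideal.jacobson_bot, Ideal.mem_jacobson_iff] at hj
  obtain ⟨z, hz⟩ := hj 1
  refine ⟨z, ?_⟩
  rw [Ideal.mem_bot, mul_one, sub_eq_zero] at hz
  rw [mul_add, mul_one, add_comm]
  exact hz

theorem jac_unit {j : R} (hj : j ∈ Ring.jacobson R) : IsUnit (1 + j) := by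
  obtain ⟨z, hz⟩ := jac_left hj
  have h1 : z = 1 + (-(z * j)) := by
    rw [mul_add, mul_one] at hz
    rw [← hz]; abel
  have h2 : -(z * j) ∈ Ring.jacobson R := neg_mem (Ideal.mul_mem_left _ _ hj)
  obtain ⟨w, hw⟩ := jac_left h2
  rw [← h1] at hw
  have h3 : w = 1 + j := by
    calc w = w * (z * (1 + j)) := by rw [hz, mul_one]
      _ = 1 + j := by rw [← mul_assoc, hw, one_mul]
  rw [h3] at hw
  exact ⟨⟨1 + j, z, hw, hz⟩, rfl⟩

theorem mem_jac_iff {a : R} : a ∈ Ring.jacobson R ↔ ∀ y, ∃ z, z * (1 + y * a) = 1 := by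
  rw [← Ideal.jacobson_bot, Ideal.mem_jacobson_iff]
  refine forall_congr' fun y => exists_congr fun z => ?_
  rw [Ideal.mem_bot, sub_eq_zero, mul_add, mul_one, add_comm, mul_assoc]

theorem lift_unit {a : R} (ha : IsUnit (Ideal.Quotient.mk (Ring.jacobson R) a)) : IsUnit a := by
  obtain ⟨u, hu⟩ := ha
  obtain ⟨b, hb⟩ := Ideal.Quotient.mk_surjective (u⁻¹ : (R ⧸ Ring.jacobson R)ˣ).1
  have h1 : a * b - 1 ∈ Ring.jacobson R := by
    rw [← Ideal.Quotient.eq_zero_iff_mem, map_sub, map_mul, hb, ← hu, map_one, Units.mul_inv,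
      sub_self]
  have h2 : b * a - 1 ∈ Ring.jacobson R := by
    rw [← Ideal.Quotient.eq_zero_iff_mem, map_sub, map_mul, hb, ← hu, map_one, Units.inv_mul,
      sub_self]
  have h3 := jac_unit h1
  have h4 := jac_unit h2
  rw [add_sub_cancel] at h3 h4
  obtain ⟨c, hc⟩ := h3
  obtain ⟨d, hd⟩ := h4
  have r1 : a * (b * ↑c⁻¹) = 1 := by rw [← mul_assoc, ← hc, Units.mul_inv]
  have r2 : (↑d⁻¹ * b) * a = 1 := by rw [mul_assoc, ← hd, Units.inv_mul]
  have r3 : ↑d⁻¹ * b = b * ↑c⁻¹ := by
    calc ↑d⁻¹ * b = ↑d⁻¹ * b * (a * (b * ↑c⁻¹)) := by rw [r1, mul_one]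
      _ = ((↑d⁻¹ * b) * a) * (b * ↑c⁻¹) := by noncomm_ring
      _ = b * ↑c⁻¹ := by rw [r2, one_mul]
  rw [r3] at r2
  exact ⟨⟨a, b * ↑c⁻¹, r1, r2⟩, rfl⟩

theorem nilp_add_one {n : R} (hn : IsNilpotent n) : IsUnit (n + 1) := by
  have := hn.isUnit_one_add
  rwa [add_comm] at this

theorem nilp_sub_one {n : R} (hn : IsNilpotent n) : IsUnit (n - 1) := by
  have := (hn.neg).isUnit_one_add.neg
  rwa [neg_add, neg_neg, add_comm, ← sub_eq_add_neg] at this

/-- For `e + b` strongly nil-clean, `e` is a right multiple of `e + b`. -/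
theorem idem_mul {e b : R} (he : e * e = e) (hb : IsNilpotent b) (heb : e * b = b * e) :
    ∃ y, e = (e + b) * y := by
  obtain ⟨n, hn⟩ := hb
  have hc : Commute e b := heb
  have hb' : IsNilpotent b := ⟨n, hn⟩
  obtain ⟨u, hu⟩ := nilp_add_one hb'
  -- `(e + b) * e = (b + 1) * e`
  have h1 : (e + b) * e = ↑u * e := by rw [hu, add_mul, add_mul, he, one_mul, add_comm]
  have h2 : (u : R) * e = e * u := by rw [hu, add_mul, mul_add, heb]; simp
  have h3 : (↑u⁻¹ : R) * e = e * ↑u⁻¹ := by
    calc (↑u⁻¹ : R) * e = ↑u⁻¹ * (e * u) * ↑u⁻¹ := by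
          rw [mul_assoc, mul_assoc, Units.mul_inv, mul_one]
      _ = e * ↑u⁻¹ := by rw [← h2, ← mul_assoc, Units.inv_mul, one_mul]
  refine ⟨e * ↑u⁻¹, ?_⟩
  rw [← mul_assoc, h1, mul_assoc, ← h3, ← mul_assoc, Units.mul_inv, one_mul]

theorem nilp_swap {a y : R} (h : IsNilpotent (a * y)) : IsNilpotent (y * a) := by
  obtain ⟨n, hn⟩ := h
  refine ⟨n + 1, ?_⟩
  have : ∀ m : ℕ, (y * a) ^ (m + 1) = y * (a * y) ^ m * a := by
    intro m
    induction m with
    | zero => simp
    | succ m ih => rw [pow_succ, ih, pow_succ (a * y) m]; noncomm_ring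
  rw [this, hn, mul_zero, zero_mul]

theorem semiPotent_of_swnc (h : SWNC R) : SemiPotent R := by
  rintro I ⟨a, haI, haJ⟩
  by_contra hcon
  push Not at hcon
  apply haJ
  -- every element of `I` is nilpotent
  have hnil : ∀ x ∈ I, IsNilpotent x := by
    intro x hx
    have hmul : ∀ y : R, x * y ∈ I := fun y => I.smul_mem (MulOpposite.op y) hx
    rcases h x with ⟨e, b, he, hb, heb, hx1⟩ | ⟨e, b, he, hb, heb, hx1⟩
    · obtain ⟨y, hy⟩ := idem_mul he hb heb
      by_cases h0 : e = 0
      · rw [hx1, h0, zero_add]; exact hb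
      · exact absurd he (hcon e (by rw [hy, ← hx1]; exact hmul y) h0)
    · obtain ⟨y, hy⟩ := idem_mul he hb heb
      by_cases h0 : e = 0
      · rw [h0, zero_add] at hx1
        have : x = -b := by rw [← hx1, neg_neg]
        rw [this]; exact hb.neg
      · refine absurd he (hcon e ?_ h0)
        rw [hy, ← hx1, neg_mul, ← mul_neg]
        exact hmul _
  rw [mem_jac_iff]
  intro y
  have h1 : IsNilpotent (y * a) := nilp_swap (hnil _ (I.smul_mem (MulOpposite.op y) haI))
  obtain ⟨u, hu⟩ := h1.isUnit_one_add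
  exact ⟨(↑u⁻¹ : R), by rw [← hu, Units.inv_mul]⟩

theorem wuu_of_swnc (h : SWNC R) : WUU R := by
  ext x
  constructor
  · intro hx
    have hx' : IsUnit x := hx
    have key : ∀ x : R, IsUnit x → StrNC x → IsNilpotent (x - 1) := by
      rintro x hx ⟨e, b, he, hb, heb, rfl⟩
      obtain ⟨u, hu⟩ := hx
      -- `(e + b) * (1 - e) = b * (1 - e)` is nilpotent and a unit in the corner, so `e = 1`
      have hc : Commute b (1 - e) := by
        change b * (1 - e) = (1 - e) * b
        rw [mul_sub, sub_mul, heb]; simp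
      have h0 : 1 - e = 0 := by
        have hcu : Commute (u : R) (1 - e) := by
          change (u : R) * (1 - e) = (1 - e) * u
          rw [hu, mul_sub, sub_mul, mul_one, one_mul, add_mul, mul_add, heb]
        obtain ⟨n, hn⟩ := hb
        have h1 : (u : R) * (1 - e) = b * (1 - e) := by
          rw [hu, add_mul, mul_sub, mul_one, he, sub_self, zero_add]
        have hee : (1 - e) * (1 - e) = 1 - e := by
          calc (1 - e) * (1 - e) = 1 - e - e + e * e := by noncomm_ring
            _ = 1 - e := by rw [he]; abel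
        have hidem : ∀ m : ℕ, (1 - e) ^ (m + 1) = 1 - e := by
          intro m
          induction m with
          | zero => rw [zero_add, pow_one]
          | succ m ih =>
            rw [pow_succ, ih, hee]
        have h2 : (u : R) ^ (n + 1) * (1 - e) = 0 := by
          rw [← hidem n, ← hcu.mul_pow, h1, hc.mul_pow, pow_succ b, hn, zero_mul, zero_mul]
        have h3 : (u ^ (n + 1) : Rˣ).1 * (1 - e) = 0 := by rw [Units.val_pow_eq_pow_val]; exact h2
        exact (Units.mul_right_eq_zero (u ^ (n + 1))).1 h3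
      have he1 : e = 1 := by rw [sub_eq_zero] at h0; exact h0.symm
      rw [he1, add_sub_cancel_left]; exact hb
    rcases h x with h1 | h1
    · exact ⟨x - 1, key x hx' h1, Or.inl (by abel)⟩
    · have h2 := key (-x) hx'.neg h1
      refine ⟨-(-x - 1), h2.neg, Or.inr (by abel)⟩
  · rintro ⟨n, hn, rfl | rfl⟩
    · exact nilp_add_one hn
    · exact nilp_sub_one hn

section semiprimitive

variable {S : Type u} [Ring S]

theorem corner_zero {g u v : S} (hgv : g * v = v) (huv : u * v = g) (hv : IsNilpotent v) :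
    g = 0 := by
  have h : ∀ k : ℕ, u ^ (k + 1) * v ^ (k + 1) = g := by
    intro k
    induction k with
    | zero => rw [zero_add, pow_one, pow_one, huv]
    | succ k ih =>
      calc u ^ (k + 1 + 1) * v ^ (k + 1 + 1) = u ^ (k + 1) * ((u * v) * v) * v ^ k := by
            rw [pow_succ u, pow_succ' v, pow_succ' v]; noncomm_ring
        _ = u ^ (k + 1) * v ^ (k + 1) := by rw [huv, hgv, pow_succ' v]; noncomm_ring
        _ = g := ih
  obtain ⟨k, hk⟩ := hv
  rw [← h k, pow_succ v, hk, zero_mul, mul_zero]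

/-- Levitzki's matrix units: in a ring as below there are no nilpotent elements. -/
theorem reduced (hS : ∀ x : S, x ≠ 0 → ∃ y, x * y ≠ 0 ∧ (x * y) * (x * y) = x * y)
    (hU : ∀ x : S, IsUnit x → ∃ n, IsNilpotent n ∧ (x = n + 1 ∨ x = n - 1)) :
    ∀ x : S, x * x = 0 → x = 0 := by
  intro x hxx
  by_contra hx
  obtain ⟨y0, hy0, hy1⟩ := hS x hx
  obtain ⟨a, ha⟩ : ∃ a, a = x * y0 := ⟨_, rfl⟩
  rw [← ha] at hy0 hy1
  obtain ⟨y, hy⟩ : ∃ y, y = y0 * a := ⟨_, rfl⟩
  have hxy : x * y = a := by rw [hy, ← mul_assoc, ← ha, hy1]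
  have hya : y * a = y := by rw [hy, mul_assoc, hy1]
  have hxa : x * a = 0 := by rw [← hxy, ← mul_assoc, hxx, zero_mul]
  obtain ⟨b, hb⟩ : ∃ b, b = a * x := ⟨_, rfl⟩
  obtain ⟨c, hc⟩ : ∃ c, c = (1 - a) * y := ⟨_, rfl⟩
  obtain ⟨d, hd⟩ : ∃ d, d = (1 - a) * y * x := ⟨_, rfl⟩
  have a1a : a * (1 - a) = 0 := by rw [mul_sub, hy1, mul_one, sub_self]
  have ab : a * b = b := by rw [hb, ← mul_assoc, hy1]
  have ac : a * c = 0 := by rw [hc, ← mul_assoc, a1a, zero_mul]
  have ad : a * d = 0 := by rw [hd, ← mul_assoc, ← mul_assoc, a1a, zero_mul, zero_mul]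
  have ba : b * a = 0 := by rw [hb, mul_assoc, hxa, mul_zero]
  have bb : b * b = 0 := by
    calc b * b = a * (x * a) * x := by rw [hb]; noncomm_ring
      _ = 0 := by rw [hxa]; simp
  have bc : b * c = a := by
    calc b * c = a * (x * y) - a * (x * a) * y := by rw [hb, hc]; noncomm_ring
      _ = a := by rw [hxa, hxy, hy1]; simp
  have bd : b * d = b := by
    calc b * d = (b * c) * x := by rw [hd, hc]; noncomm_ring
      _ = b := by rw [bc, hb]
  have ca : c * a = c := by rw [hc, mul_assoc, hya]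
  have cb : c * b = d := by
    calc c * b = (1 - a) * (y * a) * x := by rw [hb, hc]; noncomm_ring
      _ = d := by rw [hya, hd]
  have cc : c * c = 0 := by
    calc c * c = (1 - a) * (y - y * a) * y := by rw [hc]; noncomm_ring
      _ = 0 := by rw [hya]; simp
  have cd : c * d = 0 := by rw [← cb, ← mul_assoc, cc, zero_mul]
  have da : d * a = 0 := by rw [hd, mul_assoc, hxa, mul_zero]
  have db : d * b = 0 := by rw [← cb, mul_assoc, bb, mul_zero]
  have dc : d * c = c := by rw [← cb, mul_assoc, bc, ca]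
  have dd : d * d = d := by rw [← cb, mul_assoc, ← mul_assoc b, bc, ab]
  have aa := hy1
  -- a unit of the two by two corner, extended to the whole ring
  have hUV : (b + c + d + (1 - (a + d))) * (-a + b + c + (1 - (a + d))) = 1 := by
    simp only [mul_add, add_mul, mul_sub, sub_mul, mul_neg, neg_mul, mul_one, one_mul,
      aa, ab, ac, ad, ba, bb, bc, bd, ca, cb, cc, cd, da, db, dc, dd]
    abel
  have hVU : (-a + b + c + (1 - (a + d))) * (b + c + d + (1 - (a + d))) = 1 := by
    simp only [mul_add, add_mul, mul_sub, sub_mul, mul_neg, neg_mul, mul_one, one_mul,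
      aa, ab, ac, ad, ba, bb, bc, bd, ca, cb, cc, cd, da, db, dc, dd]
    abel
  obtain ⟨n, hn, hcase⟩ := hU (b + c + d + (1 - (a + d))) ⟨⟨_, _, hUV, hVU⟩, rfl⟩
  have hg0 : a + d = 0 := by
    rcases hcase with h | h
    · -- `n = -a + b + c`
      have hn' : n = -a + b + c := by
        have : n = (n + 1) - 1 := by abel
        rw [this, ← h]; abel
      refine corner_zero (u := b + c + d) (v := n) ?_ ?_ hn
      · rw [hn']
        simp only [mul_add, add_mul, mul_neg, aa, ab, ac, da, db, dc]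
        abel
      · rw [hn']
        simp only [mul_add, add_mul, mul_neg, ba, bb, bc, ca, cb, cc, da, db, dc]
        abel
    · have hn' : n = b + c + d + (1 - (a + d)) + 1 := by
        rw [h]; abel
      have hcomm : Commute (a + d) n := by
        change (a + d) * n = n * (a + d)
        rw [hn']
        simp only [mul_add, add_mul, mul_sub, sub_mul, mul_one, one_mul,
          aa, ab, ac, ad, ba, bb, bc, bd, ca, cb, cc, cd, da, db, dc, dd]
        abel
      have hw : IsNilpotent ((a + d) * n) := hcomm.isNilpotent_mul_left hn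
      have hw' : (a + d) * n = a + b + c + d + d := by
        rw [hn']
        simp only [mul_add, add_mul, mul_sub, sub_mul, mul_one, one_mul,
          aa, ab, ac, ad, ba, bb, bc, bd, ca, cb, cc, cd, da, db, dc, dd]
        abel
      rw [hw'] at hw
      refine corner_zero (u := a + a - b - c + d) (v := a + b + c + d + d) ?_ ?_ hw
      · simp only [mul_add, add_mul, mul_sub, sub_mul, mul_one, one_mul,
          aa, ab, ac, ad, ba, bb, bc, bd, ca, cb, cc, cd, da, db, dc, dd]
        abel
      · simp only [mul_add, add_mul, mul_sub, sub_mul, mul_one, one_mul,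
          aa, ab, ac, ad, ba, bb, bc, bd, ca, cb, cc, cd, da, db, dc, dd]
        abel
  apply hy0
  calc a = a * (a + d) := by rw [mul_add, aa, ad, add_zero]
    _ = 0 := by rw [hg0, mul_zero]

theorem nilp_zero (hred : ∀ x : S, x * x = 0 → x = 0) {n : S} (hn : IsNilpotent n) : n = 0 := by
  have : ∀ k : ℕ, ∀ x : S, x ^ (2 ^ k) = 0 → x = 0 := by
    intro k
    induction k with
    | zero => intro x hx; simpa using hx
    | succ k ih =>
      intro x hx
      apply ih
      apply hred
      rw [← pow_add, ← two_mul, ← pow_succ']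
      exact hx
  obtain ⟨m, hm⟩ := hn
  refine this m n ?_
  have : m ≤ 2 ^ m := Nat.lt_two_pow_self.le
  rw [← Nat.sub_add_cancel this, pow_add, hm, mul_zero]

theorem idem_central (hred : ∀ x : S, x * x = 0 → x = 0) {e : S} (he : e * e = e) (x : S) :
    e * x = x * e := by
  have h1 : e * x * (1 - e) = 0 := by
    apply hred
    calc e * x * (1 - e) * (e * x * (1 - e)) = e * x * (e - e * e) * x * (1 - e) := by noncomm_ring
      _ = 0 := by rw [he]; simp
  have h2 : (1 - e) * x * e = 0 := by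
    apply hred
    calc (1 - e) * x * e * ((1 - e) * x * e) = (1 - e) * x * (e - e * e) * x * e := by noncomm_ring
      _ = 0 := by rw [he]; simp
  calc e * x = e * x * (1 - e) + e * x * e := by noncomm_ring
    _ = e * x * e + (1 - e) * x * e := by rw [h1, h2]; abel
    _ = x * e := by noncomm_ring

theorem unit_of_right (hred : ∀ x : S, x * x = 0 → x = 0) {a b : S} (hab : a * b = 1) :
    IsUnit a := by
  have h1 : (1 - b * a) * a = 0 := by
    apply hred
    calc (1 - b * a) * a * ((1 - b * a) * a) = (1 - b * a) * (a - (a * b) * a) * a := by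
          noncomm_ring
      _ = 0 := by rw [hab]; simp
  have h2 : b * a = 1 := by
    have : (1 - b * a) * a * b = 1 - b * a := by rw [mul_assoc, hab, mul_one]
    rw [h1, zero_mul] at this
    exact (sub_eq_zero.1 this.symm).symm
  exact ⟨⟨a, b, hab, h2⟩, rfl⟩

theorem aux_idem (hS : ∀ x : S, x ≠ 0 → ∃ y, x * y ≠ 0 ∧ (x * y) * (x * y) = x * y)
    (hred : ∀ x : S, x * x = 0 → x = 0)
    (hU : ∀ x : S, IsUnit x → x = 1 ∨ x = -1) {x : S} (hx : x * x ≠ x) :
    ∃ e : S, e * e = e ∧ e ≠ 0 ∧ e + e + e = 0 ∧ x * e = -e ∧ (1 - e) + (1 - e) = 0 := by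
  obtain ⟨y, hy0, hy1⟩ := hS (x - x * x) (fun h => hx (sub_eq_zero.1 h).symm)
  obtain ⟨e, he⟩ : ∃ e, e = (x - x * x) * y := ⟨_, rfl⟩
  rw [← he] at hy0 hy1
  have hcen := fun z => idem_central hred hy1 z
  have h1e : e * (1 - e) = 0 := by rw [mul_sub, hy1, mul_one, sub_self]
  have h1e' : (1 - e) * e = 0 := by rw [sub_mul, hy1, one_mul, sub_self]
  have h11 : (1 - e) * (1 - e) = 1 - e := by
    rw [mul_sub, h1e', mul_one, sub_zero]
  have gen : ∀ p q : S, p * q = e → IsUnit (p * e + (1 - e)) := by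
    intro p q hpq
    refine unit_of_right hred (b := q * e + (1 - e)) ?_
    calc (p * e + (1 - e)) * (q * e + (1 - e)) =
        p * (e * q) * e + p * (e * (1 - e)) + (1 - e) * q * e + (1 - e) * (1 - e) := by
          noncomm_ring
      _ = (p * q) * (e * e) + (1 - e) * (e * q) + (1 - e) := by
          rw [h1e, h11, hcen q]; noncomm_ring
      _ = 1 := by rw [hpq, hy1, hy1, ← mul_assoc, h1e', zero_mul]; abel
  have u1 := hU _ (gen x ((1 - x) * y) (by rw [he]; noncomm_ring))
  have u2 := hU _ (gen (1 - x) (x * y) (by rw [he]; noncomm_ring))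
  have m1 : ∀ p : S, (p * e + (1 - e)) * e = p * e := fun p => by
    rw [add_mul, mul_assoc, hy1, h1e', add_zero]
  have m2 : ∀ p : S, (p * e + (1 - e)) * (1 - e) = 1 - e := fun p => by
    rw [add_mul, mul_assoc, h1e, h11, mul_zero, zero_add]
  rcases u1 with u1 | u1
  · exfalso
    have h2 : x * e = e := by rw [← m1 x, u1, one_mul]
    apply hy0
    calc e = e * e := hy1.symm
      _ = (x - x * x) * (y * e) := by rw [← mul_assoc, ← he]
      _ = (1 - x) * (x * e) * y := by rw [← hcen y]; noncomm_ring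
      _ = (1 - x) * e * y := by rw [h2]
      _ = (e - x * e) * y := by noncomm_ring
      _ = 0 := by rw [h2, sub_self, zero_mul]
  · have h2 : x * e = -e := by rw [← m1 x, u1, neg_mul, one_mul]
    have h3 : (1 - e) + (1 - e) = 0 := by
      have := m2 x
      rw [u1, neg_mul, one_mul] at this
      nth_rewrite 1 [← this]
      abel
    refine ⟨e, hy1, hy0, ?_, h2, h3⟩
    have h4 : (1 - x) * e = e + e := by rw [sub_mul, h2, one_mul]; abel
    rcases u2 with u2 | u2
    · exfalso
      apply hy0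
      have := m1 (1 - x)
      rw [u2, one_mul, h4] at this
      have h5 : e + e - e = 0 := by rw [← this]; abel
      have h6 : e + e - e = e := by abel
      rw [h6] at h5
      exact h5
    · have := m1 (1 - x)
      rw [u2, neg_mul, one_mul, h4] at this
      rw [← this]; abel

theorem pm_idem (hS : ∀ x : S, x ≠ 0 → ∃ y, x * y ≠ 0 ∧ (x * y) * (x * y) = x * y)
    (hred : ∀ x : S, x * x = 0 → x = 0)
    (hU : ∀ x : S, IsUnit x → x = 1 ∨ x = -1) (x : S) : x * x = x ∨ x * x = -x := by
  by_contra hcon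
  rw [not_or] at hcon
  obtain ⟨e, he, he0, he3, hxe, he2⟩ := aux_idem hS hred hU hcon.1
  obtain ⟨f, hf, hf0, hf3, hxf, hf2⟩ := aux_idem hS hred hU (x := -x) (by
    rw [neg_mul_neg]; exact hcon.2)
  have hxf' : x * f = f := by
    rw [neg_mul] at hxf
    exact neg_injective hxf
  have hcen := idem_central hred he
  -- `e f = 0`
  have h1 : e * f + e * f = 0 := by
    have h2 : x * (e * f) = -(e * f) := by rw [← mul_assoc, hxe, neg_mul]
    have h3 : x * (e * f) = e * f := by rw [hcen f, ← mul_assoc, hxf']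
    nth_rewrite 1 [← h3]
    rw [h2]; abel
  have h2 : e * f = 0 := by
    have h3 : e * f + e * f + e * f = 0 := by
      rw [← add_mul, ← add_mul, he3, zero_mul]
    rw [h1, zero_add] at h3
    exact h3
  apply hf0
  have h4 : f + f = 0 := by
    have h5 : ((1 - e) + (1 - e)) * f = 0 := by rw [he2, zero_mul]
    have h6 : ((1 - e) + (1 - e)) * f = f + f - (e * f + e * f) := by noncomm_ring
    rw [h6, h1, sub_zero] at h5
    exact h5
  rw [h4, zero_add] at hf3
  exact hf3

end semiprimitive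

theorem swnc_of (h1 : SemiPotent R) (h2 : WUU R) : SWNC R := by
  have hU0 : ∀ x : R, IsUnit x → ∃ n : R, IsNilpotent n ∧ (x = n + 1 ∨ x = n - 1) := by
    intro x hx
    have : x ∈ {u : R | IsUnit u} := hx
    rw [h2] at this
    exact this
  have hP : ∀ a : R, a ∉ Ring.jacobson R → ∃ y, a * y ≠ 0 ∧ (a * y) * (a * y) = a * y := by
    intro a ha
    obtain ⟨e, he, he0, hee⟩ := h1 (Submodule.span Rᵐᵒᵖ {a})
      ⟨a, Submodule.mem_span_singleton_self a, ha⟩
    obtain ⟨y, hy⟩ := Submodule.mem_span_singleton.1 he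
    refine ⟨y.unop, ?_, ?_⟩
    · have : a * y.unop = e := hy
      rw [this]; exact he0
    · have : a * y.unop = e := hy
      rw [this]; exact hee
  -- the quotient by the Jacobson radical
  have hidJ : ∀ e : R, e * e = e → e ∈ Ring.jacobson R → e = 0 := by
    intro e he hJ
    have h3 := jac_unit (neg_mem hJ)
    obtain ⟨u, hu⟩ := h3
    have h4 : (u : R) * e = 0 := by rw [hu, add_mul, neg_mul, he, one_mul, add_neg_cancel]
    exact (Units.mul_right_eq_zero u).1 h4
  have hS : ∀ x : R ⧸ Ring.jacobson R, x ≠ 0 → ∃ y, x * y ≠ 0 ∧ (x * y) * (x * y) = x * y := by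
    intro x hx
    obtain ⟨a, rfl⟩ := Ideal.Quotient.mk_surjective x
    have ha : a ∉ Ring.jacobson R := fun h => hx (Ideal.Quotient.eq_zero_iff_mem.2 h)
    obtain ⟨y, hy0, hy1⟩ := hP a ha
    refine ⟨Ideal.Quotient.mk _ y, ?_, ?_⟩
    · rw [← map_mul]
      intro h
      exact hy0 (hidJ _ hy1 (Ideal.Quotient.eq_zero_iff_mem.1 h))
    · rw [← map_mul, ← map_mul, hy1]
  have hU : ∀ x : R ⧸ Ring.jacobson R, IsUnit x → ∃ n, IsNilpotent n ∧ (x = n + 1 ∨ x = n - 1) := by
    intro x hx
    obtain ⟨a, rfl⟩ := Ideal.Quotient.mk_surjective x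
    obtain ⟨n, hn, h⟩ := hU0 a (lift_unit hx)
    refine ⟨Ideal.Quotient.mk _ n, hn.map _, ?_⟩
    rcases h with h | h
    · left; rw [h, map_add, map_one]
    · right; rw [h, map_sub, map_one]
  have hred := reduced hS hU
  have hU' : ∀ x : R ⧸ Ring.jacobson R, IsUnit x → x = 1 ∨ x = -1 := by
    intro x hx
    obtain ⟨n, hn, h⟩ := hU x hx
    rw [nilp_zero hred hn, zero_add, zero_sub] at h
    exact h
  -- the Jacobson radical is nil
  have hJ : ∀ j ∈ Ring.jacobson R, IsNilpotent j := by
    intro j hj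
    obtain ⟨n, hn, h⟩ := hU0 _ (jac_unit hj)
    rcases h with h | h
    · have : j = n := by
        have h3 : j = 1 + j - 1 := by abel
        rw [h3, h]; abel
      rw [this]; exact hn
    · have h3 : (2 : R) + j = n := by
        have h4 : n = n - 1 + 1 := by abel
        rw [h4, ← h, ← one_add_one_eq_two]; abel
      -- `2` is nilpotent
      have h5 : (2 : R) ∈ Ring.jacobson R := by
        rw [← Ideal.Quotient.eq_zero_iff_mem]
        apply nilp_zero hred
        have h6 : Ideal.Quotient.mk (Ring.jacobson R) 2 = Ideal.Quotient.mk (Ring.jacobson R) n := by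
          rw [← h3, map_add, Ideal.Quotient.eq_zero_iff_mem.2 hj, add_zero]
        rw [h6]
        exact hn.map _
      have h7 : IsNilpotent (2 : R) := by
        obtain ⟨m, hm, h⟩ := hU0 _ (jac_unit h5)
        rcases h with h | h
        · have : (2 : R) = m := by
            have h8 : (2 : R) = 1 + 2 - 1 := by abel
            rw [h8, h]; abel
          rw [this]; exact hm
        · have h9 : (2 : R) * 2 = m := by
            have h8 : m = m - 1 + 1 := by abel
            rw [h8, ← h]; norm_num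
          rw [← h9] at hm
          obtain ⟨k, hk⟩ := hm
          refine ⟨2 * k, ?_⟩
          rw [pow_mul, pow_two, hk]
      have h10 : j = n - 2 := by rw [← h3]; abel
      rw [h10]
      have hc : Commute n (2 : R) := (Commute.ofNat_right n 2)
      exact hc.isNilpotent_sub hn h7
  intro a
  rcases pm_idem hS hred hU' (Ideal.Quotient.mk _ a) with h | h
  · left
    apply strNC_of_nilp
    apply hJ
    rw [← Ideal.Quotient.eq_zero_iff_mem, map_sub, map_mul, h, sub_self]
  · right
    apply strNC_of_nilp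
    apply hJ
    rw [← Ideal.Quotient.eq_zero_iff_mem, map_sub, map_mul, map_neg, neg_mul_neg, h, sub_neg_eq_add,
      neg_add_cancel]

theorem main (R : Type u) [Ring R] : SWNC R ↔ SemiPotent R ∧ WUU R :=
  ⟨fun h => ⟨semiPotent_of_swnc h, wuu_of_swnc h⟩, fun h => swnc_of h.1 h.2⟩

end Pool.Agent.V1155.WNC
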